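import Pool.Agent.Helper91.PL.Defs

/-!
# Block PL-ST2: convergence of the densities, sharper starting point

`near` (Helper8/ND/Near), `maxp` (Helper8/ND/MaxP) and `conv` (Helper8/ND/Conv) with the hypothesis
`2 * u₁ ≤ s ^ 4` replaced by `u₁ + Real.log d * s ≤ s ^ 4`. The proofs are the same: in `near` the hypothesis
is only used for `u₁ ≤ u` and `u₁ ≤ u + h`, `u = s ^ 4`, `|h| ≤ log d * s`; in `maxp` only for `u₁ ≤ u`,
`u ≥ s ^ 4`. Copy the three proofs.
-/

set_option autoImplicit false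

namespace Pool.Agent.Helper91.PL

open Pool.Agent.Helper68.Moeller Pool.Agent.Helper52.Tao Pool.Agent.Helper8.ND
  Pool.Agent.Helper8.CL Filter Topology

variable {d m : ℕ} {r : ℤ → ℤ}

/-- `g` is nearly constant on short intervals. -/
theorem h55_near {d m : ℕ} (hd : 2 ≤ d) (hdm : d < m) (hco : Nat.Coprime m d) {c C : ℝ} (hc : 0 < c)
    (hC : 0 < C) :
    ∃ K S₀ : ℝ, 0 < K ∧ 4 ≤ S₀ ∧ ∀ (u₁ : ℝ) (g : ℝ → ℝ),
      Good d (Real.log m) (Real.log d) c C u₁ g → ∀ s : ℝ, S₀ ≤ s → u₁ + Real.log d * s ≤ s ^ 4 →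
      ∀ h : ℝ, |h| ≤ Real.log d * s → |g (s ^ 4 + h) - g (s ^ 4)| ≤ K / Real.log s := by
  have hm3 : (3 : ℝ) ≤ m := by
    have : 3 ≤ m := by omega
    exact_mod_cast this
  have hd2 : (2 : ℝ) ≤ d := by exact_mod_cast hd
  have hμ : 0 < Real.log m := Real.log_pos (by linarith)
  have hlam : 0 < Real.log d := Real.log_pos (by linarith)
  have hlm : Real.log d < Real.log m := Real.log_lt_log (by linarith) (by exact_mod_cast hdm)
  obtain ⟨κ, hκ, happ⟩ := approx hd hdm hco
  set μ := Real.log m with hμdef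
  set lam := Real.log d with hlamdef
  have hv := vv_pos hd
  set c' := min (c / 4) (1 / (4 * lam)) with hc'
  have hc'0 : 0 < c' := lt_min (by positivity) (by positivity)
  have hc'1 : c' ≤ c / 4 := min_le_left _ _
  have hc'2 : c' * lam ≤ 1 / 4 := by
    calc c' * lam ≤ 1 / (4 * lam) * lam := mul_le_mul_of_nonneg_right (min_le_right _ _) hlam.le
      _ = 1 / 4 := by field_simp
  set ρ := Real.sqrt (c' * vv d / 2) with hρ
  have hρ0 : 0 < ρ := Real.sqrt_pos.2 (by positivity)
  refine ⟨4 * C / c' + 8 / ρ + 20 * κ * μ + 8, 4 + 4 / c + 4 * lam + 2 / c' +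
    Real.exp (2 * κ + 4 * κ * μ), by positivity, ?_, ?_⟩
  · have : 0 < 4 / c + 4 * lam + 2 / c' + Real.exp (2 * κ + 4 * κ * μ) := by positivity
    linarith
  intro u₁ g hg s hs hu₁ h hh
  have q1 : 0 < 4 / c := by positivity
  have q2 : 0 < 4 * lam := by positivity
  have q3 : 0 < 2 / c' := by positivity
  have q4 : 0 < Real.exp (2 * κ + 4 * κ * μ) := Real.exp_pos _
  have hs4 : 4 ≤ s := by linarith
  have hs0 : 0 < s := by linarith
  have hs1 : 1 ≤ s := by linarith
  set u := s ^ 4 with hu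
  have hs3 : s ≤ s ^ 3 := by
    calc s = s ^ 1 := (pow_one s).symm
      _ ≤ s ^ 3 := pow_le_pow_right₀ hs1 (by norm_num)
  have hus : u = s * s ^ 3 := by rw [hu]; ring
  have hsu : s ≤ u := by
    calc s = s ^ 1 := (pow_one s).symm
      _ ≤ s ^ 4 := pow_le_pow_right₀ hs1 (by norm_num)
  have hu0 : 0 < u := by linarith
  -- consequences of the size of `s`
  have g1 : s ≤ c * u / 4 := by
    have h1 : 4 / c ≤ s ^ 3 := by linarith
    rw [div_le_iff₀ hc] at h1
    have h2 := mul_le_mul_of_nonneg_left h1 hs0.le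
    rw [hus]
    linarith
  have g2 : lam * s ≤ u / 4 := by
    have h1 : 4 * lam ≤ s ^ 3 := by linarith
    have h2 := mul_le_mul_of_nonneg_left h1 hs0.le
    rw [hus]
    linarith
  have g3 : 2 ≤ c' * u := by
    have h1 : 2 / c' ≤ u := by linarith
    rw [div_le_iff₀ hc'0] at h1
    linarith
  have hls : 2 * κ + 4 * κ * μ ≤ Real.log s := by
    rw [Real.le_log_iff_exp_le hs0]
    linarith
  have hκμ : 0 < 4 * κ * μ := by positivity
  have hls0 : 0 < Real.log s := by linarith
  have hlss : Real.log s ≤ s := by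
    have := Real.log_le_sub_one_of_pos hs0
    linarith
  have hlsu : Real.log s ≤ u := hlss.trans hsu
  -- the choice of `N` and `T`
  set N := ⌊Real.log s / κ⌋₊ with hN
  have hN1 : (N : ℝ) * κ ≤ Real.log s := by
    have := Nat.floor_le (div_nonneg hls0.le hκ.le)
    rwa [le_div_iff₀ hκ] at this
  have hN2 : Real.log s / (2 * κ) ≤ N := by
    have h1 := Nat.lt_floor_add_one (Real.log s / κ)
    have h2 : 2 ≤ Real.log s / κ := by rw [le_div_iff₀ hκ]; linarith
    have h3 : Real.log s / (2 * κ) = Real.log s / κ / 2 := by rw [mul_comm, div_div]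
    rw [h3]
    linarith
  have hN3 : 2 * μ ≤ N := by
    refine le_trans ?_ hN2
    rw [le_div_iff₀ (by positivity)]
    linarith
  have hNpos : 0 < (N : ℝ) := by linarith
  have hN4 : 1 ≤ N := by exact_mod_cast hNpos
  have hN5 : (1 : ℝ) ≤ N := by exact_mod_cast hN4
  obtain ⟨j, i, hj, hi⟩ := happ N hN4 h
  have hj' : (j : ℝ) ≤ s := by
    refine hj.trans ?_
    calc Real.exp (κ * N) ≤ Real.exp (Real.log s) := Real.exp_le_exp.2 (by linarith)
      _ = s := Real.exp_log hs0
  set T := ⌊c' * u⌋₊ with hT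
  have hT1 : (T : ℝ) ≤ c' * u := Nat.floor_le (by positivity)
  have hT2 : c' * u / 2 ≤ T := by
    have h1 := Nat.lt_floor_add_one (c' * u)
    linarith
  have hTpos : (0 : ℝ) < T := by linarith
  have hT3 : 1 ≤ T := by exact_mod_cast hTpos
  have hT4 : (1 : ℝ) ≤ T := by exact_mod_cast hT3
  have hTc : (T : ℝ) ≤ c * u / 4 := by
    have := mul_le_mul_of_nonneg_right hc'1 hu0.le
    linarith
  have hTlam : (T : ℝ) * lam ≤ u / 4 := by
    calc (T : ℝ) * lam ≤ c' * u * lam := mul_le_mul_of_nonneg_right hT1 hlam.le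
      _ = c' * lam * u := by ring
      _ ≤ 1 / 4 * u := mul_le_mul_of_nonneg_right hc'2 hu0.le
      _ = u / 4 := by ring
  have hh2 := abs_le.1 hh
  -- the comparison
  have hεN : μ / N ≤ 1 / 2 := by
    rw [div_le_iff₀ hNpos]; linarith
  have hmain := hg.compare hd hC.le hμ.le (u := u) (h := h) (ε := μ / N) (w := u / 4) (T := T)
    (j := j) (i := i) hT3 (by linarith) (by linarith) (by push_cast; linarith)
    (by
      have h1 : c * (u / 2) ≤ c * (u + h) := mul_le_mul_of_nonneg_left (by linarith) hc.le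
      have h2 : 0 < c * u := by positivity
      linarith) (by positivity) (by linarith) hi hεN
  refine hmain.trans ?_
  -- the four terms
  have t1 : 2 * (C / (T : ℝ) ^ 8) ≤ (4 * C / c') / Real.log s := by
    have h1 : (T : ℝ) ≤ (T : ℝ) ^ 8 := by
      calc (T : ℝ) = (T : ℝ) ^ 1 := (pow_one _).symm
        _ ≤ (T : ℝ) ^ 8 := pow_le_pow_right₀ hT4 (by norm_num)
    have h2 : c' * Real.log s / 2 ≤ (T : ℝ) ^ 8 := by
      have := mul_le_mul_of_nonneg_left hlsu hc'0.le
      linarith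
    calc 2 * (C / (T : ℝ) ^ 8) ≤ 2 * (C / (c' * Real.log s / 2)) := by gcongr
      _ = (4 * C / c') / Real.log s := by field_simp; ring
  have t2 : (j + |(i : ℝ)|) * (2 / Real.sqrt (T * vv d)) ≤ (8 / ρ) / Real.log s := by
    have h1 : |(i : ℝ)| ≤ 3 * s := by
      have h2 := abs_le.1 hi
      have h3 : μ / N ≤ μ := div_le_self hμ.le hN5
      have h4 : (j : ℝ) * lam ≤ s * μ := mul_le_mul hj' hlm.le hlam.le hs0.le
      have h4' : 0 ≤ (j : ℝ) * lam := by positivity
      have h5 : lam * s ≤ μ * s := mul_le_mul_of_nonneg_right hlm.le hs0.le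
      have h6 : μ ≤ s * μ := le_mul_of_one_le_left hμ.le hs1
      have h7 : |(i : ℝ) * μ| ≤ 3 * s * μ := by
        rw [abs_le]
        constructor <;> linarith
      rw [abs_mul, abs_of_pos hμ] at h7
      exact le_of_mul_le_mul_right h7 hμ
    have h8 : ρ * s ^ 2 ≤ Real.sqrt (T * vv d) := by
      rw [hρ]
      apply Real.le_sqrt_of_sq_le
      rw [mul_pow, Real.sq_sqrt (by positivity), ← pow_mul]
      have h9 : c' * vv d / 2 * s ^ (2 * 2) = (c' * u / 2) * vv d := by
        rw [hu]; ring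
      rw [h9]
      exact mul_le_mul_of_nonneg_right hT2 hv.le
    have h10 : (0 : ℝ) < ρ * s ^ 2 := by positivity
    calc (j + |(i : ℝ)|) * (2 / Real.sqrt (T * vv d)) ≤ (s + 3 * s) * (2 / (ρ * s ^ 2)) := by
          gcongr
      _ = (8 / ρ) / s := by field_simp; ring
      _ ≤ (8 / ρ) / Real.log s := by gcongr
  have t3 : 10 * (μ / N) ≤ (20 * κ * μ) / Real.log s := by
    have h1 : 0 < Real.log s / (2 * κ) := by positivity
    calc 10 * (μ / N) ≤ 10 * (μ / (Real.log s / (2 * κ))) := by gcongr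
      _ = (20 * κ * μ) / Real.log s := by field_simp; ring
  have t4 : 2 * Real.exp (-(u / 4)) ≤ 8 / Real.log s := by
    have h1 : u / 4 ≤ Real.exp (u / 4) := by
      have := Real.add_one_le_exp (u / 4)
      linarith
    rw [Real.exp_neg]
    calc 2 * (Real.exp (u / 4))⁻¹ ≤ 2 * (u / 4)⁻¹ := by gcongr
      _ = 8 / u := by field_simp; norm_num
      _ ≤ 8 / Real.log s := by gcongr
  have e : (4 * C / c' + 8 / ρ + 20 * κ * μ + 8) / Real.log s = (4 * C / c') / Real.log s +
      (8 / ρ) / Real.log s + (20 * κ * μ) / Real.log s + 8 / Real.log s := by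
    rw [add_div, add_div, add_div]
  rw [e]
  linarith


/-- The maximum principle. -/
theorem h55_maxp {d m : ℕ} (hd : 2 ≤ d) (hdm : d < m) (hγ : (1 - 1 / (d : ℝ)) * Real.log m < Real.log d)
    {c C : ℝ} (hc : 0 < c) (hC : 0 < C) :
    ∃ S₁ : ℝ, 4 ≤ S₁ ∧ ∀ (u₁ : ℝ) (g : ℝ → ℝ),
      Good d (Real.log m) (Real.log d) c C u₁ g → ∀ s : ℝ, S₁ ≤ s → u₁ + Real.log d * s ≤ s ^ 4 →
      ∀ M : ℝ, (∀ x, s ^ 4 - Real.log d * s ≤ x → x < s ^ 4 → g x ≤ M) →
      ∀ u, s ^ 4 ≤ u → g u ≤ M + 2 / s ^ 4 := by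
  have hm3 : (3 : ℝ) ≤ m := by
    have : 3 ≤ m := by omega
    exact_mod_cast this
  have hd2 : (2 : ℝ) ≤ d := by exact_mod_cast hd
  have hμ : 0 < Real.log m := Real.log_pos (by linarith)
  have hlam : 0 < Real.log d := Real.log_pos (by linarith)
  set μ := Real.log m with hμdef
  set lam := Real.log d with hlamdef
  set γ := lam - (1 - 1 / (d : ℝ)) * μ with hγdef
  have hγ0 : 0 < γ := by rw [hγdef]; linarith
  have hγlam : γ ≤ lam := by
    have h1 : 1 / (d : ℝ) ≤ 1 / 2 := one_div_le_one_div_of_le (by norm_num) hd2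
    have h2 : 0 ≤ (1 - 1 / (d : ℝ)) * μ := mul_nonneg (by linarith) hμ.le
    rw [hγdef]; linarith
  refine ⟨4 + 1 / c + 2 * lam + 512 * C / γ, ?_, ?_⟩
  · have : 0 < 1 / c + 2 * lam + 512 * C / γ := by positivity
    linarith
  intro u₁ g hg s hs hu₁ M hM
  have q1 : 0 < 1 / c := by positivity
  have q2 : 0 < 512 * C / γ := by positivity
  have hs4 : 4 ≤ s := by linarith
  have hs0 : 0 < s := by linarith
  set L := s ^ 4 with hL
  have hL0 : 0 < L := by positivity
  -- facts for `τ ≥ s`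
  have hτfacts : ∀ τ : ℝ, s ≤ τ → τ ≤ τ ^ 3 ∧ τ ≤ c * τ ^ 4 ∧ lam * τ ≤ τ ^ 4 / 2 ∧
      L - lam * s ≤ τ ^ 4 - lam * τ := by
    intro τ hτ
    have hτ1 : 1 ≤ τ := by linarith
    have hτ0 : 0 < τ := by linarith
    have h3 : τ ≤ τ ^ 3 := by
      calc τ = τ ^ 1 := (pow_one τ).symm
        _ ≤ τ ^ 3 := pow_le_pow_right₀ hτ1 (by norm_num)
    refine ⟨h3, ?_, ?_, ?_⟩
    · have h1 : 1 / c ≤ τ ^ 3 := by linarith
      rw [div_le_iff₀ hc] at h1
      have h2 := mul_le_mul_of_nonneg_left h1 hτ0.le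
      have e : τ ^ 4 = τ * τ ^ 3 := by ring
      rw [e]; linarith
    · have h1 : 2 * lam ≤ τ ^ 3 := by linarith
      have h2 := mul_le_mul_of_nonneg_left h1 hτ0.le
      have e : τ ^ 4 = τ * τ ^ 3 := by ring
      rw [e]; linarith
    · have h1 : lam ≤ τ ^ 3 := by linarith
      have e : τ ^ 4 - s ^ 4 = (τ - s) * (τ ^ 3 + τ ^ 2 * s + τ * s ^ 2 + s ^ 3) := by ring
      have h2 : lam ≤ τ ^ 3 + τ ^ 2 * s + τ * s ^ 2 + s ^ 3 := by
        have : 0 ≤ τ ^ 2 * s + τ * s ^ 2 + s ^ 3 := by positivity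
        linarith
      have h4 := mul_le_mul_of_nonneg_left h2 (by linarith : 0 ≤ τ - s)
      rw [← e] at h4
      rw [hL]
      linarith
  have hLs : L / 2 ≤ L - lam * s := by
    have h1 := (hτfacts s le_rfl).2.2.1
    rw [← hL] at h1
    linarith
  -- one step
  have hstep : ∀ η : ℝ, 0 < η → ∀ σ : ℝ, 0 ≤ σ →
      (∀ u, L ≤ u → g u ≤ M + (2 / L - u⁻¹) + η * u + σ) →
      ∀ u, L ≤ u → g u ≤ M + (2 / L - u⁻¹) + η * u + (σ - η * γ) := by
    intro η hη σ hσ hyp u hu
    have hu0 : 0 < u := by linarith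
    -- the fourth root
    set τ := Real.sqrt (Real.sqrt u) with hτ
    have hτ4 : τ ^ 4 = u := by
      have e1 : τ ^ 2 = Real.sqrt u := Real.sq_sqrt (Real.sqrt_nonneg _)
      calc τ ^ 4 = (τ ^ 2) ^ 2 := by ring
        _ = u := by rw [e1]; exact Real.sq_sqrt hu0.le
    have hτ0' : 0 ≤ τ := Real.sqrt_nonneg _
    have hsτ : s ≤ τ := by
      by_contra hcon
      push Not at hcon
      have : τ ^ 4 < s ^ 4 := pow_lt_pow_left₀ hcon hτ0' (by norm_num)
      rw [hτ4] at this
      linarith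
    obtain ⟨f1, f2, f3, f4⟩ := hτfacts τ hsτ
    rw [hτ4] at f2 f3 f4
    have hτ0 : 0 < τ := by linarith
    set t := ⌊τ⌋₊ with ht
    have ht1 : (t : ℝ) ≤ τ := Nat.floor_le hτ0'
    have ht2 : τ / 2 ≤ t := by
      have := Nat.lt_floor_add_one τ
      linarith
    have ht3 : (1 : ℝ) ≤ t := by linarith
    have ht4 : 1 ≤ t := by exact_mod_cast ht3
    have ht0 : (0 : ℝ) < t := by linarith
    have hdt : (0 : ℝ) < (d : ℝ) ^ t := by positivity
    have hls0 : 0 < lam * s := by positivity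
    have hflow := hg.flow u (by linarith) t ht4 (ht1.trans f2)
    have hplace : ∀ v ∈ W d t, L - lam * s ≤ u + sg v * μ - t * lam := by
      intro v _
      have h1 : (t : ℝ) * lam ≤ τ * lam := mul_le_mul_of_nonneg_right ht1 hlam.le
      have h2 : 0 ≤ (sg v : ℝ) * μ := by positivity
      linarith
    have hγt : γ * t ≤ u / 2 := by
      have h1 : γ * t ≤ lam * τ := mul_le_mul hγlam ht1 ht0.le hlam.le
      linarith
    have hc0 : 0 < u - γ * t := by linarith
    -- the bound for the terms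
    have hterm : ∀ v ∈ W d t, g (u + sg v * μ - t * lam) ≤
        M + (2 / L - (u + sg v * μ - t * lam)⁻¹) + η * (u + sg v * μ - t * lam) + σ := by
      intro v hv
      have h1 := hplace v hv
      set y := u + sg v * μ - t * lam
      have hy0 : 0 < y := by linarith
      rcases lt_or_ge y L with hy | hy
      · have h2 := hM y h1 hy
        have h3 : y⁻¹ ≤ 2 / L := by
          rw [inv_le_comm₀ hy0 (by positivity), inv_div]
          linarith
        have h4 : 0 < η * y := by positivity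
        linarith
      · exact hyp y hy
    have hsum : ∑ v ∈ W d t, g (u + sg v * μ - t * lam) ≤
        (d : ℝ) ^ t * (M + (2 / L - (u - γ * t)⁻¹) + η * (u - γ * t) + σ) := by
      refine (Finset.sum_le_sum hterm).trans ?_
      have h1 := sum_inv_place (by omega : 1 ≤ d) (μ := μ) (lam := lam) (u := u) (t := t)
        (fun v hv => by have := hplace v hv; linarith) (by rw [← hγdef]; exact hc0)
      have h2 := sum_place (by omega : 1 ≤ d) μ lam u t
      rw [← hγdef] at h1 h2
      have e : ∑ v ∈ W d t, (M + (2 / L - (u + sg v * μ - t * lam)⁻¹) +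
          η * (u + sg v * μ - t * lam) + σ) =
          (d : ℝ) ^ t * (M + 2 / L + σ) - ∑ v ∈ W d t, (u + sg v * μ - t * lam)⁻¹ +
            η * ∑ v ∈ W d t, (u + sg v * μ - t * lam) := by
        have e0 : (d : ℝ) ^ t * (M + 2 / L + σ) = ∑ v ∈ W d t, (M + 2 / L + σ) := by
          rw [Finset.sum_const, card_W, nsmul_eq_mul]
          push_cast
          rfl
        rw [e0, Finset.mul_sum, ← Finset.sum_sub_distrib, ← Finset.sum_add_distrib]
        refine Finset.sum_congr rfl fun v _ => ?_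
        ring
      rw [e, h2]
      have e2 : (d : ℝ) ^ t * (M + (2 / L - (u - γ * t)⁻¹) + η * (u - γ * t) + σ) =
          (d : ℝ) ^ t * (M + 2 / L + σ) - (d : ℝ) ^ t * (u - γ * t)⁻¹ +
            η * ((d : ℝ) ^ t * (u - γ * t)) := by ring
      rw [e2]
      linarith
    have hsum' : (∑ v ∈ W d t, g (u + sg v * μ - t * lam)) / (d : ℝ) ^ t ≤
        M + (2 / L - (u - γ * t)⁻¹) + η * (u - γ * t) + σ := by
      rw [div_le_iff₀ hdt]
      linarith
    -- the gain
    have hgain : C / (t : ℝ) ^ 8 ≤ (u - γ * t)⁻¹ - u⁻¹ := by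
      have h1 : (u - γ * t)⁻¹ - u⁻¹ = γ * t / (u * (u - γ * t)) := by
        field_simp
        ring
      have h2 : γ * t / (u * u) ≤ γ * t / (u * (u - γ * t)) := by
        apply div_le_div_of_nonneg_left (by positivity) (by positivity)
        apply mul_le_mul_of_nonneg_left _ hu0.le
        have : 0 < γ * t := by positivity
        linarith
      have h3 : C / (t : ℝ) ^ 8 ≤ γ * t / (u * u) := by
        rw [div_le_div_iff₀ (by positivity) (by positivity)]
        have h4 : 512 * C / γ ≤ τ := by linarith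
        rw [div_le_iff₀ hγ0] at h4
        have h5 : (τ / 2) ^ 9 ≤ (t : ℝ) ^ 9 := pow_le_pow_left₀ (by positivity) ht2 9
        have h6 : C * (u * u) = C * τ ^ 8 := by rw [← hτ4]; ring
        have h7 : γ * t * (t : ℝ) ^ 8 = γ * (t : ℝ) ^ 9 := by ring
        rw [h6, h7]
        have h8 : 512 * C * τ ^ 8 ≤ τ * γ * τ ^ 8 :=
          mul_le_mul_of_nonneg_right h4 (by positivity)
        have h9 : γ * (τ / 2) ^ 9 ≤ γ * (t : ℝ) ^ 9 := mul_le_mul_of_nonneg_left h5 hγ0.le
        have h10 : γ * (τ / 2) ^ 9 = τ * γ * τ ^ 8 / 512 := by ring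
        linarith
      linarith
    have h1 := (abs_le.1 hflow).2
    have h2 : η * γ ≤ η * (γ * t) := by
      apply mul_le_mul_of_nonneg_left _ hη.le
      exact le_mul_of_one_le_right hγ0.le ht3
    have h3 : η * (u - γ * t) = η * u - η * (γ * t) := by ring
    linarith
  -- the window is non-empty
  have hM0 : 0 ≤ M := (hg.nonneg _).trans (hM (L - lam * s) le_rfl (by
    have : 0 < lam * s := by positivity
    linarith))
  intro u hu
  have hu0 : 0 < u := by linarith
  have hinv : 0 < u⁻¹ := by positivity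
  -- for every `η`
  have hη : ∀ η : ℝ, 0 < η → g u ≤ M + (2 / L - u⁻¹) + η * u := by
    intro η hη
    have hind : ∀ n : ℕ, ∀ x, L ≤ x → g x ≤ M + (2 / L - x⁻¹) + η * x +
        max 0 (2 - n * (η * γ)) := by
      intro n
      induction n with
      | zero =>
        intro x hx
        have h1 := hg.le_two x
        have hx0 : 0 < x := by linarith
        have h2 : x⁻¹ ≤ 2 / L := by
          rw [inv_le_comm₀ hx0 (by positivity), inv_div]
          linarith
        have h3 : 0 < η * x := by positivity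
        rw [Nat.cast_zero, zero_mul, sub_zero, max_eq_right (by norm_num : (0 : ℝ) ≤ 2)]
        linarith
      | succ n ih =>
        intro x hx
        have h1 := hstep η hη _ (le_max_left _ _) ih x hx
        have h2 : max 0 (2 - (n : ℝ) * (η * γ)) - η * γ ≤
            max 0 (2 - ((n + 1 : ℕ) : ℝ) * (η * γ)) := by
          have h3 : 0 < η * γ := by positivity
          rcases le_total 0 (2 - (n : ℝ) * (η * γ)) with h | h
          · rw [max_eq_right h]
            refine le_trans (le_of_eq ?_) (le_max_right _ _)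
            push_cast
            ring
          · rw [max_eq_left h]
            refine le_trans ?_ (le_max_left _ _)
            linarith
        linarith
    have hηγ : 0 < η * γ := by positivity
    obtain ⟨n, hn⟩ := exists_nat_ge (2 / (η * γ))
    rw [div_le_iff₀ hηγ] at hn
    have h1 := hind n u hu
    rw [max_eq_left (by linarith)] at h1
    linarith
  have h2 : ∀ ε : ℝ, 0 < ε → g u ≤ M + 2 / L + ε := by
    intro ε hε
    have h3 := hη (ε / u) (by positivity)
    have h4 : ε / u * u = ε := by field_simp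
    linarith
  exact le_of_forall_pos_le_add h2


theorem conv' (hd : 2 ≤ d) (hdm : d < m) (hco : Nat.Coprime m d)
    (hγ : (1 - 1 / (d : ℝ)) * Real.log m < Real.log d) {c C : ℝ} (hc : 0 < c) (hC : 0 < C) :
    ∃ K S₂ : ℝ, 0 < K ∧ 4 ≤ S₂ ∧ ∀ (u₁ : ℝ) (g : ℝ → ℝ),
      Good d (Real.log m) (Real.log d) c C u₁ g → ∃ δ : ℝ, 0 ≤ δ ∧ δ ≤ 2 ∧
        ∀ s : ℝ, S₂ ≤ s → u₁ + Real.log d * s ≤ s ^ 4 →
        ∀ u : ℝ, s ^ 4 ≤ u → |g u - δ| ≤ K / Real.log s := by
  obtain ⟨K₀, S₀, hK₀, hS₀, hnear⟩ := h55_near hd hdm hco hc hC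
  obtain ⟨S₁, hS₁, hmax⟩ := h55_maxp hd hdm hγ hc hC
  have hd2 : (2 : ℝ) ≤ d := by exact_mod_cast hd
  have hlam : 0 < Real.log d := Real.log_pos (by linarith)
  refine ⟨2 * (K₀ + 2), max S₀ S₁, by positivity, hS₀.trans (le_max_left _ _), ?_⟩
  intro u₁ g hg
  -- the oscillation beyond `s ^ 4`
  have hosc : ∀ s : ℝ, max S₀ S₁ ≤ s → u₁ + Real.log d * s ≤ s ^ 4 → ∀ u : ℝ, s ^ 4 ≤ u →
      |g u - g (s ^ 4)| ≤ (K₀ + 2) / Real.log s := by
    intro s hs hu₁ u hu
    have hs0 : S₀ ≤ s := (le_max_left _ _).trans hs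
    have hs1 : S₁ ≤ s := (le_max_right _ _).trans hs
    have hs4 : 4 ≤ s := by linarith
    have hls : 0 < Real.log s := Real.log_pos (by linarith)
    have hls4 : Real.log s ≤ s ^ 4 := by
      have h1 := Real.log_le_sub_one_of_pos (by linarith : 0 < s)
      have h2 : s ≤ s ^ 4 := by
        calc s = s ^ 1 := (pow_one s).symm
          _ ≤ s ^ 4 := pow_le_pow_right₀ (by linarith) (by norm_num)
      linarith
    have h2s : 2 / s ^ 4 ≤ 2 / Real.log s := div_le_div_of_nonneg_left (by norm_num) hls hls4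
    have hwin : ∀ x, s ^ 4 - Real.log d * s ≤ x → x < s ^ 4 →
        |g x - g (s ^ 4)| ≤ K₀ / Real.log s := by
      intro x h1 h2
      have h3 := hnear u₁ g hg s hs0 hu₁ (x - s ^ 4) (by
        rw [abs_le]
        constructor
        · linarith
        · have : 0 < Real.log d * s := by positivity
          linarith)
      rwa [add_sub_cancel] at h3
    have hup := hmax u₁ g hg s hs1 hu₁ (g (s ^ 4) + K₀ / Real.log s)
      (fun x h1 h2 => by have := (abs_le.1 (hwin x h1 h2)).2; linarith) u hu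
    have hlo := hmax u₁ _ (hg.two_sub hd) s hs1 hu₁ (2 - g (s ^ 4) + K₀ / Real.log s)
      (fun x h1 h2 => by have := (abs_le.1 (hwin x h1 h2)).1; linarith) u hu
    have e : (K₀ + 2) / Real.log s = K₀ / Real.log s + 2 / Real.log s := add_div _ _ _
    rw [e, abs_le]
    constructor <;> linarith
  -- the limit
  have hlim : Tendsto (fun s : ℝ => (K₀ + 2) / Real.log s) atTop (𝓝 0) :=
    Real.tendsto_log_atTop.const_div_atTop _
  have hcau : CauchySeq g := by
    rw [Metric.cauchySeq_iff']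
    intro ε hε
    have h1 := (hlim.eventually (gt_mem_nhds hε)).and
      ((eventually_ge_atTop (max S₀ S₁)).and (eventually_ge_atTop (max (2 * Real.log d + 1) (2 * u₁))))
    obtain ⟨s, h2, h3, h4⟩ := h1.exists
    have h5' : 2 * Real.log d + 1 ≤ s := (le_max_left _ _).trans h4
    have h5 : 1 ≤ s := by linarith
    have h7 : u₁ + Real.log d * s ≤ s ^ 4 := by
      have h8 : 2 * u₁ ≤ s := (le_max_right _ _).trans h4
      have h9 : (2 * Real.log d + 1) * s ≤ s * s := mul_le_mul_of_nonneg_right h5' (by linarith)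
      have h10 : s * s ≤ s ^ 4 := by
        calc s * s = s ^ 2 := (sq s).symm
          _ ≤ s ^ 4 := pow_le_pow_right₀ h5 (by norm_num)
      have h11 : 0 ≤ s ^ 4 := by positivity
      linarith
    have h6 : s ≤ s ^ 4 := by
      calc s = s ^ 1 := (pow_one s).symm
        _ ≤ s ^ 4 := pow_le_pow_right₀ h5 (by norm_num)
    refine ⟨s ^ 4, fun u hu => ?_⟩
    rw [Real.dist_eq]
    exact lt_of_le_of_lt (hosc s h3 h7 u hu) h2
  obtain ⟨δ, hδ⟩ := cauchySeq_tendsto_of_complete hcau
  refine ⟨δ, ge_of_tendsto' hδ hg.nonneg, le_of_tendsto' hδ hg.le_two, fun s hs hu₁ u hu => ?_⟩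
  have h1 : |δ - g (s ^ 4)| ≤ (K₀ + 2) / Real.log s := by
    have h2 : Tendsto (fun u => |g u - g (s ^ 4)|) atTop (𝓝 |δ - g (s ^ 4)|) :=
      (hδ.sub_const _).abs
    refine le_of_tendsto h2 ?_
    filter_upwards [eventually_ge_atTop (s ^ 4)] with u hu
    exact hosc s hs hu₁ u hu
  have h2 := hosc s hs hu₁ u hu
  calc |g u - δ| = |(g u - g (s ^ 4)) - (δ - g (s ^ 4))| := by congr 1; ring
    _ ≤ |g u - g (s ^ 4)| + |δ - g (s ^ 4)| := abs_sub _ _
    _ ≤ (K₀ + 2) / Real.log s + (K₀ + 2) / Real.log s := add_le_add h2 h1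
    _ = 2 * (K₀ + 2) / Real.log s := by ring


end Pool.Agent.Helper91.PL
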