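import Pool.Agent.Helper91.PL.ST1
import Pool.Agent.Helper91.PL.ST2
import Pool.Agent.Helper8.ND.Density

/-!
# Block PL-ST3: stabilisation of the densities

* `stab`: apply `good_gl'` with `ε / 2` and `conv'`: for `z ≥ z0` and `A ≥ z ^ (1 + ε)` put
  `s ^ 4 = (1 + ε) log z`, so that `K₁ + (1 + ε / 2) log z + log d * s ≤ s ^ 4` and `K / log s ≤ η / 2`. So
  there is `δ` with `|fd G A - δ| ≤ η / 2` for all `A ≥ z ^ (1 + ε)`; moreover `fd G A → δ` (let `s → ∞`
  in `conv'`), so `δ = dens G` (`Tendsto.limUnder_eq`). `TInv` beyond `z` implies `TInv` beyond every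
  `z' ≥ z`.
* `ny_big`: `100 N log (d m) ≤ log y / 2`.
* `stab_y`: `stab` with `z = 2 y` and a small `ε`: `lo ≥ y e ^ (g N) ≥ (2 y) ^ (1 + ε)` for `y` large, since
  `N + 1 ≥ log y / (200 log (d m))`.
* `hasDensity_of_fd`: `dyadic` (Helper8/ND/Density): given `η`, let `|fd G a - δ| ≤ η` for `a ≥ y ≥ 1`; for
  `x ≥ y` choose `k` with `y ≤ x / 2 ^ k < 2 y`; then `|cL G x - δ x| ≤ |cL G y' - δ y'| + x η`,
  `y' = x / 2 ^ k`, and `0 ≤ cL G y' ≤ 2 y`; `cL_le_cN`, `cN_le_cL`.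
-/

set_option autoImplicit false

namespace Pool.Agent.Helper91.PL

open Pool.Agent.Helper68.Moeller Pool.Agent.Helper52.Tao Pool.Agent.Helper8.ND
  Pool.Agent.Helper8.CL Filter Topology

variable {d m : ℕ} {r : ℤ → ℤ}

theorem tinv_mono {G : Set ℤ} {z z' : ℝ} (h : TInv d m r G z) (hz : z ≤ z') : TInv d m r G z' :=
  fun n hn => h n (lt_of_le_of_lt hz hn)

theorem stab_core (hd : 2 ≤ d) (hdm : d < m) (hco : Nat.Coprime m d) (hr : Admissible d m r)
    (hg : 0 < gam d m) (hmix : Mixing d m r) {ε η : ℝ} (hε : 0 < ε) (hη : 0 < η) :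
    ∃ z0 : ℝ, 1 ≤ z0 ∧ ∀ z : ℝ, z0 ≤ z → ∀ G : Set ℤ, TInv d m r G z → ∃ δ : ℝ,
      Tendsto (fun A : ℝ => fd G A) atTop (𝓝 δ) ∧
      ∀ A : ℝ, z ^ (1 + ε) ≤ A → |fd G A - δ| ≤ η := by
  obtain ⟨c, C, K₁, hc, hC, hK₁, hgood⟩ := good_gl' hd hdm hco hr hmix (half_pos hε)
  have hγ : (1 - 1 / (d : ℝ)) * Real.log m < Real.log d := by
    unfold gam at hg; linarith
  obtain ⟨K, S₂, hK, hS₂, hconv⟩ := conv' hd hdm hco hγ hc hC
  have hd1 : (1 : ℝ) < d := by exact_mod_cast (by omega : 1 < d)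
  have hld : 0 < Real.log d := Real.log_pos hd1
  -- conditions on `s`
  set κ : ℝ := ε / (2 * (1 + ε)) with hκ
  have hκ0 : 0 < κ := by positivity
  set s0 : ℝ := max S₂ (max (Real.exp (K / η)) (max 2 ((K₁ + Real.log d) / κ))) with hs0
  have hs : ∀ s : ℝ, s0 ≤ s → S₂ ≤ s ∧ K / Real.log s ≤ η ∧
      K₁ + Real.log d * s ≤ κ * s ^ 4 := by
    intro s h
    have a1 : S₂ ≤ s := (le_max_left _ _).trans h
    have a2 : Real.exp (K / η) ≤ s :=
      ((le_max_left _ _).trans (le_max_right _ _)).trans h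
    have a3 : 2 ≤ s :=
      (((le_max_left _ _).trans (le_max_right _ _)).trans (le_max_right _ _)).trans h
    have a4 : (K₁ + Real.log d) / κ ≤ s :=
      (((le_max_right _ _).trans (le_max_right _ _)).trans (le_max_right _ _)).trans h
    have hs0 : 0 < s := by linarith
    refine ⟨a1, ?_, ?_⟩
    · have b1 : K / η ≤ Real.log s := by rwa [Real.le_log_iff_exp_le hs0]
      have b2 : 0 < Real.log s := lt_of_lt_of_le (by positivity) b1
      rw [div_le_iff₀ b2]
      rw [div_le_iff₀ hη] at b1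
      linarith
    · rw [div_le_iff₀ hκ0] at a4
      have b1 : K₁ + Real.log d * s ≤ (K₁ + Real.log d) * s := by nlinarith
      have b2 : (K₁ + Real.log d) * s ≤ s * κ * s := mul_le_mul_of_nonneg_right a4 hs0.le
      have b3 : s ^ 2 ≤ s ^ 4 := pow_le_pow_right₀ (by linarith) (by norm_num)
      nlinarith
  -- `z0`
  refine ⟨Real.exp (s0 ^ 4), Real.one_le_exp (by positivity), fun z hz G hG => ?_⟩
  have hz1 : 1 ≤ z := (Real.one_le_exp (by positivity)).trans hz
  have hz0 : 0 < z := by linarith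
  have hlz : 0 ≤ Real.log z := Real.log_nonneg hz1
  obtain ⟨δ, hδ0, hδ2, hδ⟩ := hconv _ _ (hgood z hz1 G hG)
  have hs0pos : 0 < s0 := by
    have : (2 : ℝ) ≤ s0 := ((le_max_left _ _).trans (le_max_right _ _)).trans (le_max_right _ _)
    linarith
  refine ⟨δ, ?_, ?_⟩
  · rw [Metric.tendsto_atTop]
    intro η' hη'
    -- choose `s`
    set u₁ := K₁ + (1 + ε / 2) * Real.log z with hu₁
    have hu₁0 : 0 ≤ u₁ := by positivity
    set s := max S₂ (max (Real.exp (2 * K / η')) (max 2 (u₁ + Real.log d))) with hsdef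
    have a1 : S₂ ≤ s := le_max_left _ _
    have a2 : Real.exp (2 * K / η') ≤ s := (le_max_left _ _).trans (le_max_right _ _)
    have a3 : 2 ≤ s := ((le_max_left _ _).trans (le_max_right _ _)).trans (le_max_right _ _)
    have a4 : u₁ + Real.log d ≤ s :=
      ((le_max_right _ _).trans (le_max_right _ _)).trans (le_max_right _ _)
    have hspos : 0 < s := by linarith
    have hc1 : u₁ + Real.log d * s ≤ s ^ 4 := by
      have b1 : u₁ + Real.log d * s ≤ (u₁ + Real.log d) * s := by nlinarith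
      have b2 : (u₁ + Real.log d) * s ≤ s * s := mul_le_mul_of_nonneg_right a4 hspos.le
      have b3 : s ^ 2 ≤ s ^ 4 := pow_le_pow_right₀ (by linarith) (by norm_num)
      nlinarith
    have hc2 : K / Real.log s < η' := by
      have b1 : 2 * K / η' ≤ Real.log s := by rwa [Real.le_log_iff_exp_le hspos]
      have b2 : 0 < Real.log s := lt_of_lt_of_le (by positivity) b1
      rw [div_lt_iff₀ b2]
      rw [div_le_iff₀ hη'] at b1
      linarith
    refine ⟨Real.exp (s ^ 4), fun A hA => ?_⟩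
    have hA0 : 0 < A := lt_of_lt_of_le (Real.exp_pos _) hA
    have hlA : s ^ 4 ≤ Real.log A := by rwa [Real.le_log_iff_exp_le hA0]
    have h1 := hδ s a1 hc1 (Real.log A) hlA
    rw [gl_of_nonneg G (le_trans (by positivity) hlA), Real.exp_log hA0] at h1
    rw [Real.dist_eq]
    exact lt_of_le_of_lt h1 hc2
  · intro A hA
    set s := Real.sqrt (Real.sqrt ((1 + ε) * Real.log z)) with hsdef
    have hs4 : s ^ 4 = (1 + ε) * Real.log z := by
      have e1 : s ^ 2 = Real.sqrt ((1 + ε) * Real.log z) := Real.sq_sqrt (Real.sqrt_nonneg _)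
      calc s ^ 4 = (s ^ 2) ^ 2 := by ring
        _ = _ := by rw [e1]; exact Real.sq_sqrt (by positivity)
    have hs0' : 0 ≤ s := Real.sqrt_nonneg _
    have hlz' : s0 ^ 4 ≤ Real.log z := by rwa [Real.le_log_iff_exp_le hz0]
    have hss : s0 ≤ s := by
      by_contra hcon
      push Not at hcon
      have h1 : s ^ 4 < s0 ^ 4 := pow_lt_pow_left₀ hcon hs0' (by norm_num)
      rw [hs4] at h1
      nlinarith
    obtain ⟨a1, a2, a3⟩ := hs s hss
    have hA0 : 0 < A := lt_of_lt_of_le (Real.rpow_pos_of_pos hz0 _) hA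
    have hlA : s ^ 4 ≤ Real.log A := by
      rw [hs4, ← Real.log_rpow hz0]
      exact Real.log_le_log (Real.rpow_pos_of_pos hz0 _) hA
    have hcond : K₁ + (1 + ε / 2) * Real.log z + Real.log d * s ≤ s ^ 4 := by
      have e1 : κ * s ^ 4 = ε / 2 * Real.log z := by
        rw [hs4, hκ]; field_simp
      rw [e1] at a3
      rw [hs4]
      nlinarith
    have h1 := hδ s a1 hcond (Real.log A) hlA
    rw [gl_of_nonneg G (le_trans (by positivity) hlA), Real.exp_log hA0] at h1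
    exact h1.trans a2

theorem stab_tendsto (hd : 2 ≤ d) (hdm : d < m) (hco : Nat.Coprime m d) (hr : Admissible d m r)
    (hg : 0 < gam d m) (hmix : Mixing d m r) {z : ℝ} {G : Set ℤ} (hG : TInv d m r G z) :
    Tendsto (fun A : ℝ => fd G A) atTop (𝓝 (dens G)) := by
  obtain ⟨z0, h1, h⟩ := stab_core hd hdm hco hr hg hmix one_pos one_pos
  obtain ⟨δ, hδ, -⟩ := h (max z z0) (le_max_right _ _) G (tinv_mono hG (le_max_left _ _))
  have : dens G = δ := by
    unfold dens
    exact hδ.limUnder_eq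
  rw [this]; exact hδ

theorem stab (hd : 2 ≤ d) (hdm : d < m) (hco : Nat.Coprime m d) (hr : Admissible d m r)
    (hg : 0 < gam d m) (hmix : Mixing d m r) {ε η : ℝ} (hε : 0 < ε) (hη : 0 < η) :
    ∃ z0 : ℝ, ∀ z : ℝ, z0 ≤ z → ∀ G : Set ℤ, TInv d m r G z → ∀ A : ℝ, z ^ (1 + ε) ≤ A →
      |fd G A - dens G| ≤ η := by
  obtain ⟨z0, h1, h⟩ := stab_core hd hdm hco hr hg hmix hε hη
  refine ⟨z0, fun z hz G hG A hA => ?_⟩
  obtain ⟨δ, hδ, hb⟩ := h z hz G hG
  have : dens G = δ := by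
    unfold dens
    exact hδ.limUnder_eq
  rw [this]; exact hb A hA

theorem log_dm_pos (hd : 2 ≤ d) (hdm : d < m) : 0 < Real.log ((d : ℝ) * m) := by
  have h1 : (2 : ℝ) ≤ d := by exact_mod_cast hd
  have h2 : (2 : ℝ) ≤ m := by exact_mod_cast (by omega : 2 ≤ m)
  exact Real.log_pos (by nlinarith)

theorem ny_big (hd : 2 ≤ d) (hdm : d < m) {y : ℕ} (hy : 1 ≤ y) :
    ((d : ℝ) * m) ^ (100 * Ny d m y) ≤ y := by
  have hL := log_dm_pos hd hdm
  have hy1 : (1 : ℝ) ≤ y := by exact_mod_cast hy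
  have hy0 : (0 : ℝ) < y := by linarith
  have hly : 0 ≤ Real.log y := Real.log_nonneg hy1
  have hdm0 : (0 : ℝ) < (d : ℝ) * m := by
    have h1 : (0 : ℝ) < d := by exact_mod_cast (by omega : 0 < d)
    have h2 : (0 : ℝ) < m := by exact_mod_cast (by omega : 0 < m)
    positivity
  have hfl : (Ny d m y : ℝ) ≤ Real.log y / (200 * Real.log ((d : ℝ) * m)) :=
    Nat.floor_le (by positivity)
  rw [le_div_iff₀ (by positivity)] at hfl
  rw [← Real.log_le_log_iff (by positivity) hy0, Real.log_pow]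
  push_cast
  nlinarith

theorem ny_tendsto (hd : 2 ≤ d) (hdm : d < m) : Tendsto (fun y : ℕ => Ny d m y) atTop atTop := by
  have hL := log_dm_pos hd hdm
  have h1 : Tendsto (fun y : ℕ => Real.log (y : ℝ) / (200 * Real.log ((d : ℝ) * m)))
      atTop atTop :=
    (Real.tendsto_log_atTop.comp tendsto_natCast_atTop_atTop).atTop_div_const (by positivity)
  exact tendsto_nat_floor_atTop.comp h1

theorem stab_y (hd : 2 ≤ d) (hdm : d < m) (hco : Nat.Coprime m d) (hr : Admissible d m r)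
    (hg : 0 < gam d m) (hmix : Mixing d m r) {η : ℝ} (hη : 0 < η) :
    ∃ y0 : ℕ, ∀ y : ℕ, y0 ≤ y → ∀ G : Set ℤ, TInv d m r G (2 * y) → ∀ A : ℝ,
      (lo d m y (Ny d m y) : ℝ) ≤ A → |fd G A - dens G| ≤ η := by
  have hL := log_dm_pos hd hdm
  set κ : ℝ := gam d m / (200 * Real.log ((d : ℝ) * m)) with hκ
  have hκ0 : 0 < κ := by positivity
  obtain ⟨z0, hz0⟩ := stab hd hdm hco hr hg hmix (half_pos hκ0) hη
  have h1 : ∀ᶠ y : ℕ in atTop, z0 ≤ (y : ℝ) := by
    have := tendsto_natCast_atTop_atTop (R := ℝ)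
    exact this.eventually_ge_atTop z0
  have h2 : ∀ᶠ y : ℕ in atTop,
      (gam d m + (1 + κ / 2) * Real.log 2) / (κ / 2) ≤ Real.log (y : ℝ) :=
    (Real.tendsto_log_atTop.comp tendsto_natCast_atTop_atTop).eventually_ge_atTop _
  obtain ⟨y0, hy0⟩ := Filter.eventually_atTop.1 (h1.and (h2.and (Filter.eventually_ge_atTop 1)))
  refine ⟨y0, fun y hy G hG A hA => ?_⟩
  obtain ⟨a1, a2, a3⟩ := hy0 y hy
  have hy1 : (1 : ℝ) ≤ y := by exact_mod_cast a3
  have hypos : (0 : ℝ) < y := by linarith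
  refine hz0 (2 * y) (by linarith) G hG A (le_trans ?_ hA)
  refine le_trans ?_ (Nat.le_ceil _)
  rw [div_le_iff₀ (by positivity)] at a2
  have hfl : Real.log y / (200 * Real.log ((d : ℝ) * m)) - 1 ≤ (Ny d m y : ℝ) := by
    have := Nat.lt_floor_add_one (Real.log y / (200 * Real.log ((d : ℝ) * m)))
    unfold Ny
    linarith
  have hgN : κ * Real.log y - gam d m ≤ gam d m * (Ny d m y : ℝ) := by
    have e : gam d m * (Real.log y / (200 * Real.log ((d : ℝ) * m)) - 1) =
        κ * Real.log y - gam d m := by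
      rw [hκ]; ring
    rw [← e]
    exact mul_le_mul_of_nonneg_left hfl hg.le
  have e1 : (2 * (y : ℝ)) ^ (1 + κ / 2) = Real.exp ((1 + κ / 2) * (Real.log 2 + Real.log y)) := by
    rw [Real.rpow_def_of_pos (by positivity), Real.log_mul (by norm_num) hypos.ne']
    congr 1; ring
  have e2 : (y : ℝ) * Real.exp (gam d m * (Ny d m y : ℝ)) =
      Real.exp (Real.log y + gam d m * (Ny d m y : ℝ)) := by
    rw [Real.exp_add, Real.exp_log hypos]
  rw [e1, e2]
  refine Real.exp_le_exp.2 ?_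
  nlinarith

theorem hasDensity_of_fd {G : Set ℤ} {δ : ℝ} (h : Tendsto (fun A : ℝ => fd G A) atTop (𝓝 δ)) :
    Tendsto (fun x : ℝ => cN G x / x) atTop (𝓝 δ) := by
  rw [Metric.tendsto_atTop]
  intro η hη
  rw [Metric.tendsto_atTop] at h
  obtain ⟨y0, hy0⟩ := h (η / 2) (by positivity)
  set y := max y0 1 with hy
  have hy1 : 1 ≤ y := le_max_right _ _
  have hypos : 0 < y := by linarith
  have hyfd : ∀ a, y ≤ a → |fd G a - δ| ≤ η / 2 := by
    intro a ha
    have := hy0 a ((le_max_left _ _).trans ha)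
    rw [Real.dist_eq] at this
    exact this.le
  set B := 2 * y * (1 + |δ|) + 1 with hB
  have hB0 : 0 < B := by positivity
  refine ⟨max y (4 * B / η), fun x hx => ?_⟩
  have hx1 : y ≤ x := (le_max_left _ _).trans hx
  have hx2 : 4 * B / η ≤ x := (le_max_right _ _).trans hx
  have hx0 : 0 < x := by linarith
  obtain ⟨k, hk1, hk2⟩ := exists_nat_pow_near ((one_le_div hypos).2 hx1)
    (by norm_num : (1 : ℝ) < 2)
  have h2k : (0 : ℝ) < 2 ^ k := by positivity
  set y' := x / 2 ^ k with hy'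
  have b1 : y ≤ y' := by
    rw [hy', le_div_iff₀ h2k]
    rw [le_div_iff₀ hypos] at hk1
    linarith
  have b2 : y' ≤ 2 * y := by
    rw [hy', div_le_iff₀ h2k]
    rw [div_lt_iff₀ hypos, pow_succ] at hk2
    linarith
  have hxy : 2 ^ k * y' = x := by rw [hy']; field_simp
  have hdy := dyadic G (hy1.trans b1) (fun a ha => hyfd a (b1.trans ha)) k
  rw [hxy] at hdy
  have hy'0 : 0 ≤ y' := by linarith
  have hyb : |cL G y' - δ * y'| ≤ 2 * y * (1 + |δ|) := by
    have h1 : cL G y' ≤ y' := (cL_le_cN G y').trans (cN_le G hy'0)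
    have h2 : 0 ≤ cL G y' := by unfold cL; positivity
    calc |cL G y' - δ * y'| ≤ |cL G y'| + |δ * y'| := abs_sub _ _
      _ ≤ y' + |δ| * y' := by
          rw [abs_of_nonneg h2, abs_mul, abs_of_nonneg hy'0]; linarith
      _ = y' * (1 + |δ|) := by ring
      _ ≤ 2 * y * (1 + |δ|) := mul_le_mul_of_nonneg_right b2 (by positivity)
  have h5 := cL_le_cN G x
  have h6 := cN_le_cL G x
  have h7 : |cN G x - δ * x| ≤ B + x * (η / 2) := by
    have h7 := abs_le.1 (hdy.trans (add_le_add hyb le_rfl))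
    rw [abs_le]
    constructor <;> linarith
  rw [Real.dist_eq]
  have e : cN G x / x - δ = (cN G x - δ * x) / x := by field_simp
  rw [e, abs_div, abs_of_pos hx0, div_lt_iff₀ hx0]
  rw [div_le_iff₀ hη] at hx2
  refine lt_of_le_of_lt h7 ?_
  nlinarith

end Pool.Agent.Helper91.PL
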