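import Pool.Agent.Helper91.PL.NUa
import Pool.Agent.Helper91.PL.ST3

/-!
# Block PL-DE: dead points

`#{i < t : ¬ d ∣ T^[i] n} = sg (wd d m r t n)` (induction on `t`).
* `dead_iff`: `nu k a > 0` iff some word `w` has `sg w = k` and `Hit k a w` (`nu_pos_iff`); then
  `n = pt w a` satisfies `wd t n = w`, `T^[t] n = a` (`wd_unique`), so `a` is not dead with this `k`. Conversely
  if `T^[t] n = a` and `w = wd t n` has `sg w ≥ k`, then `Hit k a w` (`wd_spec`), so
  `nu k a ≥ nut t k a > 0`.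
* `dead_dens`: let `k` be as in the definition. Let `A` be large and `t` with `(2 d) ^ t Z ≤ A`,
  `Z = |a| + 1 + B₀` (`t → ∞` as `A → ∞`). For `n ∈ Pr a`, `n ≥ A`, the orbit is `> |a|` up to time `t` (`iter_gt`), so
  `a` is reached at a time `j > t` and `sg (wd t n) < k`. As `d ^ t ≤ A`, the number of `n ∈ [A, 2 A)` with
  `sg (wd t n) < k` is `≤ cW d t (sg w < k) (A / d ^ t + 1) ≤ 2 A (9 / 10) ^ t` (`few_nonzero`; two `n` with the
  same word are congruent modulo `d ^ t`). So `fd (Pr a) A → 0`, and `dens (Pr a) = 0` (`Tendsto.limUnder_eq`).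
-/

set_option autoImplicit false

namespace Pool.Agent.Helper91.PL

open Pool.Agent.Helper68.Moeller Pool.Agent.Helper52.Tao Pool.Agent.Helper8.ND
  Pool.Agent.Helper8.CL Filter Topology

variable {d m : ℕ} {r : ℤ → ℤ}

theorem card_eq_sg (hd : 2 ≤ d) (n : ℤ) (t : ℕ) :
    ((Finset.range t).filter (fun i => ¬ (d : ℤ) ∣ (T d m r)^[i] n)).card =
      sg (wd d m r t n) := by
  induction t with
  | zero => simp [wd]
  | succ t ih =>
    rw [Finset.range_add_one, Finset.filter_insert, wd, sg_cons]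
    have hdig := toNat_emod hd ((T d m r)^[t] n)
    by_cases h : (d : ℤ) ∣ (T d m r)^[t] n
    · rw [if_neg (not_not.mpr h), ih]
      have h0 : ((T d m r)^[t] n % (d : ℤ)).toNat = 0 := by
        have := Int.emod_eq_zero_of_dvd h
        omega
      rw [h0, nz_zero, zero_add]
    · rw [if_pos h, Finset.card_insert_of_notMem (by simp), ih]
      have h0 : ((T d m r)^[t] n % (d : ℤ)).toNat ≠ 0 := by
        intro h1
        apply h
        apply Int.dvd_of_emod_eq_zero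
        omega
      rw [nz_of_ne h0, add_comm]

theorem dead_iff (hd : 2 ≤ d) (hdm : d < m) (hco : Nat.Coprime m d) (hr : Admissible d m r)
    (a : ℤ) : Dead d m r a ↔ ∃ k : ℕ, nu d m r k a = 0 := by
  classical
  constructor
  · rintro ⟨k, hk⟩
    refine ⟨k, le_antisymm ?_ (nu_nonneg k a)⟩
    by_contra hcon
    rw [not_le] at hcon
    obtain ⟨t, w, hw, hsg, hHit⟩ := (nu_pos_iff hd hco k a).mp hcon
    obtain ⟨n, hn⟩ := hHit
    rw [length_of_mem_W hw] at hn
    obtain ⟨h1, h2⟩ := wd_unique hd hco hr hw (n := n) (y := a) (by rw [hsg]; exact hn.symm)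
    have h3 := hk n t h2
    rw [card_eq_sg hd, h1, hsg] at h3
    exact lt_irrefl _ h3
  · rintro ⟨k, hk⟩
    refine ⟨k, fun n t hnt => ?_⟩
    rw [card_eq_sg hd]
    by_contra hcon
    rw [not_lt] at hcon
    have hspec := wd_spec hd hr t n
    rw [hnt] at hspec
    have hw := wd_mem (m := m) hd r t n
    have hHit : Hit d m r k a (wd d m r t n) := by
      unfold Hit
      rw [length_of_mem_W hw, hspec]
      have h4 : (m : ℤ) ^ sg (wd d m r t n) * n - Off d m r (wd d m r t n) +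
          Off d m r (wd d m r t n) = (m : ℤ) ^ sg (wd d m r t n) * n := by ring
      rw [h4]
      exact (pow_dvd_pow _ hcon).mul_right _
    have h5 : 0 < nut d m r t k a := by
      unfold nut
      apply div_pos _ (by positivity)
      rw [cW_eq_sum]
      refine Finset.sum_pos' (fun w _ => by split_ifs <;> norm_num) ⟨wd d m r t n, hw, ?_⟩
      rw [if_pos ⟨hcon, hHit⟩]
      exact one_pos
    have h6 := nut_le_nu (d := d) (m := m) (r := r) t k a
    linarith

/-- The points of `[A, 2A)` with a given word. -/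
theorem word_count_h48 (hd : 2 ≤ d) (hco : Nat.Coprime m d) (hr : Admissible d m r) (t : ℕ)
    (w : List ℕ) {A : ℝ} (hA : 0 < A) (G : Set ℤ) :
    (({n : ℤ | (A ≤ n ∧ (n : ℝ) < 2 * A ∧ n ∈ G) ∧ wd d m r t n = w}.ncard : ℕ) : ℝ) ≤
      A / (d : ℝ) ^ t + 1 := by
  have hdR : (0 : ℝ) < (d : ℝ) ^ t := by positivity
  have hdZ : (d : ℤ) ^ t ≠ 0 := pow_ne_zero _ (by omega)
  rcases Set.eq_empty_or_nonempty
    {n : ℤ | (A ≤ n ∧ (n : ℝ) < 2 * A ∧ n ∈ G) ∧ wd d m r t n = w} with h | ⟨n₀, hn₀⟩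
  · rw [h, Set.ncard_empty, Nat.cast_zero]
    positivity
  · have hdvd : ∀ n ∈ {n : ℤ | (A ≤ n ∧ (n : ℝ) < 2 * A ∧ n ∈ G) ∧ wd d m r t n = w},
        (d : ℤ) ^ t ∣ n - n₀ := by
      intro n hn
      have h1 := wd_spec hd hr t n
      have h2 := wd_spec hd hr t n₀
      rw [hn.2] at h1
      rw [hn₀.2] at h2
      have hcop : IsCoprime ((d : ℤ) ^ t) ((m : ℤ) ^ sg w) := by
        apply IsCoprime.pow
        exact (Nat.isCoprime_iff_coprime.mpr hco).symm
      apply hcop.dvd_of_dvd_mul_left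
      refine ⟨(T d m r)^[t] n - (T d m r)^[t] n₀, ?_⟩
      linear_combination h2 - h1
    have hmaps : ∀ n ∈ {n : ℤ | (A ≤ n ∧ (n : ℝ) < 2 * A ∧ n ∈ G) ∧ wd d m r t n = w},
        (n - n₀) / (d : ℤ) ^ t ∈ {k : ℤ | (A - n₀) / (d : ℝ) ^ t ≤ k ∧
          (k : ℝ) < (A - n₀) / (d : ℝ) ^ t + A / (d : ℝ) ^ t} := by
      intro n hn
      obtain ⟨c, hc⟩ := hdvd n hn
      have h3 : (n - n₀) / (d : ℤ) ^ t = c := by
        rw [hc]
        exact Int.mul_ediv_cancel_left _ hdZ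
      have h4 : (n : ℝ) - n₀ = (d : ℝ) ^ t * c := by exact_mod_cast hc
      rw [h3]
      refine ⟨?_, ?_⟩
      · rw [div_le_iff₀ hdR]
        have := hn.1.1
        linarith
      · rw [← add_div, lt_div_iff₀ hdR]
        have := hn.1.2.1
        linarith
    have hinj : Set.InjOn (fun n : ℤ => (n - n₀) / (d : ℤ) ^ t)
        {n : ℤ | (A ≤ n ∧ (n : ℝ) < 2 * A ∧ n ∈ G) ∧ wd d m r t n = w} := by
      intro n hn n' hn' heq
      obtain ⟨c, hc⟩ := hdvd n hn
      obtain ⟨c', hc'⟩ := hdvd n' hn'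
      have h3 : (n - n₀) / (d : ℤ) ^ t = c := by
        rw [hc]
        exact Int.mul_ediv_cancel_left _ hdZ
      have h4 : (n' - n₀) / (d : ℤ) ^ t = c' := by
        rw [hc']
        exact Int.mul_ediv_cancel_left _ hdZ
      have h5 : c = c' := by
        rw [← h3, ← h4]
        exact heq
      rw [h5, ← hc'] at hc
      linarith
    have h6 := Set.ncard_le_ncard_of_injOn (fun n : ℤ => (n - n₀) / (d : ℤ) ^ t) hmaps hinj
      (finite_Ico _ _)
    have h7 := ncard_Ico_le ((A - n₀) / (d : ℝ) ^ t) (δ := A / (d : ℝ) ^ t) (by positivity)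
    have h8 : (({n : ℤ | (A ≤ n ∧ (n : ℝ) < 2 * A ∧ n ∈ G) ∧ wd d m r t n = w}.ncard : ℕ) : ℝ) ≤
        ({k : ℤ | (A - n₀) / (d : ℝ) ^ t ≤ k ∧
          (k : ℝ) < (A - n₀) / (d : ℝ) ^ t + A / (d : ℝ) ^ t}.ncard : ℝ) := by exact_mod_cast h6
    exact h8.trans h7

theorem dead_dens (hd : 2 ≤ d) (hdm : d < m) (hco : Nat.Coprime m d) (hr : Admissible d m r)
    {a : ℤ} (ha : Dead d m r a) : dens (Pr d m r a) = 0 := by
  classical
  obtain ⟨k, hk⟩ := ha
  obtain ⟨B, hB⟩ := FL_exists_B d r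
  have hd2 : (2 : ℝ) ≤ d := by exact_mod_cast hd
  set Z : ℝ := |(a : ℝ)| + 1 + B with hZ
  have hZ0 : 0 < Z := by positivity
  -- the main estimate
  have hmain : ∀ t : ℕ, 5 * k ≤ t → ∀ A : ℝ, (2 * (d : ℝ)) ^ t * Z ≤ A → (d : ℝ) ^ t ≤ A →
      fd (Pr d m r a) A ≤ 2 * (9 / 10) ^ t := by
    intro t ht A hA hA'
    have hdt : (0 : ℝ) < (d : ℝ) ^ t := by positivity
    have hA0 : 0 < A := lt_of_lt_of_le hdt hA'
    have hPf : {n : ℤ | A ≤ n ∧ (n : ℝ) < 2 * A ∧ n ∈ Pr d m r a}.Finite :=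
      (finite_Ico A (2 * A)).subset (fun n hn => ⟨hn.1, hn.2.1⟩)
    have hSf : ∀ w : List ℕ,
        {n : ℤ | (A ≤ n ∧ (n : ℝ) < 2 * A ∧ n ∈ Pr d m r a) ∧ wd d m r t n = w}.Finite :=
      fun w => hPf.subset (fun n hn => hn.1)
    have hsmall : ∀ n ∈ {n : ℤ | A ≤ n ∧ (n : ℝ) < 2 * A ∧ n ∈ Pr d m r a},
        wd d m r t n ∈ (W d t).filter (fun w => sg w < k) := by
      rintro n ⟨h1, h2, j, hj⟩
      rw [Finset.mem_filter]
      refine ⟨wd_mem hd r t n, ?_⟩
      have htj : t < j := by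
        by_contra hcon
        rw [not_lt] at hcon
        have h3 := iter_gt hd (by omega) hr hB (z := |(a : ℝ)|) (Z := Z) (by rw [hZ]; linarith [Nat.cast_nonneg (α := ℝ) B])
          hZ0 (by rw [hZ]; linarith [abs_nonneg (a : ℝ)]) t n (hA.trans h1) j hcon
        rw [hj] at h3
        exact absurd h3 (not_lt.mpr (le_abs_self _))
      have h4 := hk n j hj
      rw [← card_eq_sg hd]
      refine lt_of_le_of_lt (Finset.card_le_card ?_) h4
      exact Finset.filter_subset_filter _ (Finset.range_mono htj.le)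
    have hcard : (({n : ℤ | A ≤ n ∧ (n : ℝ) < 2 * A ∧ n ∈ Pr d m r a}.ncard : ℕ) : ℝ) =
        ∑ w ∈ (W d t).filter (fun w => sg w < k),
          (({n : ℤ | (A ≤ n ∧ (n : ℝ) < 2 * A ∧ n ∈ Pr d m r a) ∧ wd d m r t n = w}.ncard : ℕ) : ℝ) := by
      have h1 : {n : ℤ | A ≤ n ∧ (n : ℝ) < 2 * A ∧ n ∈ Pr d m r a}.ncard =
          ∑ w ∈ (W d t).filter (fun w => sg w < k),
            {n : ℤ | (A ≤ n ∧ (n : ℝ) < 2 * A ∧ n ∈ Pr d m r a) ∧ wd d m r t n = w}.ncard := by
        rw [Set.ncard_eq_toFinset_card _ hPf]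
        rw [Finset.card_eq_sum_card_fiberwise (f := wd d m r t)
          (t := (W d t).filter (fun w => sg w < k))
          (fun n hn => hsmall n (by simpa using hn))]
        refine Finset.sum_congr rfl fun w _ => ?_
        rw [Set.ncard_eq_toFinset_card _ (hSf w)]
        congr 1
        ext n
        simp only [Finset.mem_filter, Set.Finite.mem_toFinset, Set.mem_ofPred_eq]
      rw [h1]
      push_cast
      rfl
    unfold fd
    rw [hcard, div_le_iff₀ hA0]
    have h5 : ∑ w ∈ (W d t).filter (fun w => sg w < k),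
          (({n : ℤ | (A ≤ n ∧ (n : ℝ) < 2 * A ∧ n ∈ Pr d m r a) ∧ wd d m r t n = w}.ncard : ℕ) : ℝ) ≤
        cW d t (fun w => sg w < k) * (A / (d : ℝ) ^ t + 1) := by
      refine (Finset.sum_le_card_nsmul _ _ (A / (d : ℝ) ^ t + 1)
        (fun w _ => word_count_h48 hd hco hr t w hA0 _)).trans (le_of_eq ?_)
      rw [nsmul_eq_mul]
      unfold cW
      congr 3
      ext w
      simp only [Finset.mem_filter]
    refine h5.trans ?_
    have h6 : A / (d : ℝ) ^ t + 1 ≤ 2 * A / (d : ℝ) ^ t := by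
      have : 1 ≤ A / (d : ℝ) ^ t := by rwa [one_le_div hdt]
      rw [mul_div_assoc]
      linarith
    calc cW d t (fun w => sg w < k) * (A / (d : ℝ) ^ t + 1)
        ≤ ((d : ℝ) ^ t * (9 / 10) ^ t) * (2 * A / (d : ℝ) ^ t) := by
          apply mul_le_mul (few_nonzero hd ht) h6 (by positivity) (by positivity)
      _ = 2 * (9 / 10) ^ t * A := by
          field_simp
  have htend : Tendsto (fun A : ℝ => fd (Pr d m r a) A) atTop (𝓝 0) := by
    rw [Metric.tendsto_atTop]
    intro ε hε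
    obtain ⟨t₀, ht₀⟩ := exists_pow_lt_of_lt_one (show (0 : ℝ) < ε / 2 by linarith)
      (show (9 / 10 : ℝ) < 1 by norm_num)
    set t := max t₀ (5 * k) with ht
    refine ⟨max ((2 * (d : ℝ)) ^ t * Z) ((d : ℝ) ^ t), fun A hA => ?_⟩
    have hA1 := (le_max_left _ _).trans hA
    have hA2 := (le_max_right _ _).trans hA
    have h1 := hmain t (le_max_right _ _) A hA1 hA2
    have hA0 : 0 < A := lt_of_lt_of_le (by positivity) hA2
    have h2 := fd_nonneg (Pr d m r a) hA0.le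
    rw [Real.dist_eq, sub_zero, abs_of_nonneg h2]
    have h3 : ((9 : ℝ) / 10) ^ t ≤ (9 / 10) ^ t₀ :=
      pow_le_pow_of_le_one (by norm_num) (by norm_num) (le_max_left _ _)
    linarith
  exact htend.limUnder_eq

end Pool.Agent.Helper91.PL
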