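import Pool.Agent.Helper91.PL.OM

/-!
# Block PL-EX: the exact formula

For `n ∈ [A0, 2 A1)` with `T^[t] n = b ∈ B` let `w = wd d m r t n ∈ W d t` (`wd_mem`). By `wd_spec`
`m ^ sg w * n = d ^ t b + Off w`, so `Hit (sg w) b w` and `n = pt w b`. Conversely, if `w ∈ W d t` and
`Hit (sg w) b w`, then `n = pt w b` satisfies `m ^ sg w * n = d ^ t b + Off w`, so `wd d m r t n = w` and
`T^[t] n = b` (`wd_unique`), and `om A0 A1 n = 0` unless `A0 ≤ n < 2 A1` (`om_eq_zero`).
-/

set_option autoImplicit false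

namespace Pool.Agent.Helper91.PL

open Pool.Agent.Helper68.Moeller Pool.Agent.Helper52.Tao Pool.Agent.Helper8.ND
  Pool.Agent.Helper8.CL Filter Topology

variable {d m : ℕ} {r : ℤ → ℤ}

theorem pt_spec (hm : 1 ≤ m) {w : List ℕ} {b : ℤ} (h : Hit d m r (sg w) b w) :
    (m : ℤ) ^ sg w * pt d m r w b = (d : ℤ) ^ w.length * b + Off d m r w := by
  have _ := hm
  exact Int.mul_ediv_cancel' h

theorem pt_bound (hd : 2 ≤ d) (hdm : d < m) {B₀ : ℕ}
    (hB : ∀ j : ℤ, 0 < j → j < (d : ℤ) → |r j| ≤ B₀) {t : ℕ} {w : List ℕ} (hw : w ∈ W d t) {b : ℤ}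
    (h : Hit d m r (sg w) b w) :
    |(m : ℝ) ^ sg w * (pt d m r w b : ℝ) - (d : ℝ) ^ t * b| ≤ B₀ * (m : ℝ) ^ t := by
  have h1 := pt_spec (d := d) (m := m) (r := r) (by omega) h
  rw [length_of_mem_W hw] at h1
  have h2 := abs_Off_le hd hdm hB hw
  have h3 : (m : ℝ) ^ sg w * (pt d m r w b : ℝ) = (d : ℝ) ^ t * b + (Off d m r w : ℝ) := by
    exact_mod_cast h1
  have h4 : |(Off d m r w : ℝ)| ≤ B₀ * (m : ℝ) ^ t := by exact_mod_cast h2
  rw [h3, add_sub_cancel_left]
  exact h4

theorem pt_iter (hd : 2 ≤ d) (hdm : d < m) (hco : Nat.Coprime m d) (hr : Admissible d m r)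
    {t : ℕ} {w : List ℕ} (hw : w ∈ W d t) {b : ℤ} (h : Hit d m r (sg w) b w) :
    wd d m r t (pt d m r w b) = w ∧ (T d m r)^[t] (pt d m r w b) = b := by
  have h1 := pt_spec (d := d) (m := m) (r := r) (by omega) h
  rw [length_of_mem_W hw] at h1
  exact wd_unique hd hco hr hw h1

/-- The word of `n` hits the end point, and the point of this word is `n`. -/
theorem hit_wd (hd : 2 ≤ d) (hdm : d < m) (hr : Admissible d m r) (t : ℕ) (n : ℤ) :
    Hit d m r (sg (wd d m r t n)) ((T d m r)^[t] n) (wd d m r t n) ∧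
      pt d m r (wd d m r t n) ((T d m r)^[t] n) = n := by
  have h1 := wd_spec hd hr t n
  have h2 : (d : ℤ) ^ (wd d m r t n).length * (T d m r)^[t] n + Off d m r (wd d m r t n) =
      (m : ℤ) ^ sg (wd d m r t n) * n := by
    rw [length_of_mem_W (wd_mem hd r t n), h1]
    ring
  have hm : (m : ℤ) ^ sg (wd d m r t n) ≠ 0 := pow_ne_zero _ (by
    have : 0 < m := by omega
    exact_mod_cast this.ne')
  refine ⟨?_, ?_⟩
  · unfold Hit
    rw [h2]
    exact Dvd.intro _ rfl
  · unfold pt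
    rw [h2, Int.mul_ediv_cancel_left _ hm]

open Classical in
theorem sm_exact (hd : 2 ≤ d) (hdm : d < m) (hco : Nat.Coprime m d) (hr : Admissible d m r)
    (A0 A1 t : ℕ) (B : Finset ℤ) (h : ℤ → ℝ) :
    sm A0 A1 (fun n => if (T d m r)^[t] n ∈ B then h ((T d m r)^[t] n) else 0) =
      ∑ b ∈ B, h b * ∑ w ∈ (W d t).filter (fun w => Hit d m r (sg w) b w),
        om A0 A1 (pt d m r w b) := by
  have key : ∀ b ∈ B, ∑ n ∈ (Finset.Ico (A0 : ℤ) (2 * (A1 : ℤ))).filter
      (fun n => (T d m r)^[t] n = b), om A0 A1 n =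
      ∑ w ∈ (W d t).filter (fun w => Hit d m r (sg w) b w), om A0 A1 (pt d m r w b) := by
    intro b _
    rw [← Finset.sum_filter_of_ne (s := (W d t).filter (fun w => Hit d m r (sg w) b w))
      (p := fun w => pt d m r w b ∈ Finset.Ico (A0 : ℤ) (2 * (A1 : ℤ)))]
    · refine Finset.sum_nbij' (fun n => wd d m r t n) (fun w => pt d m r w b) ?_ ?_ ?_ ?_ ?_
      · intro n hn
        rw [Finset.mem_filter] at hn
        obtain ⟨hn1, rfl⟩ := hn
        obtain ⟨h1, h2⟩ := hit_wd hd hdm hr t n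
        rw [Finset.mem_filter, Finset.mem_filter]
        refine ⟨⟨wd_mem hd r t n, h1⟩, ?_⟩
        rw [h2]
        exact hn1
      · intro w hw
        rw [Finset.mem_filter, Finset.mem_filter] at hw
        obtain ⟨⟨hw1, hw2⟩, hw3⟩ := hw
        rw [Finset.mem_filter]
        exact ⟨hw3, (pt_iter hd hdm hco hr hw1 hw2).2⟩
      · intro n hn
        rw [Finset.mem_filter] at hn
        obtain ⟨hn1, rfl⟩ := hn
        exact (hit_wd hd hdm hr t n).2
      · intro w hw
        rw [Finset.mem_filter, Finset.mem_filter] at hw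
        obtain ⟨⟨hw1, hw2⟩, hw3⟩ := hw
        exact (pt_iter hd hdm hco hr hw1 hw2).1
      · intro n hn
        rw [Finset.mem_filter] at hn
        obtain ⟨hn1, rfl⟩ := hn
        rw [(hit_wd hd hdm hr t n).2]
    · intro w _ hne
      by_contra hout
      apply hne
      apply om_eq_zero
      rw [Finset.mem_Ico] at hout
      by_cases h1 : pt d m r w b < A0
      · exact Or.inl h1
      · right
        by_contra h2
        exact hout ⟨not_lt.1 h1, not_le.1 h2⟩
  unfold sm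
  have h1 : ∀ n : ℤ, om A0 A1 n *
      (if (T d m r)^[t] n ∈ B then h ((T d m r)^[t] n) else 0) =
      ∑ b ∈ B, if (T d m r)^[t] n = b then om A0 A1 n * h b else 0 := by
    intro n
    rw [Finset.sum_ite_eq]
    split_ifs <;> simp
  simp only [h1]
  rw [Finset.sum_comm]
  refine Finset.sum_congr rfl fun b hb => ?_
  rw [← key b hb, ← Finset.sum_filter, Finset.mul_sum]
  refine Finset.sum_congr rfl fun n _ => mul_comm _ _

end Pool.Agent.Helper91.PL
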