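import Pool.Agent.Helper91.PL.Defs

/-!
# Block PL-D3: the dead points of the map `3x + 1`

Here `d = 2`, `m = 3`, `r = -1`: `T n = n / 2` for even `n`, `T n = (3 n + 1) / 2` for odd `n` (`2 T n = n` resp.
`2 T n = 3 n + 1`: `d_mul_T_of_dvd`, `d_mul_T_of_not_dvd`; `Admissible 2 3 (fun _ => -1)` is immediate).
* `3 ∣ a` implies dead with `k = 1`: if `T^[t] n = a` and some `T^[i] n`, `i < t`, is odd, then
  `2 T^[i + 1] n = 3 T^[i] n + 1` is not divisible by `3`, and `3 ∤ x` implies `3 ∤ T x`; so `3 ∤ a`.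
* `3 ∤ a` implies not dead: by induction on `k` there are `n`, `t` with `3 ∤ n`, `T^[t] n = a` and at least `k`
  odd points `T^[i] n`, `i < t`. Step: given `n`, choose `j ≤ 5` with `2 ^ (j + 1) n ≡ 4 (mod 9)` (`2` is a
  primitive root modulo `9`; check the 6 classes of `n` modulo `9`), and `n' = (2 ^ (j + 1) n - 1) / 3`;
  `n'` is odd, `3 ∤ n'`, `T n' = 2 ^ j n`, `T^[j + 1] n' = n`.
-/

set_option autoImplicit false

namespace Pool.Agent.Helper91.PL

open Pool.Agent.Helper68.Moeller Pool.Agent.Helper52.Tao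

private theorem t3_even {x : ℤ} (hx : (2 : ℤ) ∣ x) : 2 * T 2 3 (fun _ => -1) x = x := by
  have h := d_mul_T_of_dvd (d := 2) (m := 3) (r := fun _ => -1) (x := x) (by exact_mod_cast hx)
  exact_mod_cast h

private theorem adm3 : Admissible 2 3 (fun _ => -1) := by
  intro j h0 h1
  have hj : j = 1 := by
    have : (j : ℤ) < 2 := by exact_mod_cast h1
    omega
  subst hj
  decide

private theorem t3_odd {x : ℤ} (hx : ¬ (2 : ℤ) ∣ x) :
    2 * T 2 3 (fun _ => -1) x = 3 * x + 1 := by
  have h := d_mul_T_of_not_dvd (d := 2) (m := 3) (r := fun _ => -1) adm3 (by norm_num)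
    (x := x) (by exact_mod_cast hx)
  push_cast at h
  linarith

private theorem t3_ndvd {x : ℤ} (hx : ¬ (3 : ℤ) ∣ x) : ¬ (3 : ℤ) ∣ T 2 3 (fun _ => -1) x := by
  by_cases h : (2 : ℤ) ∣ x
  · have := t3_even h
    omega
  · have := t3_odd h
    omega

private theorem t3_ndvd_iter {x : ℤ} (hx : ¬ (3 : ℤ) ∣ x) (k : ℕ) :
    ¬ (3 : ℤ) ∣ (T 2 3 (fun _ => -1))^[k] x := by
  induction k with
  | zero => simpa using hx
  | succ k ih =>
    rw [Function.iterate_succ_apply']
    exact t3_ndvd ih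

private theorem t3_pow (n : ℤ) (j : ℕ) : (T 2 3 (fun _ => -1))^[j] (2 ^ j * n) = n := by
  induction j with
  | zero => simp
  | succ j ih =>
    rw [Function.iterate_succ_apply]
    have h2 : (2 : ℤ) ∣ 2 ^ (j + 1) * n := ⟨2 ^ j * n, by ring⟩
    have h3 := t3_even h2
    have h4 : T 2 3 (fun _ => -1) (2 ^ (j + 1) * n) = 2 ^ j * n := by
      have : 2 * T 2 3 (fun _ => -1) (2 ^ (j + 1) * n) = 2 * (2 ^ j * n) := by
        rw [h3]; ring
      linarith
    rw [h4, ih]

private theorem t3_step {n : ℤ} (hn : ¬ (3 : ℤ) ∣ n) :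
    ∃ (j : ℕ) (n' : ℤ), ¬ (2 : ℤ) ∣ n' ∧ ¬ (3 : ℤ) ∣ n' ∧
      (T 2 3 (fun _ => -1))^[j + 1] n' = n := by
  have key : ∃ j : ℕ, (2 ^ (j + 1) * n) % 9 = 4 := by
    have h9 : n % 9 = 1 ∨ n % 9 = 2 ∨ n % 9 = 4 ∨ n % 9 = 5 ∨ n % 9 = 7 ∨ n % 9 = 8 := by omega
    rcases h9 with h | h | h | h | h | h
    · exact ⟨1, by norm_num; omega⟩
    · exact ⟨0, by norm_num; omega⟩
    · exact ⟨5, by norm_num; omega⟩
    · exact ⟨2, by norm_num; omega⟩
    · exact ⟨3, by norm_num; omega⟩
    · exact ⟨4, by norm_num; omega⟩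
  obtain ⟨j, hj⟩ := key
  have hp : (2 : ℤ) ^ (j + 1) * n = 2 * (2 ^ j * n) := by ring
  rw [hp] at hj
  generalize hq : (2 : ℤ) ^ j * n = q at hj
  refine ⟨j, (2 * q - 1) / 3, by omega, by omega, ?_⟩
  rw [Function.iterate_succ_apply]
  have h1 : ¬ (2 : ℤ) ∣ (2 * q - 1) / 3 := by omega
  have h2 := t3_odd h1
  have h3 : T 2 3 (fun _ => -1) ((2 * q - 1) / 3) = q := by omega
  rw [h3, ← hq, t3_pow]

theorem dead_three (a : ℤ) : Dead 2 3 (fun _ => -1) a ↔ (3 : ℤ) ∣ a := by
  constructor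
  · rintro ⟨k, hk⟩
    by_contra ha
    have hall : ∀ k : ℕ, ∃ (n : ℤ) (t : ℕ), ¬ (3 : ℤ) ∣ n ∧
        (T 2 3 (fun _ => -1))^[t] n = a ∧
        k ≤ ((Finset.range t).filter
          (fun i => ¬ ((2 : ℕ) : ℤ) ∣ (T 2 3 (fun _ => -1))^[i] n)).card := by
      intro k
      induction k with
      | zero => exact ⟨a, 0, ha, rfl, Nat.zero_le _⟩
      | succ k ih =>
        obtain ⟨n, t, hn, hta, hc⟩ := ih
        obtain ⟨j, n', h2, h3, hj⟩ := t3_step hn
        refine ⟨n', t + (j + 1), h3, ?_, ?_⟩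
        · rw [Function.iterate_add_apply, hj, hta]
        · set S := (Finset.range t).filter
            (fun i => ¬ ((2 : ℕ) : ℤ) ∣ (T 2 3 (fun _ => -1))^[i] n) with hS
          have hinj : Function.Injective (fun i : ℕ => i + (j + 1)) := fun x y h => by
            simpa using h
          have hsub : insert 0 (S.image (fun i => i + (j + 1))) ⊆
              (Finset.range (t + (j + 1))).filter
                (fun i => ¬ ((2 : ℕ) : ℤ) ∣ (T 2 3 (fun _ => -1))^[i] n') := by
            intro i hi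
            rw [Finset.mem_insert, Finset.mem_image] at hi
            rw [Finset.mem_filter, Finset.mem_range]
            rcases hi with rfl | ⟨i', hi', rfl⟩
            · exact ⟨by omega, by exact_mod_cast h2⟩
            · rw [hS, Finset.mem_filter, Finset.mem_range] at hi'
              refine ⟨by omega, ?_⟩
              rw [Function.iterate_add_apply, hj]
              exact hi'.2
          have hcard := Finset.card_le_card hsub
          rw [Finset.card_insert_of_notMem (by
            intro h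
            rw [Finset.mem_image] at h
            obtain ⟨i, _, hi⟩ := h
            omega), Finset.card_image_of_injective _ hinj] at hcard
          omega
    obtain ⟨n, t, _, hta, hc⟩ := hall k
    exact absurd (hk n t hta) (by simpa using hc)
  · intro ha
    refine ⟨1, fun n t hta => ?_⟩
    rw [Nat.lt_one_iff, Finset.card_eq_zero, Finset.filter_eq_empty_iff]
    intro i hi hodd
    rw [Finset.mem_range] at hi
    have hodd' : ¬ (2 : ℤ) ∣ (T 2 3 (fun _ => -1))^[i] n := by exact_mod_cast hodd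
    have h1 := t3_odd hodd'
    have h2 : ¬ (3 : ℤ) ∣ (T 2 3 (fun _ => -1))^[i + 1] n := by
      rw [Function.iterate_succ_apply']
      omega
    have h3 := t3_ndvd_iter h2 (t - (i + 1))
    rw [← Function.iterate_add_apply, Nat.sub_add_cancel hi, hta] at h3
    exact h3 ha

end Pool.Agent.Helper91.PL
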