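import Pool.Agent.Helper91.PL.NUa

/-!
# Block PL-NUc: the limit law in terms of the map `T`

The integers `n` in `[0, d ^ t m ^ k)` with a given word `w ∈ W d t` (`wd d m r t n = w`) form one residue
class modulo `d ^ t` (uniqueness: `wd_spec` gives `d ^ t ∣ m ^ sg w (n - n')`; existence: counting, or
solve `m ^ sg w * n ≡ Off w (mod d ^ t)` and use `wd_unique`), so there are `m ^ k` of them, and for
`n' = n + d ^ t j` one has `T^[t] n' = T^[t] n + m ^ sg w * j`. From `wd_spec`,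
`d ^ t * T^[t] n = m ^ sg w * n - Off w`: if `k ≤ sg w`, then `m ^ k ∣ T^[t] n - b ↔ Hit k b w`.
Hence the count is `m ^ k * cW d t (k ≤ sg w ∧ Hit k b w)` up to at most `m ^ k * cW d t (sg w < k)`, and
`few_nonzero` gives the limit `m ^ k * nu k b`.
-/

set_option autoImplicit false

namespace Pool.Agent.Helper91.PL

open Pool.Agent.Helper68.Moeller Pool.Agent.Helper52.Tao Pool.Agent.Helper8.ND
  Pool.Agent.Helper8.CL Filter Topology

variable {d m : ℕ} {r : ℤ → ℤ}

/-- The words of the integers `0, …, d ^ t - 1` are the words of length `t`, each once. -/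
theorem wd_card67 (hd : 2 ≤ d) (hco : Nat.Coprime m d) (hr : Admissible d m r) (t : ℕ)
    (P : List ℕ → Prop) [DecidablePred P] :
    (((Finset.range (d ^ t)).filter (fun i : ℕ => P (wd d m r t (i : ℤ)))).card : ℝ) =
      cW d t P := by
  classical
  have hinj : Set.InjOn (fun i : ℕ => wd d m r t (i : ℤ)) (Finset.range (d ^ t) : Set ℕ) := by
    intro i hi j hj hij
    have hi' := Finset.mem_range.1 (Finset.mem_coe.1 hi)
    have hj' := Finset.mem_range.1 (Finset.mem_coe.1 hj)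
    have hij' : wd d m r t (i : ℤ) = wd d m r t (j : ℤ) := hij
    have h1 := wd_spec hd hr t (i : ℤ)
    have h2 := wd_spec hd hr t (j : ℤ)
    rw [hij'] at h1
    have h3 : (d : ℤ) ^ t ∣ (m : ℤ) ^ sg (wd d m r t (j : ℤ)) * ((i : ℤ) - j) :=
      ⟨(T d m r)^[t] i - (T d m r)^[t] j, by linear_combination h2 - h1⟩
    have h4 : IsCoprime ((d : ℤ) ^ t) ((m : ℤ) ^ sg (wd d m r t (j : ℤ))) :=
      (Nat.isCoprime_iff_coprime.mpr hco).symm.pow
    have h5 := h4.dvd_of_dvd_mul_left h3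
    have h6 : (i : ℤ) - j = 0 := by
      refine Int.eq_zero_of_abs_lt_dvd h5 ?_
      have a1 : (i : ℤ) < (d : ℤ) ^ t := by exact_mod_cast hi'
      have a2 : (j : ℤ) < (d : ℤ) ^ t := by exact_mod_cast hj'
      rw [abs_lt]
      constructor <;> linarith [Int.natCast_nonneg i, Int.natCast_nonneg j]
    omega
  have himg : (Finset.range (d ^ t)).image (fun i : ℕ => wd d m r t (i : ℤ)) = W d t := by
    apply Finset.eq_of_subset_of_card_le
    · intro w hw
      obtain ⟨i, -, rfl⟩ := Finset.mem_image.1 hw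
      exact wd_mem hd r t _
    · rw [card_W, Finset.card_image_of_injOn hinj, Finset.card_range]
  rw [cW_eq_sum, ← himg, Finset.sum_image hinj, Finset.card_filter]
  push_cast
  rfl

/-- Shifts by multiples of `d ^ t`. -/
theorem iter_add67 (hd : 2 ≤ d) (hco : Nat.Coprime m d) (hr : Admissible d m r) (t : ℕ)
    (n j : ℤ) : (T d m r)^[t] (n + (d : ℤ) ^ t * j) =
      (T d m r)^[t] n + (m : ℤ) ^ sg (wd d m r t n) * j := by
  refine (wd_unique hd hco hr (wd_mem (m := m) hd r t n) ?_).2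
  have h := wd_spec hd hr t n
  linear_combination -h

/-- The condition in terms of the word. -/
theorem hit_iff67 (hd : 2 ≤ d) (hco : Nat.Coprime m d) (hr : Admissible d m r) (t : ℕ) {k : ℕ}
    (b n : ℤ) (hk : k ≤ sg (wd d m r t n)) :
    (m : ℤ) ^ k ∣ (T d m r)^[t] n - b ↔ Hit d m r k b (wd d m r t n) := by
  unfold Hit
  rw [length_of_mem_W (wd_mem hd r t n)]
  have h := wd_spec hd hr t n
  have h1 : (m : ℤ) ^ k ∣ (m : ℤ) ^ sg (wd d m r t n) * n :=
    Dvd.dvd.mul_right (pow_dvd_pow _ hk) _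
  have h2 : IsCoprime ((m : ℤ) ^ k) ((d : ℤ) ^ t) :=
    (Nat.isCoprime_iff_coprime.2 hco).pow
  have e : (m : ℤ) ^ sg (wd d m r t n) * n = (d : ℤ) ^ t * ((T d m r)^[t] n - b) +
      ((d : ℤ) ^ t * b + Off d m r (wd d m r t n)) := by
    linear_combination -h
  rw [e] at h1
  constructor
  · intro h3
    exact (dvd_add_right (Dvd.dvd.mul_left h3 _)).1 h1
  · intro h3
    exact h2.dvd_of_dvd_mul_left ((dvd_add_left h3).1 h1)

/-- Splitting a range. -/
theorem sum_range_mul67 (D M : ℕ) (f : ℕ → ℝ) :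
    ∑ n ∈ Finset.range (D * M), f n =
      ∑ i ∈ Finset.range D, ∑ j ∈ Finset.range M, f (i + D * j) := by
  induction M with
  | zero => simp
  | succ M ih =>
    rw [Nat.mul_succ, Finset.sum_range_add, ih]
    simp_rw [Finset.sum_range_succ]
    rw [Finset.sum_add_distrib]
    congr 1
    refine Finset.sum_congr rfl fun i _ => ?_
    rw [add_comm]

/-- The count. -/
theorem count67 (hd : 2 ≤ d) (hco : Nat.Coprime m d) (hr : Admissible d m r) (t k : ℕ) (b : ℤ) :
    |(((Finset.range (d ^ t * m ^ k)).filter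
      (fun n : ℕ => (m : ℤ) ^ k ∣ (T d m r)^[t] (n : ℤ) - b)).card : ℝ) -
        (m : ℝ) ^ k * cW d t (fun w => k ≤ sg w ∧ Hit d m r k b w)| ≤
      (m : ℝ) ^ k * cW d t (fun w => sg w < k) := by
  classical
  have e0 : (((Finset.range (d ^ t * m ^ k)).filter
      (fun n : ℕ => (m : ℤ) ^ k ∣ (T d m r)^[t] (n : ℤ) - b)).card : ℝ) =
      ∑ i ∈ Finset.range (d ^ t), ∑ j ∈ Finset.range (m ^ k),
        (if (m : ℤ) ^ k ∣ (T d m r)^[t] (((i + d ^ t * j : ℕ) : ℕ) : ℤ) - b then (1 : ℝ) else 0) := by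
    rw [Finset.card_filter]
    push_cast
    rw [sum_range_mul67]
    push_cast
    rfl
  have e1 := wd_card67 (m := m) hd hco hr t (fun w => k ≤ sg w ∧ Hit d m r k b w)
  have e2 := wd_card67 (m := m) hd hco hr t (fun w => sg w < k)
  rw [e0, ← e1, ← e2, Finset.card_filter, Finset.card_filter]
  push_cast
  rw [Finset.mul_sum, Finset.mul_sum, ← Finset.sum_sub_distrib]
  refine (Finset.abs_sum_le_sum_abs _ _).trans (Finset.sum_le_sum fun i _ => ?_)
  have hm0 : (0 : ℝ) ≤ (m : ℝ) ^ k := by positivity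
  by_cases hk : k ≤ sg (wd d m r t (i : ℤ))
  · have h1 : ∀ j ∈ Finset.range (m ^ k),
        (if (m : ℤ) ^ k ∣ (T d m r)^[t] ((i : ℤ) + (d : ℤ) ^ t * (j : ℤ)) - b then (1 : ℝ) else 0) =
        if Hit d m r k b (wd d m r t (i : ℤ)) then (1 : ℝ) else 0 := by
      intro j _
      have h2 : ((m : ℤ) ^ k ∣ (T d m r)^[t] ((i : ℤ) + (d : ℤ) ^ t * (j : ℤ)) - b) ↔
          Hit d m r k b (wd d m r t (i : ℤ)) := by
        rw [iter_add67 hd hco hr, ← hit_iff67 hd hco hr t b i hk]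
        have h3 : (m : ℤ) ^ k ∣ (m : ℤ) ^ sg (wd d m r t (i : ℤ)) * (j : ℤ) :=
          Dvd.dvd.mul_right (pow_dvd_pow _ hk) _
        rw [show (T d m r)^[t] (i : ℤ) + (m : ℤ) ^ sg (wd d m r t (i : ℤ)) * (j : ℤ) - b =
          ((T d m r)^[t] (i : ℤ) - b) + (m : ℤ) ^ sg (wd d m r t (i : ℤ)) * (j : ℤ) by ring]
        exact dvd_add_left h3
      simp only [h2]
    rw [Finset.sum_congr rfl h1, Finset.sum_const, Finset.card_range, nsmul_eq_mul]
    have h4 : ¬ sg (wd d m r t (i : ℤ)) < k := not_lt.2 hk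
    simp only [hk, true_and, h4, if_false, mul_zero]
    push_cast
    rw [sub_self, abs_zero]
  · have h4 : sg (wd d m r t (i : ℤ)) < k := not_le.1 hk
    simp only [hk, false_and, if_false, mul_zero, sub_zero, h4, if_true, mul_one]
    rw [abs_of_nonneg (Finset.sum_nonneg fun j _ => by split_ifs <;> norm_num)]
    refine (Finset.sum_le_card_nsmul _ _ 1 fun j _ => by split_ifs <;> norm_num).trans ?_
    rw [Finset.card_range, nsmul_eq_mul, mul_one]
    push_cast
    exact le_rfl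

theorem fk_limit (hd : 2 ≤ d) (hdm : d < m) (hco : Nat.Coprime m d) (hr : Admissible d m r) (k : ℕ)
    (b : ℤ) :
    Tendsto (fun t : ℕ => (((Finset.range (d ^ t * m ^ k)).filter
      (fun n : ℕ => (m : ℤ) ^ k ∣ (T d m r)^[t] (n : ℤ) - b)).card : ℝ) / (d : ℝ) ^ t)
      atTop (𝓝 (fk d m r k b)) := by
  have hd0 : (0 : ℝ) < d := by exact_mod_cast (by omega : 0 < d)
  have h1 : Tendsto (fun t : ℕ => (m : ℝ) ^ k * nut d m r t k b) atTop (𝓝 (fk d m r k b)) := by
    unfold fk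
    exact (tendsto_nut (by omega) k b).const_mul _
  have h2 : Tendsto (fun t : ℕ => (m : ℝ) ^ k * (9 / 10 : ℝ) ^ t) atTop (𝓝 0) := by
    have := (tendsto_pow_atTop_nhds_zero_of_lt_one (by norm_num : (0 : ℝ) ≤ 9 / 10)
      (by norm_num)).const_mul ((m : ℝ) ^ k)
    simpa using this
  have h3 : Tendsto (fun t : ℕ => (((Finset.range (d ^ t * m ^ k)).filter
      (fun n : ℕ => (m : ℤ) ^ k ∣ (T d m r)^[t] (n : ℤ) - b)).card : ℝ) / (d : ℝ) ^ t -
        (m : ℝ) ^ k * nut d m r t k b) atTop (𝓝 0) := by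
    refine squeeze_zero_norm' ?_ h2
    filter_upwards [eventually_ge_atTop (5 * k)] with t ht
    have h4 := count67 hd hco hr t k b
    have h5 := few_nonzero hd ht
    have h6 : (0 : ℝ) < (d : ℝ) ^ t := by positivity
    have hm0 : (0 : ℝ) ≤ (m : ℝ) ^ k := by positivity
    unfold nut
    rw [mul_div_assoc', ← sub_div, Real.norm_eq_abs, abs_div, abs_of_pos h6, div_le_iff₀ h6]
    refine h4.trans ?_
    calc (m : ℝ) ^ k * cW d t (fun w => sg w < k)
        ≤ (m : ℝ) ^ k * ((d : ℝ) ^ t * (9 / 10) ^ t) := mul_le_mul_of_nonneg_left h5 hm0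
      _ = (m : ℝ) ^ k * (9 / 10) ^ t * (d : ℝ) ^ t := by ring
  have h7 := h3.add h1
  simpa using h7

end Pool.Agent.Helper91.PL
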