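import Pool.Agent.Helper91.PL.NUb

/-!
# Block PL-POS: the limit law is positive on its support

Step A. There are `κ > 0` and `j₁` with `#{x < m ^ j : fk j x > 1 / 4} ≥ κ m ^ j` for `j ≥ j₁`. By `nu_cauchy`
with `ε = 1 / 4`: `∑_{x < m^j} |nu j x - nu j₁ x / m ^ (j - j₁)| ≤ 1 / 4`. The `x` with `fk j x ≤ 1 / 4` have
total `nu j`-mass `≤ 1 / 4`, so (`sum_nu`) the set `S` of the other `x` has mass `≥ 3 / 4`, so
`∑_{x ∈ S} nu j₁ x / m ^ (j - j₁) ≥ 1 / 2`, and `nu j₁ ≤ 1` gives `|S| ≥ m ^ (j - j₁) / 2`; `κ = m ^ (- j₁) / 2`.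
Step B. For every `k` there are `δ > 0` and `K₀ ≥ k` such that for all `K ≥ K₀` and all `b` with `nu k b > 0`:
`#{c < m ^ K : m ^ k ∣ c - b, fk K c > δ} ≥ κ m ^ (K - k)`. By `nu_pos_iff` there is a word `w` of some length `t`
with `sg w = k`, `Hit k b w`; there are finitely many residues `b`, so `t ≤ t_k` and we put
`δ = m ^ k d ^ (-t_k) / 8`. If `m ^ k ∣ c - b`, then `d ^ t c + Off w = m ^ k x` for an integer `x = x(c)`, and by
`nu_push` `nu (K - k) x ≤ d ^ t nu K c`, i.e. `fk K c ≥ m ^ k d ^ (-t) fk (K - k) x`. The map `c ↦ x(c)` is a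
bijection of the classes modulo `m ^ K` in the class `b` modulo `m ^ k` to the classes modulo
`m ^ (K - k)` (injective, as `d` is invertible; same cardinality). Use Step A for `j = K - k`.
Step C. Induction on `n`: for all `η > 0` there are `k`, `δ > 0` and a set `R` of residues modulo `m ^ k` with
`|R| ≤ (1 - κ) ^ n m ^ k`, `nu k b > 0` for `b ∈ R`, such that for all `K ≥ k`:
`#{c < m ^ K : 0 < nu K c, fk K c ≤ δ, (c mod m ^ k) ∉ R} ≤ η m ^ K`. `n = 0`: `k = 0`, `R = {0}`. Step: take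
`k, δ, R` for `η / 2`, `δ_k`, `K₀` from Step B, and `k' ≥ K₀` such that (`nu_cauchy`) the error between `k'` and
any `K ≥ k'` is `≤ (η / 2) (δ_k / 2)`. Put `R' = {c < m ^ k' : (c mod m ^ k) ∈ R, nu k' c > 0, fk k' c ≤ δ_k}`;
`|R'| ≤ (1 - κ) m ^ (k' - k) |R|` by Step B (with `K = k'`), and `δ' = min δ (δ_k / 2)`. If `c < m ^ K`, `nu K c > 0`,
`fk K c ≤ δ'`, `(c mod m ^ k') ∉ R'`, then either `(c mod m ^ k) ∉ R`, or (`nu k' c ≥ nu K c > 0`, `nu_anti`)
`fk k' c > δ_k`, so `|fk K c - fk k' c| ≥ δ_k / 2`; the number of the latter `c` is `≤ (η / 2) m ^ K` (Markov).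
Conclusion: `n` with `(1 - κ) ^ n ≤ ε / 2`, `η = ε / 2`.
-/

set_option autoImplicit false

namespace Pool.Agent.Helper91.PL

open Pool.Agent.Helper68.Moeller Pool.Agent.Helper52.Tao Pool.Agent.Helper8.ND
  Pool.Agent.Helper8.CL Filter Topology

variable {d m : ℕ} {r : ℤ → ℤ}

/-- Step A. -/
theorem pos_stepA (hd : 2 ≤ d) (hdm : d < m) (hco : Nat.Coprime m d) (hmix : Mixing d m r) :
    ∃ κ : ℝ, 0 < κ ∧ κ ≤ 1 / 2 ∧ ∃ j₁ : ℕ, ∀ j : ℕ, j₁ ≤ j →
      κ * (m : ℝ) ^ j ≤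
        (((Finset.range (m ^ j)).filter (fun x : ℕ => 1 / 4 < fk d m r j x)).card : ℝ) := by
  classical
  have hm1 : 1 ≤ m := by omega
  have hm0 : (0 : ℝ) < m := by exact_mod_cast (by omega : 0 < m)
  obtain ⟨j₁, hj₁⟩ := nu_cauchy hd hdm hco hmix (ε := 1 / 4) (by norm_num)
  have hpow1 : (1 : ℝ) ≤ (m : ℝ) ^ j₁ := one_le_pow₀ (by exact_mod_cast hm1)
  refine ⟨1 / (2 * (m : ℝ) ^ j₁), by positivity, ?_, j₁, fun j hj => ?_⟩
  · rw [div_le_div_iff₀ (by positivity) (by norm_num)]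
    linarith
  set S := (Finset.range (m ^ j)).filter (fun x : ℕ => 1 / 4 < fk d m r j x) with hS
  have hpj : (0 : ℝ) < (m : ℝ) ^ j := by positivity
  have htot := sum_nu (r := r) hd hm1 hco j
  have hsplit := Finset.sum_filter_add_sum_filter_not (Finset.range (m ^ j))
    (fun x : ℕ => 1 / 4 < fk d m r j x) (fun x : ℕ => nu d m r j x)
  have hlow : ∑ x ∈ (Finset.range (m ^ j)).filter (fun x : ℕ => ¬ 1 / 4 < fk d m r j x),
      nu d m r j x ≤ 1 / 4 := by
    have h1 : ∀ x ∈ (Finset.range (m ^ j)).filter (fun x : ℕ => ¬ 1 / 4 < fk d m r j x),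
        nu d m r j x ≤ 1 / 4 / (m : ℝ) ^ j := by
      intro x hx
      have h2 := (Finset.mem_filter.1 hx).2
      rw [not_lt, fk] at h2
      rw [le_div_iff₀ hpj]
      linarith
    have h3 := Finset.sum_le_card_nsmul _ _ _ h1
    have h4 : (((Finset.range (m ^ j)).filter
        (fun x : ℕ => ¬ 1 / 4 < fk d m r j x)).card : ℝ) ≤ (m : ℝ) ^ j := by
      have := Finset.card_filter_le (Finset.range (m ^ j))
        (fun x : ℕ => ¬ 1 / 4 < fk d m r j x)
      rw [Finset.card_range] at this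
      exact_mod_cast this
    rw [nsmul_eq_mul] at h3
    calc _ ≤ _ := h3
      _ ≤ (m : ℝ) ^ j * (1 / 4 / (m : ℝ) ^ j) := by gcongr
      _ = 1 / 4 := by field_simp
  have hSm : 3 / 4 ≤ ∑ x ∈ S, nu d m r j x := by
    rw [hS]
    linarith [hsplit, htot, hlow]
  have hdiff : ∑ x ∈ S, |nu d m r j x - nu d m r j₁ x / (m : ℝ) ^ (j - j₁)| ≤ 1 / 4 :=
    (Finset.sum_le_sum_of_subset_of_nonneg (Finset.filter_subset _ _)
      fun _ _ _ => abs_nonneg _).trans (hj₁ j₁ j le_rfl hj)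
  have h5 : ∑ x ∈ S, nu d m r j x ≤
      ∑ x ∈ S, (|nu d m r j x - nu d m r j₁ x / (m : ℝ) ^ (j - j₁)| + 1 / (m : ℝ) ^ (j - j₁)) := by
    refine Finset.sum_le_sum fun x _ => ?_
    have h6 := le_abs_self (nu d m r j x - nu d m r j₁ x / (m : ℝ) ^ (j - j₁))
    have h7 : nu d m r j₁ (x : ℤ) / (m : ℝ) ^ (j - j₁) ≤ 1 / (m : ℝ) ^ (j - j₁) := by
      gcongr
      exact nu_le_one _ _
    linarith
  rw [Finset.sum_add_distrib, Finset.sum_const, nsmul_eq_mul] at h5
  have h8 : 1 / 2 ≤ (S.card : ℝ) * (1 / (m : ℝ) ^ (j - j₁)) := by linarith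
  have h9 : (m : ℝ) ^ j = (m : ℝ) ^ (j - j₁) * (m : ℝ) ^ j₁ := by
    rw [← pow_add, Nat.sub_add_cancel hj]
  have h10 : (0 : ℝ) < (m : ℝ) ^ (j - j₁) := by positivity
  rw [mul_one_div, le_div_iff₀ h10] at h8
  rw [h9]
  calc 1 / (2 * (m : ℝ) ^ j₁) * ((m : ℝ) ^ (j - j₁) * (m : ℝ) ^ j₁)
      = 1 / 2 * (m : ℝ) ^ (j - j₁) := by field_simp
    _ ≤ S.card := h8

/-- Step B, one residue. -/
theorem pos_stepB_one (hd : 2 ≤ d) (hm : 1 ≤ m) (hco : Nat.Coprime m d) {k t : ℕ} {b : ℤ}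
    {w : List ℕ} (hw : w ∈ W d t) (hsg : sg w = k) (hhit : Hit d m r k b w) {K : ℕ} (hK : k ≤ K)
    {δ : ℝ} (hδ : δ ≤ 1 / (4 * (d : ℝ) ^ t)) :
    ((Finset.range (m ^ (K - k))).filter (fun x : ℕ => 1 / 4 < fk d m r (K - k) x)).card ≤
      ((Finset.range (m ^ K)).filter
        (fun c : ℕ => (m : ℤ) ^ k ∣ (c : ℤ) - b ∧ δ < fk d m r K c)).card := by
  classical
  obtain ⟨e, he⟩ := exists_e hco K
  have hmK : (0 : ℤ) < (m : ℤ) ^ K := by positivity
  have hlen := length_of_mem_W hw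
  -- the class `c(x)`
  let cx : ℕ → ℕ := fun x => ((e ^ t * ((m : ℤ) ^ k * x - Off d m r w)) % ((m : ℤ) ^ K)).toNat
  have hcx : ∀ x : ℕ, ((cx x : ℕ) : ℤ) = (e ^ t * ((m : ℤ) ^ k * x - Off d m r w)) % ((m : ℤ) ^ K) :=
    fun x => Int.toNat_of_nonneg (Int.emod_nonneg _ hmK.ne')
  have hlt : ∀ x : ℕ, cx x < m ^ K := by
    intro x
    have h1 : ((cx x : ℕ) : ℤ) < (m : ℤ) ^ K := by
      rw [hcx]
      exact Int.emod_lt_of_pos _ hmK
    exact_mod_cast h1
  have hdt : (m : ℤ) ^ K ∣ (d : ℤ) ^ t * e ^ t - 1 := by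
    have h1 : (d : ℤ) * e - 1 ∣ ((d : ℤ) * e) ^ t - 1 ^ t := sub_dvd_pow_sub_pow _ _ _
    rw [one_pow, mul_pow] at h1
    exact he.trans h1
  have hkey : ∀ x : ℕ, (m : ℤ) ^ K ∣ (d : ℤ) ^ t * (cx x : ℤ) + Off d m r w - (m : ℤ) ^ k * x := by
    intro x
    have h1 : (m : ℤ) ^ K ∣ (cx x : ℤ) - e ^ t * ((m : ℤ) ^ k * x - Off d m r w) := by
      rw [hcx, Int.emod_def]
      exact ⟨-((e ^ t * ((m : ℤ) ^ k * x - Off d m r w)) / (m : ℤ) ^ K), by ring⟩
    obtain ⟨u, hu⟩ := h1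
    obtain ⟨v, hv⟩ := hdt
    refine ⟨(d : ℤ) ^ t * u + v * ((m : ℤ) ^ k * x - Off d m r w), ?_⟩
    linear_combination (d : ℤ) ^ t * hu + ((m : ℤ) ^ k * x - Off d m r w) * hv
  have hinj : Set.InjOn cx (Finset.range (m ^ (K - k))) := by
    intro x hx y hy hxy
    have h1 := hkey x
    have h2 := hkey y
    rw [hxy] at h1
    have h3 : (m : ℤ) ^ K ∣ (m : ℤ) ^ k * ((x : ℤ) - y) := by
      obtain ⟨u1, hu1⟩ := h1
      obtain ⟨u2, hu2⟩ := h2
      exact ⟨u2 - u1, by linear_combination hu2 - hu1⟩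
    have h4 : (m : ℤ) ^ K = (m : ℤ) ^ k * (m : ℤ) ^ (K - k) := by
      rw [← pow_add, Nat.add_sub_cancel' hK]
    rw [h4] at h3
    have h5 : (m : ℤ) ^ (K - k) ∣ (x : ℤ) - y :=
      (mul_dvd_mul_iff_left (by positivity)).1 h3
    have hx' : (x : ℤ) < (m : ℤ) ^ (K - k) := by exact_mod_cast Finset.mem_range.1 hx
    have hy' : (y : ℤ) < (m : ℤ) ^ (K - k) := by exact_mod_cast Finset.mem_range.1 hy
    have h6 : |(x : ℤ) - y| < (m : ℤ) ^ (K - k) := by
      rw [abs_lt]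
      constructor <;> omega
    have h7 := Int.eq_zero_of_abs_lt_dvd h5 h6
    omega
  refine Finset.card_le_card_of_injOn cx ?_ (hinj.mono ?_)
  · intro x hx
    have hx' := Finset.mem_filter.1 (Finset.mem_coe.1 hx)
    refine Finset.mem_coe.2 (Finset.mem_filter.2 ⟨Finset.mem_range.2 (hlt x), ?_, ?_⟩)
    · -- `m ^ k ∣ c - b`
      have h1 : (m : ℤ) ^ k ∣ (d : ℤ) ^ t * (cx x : ℤ) + Off d m r w := by
        have h2 : (m : ℤ) ^ k ∣ (d : ℤ) ^ t * (cx x : ℤ) + Off d m r w - (m : ℤ) ^ k * x :=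
          (pow_dvd_pow _ hK).trans (hkey x)
        have h3 := dvd_add h2 (dvd_mul_right ((m : ℤ) ^ k) (x : ℤ))
        simpa using h3
      rw [Hit, hlen] at hhit
      have h4 : (m : ℤ) ^ k ∣ (d : ℤ) ^ t * ((cx x : ℤ) - b) := by
        obtain ⟨u1, hu1⟩ := h1
        obtain ⟨u2, hu2⟩ := hhit
        exact ⟨u1 - u2, by linear_combination hu1 - hu2⟩
      have h5 : IsCoprime ((m : ℤ) ^ k) ((d : ℤ) ^ t) :=
        IsCoprime.pow (Nat.isCoprime_iff_coprime.mpr hco)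
      exact h5.dvd_of_dvd_mul_left h4
    · -- the value
      have hp := nu_push (r := r) hd hw (K := K) (by rw [hsg]; exact hK) (b := (cx x : ℤ))
        (x := (x : ℤ)) (by rw [hsg]; exact hkey x)
      rw [hsg] at hp
      have hd0 : (0 : ℝ) < (d : ℝ) ^ t := by positivity
      have hm0 : (1 : ℝ) ≤ (m : ℝ) := by exact_mod_cast hm
      have h6 : 1 / 4 < (m : ℝ) ^ (K - k) * nu d m r (K - k) x := hx'.2
      have h7 : (m : ℝ) ^ K = (m : ℝ) ^ k * (m : ℝ) ^ (K - k) := by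
        rw [← pow_add, Nat.add_sub_cancel' hK]
      have h8 : (1 : ℝ) ≤ (m : ℝ) ^ k := one_le_pow₀ hm0
      have h9 : 1 / 4 < (d : ℝ) ^ t * fk d m r K (cx x) := by
        have h10 : (0 : ℝ) < (m : ℝ) ^ (K - k) := by positivity
        calc (1 : ℝ) / 4 < (m : ℝ) ^ (K - k) * nu d m r (K - k) x := h6
          _ ≤ (m : ℝ) ^ (K - k) * ((d : ℝ) ^ t * nu d m r K (cx x)) := by gcongr
          _ = 1 * ((m : ℝ) ^ (K - k) * ((d : ℝ) ^ t * nu d m r K (cx x))) := by ring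
          _ ≤ (m : ℝ) ^ k * ((m : ℝ) ^ (K - k) * ((d : ℝ) ^ t * nu d m r K (cx x))) := by
              have := nu_nonneg (d := d) (m := m) (r := r) K (cx x)
              gcongr
          _ = (d : ℝ) ^ t * fk d m r K (cx x) := by rw [fk, h7]; ring
      calc δ ≤ 1 / (4 * (d : ℝ) ^ t) := hδ
        _ < fk d m r K (cx x) := by
            rw [div_lt_iff₀ (by positivity)]
            linarith
  · intro x hx
    exact Finset.mem_coe.2 (Finset.mem_of_mem_filter x (Finset.mem_coe.1 hx))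

/-- Step B. -/
theorem pos_stepB (hd : 2 ≤ d) (hdm : d < m) (hco : Nat.Coprime m d) {κ : ℝ} {j₁ : ℕ}
    (hA : ∀ j : ℕ, j₁ ≤ j → κ * (m : ℝ) ^ j ≤
        (((Finset.range (m ^ j)).filter (fun x : ℕ => 1 / 4 < fk d m r j x)).card : ℝ))
    (k : ℕ) :
    ∃ δ : ℝ, 0 < δ ∧ ∀ K : ℕ, k + j₁ ≤ K → ∀ b ∈ Finset.range (m ^ k), 0 < nu d m r k (b : ℤ) →
      κ * (m : ℝ) ^ (K - k) ≤ (((Finset.range (m ^ K)).filter
        (fun c : ℕ => (m : ℤ) ^ k ∣ (c : ℤ) - (b : ℤ) ∧ δ < fk d m r K c)).card : ℝ) := by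
  classical
  have hm1 : 1 ≤ m := by omega
  have h1 : ∀ b : ℕ, ∃ t : ℕ, 0 < nu d m r k (b : ℤ) →
      ∃ w ∈ W d t, sg w = k ∧ Hit d m r k (b : ℤ) w := by
    intro b
    by_cases hb : 0 < nu d m r k (b : ℤ)
    · obtain ⟨t, w, hw⟩ := (nu_pos_iff hd hco k (b : ℤ)).1 hb
      exact ⟨t, fun _ => ⟨w, hw⟩⟩
    · exact ⟨0, fun h => absurd h hb⟩
  choose tt htt using h1
  set T := (Finset.range (m ^ k)).sup tt with hT
  have hd0 : (0 : ℝ) < d := by exact_mod_cast (by omega : 0 < d)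
  refine ⟨1 / (4 * (d : ℝ) ^ T), by positivity, fun K hK b hb hpos => ?_⟩
  obtain ⟨w, hw, hsg, hhit⟩ := htt b hpos
  have htT : tt b ≤ T := Finset.le_sup hb
  have hδ : 1 / (4 * (d : ℝ) ^ T) ≤ 1 / (4 * (d : ℝ) ^ tt b) := by
    have hd1 : (1 : ℝ) ≤ d := by exact_mod_cast (by omega : 1 ≤ d)
    gcongr
  have h2 := pos_stepB_one hd hm1 hco hw hsg hhit (K := K) (by omega) hδ
  calc κ * (m : ℝ) ^ (K - k) ≤ _ := hA (K - k) (by omega)
    _ ≤ _ := by exact_mod_cast h2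

/-- elements of a residue class -/
theorem card_class_le (A B b : ℕ) :
    ((Finset.range (A * B)).filter (fun c : ℕ => c % A = b)).card ≤ B := by
  classical
  rcases Nat.eq_zero_or_pos A with hA | hA
  · subst hA
    simp
  calc ((Finset.range (A * B)).filter (fun c : ℕ => c % A = b)).card
      ≤ (Finset.range B).card := by
        refine Finset.card_le_card_of_injOn (fun c => c / A) ?_ ?_
        · intro c hc
          have hc' := Finset.mem_filter.1 (Finset.mem_coe.1 hc)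
          refine Finset.mem_coe.2 (Finset.mem_range.2 ?_)
          exact Nat.div_lt_of_lt_mul (Finset.mem_range.1 hc'.1)
        · intro c hc c' hc' h
          have h1 := (Finset.mem_filter.1 (Finset.mem_coe.1 hc)).2
          have h2 := (Finset.mem_filter.1 (Finset.mem_coe.1 hc')).2
          have h3 := Nat.div_add_mod c A
          have h4 := Nat.div_add_mod c' A
          simp only at h
          rw [← h3, ← h4, h, h1, h2]
    _ = B := Finset.card_range B

/-- Step C. -/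
theorem pos_stepC (hd : 2 ≤ d) (hdm : d < m) (hco : Nat.Coprime m d) (hmix : Mixing d m r)
    {κ : ℝ} (hκ1 : κ ≤ 1 / 2) {j₁ : ℕ}
    (hA : ∀ j : ℕ, j₁ ≤ j → κ * (m : ℝ) ^ j ≤
        (((Finset.range (m ^ j)).filter (fun x : ℕ => 1 / 4 < fk d m r j x)).card : ℝ))
    (n : ℕ) : ∀ η : ℝ, 0 < η → ∃ k : ℕ, ∃ δ : ℝ, 0 < δ ∧ ∃ R : Finset ℕ,
      (R.card : ℝ) ≤ (1 - κ) ^ n * (m : ℝ) ^ k ∧
      (∀ b ∈ R, b < m ^ k ∧ 0 < nu d m r k (b : ℤ)) ∧
      ∀ K : ℕ, k ≤ K → (((Finset.range (m ^ K)).filter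
        (fun c : ℕ => (0 < nu d m r K c ∧ fk d m r K c ≤ δ) ∧ c % m ^ k ∉ R)).card : ℝ) ≤
          η * (m : ℝ) ^ K := by
  classical
  have hm1 : 1 ≤ m := by omega
  have hm0 : (0 : ℝ) < m := by exact_mod_cast (by omega : 0 < m)
  induction n with
  | zero =>
    intro η hη
    refine ⟨0, 1, one_pos, {0}, by simp, ?_, ?_⟩
    · intro b hb
      rw [Finset.mem_singleton] at hb
      subst hb
      have h1 := sum_nu (r := r) hd hm1 hco 0
      simp only [pow_zero, Finset.range_one, Finset.sum_singleton] at h1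
      refine ⟨by simp, ?_⟩
      rw [h1]
      exact one_pos
    · intro K _
      have h1 : (Finset.range (m ^ K)).filter (fun c : ℕ =>
          (0 < nu d m r K c ∧ fk d m r K c ≤ 1) ∧ c % m ^ 0 ∉ ({0} : Finset ℕ)) = ∅ := by
        refine Finset.filter_eq_empty_iff.2 fun c _ => ?_
        simp [Nat.mod_one]
      rw [h1]
      simp only [Finset.card_empty, Nat.cast_zero]
      positivity
  | succ n ih =>
    intro η hη
    obtain ⟨k, δ, hδ, R, hRc, hRpos, hR⟩ := ih (η / 2) (by positivity)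
    obtain ⟨δk, hδk, hB⟩ := pos_stepB (r := r) hd hdm hco hA k
    obtain ⟨k0, hk0⟩ := nu_cauchy hd hdm hco hmix (ε := η * δk / 4) (by positivity)
    set k' := max (k + j₁) k0 with hk'
    have hk'1 : k + j₁ ≤ k' := le_max_left _ _
    have hk'2 : k0 ≤ k' := le_max_right _ _
    have hkk' : k ≤ k' := by omega
    set R' := (Finset.range (m ^ k')).filter (fun c : ℕ =>
      c % m ^ k ∈ R ∧ 0 < nu d m r k' (c : ℤ) ∧ fk d m r k' c ≤ δk) with hR'
    have hpk : m ^ k' = m ^ k * m ^ (k' - k) := by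
      rw [← pow_add, Nat.add_sub_cancel' hkk']
    have hpkR : (m : ℝ) ^ k' = (m : ℝ) ^ k * (m : ℝ) ^ (k' - k) := by exact_mod_cast hpk
    -- the size of `R'`
    have hcard : ∀ b ∈ R, (((Finset.range (m ^ k')).filter (fun c : ℕ =>
        c % m ^ k = b ∧ fk d m r k' c ≤ δk)).card : ℝ) ≤ (1 - κ) * (m : ℝ) ^ (k' - k) := by
      intro b hb
      obtain ⟨hb1, hb2⟩ := hRpos b hb
      have h1 := hB k' hk'1 b (Finset.mem_range.2 hb1) hb2
      have h2 : ((Finset.range (m ^ k')).filter (fun c : ℕ => c % m ^ k = b)).card ≤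
          m ^ (k' - k) := by
        rw [hpk]
        exact card_class_le _ _ _
      have h3 : ((Finset.range (m ^ k')).filter
          (fun c : ℕ => (m : ℤ) ^ k ∣ (c : ℤ) - (b : ℤ) ∧ δk < fk d m r k' c)).card +
          ((Finset.range (m ^ k')).filter (fun c : ℕ =>
            c % m ^ k = b ∧ fk d m r k' c ≤ δk)).card ≤
          ((Finset.range (m ^ k')).filter (fun c : ℕ => c % m ^ k = b)).card := by
        rw [← Finset.card_union_of_disjoint]
        · refine Finset.card_le_card ?_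
          intro c hc
          rw [Finset.mem_union, Finset.mem_filter, Finset.mem_filter] at hc
          rw [Finset.mem_filter]
          rcases hc with ⟨hc1, hc2, _⟩ | ⟨hc1, hc2, _⟩
          · refine ⟨hc1, ?_⟩
            have h4 : (b : ℤ) ≡ (c : ℤ) [ZMOD ((m ^ k : ℕ) : ℤ)] := by
              rw [Int.modEq_iff_dvd]
              exact_mod_cast hc2
            have h5 : b ≡ c [MOD m ^ k] := (Int.natCast_modEq_iff).1 h4
            have h6 : b % m ^ k = c % m ^ k := h5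
            rw [← h6, Nat.mod_eq_of_lt hb1]
          · exact ⟨hc1, hc2⟩
        · rw [Finset.disjoint_filter]
          intro c _ h4 h5
          exact absurd h5.2 (not_le.2 h4.2)
      have h4 : (((Finset.range (m ^ k')).filter
          (fun c : ℕ => (m : ℤ) ^ k ∣ (c : ℤ) - (b : ℤ) ∧ δk < fk d m r k' c)).card : ℝ) +
          (((Finset.range (m ^ k')).filter (fun c : ℕ =>
            c % m ^ k = b ∧ fk d m r k' c ≤ δk)).card : ℝ) ≤ (m : ℝ) ^ (k' - k) := by
        exact_mod_cast h3.trans h2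
      linarith
    have hR'card : (R'.card : ℝ) ≤ (1 - κ) ^ (n + 1) * (m : ℝ) ^ k' := by
      have h1 : R' ⊆ R.biUnion (fun b => (Finset.range (m ^ k')).filter (fun c : ℕ =>
          c % m ^ k = b ∧ fk d m r k' c ≤ δk)) := by
        intro c hc
        rw [hR', Finset.mem_filter] at hc
        rw [Finset.mem_biUnion]
        exact ⟨c % m ^ k, hc.2.1, Finset.mem_filter.2 ⟨hc.1, rfl, hc.2.2.2⟩⟩
      have h2 : (R'.card : ℝ) ≤ ∑ b ∈ R, (((Finset.range (m ^ k')).filter (fun c : ℕ =>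
          c % m ^ k = b ∧ fk d m r k' c ≤ δk)).card : ℝ) := by
        exact_mod_cast (Finset.card_le_card h1).trans Finset.card_biUnion_le
      have h3 := Finset.sum_le_card_nsmul R _ _ hcard
      rw [nsmul_eq_mul] at h3
      have h4 : 0 ≤ (1 - κ) * (m : ℝ) ^ (k' - k) := by
        have : (0 : ℝ) ≤ 1 - κ := by linarith
        positivity
      calc (R'.card : ℝ) ≤ _ := h2
        _ ≤ _ := h3
        _ ≤ (1 - κ) ^ n * (m : ℝ) ^ k * ((1 - κ) * (m : ℝ) ^ (k' - k)) := by gcongr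
        _ = (1 - κ) ^ (n + 1) * (m : ℝ) ^ k' := by rw [hpkR]; ring
    refine ⟨k', min δ (δk / 2), lt_min hδ (by positivity), R', hR'card, ?_, ?_⟩
    · intro b hb
      rw [hR', Finset.mem_filter] at hb
      exact ⟨Finset.mem_range.1 hb.1, hb.2.2.1⟩
    · intro K hK
      have hc := hk0 k' K hk'2 hK
      have hpK : (0 : ℝ) < (m : ℝ) ^ K := by positivity
      have hpKk : (m : ℝ) ^ K = (m : ℝ) ^ k' * (m : ℝ) ^ (K - k') := by
        rw [← pow_add, Nat.add_sub_cancel' hK]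
      -- `L¹` distance of the densities
      have hdist : ∑ c ∈ Finset.range (m ^ K), |fk d m r K (c : ℤ) - fk d m r k' (c : ℤ)| ≤
          (m : ℝ) ^ K * (η * δk / 4) := by
        calc ∑ c ∈ Finset.range (m ^ K), |fk d m r K (c : ℤ) - fk d m r k' (c : ℤ)|
            = (m : ℝ) ^ K * ∑ c ∈ Finset.range (m ^ K),
                |nu d m r K c - nu d m r k' c / (m : ℝ) ^ (K - k')| := by
              rw [Finset.mul_sum]
              refine Finset.sum_congr rfl fun c _ => ?_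
              have h0 : (m : ℝ) ^ (K - k') ≠ 0 := by positivity
              have h1 : fk d m r K (c : ℤ) - fk d m r k' (c : ℤ) =
                  (m : ℝ) ^ K * (nu d m r K c - nu d m r k' c / (m : ℝ) ^ (K - k')) := by
                rw [fk, fk, hpKk]
                field_simp
              rw [h1, abs_mul, abs_of_pos hpK]
          _ ≤ _ := by gcongr
      set Bd := (Finset.range (m ^ K)).filter
        (fun c : ℕ => δk / 2 ≤ |fk d m r K (c : ℤ) - fk d m r k' (c : ℤ)|) with hBd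
      have hBdc : (Bd.card : ℝ) ≤ η / 2 * (m : ℝ) ^ K := by
        have h1 : (Bd.card : ℝ) * (δk / 2) ≤
            ∑ c ∈ Bd, |fk d m r K (c : ℤ) - fk d m r k' (c : ℤ)| := by
          rw [← nsmul_eq_mul]
          exact Finset.card_nsmul_le_sum _ _ _ fun c hc => (Finset.mem_filter.1 hc).2
        have h2 : ∑ c ∈ Bd, |fk d m r K (c : ℤ) - fk d m r k' (c : ℤ)| ≤
            (m : ℝ) ^ K * (η * δk / 4) :=
          (Finset.sum_le_sum_of_subset_of_nonneg (Finset.filter_subset _ _)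
            fun _ _ _ => abs_nonneg _).trans hdist
        have h3 := h1.trans h2
        have h4 : (Bd.card : ℝ) * (δk / 2) ≤ (η / 2 * (m : ℝ) ^ K) * (δk / 2) := by
          calc _ ≤ _ := h3
            _ = _ := by ring
        exact le_of_mul_le_mul_right h4 (by positivity)
      have hsub : (Finset.range (m ^ K)).filter (fun c : ℕ =>
          (0 < nu d m r K c ∧ fk d m r K c ≤ min δ (δk / 2)) ∧ c % m ^ k' ∉ R') ⊆
          ((Finset.range (m ^ K)).filter
            (fun c : ℕ => (0 < nu d m r K c ∧ fk d m r K c ≤ δ) ∧ c % m ^ k ∉ R)) ∪ Bd := by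
        intro c hc
        rw [Finset.mem_filter] at hc
        obtain ⟨hc1, ⟨hc2, hc3⟩, hc4⟩ := hc
        rw [Finset.mem_union]
        by_cases hcR : c % m ^ k ∈ R
        · right
          rw [hBd, Finset.mem_filter]
          refine ⟨hc1, ?_⟩
          have hmk' : 0 < m ^ k' := by positivity
          have hcong : (m : ℤ) ^ k' ∣ ((c % m ^ k' : ℕ) : ℤ) - (c : ℤ) := by
            have h1 : (c % m ^ k' : ℕ) ≡ c [MOD m ^ k'] := Nat.mod_modEq _ _
            have h2 := (Nat.modEq_iff_dvd.1 h1.symm)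
            exact_mod_cast h2
          have hnu : nu d m r k' ((c % m ^ k' : ℕ) : ℤ) = nu d m r k' (c : ℤ) := nu_congr hcong
          have hfk : fk d m r k' ((c % m ^ k' : ℕ) : ℤ) = fk d m r k' (c : ℤ) := by
            rw [fk, fk, hnu]
          have hpos' : 0 < nu d m r k' (c : ℤ) := hc2.trans_le (nu_anti hK _)
          have h5 : δk < fk d m r k' (c : ℤ) := by
            by_contra hcon
            rw [not_lt] at hcon
            refine hc4 ?_
            rw [hR', Finset.mem_filter]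
            refine ⟨Finset.mem_range.2 (Nat.mod_lt _ hmk'), ?_, ?_, ?_⟩
            · rw [Nat.mod_mod_of_dvd _ (pow_dvd_pow m hkk')]
              exact hcR
            · rw [hnu]
              exact hpos'
            · rw [hfk]
              exact hcon
          have h6 : fk d m r K (c : ℤ) ≤ δk / 2 := hc3.trans (min_le_right _ _)
          rw [abs_sub_comm]
          exact le_trans (by linarith) (le_abs_self _)
        · left
          rw [Finset.mem_filter]
          exact ⟨hc1, ⟨hc2, hc3.trans (min_le_left _ _)⟩, hcR⟩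
      have h7 := (Finset.card_le_card hsub).trans (Finset.card_union_le _ _)
      have h8 := hR K (hkk'.trans hK)
      calc _ ≤ (((Finset.range (m ^ K)).filter
            (fun c : ℕ => (0 < nu d m r K c ∧ fk d m r K c ≤ δ) ∧ c % m ^ k ∉ R)).card : ℝ) +
            (Bd.card : ℝ) := by exact_mod_cast h7
        _ ≤ η / 2 * (m : ℝ) ^ K + η / 2 * (m : ℝ) ^ K := add_le_add h8 hBdc
        _ = η * (m : ℝ) ^ K := by ring

open Classical in
theorem pos (hd : 2 ≤ d) (hdm : d < m) (hco : Nat.Coprime m d) (hmix : Mixing d m r) {ε : ℝ}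
    (hε : 0 < ε) :
    ∃ δ : ℝ, 0 < δ ∧ ∃ K0 : ℕ, ∀ K : ℕ, K0 ≤ K →
      (((Finset.range (m ^ K)).filter
        (fun c : ℕ => 0 < nu d m r K c ∧ fk d m r K c ≤ δ)).card : ℝ) ≤ ε * (m : ℝ) ^ K := by
  have hm1 : 1 ≤ m := by omega
  have hm0 : (0 : ℝ) < m := by exact_mod_cast (by omega : 0 < m)
  obtain ⟨κ, hκ, hκ1, j₁, hA⟩ := pos_stepA hd hdm hco hmix
  obtain ⟨n, hn⟩ := exists_pow_lt_of_lt_one (show (0 : ℝ) < ε / 2 by positivity)
    (show 1 - κ < 1 by linarith)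
  obtain ⟨k, δ, hδ, R, hRc, _, hR⟩ := pos_stepC hd hdm hco hmix hκ1 hA n (ε / 2) (by positivity)
  refine ⟨δ, hδ, k, fun K hK => ?_⟩
  have hpk : m ^ K = m ^ k * m ^ (K - k) := by
    rw [← pow_add, Nat.add_sub_cancel' hK]
  have hpkR : (m : ℝ) ^ K = (m : ℝ) ^ k * (m : ℝ) ^ (K - k) := by exact_mod_cast hpk
  have hsub : (Finset.range (m ^ K)).filter
      (fun c : ℕ => 0 < nu d m r K c ∧ fk d m r K c ≤ δ) ⊆
      ((Finset.range (m ^ K)).filter
        (fun c : ℕ => (0 < nu d m r K c ∧ fk d m r K c ≤ δ) ∧ c % m ^ k ∉ R)) ∪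
      R.biUnion (fun b => (Finset.range (m ^ K)).filter (fun c : ℕ => c % m ^ k = b)) := by
    intro c hc
    rw [Finset.mem_filter] at hc
    rw [Finset.mem_union, Finset.mem_filter, Finset.mem_biUnion]
    by_cases hcR : c % m ^ k ∈ R
    · exact Or.inr ⟨_, hcR, Finset.mem_filter.2 ⟨hc.1, rfl⟩⟩
    · exact Or.inl ⟨hc.1, hc.2, hcR⟩
  have h1 : (R.biUnion (fun b => (Finset.range (m ^ K)).filter
      (fun c : ℕ => c % m ^ k = b))).card ≤ R.card * m ^ (K - k) := by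
    refine Finset.card_biUnion_le_card_mul _ _ _ fun b _ => ?_
    rw [hpk]
    exact card_class_le _ _ _
  have h2 := (Finset.card_le_card hsub).trans ((Finset.card_union_le _ _).trans
    (Nat.add_le_add_left h1 _))
  calc _ ≤ (((Finset.range (m ^ K)).filter
        (fun c : ℕ => (0 < nu d m r K c ∧ fk d m r K c ≤ δ) ∧ c % m ^ k ∉ R)).card : ℝ) +
        (R.card : ℝ) * (m : ℝ) ^ (K - k) := by exact_mod_cast h2
    _ ≤ ε / 2 * (m : ℝ) ^ K + ((1 - κ) ^ n * (m : ℝ) ^ k) * (m : ℝ) ^ (K - k) :=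
        add_le_add (hR K hK) (by gcongr)
    _ ≤ ε / 2 * (m : ℝ) ^ K + (ε / 2 * (m : ℝ) ^ k) * (m : ℝ) ^ (K - k) := by
        gcongr
    _ = ε * (m : ℝ) ^ K := by rw [hpkR]; ring

end Pool.Agent.Helper91.PL
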