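import Pool.Agent.Helper91.PL.TWO
import Pool.Agent.Helper91.PL.POS
import Pool.Agent.Helper91.PL.DE
import Pool.Agent.Helper91.PL.NUc

/-!
# Block PL-FIN: from the windows to the intervals `[1, x]`
-/

set_option autoImplicit false

namespace Pool.Agent.Helper91.PL

open Pool.Agent.Helper68.Moeller Pool.Agent.Helper52.Tao Pool.Agent.Helper8.ND
  Pool.Agent.Helper8.CL Filter Topology

variable {d m : ℕ} {r : ℤ → ℤ}

/-- Counting up to a natural number. -/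
theorem cN_nat_le {S : Set ℤ} {ε : ℝ} (hε : 0 ≤ ε) {y0 : ℕ}
    (h : ∀ y : ℕ, y0 ≤ y → ((S ∩ (Yw y : Set ℤ)).ncard : ℝ) ≤ ε * y) (n : ℕ) :
    cN S n ≤ 2 * y0 + 4 * ε * n := by
  induction n using Nat.strong_induction_on with
  | _ n ih =>
  rcases le_or_gt n (2 * y0) with hn | hn
  · have h1 := cN_le S (x := (n : ℝ)) (by positivity)
    have h2 : (n : ℝ) ≤ 2 * y0 := by exact_mod_cast hn
    have h3 : 0 ≤ 4 * ε * n := by positivity
    linarith
  · have hlt : n / 2 < n := by omega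
    have h1 := ih (n / 2) hlt
    have h2 := h (n / 2 + 1) (by omega)
    have h3 : {a : ℤ | a ∈ S ∧ 0 < a ∧ (a : ℝ) ≤ n} ⊆
        {a : ℤ | a ∈ S ∧ 0 < a ∧ (a : ℝ) ≤ (n / 2 : ℕ)} ∪ (S ∩ (Yw (n / 2 + 1) : Set ℤ)) := by
      rintro a ⟨ha1, ha2, ha3⟩
      have ha3' : a ≤ n := by exact_mod_cast ha3
      rcases le_or_gt a ((n / 2 : ℕ) : ℤ) with h4 | h4
      · left
        refine ⟨ha1, ha2, ?_⟩
        have h4' : ((a : ℤ) : ℝ) ≤ (((n / 2 : ℕ) : ℤ) : ℝ) := Int.cast_le.2 h4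
        rwa [Int.cast_natCast] at h4'
      · right
        refine ⟨ha1, ?_⟩
        rw [Finset.mem_coe, mem_Yw]
        push_cast
        push_cast at h4
        omega
    have h4 : cN S n ≤ cN S (n / 2 : ℕ) + ((S ∩ (Yw (n / 2 + 1) : Set ℤ)).ncard : ℝ) := by
      unfold cN
      have h5 := (Set.ncard_le_ncard h3 ((finite_cN S _).union
        ((Finset.finite_toSet _).subset Set.inter_subset_right))).trans (Set.ncard_union_le _ _)
      exact_mod_cast h5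
    have h5 : ((n / 2 : ℕ) : ℝ) ≤ n / 2 := Nat.cast_div_le
    have h6 : (1 : ℝ) ≤ n := by exact_mod_cast (by omega : 1 ≤ n)
    push_cast at h2
    have h7 : 4 * ε * ((n / 2 : ℕ) : ℝ) ≤ 4 * ε * (n / 2) :=
      mul_le_mul_of_nonneg_left h5 (by positivity)
    have h8 : ε * (((n / 2 : ℕ) : ℝ) + 1) ≤ ε * (n / 2 + n) :=
      mul_le_mul_of_nonneg_left (by linarith) hε
    have h9 : 4 * ε * ((n : ℝ) / 2) + ε * (n / 2 + n) = 7 / 2 * (ε * n) := by ring
    have h10 : 0 ≤ ε * n := by positivity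
    linarith

theorem cN_floor (S : Set ℤ) {x : ℝ} (hx : 0 ≤ x) : cN S x = cN S (⌊x⌋₊ : ℕ) := by
  unfold cN
  congr 2
  ext a
  simp only [Set.mem_ofPred_eq]
  refine and_congr_right fun _ => and_congr_right fun ha => ?_
  obtain ⟨b, rfl⟩ := Int.eq_ofNat_of_zero_le ha.le
  rw [Int.cast_natCast, Nat.cast_le, Nat.le_floor_iff hx]

/-- From the windows to `[1, x]`. -/
theorem cN_small {S : Set ℤ} {ε : ℝ} (hε : 0 < ε)
    (h : ∃ y0 : ℕ, ∀ y : ℕ, y0 ≤ y → ((S ∩ (Yw y : Set ℤ)).ncard : ℝ) ≤ ε / 8 * y) :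
    ∃ X : ℝ, ∀ x : ℝ, X ≤ x → cN S x ≤ ε * x := by
  obtain ⟨y0, hy0⟩ := h
  refine ⟨4 * y0 / ε, fun x hx => ?_⟩
  have hx0 : 0 ≤ x := le_trans (by positivity) hx
  rw [cN_floor S hx0]
  have h1 := cN_nat_le (by positivity : 0 ≤ ε / 8) hy0 ⌊x⌋₊
  have h2 := Nat.floor_le hx0
  have h3 : 4 * (ε / 8) * (⌊x⌋₊ : ℝ) ≤ 4 * (ε / 8) * x :=
    mul_le_mul_of_nonneg_left h2 (by positivity)
  rw [div_le_iff₀ hε] at hx
  linarith

theorem ncard_inter_le (S : Set ℤ) (Y F : Finset ℤ) (h : ∀ b ∈ Y, b ∈ S → b ∈ F) :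
    ((S ∩ (Y : Set ℤ)).ncard : ℝ) ≤ F.card := by
  have h1 : S ∩ (Y : Set ℤ) ⊆ (F : Set ℤ) := fun b hb => h b hb.2 hb.1
  have h2 := Set.ncard_le_ncard h1 (Finset.finite_toSet _)
  rw [Set.ncard_coe_finset] at h2
  exact_mod_cast h2

/-- **The predecessor law.** -/
theorem law (hd : 2 ≤ d) (hdm : d < m) (hco : Nat.Coprime m d)
    (hm : (m : ℝ) ≤ (d : ℝ) ^ ((d : ℝ) / ((d : ℝ) - 1))) (hr : Admissible d m r)
    (hg : 0 < gam d m) (hmix : Mixing d m r) {ε : ℝ} (hε : 0 < ε) :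
    ∃ k0 : ℕ, ∀ k : ℕ, k0 ≤ k → ∃ X : ℝ, ∀ x : ℝ, X ≤ x →
      cN {a : ℤ | ε < |gam d m * a * dens (Pr d m r a) - fk d m r k a|} x ≤ ε * x := by
  classical
  obtain ⟨k0, hk0⟩ := two hd hdm hco hm hr hg hmix (by positivity : 0 < ε / 8)
  refine ⟨k0, fun k hk => cN_small hε ?_⟩
  obtain ⟨y0, hy0⟩ := hk0 k hk
  refine ⟨y0, fun y hy => ?_⟩
  refine (ncard_inter_le _ _ _ fun b hb hbS => ?_).trans (hy0 y hy)
  rw [Finset.mem_filter]
  refine ⟨hb, ?_⟩
  rw [Set.mem_ofPred_eq] at hbS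
  linarith

/-- **Positivity.** -/
theorem positivity_law (hd : 2 ≤ d) (hdm : d < m) (hco : Nat.Coprime m d)
    (hm : (m : ℝ) ≤ (d : ℝ) ^ ((d : ℝ) / ((d : ℝ) - 1))) (hr : Admissible d m r)
    (hg : 0 < gam d m) (hmix : Mixing d m r) {ε : ℝ} (hε : 0 < ε) :
    ∃ δ : ℝ, 0 < δ ∧ ∃ X : ℝ, ∀ x : ℝ, X ≤ x →
      cN {a : ℤ | ¬ Dead d m r a ∧ dens (Pr d m r a) < δ / a} x ≤ ε * x := by
  classical
  have hm1 : 1 ≤ m := by omega
  obtain ⟨δ, hδ, K0, hK0⟩ := pos (r := r) hd hdm hco hmix (by positivity : 0 < ε / 32)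
  obtain ⟨k0, hk0⟩ := two hd hdm hco hm hr hg hmix
    (lt_min (by positivity : 0 < ε / 16) (by positivity : 0 < δ / 2))
  set ε2 := min (ε / 16) (δ / 2) with hε2
  set g := gam d m with hgdef
  refine ⟨δ / (2 * g), by positivity, cN_small hε ?_⟩
  set k := max K0 k0 with hk
  obtain ⟨y0, hy0⟩ := hk0 k (le_max_right _ _)
  have hKk := hK0 k (le_max_left _ _)
  refine ⟨max y0 (max 1 (m ^ k)), fun y hy => ?_⟩
  have hyy0 : y0 ≤ y := (le_max_left _ _).trans hy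
  have hy1 : 1 ≤ y := (le_max_left _ _).trans ((le_max_right _ _).trans hy)
  have hyk : m ^ k ≤ y := (le_max_right _ _).trans ((le_max_right _ _).trans hy)
  have hyR : (0 : ℝ) < y := by exact_mod_cast hy1
  set h : ℤ → ℝ := fun b => if 0 < nu d m r k b ∧ fk d m r k b ≤ δ then 1 else 0 with hh
  set F1 := (Yw y).filter (fun b : ℤ => ε2 < |g * b * dens (Pr d m r b) - fk d m r k b|) with hF1
  set F2 := (Yw y).filter (fun b : ℤ => 0 < nu d m r k b ∧ fk d m r k b ≤ δ) with hF2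
  have hmem : ∀ b ∈ Yw y, b ∈ {a : ℤ | ¬ Dead d m r a ∧ dens (Pr d m r a) < δ / (2 * g) / a} →
      b ∈ F1 ∪ F2 := by
    rintro b hb ⟨hb1, hb2⟩
    rw [Finset.mem_union]
    by_cases hcase : ε2 < |g * b * dens (Pr d m r b) - fk d m r k b|
    · left
      exact Finset.mem_filter.2 ⟨hb, hcase⟩
    · right
      push Not at hcase
      have hb0 := (Yw_pos hy1 hb).1
      rw [dead_iff hd hdm hco hr] at hb1
      push Not at hb1
      have hnu : 0 < nu d m r k b := lt_of_le_of_ne (nu_nonneg k b) (Ne.symm (hb1 k))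
      refine Finset.mem_filter.2 ⟨hb, hnu, ?_⟩
      have h1 := (abs_le.1 hcase).1
      have h2 : ε2 ≤ δ / 2 := min_le_right _ _
      rw [lt_div_iff₀ hb0] at hb2
      have h3 := mul_lt_mul_of_pos_left hb2 hg
      have e : g * (δ / (2 * g)) = δ / 2 := by field_simp
      rw [e] at h3
      linarith
  refine (ncard_inter_le _ _ _ hmem).trans ?_
  have hc1 : (F1.card : ℝ) ≤ ε / 16 * y := (hy0 y hyy0).trans
    (mul_le_mul_of_nonneg_right (min_le_left _ _) hyR.le)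
  have hc2 : (F2.card : ℝ) ≤ ε / 16 * y := by
    have hmk0 : 0 < m ^ k := by positivity
    have h1 := sum_win_le hmk0 hyk (h := h) (fun b => by rw [hh]; dsimp only; split_ifs <;> norm_num)
      (fun b => by
        have hcong : (m : ℤ) ^ k ∣ b - b % ((m ^ k : ℕ) : ℤ) := by
          have := Int.dvd_self_sub_emod (x := b) (m := ((m ^ k : ℕ) : ℤ))
          push_cast at this ⊢
          exact this
        have e := nu_congr (d := d) (m := m) (r := r) hcong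
        rw [hh]
        dsimp only
        unfold fk
        rw [e])
    have h2 : ∑ b ∈ Yw y, h b = F2.card := by
      rw [hh, hF2, Finset.sum_boole]
    have h3 : ∑ c ∈ Finset.range (m ^ k), h c = (((Finset.range (m ^ k)).filter
        (fun c : ℕ => 0 < nu d m r k c ∧ fk d m r k c ≤ δ)).card : ℝ) := by
      rw [hh, Finset.sum_boole]
    rw [h2, h3] at h1
    have hmkR : (0 : ℝ) < ((m ^ k : ℕ) : ℝ) := by exact_mod_cast hmk0
    refine h1.trans ?_
    have h4 : 2 * ((y : ℝ) / ((m ^ k : ℕ) : ℝ)) * (((Finset.range (m ^ k)).filter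
        (fun c : ℕ => 0 < nu d m r k c ∧ fk d m r k c ≤ δ)).card : ℝ) ≤
        2 * ((y : ℝ) / ((m ^ k : ℕ) : ℝ)) * (ε / 32 * (m : ℝ) ^ k) :=
      mul_le_mul_of_nonneg_left hKk (by positivity)
    refine h4.trans (le_of_eq ?_)
    push_cast
    field_simp
    ring
  have hcu : ((F1 ∪ F2).card : ℝ) ≤ F1.card + F2.card := by
    exact_mod_cast Finset.card_union_le _ _
  have e : ε / 8 * (y : ℝ) = ε / 16 * y + ε / 16 * y := by ring
  rw [e]
  linarith

end Pool.Agent.Helper91.PL
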