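import Pool.Agent.Helper91.PL.NUa

/-!
# Block PL-SW: sums of periodic functions over the window `[y, 2 y)`

* `sum_win_le`: from `sum_periodic_le` (Helper52/Tao/FL) with `G = univ`, `α = y`, and `1 ≤ y / M`.
* `sum_win_fk`: `sum_nu`, `nu_congr`.
* `sum_inv_class`: the elements of the window in the class `c` modulo `M` are `b_0 < b_1 < ...` with
  differences `M`, `b_0 ≥ y`; `1 / b_i ≤ (1 / M) log (b_i / b_(i-1))` for `i ≥ 1`, and `1 / b_0 ≤ 1 / y`.
  Lower bound: `1 / b_i ≥ (1 / M) log ((b_i + M) / b_i)`, `b_last + M ≥ 2 y`, `b_0 ≤ y + M`, so the sum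
  is `≥ (1 / M) (log 2 - log ((y + M) / y)) ≥ log 2 / M - 1 / y`.
* `fs`: sum over the classes modulo `m ^ k`, `sum_inv_class`, `sum_nu`, `nu ≤ 1`.
-/

set_option autoImplicit false

namespace Pool.Agent.Helper91.PL

open Pool.Agent.Helper68.Moeller Pool.Agent.Helper52.Tao Pool.Agent.Helper8.ND
  Pool.Agent.Helper8.CL Filter Topology

variable {d m : ℕ} {r : ℤ → ℤ}

theorem sum_win_le {M y : ℕ} (hM : 0 < M) (hMy : M ≤ y) {h : ℤ → ℝ} (h0 : ∀ b, 0 ≤ h b)
    (hper : ∀ b, h b = h (b % (M : ℤ))) :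
    ∑ b ∈ Yw y, h b ≤ 2 * ((y : ℝ) / M) * ∑ c ∈ Finset.range M, h c := by
  have hy0 : (0 : ℝ) ≤ (y : ℝ) := Nat.cast_nonneg y
  have h1 := sum_periodic_le Set.univ hy0 M hM h hper
  have h2 : (finite_Y Set.univ (y : ℝ)).toFinset = Yw y := by
    ext b
    rw [Set.Finite.mem_toFinset]
    unfold Yw
    rw [Finset.mem_Ico]
    constructor
    · rintro ⟨h3, h4, -⟩
      constructor
      · exact_mod_cast h3
      · exact_mod_cast h4
    · rintro ⟨h3, h4⟩
      refine ⟨?_, ?_, Set.mem_univ _⟩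
      · exact_mod_cast h3
      · exact_mod_cast h4
  rw [h2] at h1
  have h3 : ∑ b ∈ Yw y, |h b| = ∑ b ∈ Yw y, h b :=
    Finset.sum_congr rfl fun b _ => abs_of_nonneg (h0 b)
  have h4 : ∑ c ∈ Finset.range M, |h c| = ∑ c ∈ Finset.range M, h c :=
    Finset.sum_congr rfl fun c _ => abs_of_nonneg (h0 c)
  rw [h3, h4] at h1
  refine h1.trans ?_
  have hMR : (0 : ℝ) < (M : ℝ) := by exact_mod_cast hM
  have h5 : (1 : ℝ) ≤ (y : ℝ) / M := by
    rw [le_div_iff₀ hMR, one_mul]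
    exact_mod_cast hMy
  refine mul_le_mul_of_nonneg_right (by linarith) ?_
  exact Finset.sum_nonneg fun c _ => h0 c

theorem fk_nonneg7 (k : ℕ) (b : ℤ) : 0 ≤ fk d m r k b := by
  unfold fk
  have := nu_nonneg (d := d) (m := m) (r := r) k b
  positivity

theorem fk_per7 (k : ℕ) (b : ℤ) : fk d m r k b = fk d m r k (b % ((m ^ k : ℕ) : ℤ)) := by
  unfold fk
  congr 1
  apply nu_congr
  have h3 : ((m ^ k : ℕ) : ℤ) ∣ b - b % ((m ^ k : ℕ) : ℤ) := Int.dvd_self_sub_emod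
  rw [show ((m ^ k : ℕ) : ℤ) = (m : ℤ) ^ k from by push_cast; rfl] at h3 ⊢
  exact h3

theorem sum_fk7 (hd : 2 ≤ d) (hm : 1 ≤ m) (hco : Nat.Coprime m d) (k : ℕ) :
    ∑ c ∈ Finset.range (m ^ k), fk d m r k c = (m : ℝ) ^ k := by
  unfold fk
  rw [← Finset.mul_sum, sum_nu hd hm hco k, mul_one]

theorem sum_win_fk (hd : 2 ≤ d) (hm : 1 ≤ m) (hco : Nat.Coprime m d) {k y : ℕ} (hk : m ^ k ≤ y) :
    ∑ b ∈ Yw y, fk d m r k b ≤ 2 * y := by
  have hM : 0 < m ^ k := Nat.pow_pos (by omega)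
  have h1 := sum_win_le (h := fk d m r k) hM hk (fk_nonneg7 k) (fk_per7 k)
  rw [sum_fk7 hd hm hco k] at h1
  refine h1.trans (le_of_eq ?_)
  have hMR : (m : ℝ) ^ k ≠ 0 := by
    have : (0 : ℝ) < (m : ℝ) := by exact_mod_cast (by omega : 0 < m)
    positivity
  push_cast
  field_simp

/-- the class as an arithmetic progression -/
theorem class_eq7 {M y : ℕ} (hM : 0 < M) (hy : 1 ≤ y) (c : ℤ) :
    ∃ (b0 : ℤ) (n : ℕ), (y : ℤ) ≤ b0 ∧ b0 < y + M ∧ 2 * (y : ℤ) ≤ b0 + M * n ∧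
      (1 ≤ n → b0 + M * ((n : ℤ) - 1) < 2 * (y : ℤ)) ∧
      ∀ g : ℤ → ℝ, ∑ b ∈ (Yw y).filter (fun b => (M : ℤ) ∣ b - c), g b =
        ∑ i ∈ Finset.range n, g (b0 + M * i) := by
  have hM' : (0 : ℤ) < (M : ℤ) := by exact_mod_cast hM
  set e : ℤ := (c - y) % (M : ℤ) with he
  have he0 : 0 ≤ e := Int.emod_nonneg _ hM'.ne'
  have he1 : e < M := Int.emod_lt_of_pos _ hM'
  have hdv : (M : ℤ) ∣ ((y : ℤ) + e) - c := by
    have h1 : (M : ℤ) ∣ (c - y) - (c - y) % (M : ℤ) := Int.dvd_self_sub_emod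
    have h2 : ((y : ℤ) + e) - c = -((c - y) - (c - y) % (M : ℤ)) := by rw [he]; ring
    rw [h2]
    exact (dvd_neg).mpr h1
  set b0 : ℤ := (y : ℤ) + e with hb0
  set q : ℤ := (2 * (y : ℤ) - b0 + M - 1) / M with hq
  have hq1 : (M : ℤ) * q ≤ 2 * (y : ℤ) - b0 + M - 1 := Int.mul_ediv_self_le hM'.ne'
  have hq2 : 2 * (y : ℤ) - b0 + M - 1 < (M : ℤ) * q + M := Int.lt_mul_ediv_self_add hM'
  have hq0 : 0 ≤ q := by
    apply Int.ediv_nonneg _ hM'.le
    have : (1 : ℤ) ≤ (y : ℤ) := by exact_mod_cast hy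
    rw [hb0]; linarith
  have hqn : ((q.toNat : ℕ) : ℤ) = q := Int.toNat_of_nonneg hq0
  refine ⟨b0, q.toNat, by rw [hb0]; linarith, by rw [hb0]; linarith, ?_, ?_, ?_⟩
  · rw [hqn]; linarith
  · intro _
    rw [hqn]
    have : b0 + (M : ℤ) * (q - 1) = b0 + (M : ℤ) * q - M := by ring
    rw [this]; linarith
  · intro g
    symm
    apply Finset.sum_bij (fun (i : ℕ) _ => b0 + (M : ℤ) * i)
    · intro i hi
      rw [Finset.mem_range] at hi
      have hi' : (i : ℤ) + 1 ≤ q := by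
        have : (i : ℤ) < ((q.toNat : ℕ) : ℤ) := by exact_mod_cast hi
        rw [hqn] at this
        linarith
      rw [Finset.mem_filter]
      unfold Yw
      rw [Finset.mem_Ico]
      have hi0 : (0 : ℤ) ≤ (i : ℤ) := Nat.cast_nonneg i
      have h1 : (M : ℤ) * ((i : ℤ) + 1) ≤ (M : ℤ) * q := mul_le_mul_of_nonneg_left hi' hM'.le
      have h2 : (0 : ℤ) ≤ (M : ℤ) * (i : ℤ) := mul_nonneg hM'.le hi0
      refine ⟨⟨by rw [hb0]; linarith, by linarith⟩, ?_⟩
      have h3 : b0 + (M : ℤ) * i - c = (b0 - c) + (M : ℤ) * i := by ring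
      rw [h3]
      exact dvd_add hdv (dvd_mul_right _ _)
    · intro i _ j _ hij
      have h1 : (M : ℤ) * (i : ℤ) = (M : ℤ) * (j : ℤ) := by linarith
      have h2 := mul_left_cancel₀ hM'.ne' h1
      exact_mod_cast h2
    · intro b hb
      rw [Finset.mem_filter] at hb
      obtain ⟨hb1, hb2⟩ := hb
      unfold Yw at hb1
      rw [Finset.mem_Ico] at hb1
      have h1 : (M : ℤ) ∣ b - b0 := by
        have : b - b0 = (b - c) - (b0 - c) := by ring
        rw [this]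
        exact dvd_sub hb2 hdv
      obtain ⟨j, hj⟩ := h1
      have hj0 : 0 ≤ j := by
        by_contra hcon
        push Not at hcon
        have h2 : j ≤ -1 := by omega
        have h3 : (M : ℤ) * j ≤ (M : ℤ) * (-1) := mul_le_mul_of_nonneg_left h2 hM'.le
        have h4 : b0 < y + M := by rw [hb0]; linarith
        linarith [hb1.1]
      have hjq : j < q := by
        by_contra hcon
        push Not at hcon
        have h3 : (M : ℤ) * q ≤ (M : ℤ) * j := mul_le_mul_of_nonneg_left hcon hM'.le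
        linarith [hb1.2]
      refine ⟨j.toNat, ?_, ?_⟩
      · rw [Finset.mem_range]
        omega
      · rw [Int.toNat_of_nonneg hj0]
        linarith
    · intro i _
      rfl

theorem sum_up7 {b0 M : ℝ} (hb : 0 < b0) (hM : 0 < M) (n : ℕ) :
    ∑ i ∈ Finset.range (n + 1), 1 / (b0 + M * i) ≤
      1 / b0 + 1 / M * (Real.log (b0 + M * n) - Real.log b0) := by
  induction n with
  | zero => simp
  | succ n ih =>
    rw [Finset.sum_range_succ]
    have h0 : (0 : ℝ) ≤ (n : ℝ) := Nat.cast_nonneg n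
    have h1 : 0 < b0 + M * (n : ℝ) := by positivity
    have h2 : 0 < b0 + M * ((n + 1 : ℕ) : ℝ) := by positivity
    have h3 : 1 / (b0 + M * ((n + 1 : ℕ) : ℝ)) ≤
        1 / M * (Real.log (b0 + M * ((n + 1 : ℕ) : ℝ)) - Real.log (b0 + M * (n : ℝ))) := by
      rw [← Real.log_div h2.ne' h1.ne']
      have h4 := Real.one_sub_inv_le_log_of_pos (div_pos h2 h1)
      have h5 : 1 - ((b0 + M * ((n + 1 : ℕ) : ℝ)) / (b0 + M * (n : ℝ)))⁻¹ =
          M / (b0 + M * ((n + 1 : ℕ) : ℝ)) := by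
        rw [inv_div]
        field_simp
        push_cast
        ring
      rw [h5] at h4
      calc 1 / (b0 + M * ((n + 1 : ℕ) : ℝ)) = 1 / M * (M / (b0 + M * ((n + 1 : ℕ) : ℝ))) := by
            field_simp
        _ ≤ _ := by gcongr
    have h6 : 1 / b0 + 1 / M * (Real.log (b0 + M * ((n + 1 : ℕ) : ℝ)) - Real.log b0) =
        (1 / b0 + 1 / M * (Real.log (b0 + M * (n : ℝ)) - Real.log b0)) +
        1 / M * (Real.log (b0 + M * ((n + 1 : ℕ) : ℝ)) - Real.log (b0 + M * (n : ℝ))) := by ring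
    rw [h6]
    exact add_le_add ih h3

theorem sum_lo7 {b0 M : ℝ} (hb : 0 < b0) (hM : 0 < M) (n : ℕ) :
    1 / M * (Real.log (b0 + M * n) - Real.log b0) ≤
      ∑ i ∈ Finset.range n, 1 / (b0 + M * i) := by
  induction n with
  | zero => simp
  | succ n ih =>
    rw [Finset.sum_range_succ]
    have h0 : (0 : ℝ) ≤ (n : ℝ) := Nat.cast_nonneg n
    have h1 : 0 < b0 + M * (n : ℝ) := by positivity
    have h2 : 0 < b0 + M * ((n + 1 : ℕ) : ℝ) := by positivity
    have h3 : 1 / M * (Real.log (b0 + M * ((n + 1 : ℕ) : ℝ)) - Real.log (b0 + M * (n : ℝ))) ≤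
        1 / (b0 + M * (n : ℝ)) := by
      rw [← Real.log_div h2.ne' h1.ne']
      have h4 := Real.log_le_sub_one_of_pos (div_pos h2 h1)
      have h5 : (b0 + M * ((n + 1 : ℕ) : ℝ)) / (b0 + M * (n : ℝ)) - 1 =
          M / (b0 + M * (n : ℝ)) := by
        field_simp
        push_cast
        ring
      rw [h5] at h4
      calc _ ≤ 1 / M * (M / (b0 + M * (n : ℝ))) := by gcongr
        _ = _ := by field_simp
    have h6 : 1 / M * (Real.log (b0 + M * ((n + 1 : ℕ) : ℝ)) - Real.log b0) =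
        1 / M * (Real.log (b0 + M * (n : ℝ)) - Real.log b0) +
        1 / M * (Real.log (b0 + M * ((n + 1 : ℕ) : ℝ)) - Real.log (b0 + M * (n : ℝ))) := by ring
    rw [h6]
    exact add_le_add ih h3

theorem sum_inv_class {M y : ℕ} (hM : 0 < M) (hy : 1 ≤ y) (c : ℤ) :
    ∑ b ∈ (Yw y).filter (fun b => (M : ℤ) ∣ b - c), 1 / (b : ℝ) ≤ Real.log 2 / M + 1 / y ∧
    Real.log 2 / M - 1 / y ≤ ∑ b ∈ (Yw y).filter (fun b => (M : ℤ) ∣ b - c), 1 / (b : ℝ) := by
  obtain ⟨b0, n, h1, h2, h3, h4, h5⟩ := class_eq7 hM hy c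
  rw [h5 (fun b => 1 / (b : ℝ))]
  have hMR : (0 : ℝ) < (M : ℝ) := by exact_mod_cast hM
  have hyR : (0 : ℝ) < (y : ℝ) := by exact_mod_cast (by omega : 0 < y)
  have h1R : (y : ℝ) ≤ (b0 : ℝ) := by exact_mod_cast h1
  have h2R : (b0 : ℝ) ≤ (y : ℝ) + M := by
    have : (b0 : ℝ) < ((y + M : ℤ) : ℝ) := by exact_mod_cast h2
    push_cast at this
    linarith
  have hb0 : (0 : ℝ) < (b0 : ℝ) := by linarith
  have h3R : 2 * (y : ℝ) ≤ (b0 : ℝ) + M * n := by exact_mod_cast h3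
  have e : ∀ i : ℕ, 1 / (((b0 + (M : ℤ) * (i : ℤ) : ℤ)) : ℝ) = 1 / ((b0 : ℝ) + (M : ℝ) * (i : ℝ)) := by
    intro i; push_cast; rfl
  simp only [e]
  have hl2 : 0 < Real.log 2 := Real.log_pos (by norm_num)
  constructor
  · rcases Nat.eq_zero_or_pos n with hn | hn
    · subst hn
      simp only [Finset.range_zero, Finset.sum_empty]
      positivity
    · obtain ⟨k, rfl⟩ : ∃ k, n = k + 1 := ⟨n - 1, by omega⟩
      refine (sum_up7 hb0 hMR k).trans ?_
      have h6 := h4 (by omega)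
      have h6R : (b0 : ℝ) + M * k ≤ 2 * (y : ℝ) := by
        have h7 : ((b0 + (M : ℤ) * (((k + 1 : ℕ) : ℤ) - 1) : ℤ) : ℝ) < ((2 * (y : ℤ) : ℤ) : ℝ) := by
          exact_mod_cast h6
        push_cast at h7
        linarith
      have h8 : Real.log ((b0 : ℝ) + M * k) ≤ Real.log (2 * (y : ℝ)) :=
        Real.log_le_log (by positivity) h6R
      rw [Real.log_mul (by norm_num) hyR.ne'] at h8
      have h9 : Real.log (y : ℝ) ≤ Real.log (b0 : ℝ) := Real.log_le_log hyR h1R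
      have h10 : 1 / (b0 : ℝ) ≤ 1 / (y : ℝ) := one_div_le_one_div_of_le hyR h1R
      have h11 : 1 / (M : ℝ) * (Real.log ((b0 : ℝ) + M * k) - Real.log (b0 : ℝ)) ≤
          1 / (M : ℝ) * Real.log 2 := by
        apply mul_le_mul_of_nonneg_left _ (by positivity)
        linarith
      have h12 : 1 / (M : ℝ) * Real.log 2 = Real.log 2 / M := by ring
      linarith
  · refine le_trans ?_ (sum_lo7 hb0 hMR n)
    have h8 : Real.log (2 * (y : ℝ)) ≤ Real.log ((b0 : ℝ) + M * n) :=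
      Real.log_le_log (by positivity) h3R
    rw [Real.log_mul (by norm_num) hyR.ne'] at h8
    have h9 : Real.log (b0 : ℝ) ≤ Real.log ((y : ℝ) + M) := Real.log_le_log hb0 h2R
    have h10 : Real.log ((y : ℝ) + M) - Real.log (y : ℝ) ≤ M / y := by
      rw [← Real.log_div (by positivity) hyR.ne']
      have h11 := Real.log_le_sub_one_of_pos (div_pos (by positivity : (0 : ℝ) < (y : ℝ) + M) hyR)
      have h12 : ((y : ℝ) + M) / y - 1 = M / y := by field_simp; ring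
      linarith
    have h13 : 1 / (M : ℝ) * (Real.log 2 - M / y) ≤
        1 / (M : ℝ) * (Real.log ((b0 : ℝ) + M * n) - Real.log (b0 : ℝ)) := by
      apply mul_le_mul_of_nonneg_left _ (by positivity)
      linarith
    have h14 : 1 / (M : ℝ) * (Real.log 2 - M / y) = Real.log 2 / M - 1 / y := by
      field_simp
    linarith

theorem fs (hd : 2 ≤ d) (hm : 1 ≤ m) (hco : Nat.Coprime m d) (k : ℕ) {ε : ℝ} (hε : 0 < ε) :
    ∃ y0 : ℕ, ∀ y : ℕ, y0 ≤ y → |∑ b ∈ Yw y, fk d m r k b / b - Real.log 2| ≤ ε := by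
  classical
  obtain ⟨y0, hy0⟩ := exists_nat_ge ((m : ℝ) ^ k / ε)
  refine ⟨y0 + 1, ?_⟩
  intro y hy
  have hy1 : 1 ≤ y := by omega
  have hyR : (0 : ℝ) < (y : ℝ) := by exact_mod_cast (by omega : 0 < y)
  have hM : 0 < m ^ k := Nat.pow_pos (by omega)
  have hM' : (0 : ℤ) < ((m ^ k : ℕ) : ℤ) := by exact_mod_cast hM
  have hmR : (0 : ℝ) < (m : ℝ) ^ k := by
    have : (0 : ℝ) < (m : ℝ) := by exact_mod_cast (by omega : 0 < m)
    positivity
  have hmaps : ∀ b ∈ Yw y, (b % ((m ^ k : ℕ) : ℤ)).toNat ∈ Finset.range (m ^ k) := by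
    intro b _
    rw [Finset.mem_range]
    have h1 := Int.emod_nonneg b hM'.ne'
    have h2 := Int.emod_lt_of_pos b hM'
    omega
  have hsum : ∑ b ∈ Yw y, fk d m r k b / b =
      ∑ c ∈ Finset.range (m ^ k), fk d m r k c *
        ∑ b ∈ (Yw y).filter (fun b => ((m ^ k : ℕ) : ℤ) ∣ b - (c : ℤ)), 1 / (b : ℝ) := by
    rw [← Finset.sum_fiberwise_of_maps_to hmaps]
    refine Finset.sum_congr rfl fun c hc => ?_
    rw [Finset.mem_range] at hc
    rw [Finset.mul_sum]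
    have hset : (Yw y).filter (fun b => (b % ((m ^ k : ℕ) : ℤ)).toNat = c) =
        (Yw y).filter (fun b => ((m ^ k : ℕ) : ℤ) ∣ b - (c : ℤ)) := by
      apply Finset.filter_congr
      intro b _
      have h3 := Int.emod_nonneg b hM'.ne'
      constructor
      · intro h
        have h4 : b % ((m ^ k : ℕ) : ℤ) = (c : ℤ) := by omega
        rw [← h4]
        exact Int.dvd_self_sub_emod
      · intro h
        have h4 : b % ((m ^ k : ℕ) : ℤ) = (c : ℤ) % ((m ^ k : ℕ) : ℤ) := (Int.emod_emod_of_dvd b (dvd_refl _)).symm.trans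
          (by rw [Int.emod_emod_of_dvd b (dvd_refl _)]; exact Int.emod_eq_emod_iff_emod_sub_eq_zero.mpr (Int.emod_eq_zero_of_dvd h))
        have h5 : (c : ℤ) % ((m ^ k : ℕ) : ℤ) = (c : ℤ) :=
          Int.emod_eq_of_lt (Nat.cast_nonneg c) (by exact_mod_cast hc)
        rw [h4, h5]
        simp
    rw [hset]
    refine Finset.sum_congr rfl fun b hb => ?_
    have hb2 := (Finset.mem_filter.mp hb).2
    have h6 : fk d m r k b = fk d m r k (c : ℤ) := by
      unfold fk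
      congr 1
      apply nu_congr
      rw [show ((m ^ k : ℕ) : ℤ) = (m : ℤ) ^ k from by push_cast; rfl] at hb2
      exact hb2
    rw [h6, mul_one_div]
  rw [hsum]
  have hlog : Real.log 2 = ∑ c ∈ Finset.range (m ^ k), fk d m r k c * (Real.log 2 / ((m ^ k : ℕ) : ℝ)) := by
    rw [← Finset.sum_mul, sum_fk7 hd hm hco k]
    push_cast
    field_simp
  rw [show (∑ c ∈ Finset.range (m ^ k), fk d m r k c *
        ∑ b ∈ (Yw y).filter (fun b => ((m ^ k : ℕ) : ℤ) ∣ b - (c : ℤ)), 1 / (b : ℝ)) - Real.log 2 =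
      ∑ c ∈ Finset.range (m ^ k), fk d m r k c *
        ((∑ b ∈ (Yw y).filter (fun b => ((m ^ k : ℕ) : ℤ) ∣ b - (c : ℤ)), 1 / (b : ℝ)) -
          Real.log 2 / ((m ^ k : ℕ) : ℝ)) from by
    conv_lhs => rw [hlog]
    rw [← Finset.sum_sub_distrib]
    refine Finset.sum_congr rfl fun c _ => ?_
    ring]
  refine (Finset.abs_sum_le_sum_abs _ _).trans ?_
  have hterm : ∀ c ∈ Finset.range (m ^ k), |fk d m r k c *
        ((∑ b ∈ (Yw y).filter (fun b => ((m ^ k : ℕ) : ℤ) ∣ b - (c : ℤ)), 1 / (b : ℝ)) -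
          Real.log 2 / ((m ^ k : ℕ) : ℝ))| ≤ fk d m r k c * (1 / (y : ℝ)) := by
    intro c _
    rw [abs_mul, abs_of_nonneg (fk_nonneg7 k (c : ℤ))]
    apply mul_le_mul_of_nonneg_left _ (fk_nonneg7 k (c : ℤ))
    obtain ⟨h7, h8⟩ := sum_inv_class hM hy1 (c : ℤ)
    rw [abs_le]
    constructor <;> linarith
  refine (Finset.sum_le_sum hterm).trans ?_
  rw [← Finset.sum_mul, sum_fk7 hd hm hco k, mul_one_div, div_le_iff₀ hyR]
  have h9 : (m : ℝ) ^ k / ε ≤ (y : ℝ) := by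
    refine hy0.trans ?_
    exact_mod_cast (by omega : y0 ≤ y)
  rw [div_le_iff₀ hε] at h9
  linarith

end Pool.Agent.Helper91.PL
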