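import Pool.Agent.Helper91.PL.NUb
import Pool.Agent.Helper91.PL.SW

/-!
# Block PL-DT: the weighted number of words with a given end point

Let `q = 1 - 1 / d`, `R` the set of the `S ≤ t` with `|S - q t| ≤ δ t`, `k₁ = t / 5` (so `k₁ ≤ S` for
`S ∈ R`, as `q - δ ≥ 3 / 10`), `e` an inverse of `d` modulo `m ^ t`, `a_S(b, j) = cW d t (sg w = S ∧
m ^ j ∣ b - F w)` (equivalently `Hit j b w`, for `j ≤ S`; see `hcong` in `card_image`, Helper52/Tao/D0).
Then `DD t δ b = ∑_{S ∈ R} m ^ S a_S(b, S) / d ^ t`. All sums over `b ∈ Yw y` of non-negative functions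
which are periodic modulo `M ≤ y` are estimated by `sum_win_le` (`M = m ^ S ≤ m ^ t ≤ y`).
* Replace `m ^ S a_S(b, S)` by `m ^ k₁ a_S(b, k₁)`: the error, summed over `b`, is
  `≤ m ^ S * 2 (y / m ^ S) * Osc d m r e t S S k₁ ≤ 2 y C d ^ t k₁ ^ (-2)` (`Mixing`, `A = 2`); the sum
  over `S` is `≤ (t + 1) 2 y C k₁ ^ (-2) d ^ t`.
* Replace `∑_{S ∈ R} m ^ k₁ a_S(b, k₁) / d ^ t` by `m ^ k₁ nut t k₁ b`: the error is `≥ 0` and its sum
  over `b` is `≤ 2 y cW d t (|sg w - q t| > δ t) / d ^ t ≤ 2 y / (δ ^ 2 t)` (`chebyshev`).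
* Replace `nut t k₁` by `nu k₁`: `≤ 2 y (9 / 10) ^ t` (`sum_nu_sub_nut_le`).
* Replace `fk k₁` by `fk k`, `k ≤ k₁`: `≤ 2 y ε / 8` by `nu_cauchy` with `ε / 8`, for `k ≥ k0`.
-/

set_option autoImplicit false

namespace Pool.Agent.Helper91.PL

open Pool.Agent.Helper68.Moeller Pool.Agent.Helper52.Tao Pool.Agent.Helper8.ND
  Pool.Agent.Helper8.CL Filter Topology

variable {d m : ℕ} {r : ℤ → ℤ}

/-! ### Hits and residues -/

theorem dt_hit_congr {j : ℕ} {b b' : ℤ} (h : (m : ℤ) ^ j ∣ b - b') (w : List ℕ) :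
    Hit d m r j b w ↔ Hit d m r j b' w := by
  unfold Hit
  have e : (d : ℤ) ^ w.length * b + Off d m r w =
      ((d : ℤ) ^ w.length * b' + Off d m r w) + (d : ℤ) ^ w.length * (b - b') := by ring
  rw [e]
  exact Int.dvd_add_left (h.mul_left _)

theorem dt_hit_iff {e : ℤ} {t : ℕ} (he : (m : ℤ) ^ t ∣ (d : ℤ) * e - 1) {j : ℕ} (hj : j ≤ t)
    {w : List ℕ} (hw : w ∈ W d t) (y : ℤ) :
    (m : ℤ) ^ j ∣ y - F m r e w ↔ Hit d m r j y w := by
  have hlen := length_of_mem_W hw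
  have hst : (m : ℤ) ^ j ∣ (m : ℤ) ^ t := pow_dvd_pow _ hj
  have h1 : (m : ℤ) ^ j ∣ F m r e w + e ^ t * Off d m r w := by
    have := F_modEq (m := m) (r := r) he w
    rw [hlen] at this
    exact hst.trans this
  have h2 : (m : ℤ) ^ j ∣ (d : ℤ) ^ t * e ^ t - 1 := by
    rw [← mul_pow]
    exact hst.trans (he.trans (by simpa using sub_dvd_pow_sub_pow ((d : ℤ) * e) 1 t))
  unfold Hit
  rw [hlen]
  constructor
  · intro h
    have h3 : (d : ℤ) ^ t * y + Off d m r w = (d : ℤ) ^ t * (y - F m r e w) +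
        (d : ℤ) ^ t * (F m r e w + e ^ t * Off d m r w) -
          ((d : ℤ) ^ t * e ^ t - 1) * Off d m r w := by ring
    rw [h3]
    exact _root_.dvd_sub (dvd_add (h.mul_left _) (h1.mul_left _)) (h2.mul_right _)
  · intro h
    have h3 : y - F m r e w = e ^ t * ((d : ℤ) ^ t * y + Off d m r w) -
        ((d : ℤ) ^ t * e ^ t - 1) * y - (F m r e w + e ^ t * Off d m r w) := by ring
    rw [h3]
    exact _root_.dvd_sub (_root_.dvd_sub (h.mul_left _) (h2.mul_right _)) h1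

/-- Every word hits at most one residue. -/
theorem dt_sum_hit_le (hco : Nat.Coprime m d) (t k : ℕ) (P : List ℕ → Prop) :
    ∑ c ∈ Finset.range (m ^ k), cW d t (fun w => P w ∧ Hit d m r k (c : ℤ) w) ≤ cW d t P := by
  classical
  have h1 : ∑ c ∈ Finset.range (m ^ k), cW d t (fun w => P w ∧ Hit d m r k (c : ℤ) w) =
      ∑ w ∈ W d t, ∑ c ∈ Finset.range (m ^ k),
        if P w ∧ Hit d m r k (c : ℤ) w then (1 : ℝ) else 0 := by
    rw [Finset.sum_comm]
    refine Finset.sum_congr rfl fun X _ => ?_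
    rw [cW_eq_sum]
  rw [h1, cW_eq_sum]
  refine Finset.sum_le_sum fun w _ => ?_
  by_cases hP : P w
  · simp only [hP, true_and, if_true]
    rw [Finset.sum_boole]
    have h3 : ((Finset.range (m ^ k)).filter (fun c : ℕ => Hit d m r k (c : ℤ) w)).card ≤ 1 := by
      rw [Finset.card_le_one]
      intro X hX Y hY
      rw [Finset.mem_filter, Finset.mem_range] at hX hY
      have h4 : (m : ℤ) ^ k ∣ (d : ℤ) ^ w.length * ((X : ℤ) - Y) := by
        have := _root_.dvd_sub hX.2 hY.2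
        have h5 : (d : ℤ) ^ w.length * (X : ℤ) + Off d m r w -
            ((d : ℤ) ^ w.length * (Y : ℤ) + Off d m r w) = (d : ℤ) ^ w.length * ((X : ℤ) - Y) := by
          ring
        rwa [h5] at this
      have hcop : IsCoprime ((m : ℤ) ^ k) ((d : ℤ) ^ w.length) :=
        IsCoprime.pow (Nat.isCoprime_iff_coprime.mpr hco)
      have h5 : (m : ℤ) ^ k ∣ (X : ℤ) - Y := hcop.dvd_of_dvd_mul_left h4
      have hX1 : (X : ℤ) < (m : ℤ) ^ k := by exact_mod_cast hX.1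
      have hY1 : (Y : ℤ) < (m : ℤ) ^ k := by exact_mod_cast hY.1
      have h6 : (X : ℤ) - Y = 0 := by
        apply Int.eq_zero_of_abs_lt_dvd h5
        rw [abs_lt]
        constructor <;> omega
      omega
    exact_mod_cast h3
  · simp [hP]

/-- Splitting according to the number of non-zero digits. -/
theorem dt_fiber (t : ℕ) (P : ℕ → Prop) [DecidablePred P] (Q : List ℕ → Prop) :
    cW d t (fun w => P (sg w) ∧ Q w) =
      ∑ S ∈ (Finset.range (t + 1)).filter P, cW d t (fun w => sg w = S ∧ Q w) := by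
  classical
  rw [cW_eq_sum]
  have h1 : ∀ S, cW d t (fun w => sg w = S ∧ Q w) =
      ∑ w ∈ W d t, if sg w = S ∧ Q w then (1 : ℝ) else 0 := fun S => cW_eq_sum d t _
  simp only [h1]
  rw [Finset.sum_comm]
  refine Finset.sum_congr rfl fun w hw => ?_
  by_cases hQ : Q w
  · simp only [hQ, and_true]
    rw [Finset.sum_ite_eq]
    have h2 : sg w ≤ t := by
      have := sg_le_length w
      rwa [length_of_mem_W hw] at this
    simp only [Finset.mem_filter, Finset.mem_range]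
    by_cases hP : P (sg w)
    · rw [if_pos hP, if_pos ⟨by omega, hP⟩]
    · rw [if_neg hP, if_neg (fun h => hP h.2)]
  · simp [hQ]

/-- `DD` as a sum over the number of non-zero digits. -/
theorem dt_DD (t : ℕ) (δ : ℝ) (b : ℤ) :
    DD d m r t δ b = ∑ S ∈ (Finset.range (t + 1)).filter
      (fun S : ℕ => |(S : ℝ) - (1 - 1 / (d : ℝ)) * t| ≤ δ * t),
        (m : ℝ) ^ S * cW d t (fun w => sg w = S ∧ Hit d m r S b w) / (d : ℝ) ^ t := by
  classical
  unfold DD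
  rw [← Finset.sum_div]
  congr 1
  have h1 : ∀ S : ℕ, (m : ℝ) ^ S * cW d t (fun w => sg w = S ∧ Hit d m r S b w) =
      ∑ w ∈ W d t, if sg w = S ∧ Hit d m r S b w then (m : ℝ) ^ S else 0 := by
    intro S
    rw [cW_eq_sum, Finset.mul_sum]
    refine Finset.sum_congr rfl fun w _ => ?_
    split_ifs <;> simp
  simp only [h1]
  rw [Finset.sum_comm, Finset.sum_filter]
  refine Finset.sum_congr rfl fun w hw => ?_
  have h2 : sg w ≤ t := by
    have := sg_le_length w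
    rwa [length_of_mem_W hw] at this
  have h3 : ∀ S : ℕ, (if sg w = S ∧ Hit d m r S b w then (m : ℝ) ^ S else 0) =
      if sg w = S then (if Hit d m r (sg w) b w then (m : ℝ) ^ sg w else 0) else 0 := by
    intro S
    by_cases h : sg w = S
    · subst h
      simp
    · simp [h]
  simp only [h3]
  rw [Finset.sum_ite_eq]
  simp only [Finset.mem_filter, Finset.mem_range]
  by_cases hP : |(sg w : ℝ) - (1 - 1 / (d : ℝ)) * t| ≤ δ * t
  · rw [if_pos (⟨by omega, hP⟩ : sg w < t + 1 ∧ |(sg w : ℝ) - (1 - 1 / (d : ℝ)) * t| ≤ δ * t)]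
    by_cases hH : Hit d m r (sg w) b w
    · rw [if_pos ⟨hP, hH⟩, if_pos hH]
    · rw [if_neg (fun h => hH h.2), if_neg hH]
  · rw [if_neg (fun h => hP h.1), if_neg (fun h => hP h.2)]

/-! ### The four steps -/

/-- Step 1, one value of `S`. -/
theorem dt_step1 (hdm : d < m) {e : ℤ} {t y : ℕ}
    (he : (m : ℤ) ^ t ∣ (d : ℤ) * e - 1) (hy : m ^ t ≤ y) {S k : ℕ} (hkS : k ≤ S) (hS : S ≤ t) :
    ∑ b ∈ Yw y, |(m : ℝ) ^ S * cW d t (fun w => sg w = S ∧ Hit d m r S b w) / (d : ℝ) ^ t -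
      (m : ℝ) ^ k * cW d t (fun w => sg w = S ∧ Hit d m r k b w) / (d : ℝ) ^ t| ≤
      2 * y * (Osc d m r e t S S k / (d : ℝ) ^ t) := by
  have hm : 0 < m := by omega
  have hmS : (0 : ℝ) < (m : ℝ) ^ S := by positivity
  have hMy : m ^ S ≤ y := (Nat.pow_le_pow_right hm hS).trans hy
  have h1 : ∀ b : ℤ, |(m : ℝ) ^ S * cW d t (fun w => sg w = S ∧ Hit d m r S b w) / (d : ℝ) ^ t -
      (m : ℝ) ^ k * cW d t (fun w => sg w = S ∧ Hit d m r k b w) / (d : ℝ) ^ t| =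
      (m : ℝ) ^ S / (d : ℝ) ^ t * |cW d t (fun w => sg w = S ∧ Hit d m r S b w) -
        cW d t (fun w => sg w = S ∧ Hit d m r k b w) / (m : ℝ) ^ (S - k)| := by
    intro b
    have h2 : (m : ℝ) ^ S = (m : ℝ) ^ k * (m : ℝ) ^ (S - k) := by
      rw [← pow_add]
      congr 1
      omega
    have h3 : (m : ℝ) ^ (S - k) ≠ 0 := by positivity
    have h4 : (m : ℝ) ^ S * cW d t (fun w => sg w = S ∧ Hit d m r S b w) / (d : ℝ) ^ t -
        (m : ℝ) ^ k * cW d t (fun w => sg w = S ∧ Hit d m r k b w) / (d : ℝ) ^ t =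
        (m : ℝ) ^ S / (d : ℝ) ^ t * (cW d t (fun w => sg w = S ∧ Hit d m r S b w) -
        cW d t (fun w => sg w = S ∧ Hit d m r k b w) / (m : ℝ) ^ (S - k)) := by
      rw [h2]
      field_simp
    rw [h4, abs_mul, abs_of_nonneg (by positivity : 0 ≤ (m : ℝ) ^ S / (d : ℝ) ^ t)]
  simp only [h1]
  rw [← Finset.mul_sum]
  have h2 := sum_win_le (M := m ^ S) (y := y) (by positivity) hMy
    (h := fun b : ℤ => |cW d t (fun w => sg w = S ∧ Hit d m r S b w) -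
        cW d t (fun w => sg w = S ∧ Hit d m r k b w) / (m : ℝ) ^ (S - k)|)
    (fun b => abs_nonneg _) (by
      intro b
      have h3 : (m : ℤ) ^ S ∣ b - b % ((m ^ S : ℕ) : ℤ) := by
        have := Int.dvd_self_sub_emod (x := b) (m := ((m ^ S : ℕ) : ℤ))
        push_cast at this ⊢
        exact this
      have h4 : (m : ℤ) ^ k ∣ b - b % ((m ^ S : ℕ) : ℤ) := (pow_dvd_pow _ hkS).trans h3
      have e1 : cW d t (fun w => sg w = S ∧ Hit d m r S b w) =
          cW d t (fun w => sg w = S ∧ Hit d m r S (b % ((m ^ S : ℕ) : ℤ)) w) :=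
        cW_congr fun w _ => and_congr_right fun _ => dt_hit_congr h3 w
      have e2 : cW d t (fun w => sg w = S ∧ Hit d m r k b w) =
          cW d t (fun w => sg w = S ∧ Hit d m r k (b % ((m ^ S : ℕ) : ℤ)) w) :=
        cW_congr fun w _ => and_congr_right fun _ => dt_hit_congr h4 w
      rw [e1, e2])
  have h3 : ∑ c ∈ Finset.range (m ^ S),
      |cW d t (fun w => sg w = S ∧ Hit d m r S (c : ℤ) w) -
        cW d t (fun w => sg w = S ∧ Hit d m r k (c : ℤ) w) / (m : ℝ) ^ (S - k)| =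
      Osc d m r e t S S k := by
    unfold Osc
    refine Finset.sum_congr rfl fun c _ => ?_
    have e1 : cW d t (fun w => sg w = S ∧ Hit d m r S (c : ℤ) w) =
        cW d t (fun w => sg w = S ∧ (m : ℤ) ^ S ∣ (c : ℤ) - F m r e w) :=
      cW_congr fun w hw => and_congr_right fun _ => (dt_hit_iff he hS hw c).symm
    have e2 : cW d t (fun w => sg w = S ∧ Hit d m r k (c : ℤ) w) =
        cW d t (fun w => sg w = S ∧ (m : ℤ) ^ k ∣ (c : ℤ) - F m r e w) :=
      cW_congr fun w hw => and_congr_right fun _ => (dt_hit_iff he (hkS.trans hS) hw c).symm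
    rw [e1, e2]
  rw [h3] at h2
  refine (mul_le_mul_of_nonneg_left h2 (by positivity)).trans (le_of_eq ?_)
  push_cast
  field_simp

/-- Step 2. -/
theorem dt_step2 (hd : 2 ≤ d) (hdm : d < m) (hco : Nat.Coprime m d) {t y k : ℕ} {δ : ℝ}
    (hδ : 0 < δ) (ht : 1 ≤ t) (hk : m ^ k ≤ y) :
    ∑ b ∈ Yw y, (m : ℝ) ^ k * cW d t (fun w => δ * t < |(sg w : ℝ) - (1 - 1 / (d : ℝ)) * t| ∧
      Hit d m r k b w) / (d : ℝ) ^ t ≤ 2 * y * (1 / (δ ^ 2 * t)) := by
  have hm : 0 < m := by omega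
  have hd0 : (0 : ℝ) < d := by positivity
  have ht0 : (0 : ℝ) < t := by exact_mod_cast ht
  have h2 := sum_win_le (M := m ^ k) (y := y) (by positivity) hk
    (h := fun b : ℤ => (m : ℝ) ^ k * cW d t (fun w =>
      δ * t < |(sg w : ℝ) - (1 - 1 / (d : ℝ)) * t| ∧ Hit d m r k b w) / (d : ℝ) ^ t)
    (fun b => by have := cW_nonneg d t (fun w =>
      δ * t < |(sg w : ℝ) - (1 - 1 / (d : ℝ)) * t| ∧ Hit d m r k b w); positivity) (by
      intro b
      have h3 : (m : ℤ) ^ k ∣ b - b % ((m ^ k : ℕ) : ℤ) := by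
        have := Int.dvd_self_sub_emod (x := b) (m := ((m ^ k : ℕ) : ℤ))
        push_cast at this ⊢
        exact this
      have e1 : cW d t (fun w => δ * t < |(sg w : ℝ) - (1 - 1 / (d : ℝ)) * t| ∧
          Hit d m r k b w) = cW d t (fun w => δ * t < |(sg w : ℝ) - (1 - 1 / (d : ℝ)) * t| ∧
          Hit d m r k (b % ((m ^ k : ℕ) : ℤ)) w) :=
        cW_congr fun w _ => and_congr_right fun _ => dt_hit_congr h3 w
      rw [e1])
  refine h2.trans ?_
  rw [← Finset.sum_div, ← Finset.mul_sum]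
  have h3 := dt_sum_hit_le (r := r) hco t k (fun w => δ * t < |(sg w : ℝ) - (1 - 1 / (d : ℝ)) * t|)
  have h4 := chebyshev hd t (R := δ * t) (by positivity)
  have h5 := h3.trans h4
  have h6 : (0 : ℝ) ≤ 2 * ((y : ℝ) / ((m ^ k : ℕ) : ℝ)) * ((m : ℝ) ^ k / (d : ℝ) ^ t) := by
    positivity
  have h7 := mul_le_mul_of_nonneg_left h5 h6
  refine le_trans (le_of_eq ?_) (h7.trans (le_of_eq ?_))
  · ring
  · push_cast
    field_simp

/-- Step 3. -/
theorem dt_step3 (hd : 2 ≤ d) (hdm : d < m) (hco : Nat.Coprime m d) {t y k : ℕ}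
    (hkt : 5 * k ≤ t) (hk : m ^ k ≤ y) :
    ∑ b ∈ Yw y, (m : ℝ) ^ k * (nu d m r k b - nut d m r t k b) ≤ 2 * y * (9 / 10) ^ t := by
  have hm : 0 < m := by omega
  have h2 := sum_win_le (M := m ^ k) (y := y) (by positivity) hk
    (h := fun b : ℤ => (m : ℝ) ^ k * (nu d m r k b - nut d m r t k b))
    (fun b => by
      have := nut_le_nu (d := d) (m := m) (r := r) t k b
      exact mul_nonneg (by positivity) (by linarith)) (by
      intro b
      have h3 : (m : ℤ) ^ k ∣ b - b % ((m ^ k : ℕ) : ℤ) := by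
        have := Int.dvd_self_sub_emod (x := b) (m := ((m ^ k : ℕ) : ℤ))
        push_cast at this ⊢
        exact this
      rw [nu_congr h3, nut_congr h3])
  refine h2.trans ?_
  rw [← Finset.mul_sum]
  have h3 := sum_nu_sub_nut_le (r := r) hd (by omega : 1 ≤ m) hco hkt
  have h6 : (0 : ℝ) ≤ 2 * ((y : ℝ) / ((m ^ k : ℕ) : ℝ)) * (m : ℝ) ^ k := by positivity
  have h7 := mul_le_mul_of_nonneg_left h3 h6
  refine le_trans (le_of_eq ?_) (h7.trans (le_of_eq ?_))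
  · ring
  · push_cast
    field_simp

/-- Step 4. -/
theorem dt_step4 (hdm : d < m) {y k K : ℕ} (hkK : k ≤ K)
    (hK : m ^ K ≤ y) {ε : ℝ} (h : ∑ c ∈ Finset.range (m ^ K),
      |nu d m r K c - nu d m r k c / (m : ℝ) ^ (K - k)| ≤ ε) :
    ∑ b ∈ Yw y, |fk d m r K b - fk d m r k b| ≤ 2 * y * ε := by
  have hm : 0 < m := by omega
  have h1 : ∀ b : ℤ, |fk d m r K b - fk d m r k b| =
      (m : ℝ) ^ K * |nu d m r K b - nu d m r k b / (m : ℝ) ^ (K - k)| := by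
    intro b
    unfold fk
    have h2 : (m : ℝ) ^ K = (m : ℝ) ^ k * (m : ℝ) ^ (K - k) := by
      rw [← pow_add]
      congr 1
      omega
    have h3 : (m : ℝ) ^ (K - k) ≠ 0 := by positivity
    have h4 : (m : ℝ) ^ K * nu d m r K b - (m : ℝ) ^ k * nu d m r k b =
        (m : ℝ) ^ K * (nu d m r K b - nu d m r k b / (m : ℝ) ^ (K - k)) := by
      rw [h2]
      field_simp
    rw [h4, abs_mul, abs_of_nonneg (by positivity : 0 ≤ (m : ℝ) ^ K)]
  simp only [h1]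
  rw [← Finset.mul_sum]
  have h2 := sum_win_le (M := m ^ K) (y := y) (by positivity) hK
    (h := fun b : ℤ => |nu d m r K b - nu d m r k b / (m : ℝ) ^ (K - k)|)
    (fun b => abs_nonneg _) (by
      intro b
      have h3 : (m : ℤ) ^ K ∣ b - b % ((m ^ K : ℕ) : ℤ) := by
        have := Int.dvd_self_sub_emod (x := b) (m := ((m ^ K : ℕ) : ℤ))
        push_cast at this ⊢
        exact this
      have h4 : (m : ℤ) ^ k ∣ b - b % ((m ^ K : ℕ) : ℤ) := (pow_dvd_pow _ hkK).trans h3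
      rw [nu_congr h3, nu_congr h4])
  have h5 : (0 : ℝ) ≤ (m : ℝ) ^ K * (2 * ((y : ℝ) / ((m ^ K : ℕ) : ℝ))) := by positivity
  have h7 := mul_le_mul_of_nonneg_left h h5
  refine (mul_le_mul_of_nonneg_left h2 (by positivity)).trans ?_
  refine le_trans (le_of_eq ?_) (h7.trans (le_of_eq ?_))
  · ring
  · push_cast
    field_simp

/-- The pointwise bound. -/
theorem dt_point (hd : 2 ≤ d) (hdm : d < m) {t k₁ k : ℕ} {δ : ℝ} (hδ' : δ ≤ 1 / 5)
    (hk₁ : 5 * k₁ ≤ t) (b : ℤ) :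
    |DD d m r t δ b - fk d m r k b| ≤
      ∑ S ∈ (Finset.range (t + 1)).filter
        (fun S : ℕ => |(S : ℝ) - (1 - 1 / (d : ℝ)) * t| ≤ δ * t),
        |(m : ℝ) ^ S * cW d t (fun w => sg w = S ∧ Hit d m r S b w) / (d : ℝ) ^ t -
          (m : ℝ) ^ k₁ * cW d t (fun w => sg w = S ∧ Hit d m r k₁ b w) / (d : ℝ) ^ t| +
      (m : ℝ) ^ k₁ * cW d t (fun w => δ * t < |(sg w : ℝ) - (1 - 1 / (d : ℝ)) * t| ∧
        Hit d m r k₁ b w) / (d : ℝ) ^ t +
      (m : ℝ) ^ k₁ * (nu d m r k₁ b - nut d m r t k₁ b) +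
      |fk d m r k₁ b - fk d m r k b| := by
  have hd2 : (2 : ℝ) ≤ d := by exact_mod_cast hd
  have hd0 : (0 : ℝ) < (d : ℝ) ^ t := by positivity
  have hm0 : (0 : ℝ) < (m : ℝ) ^ k₁ := by
    have : 0 < m := by omega
    positivity
  set R := (Finset.range (t + 1)).filter
    (fun S : ℕ => |(S : ℝ) - (1 - 1 / (d : ℝ)) * t| ≤ δ * t) with hR
  set E1 : ℝ := ∑ S ∈ R, (m : ℝ) ^ k₁ * cW d t (fun w => sg w = S ∧ Hit d m r k₁ b w) /
    (d : ℝ) ^ t with hE1
  have h1 : |DD d m r t δ b - E1| ≤ ∑ S ∈ R,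
      |(m : ℝ) ^ S * cW d t (fun w => sg w = S ∧ Hit d m r S b w) / (d : ℝ) ^ t -
        (m : ℝ) ^ k₁ * cW d t (fun w => sg w = S ∧ Hit d m r k₁ b w) / (d : ℝ) ^ t| := by
    rw [dt_DD, hE1, ← Finset.sum_sub_distrib]
    exact Finset.abs_sum_le_sum_abs _ _
  have h2 : E1 = (m : ℝ) ^ k₁ * cW d t (fun w => |(sg w : ℝ) - (1 - 1 / (d : ℝ)) * t| ≤ δ * t ∧
      Hit d m r k₁ b w) / (d : ℝ) ^ t := by
    rw [hE1, ← Finset.sum_div, ← Finset.mul_sum]
    rw [dt_fiber (d := d) t (fun S : ℕ => |(S : ℝ) - (1 - 1 / (d : ℝ)) * t| ≤ δ * t)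
      (fun w => Hit d m r k₁ b w)]
  have hq : ∀ w : List ℕ, |(sg w : ℝ) - (1 - 1 / (d : ℝ)) * t| ≤ δ * t → k₁ ≤ sg w := by
    intro w hw
    have h3 := (abs_le.mp hw).1
    have h4 : 1 / (d : ℝ) ≤ 1 / 2 := one_div_le_one_div_of_le (by norm_num) hd2
    have h5 : (5 : ℝ) * k₁ ≤ t := by exact_mod_cast hk₁
    have h6 : δ * t ≤ 1 / 5 * t := mul_le_mul_of_nonneg_right hδ' (Nat.cast_nonneg t)
    have h7 : (1 / 2 : ℝ) * t ≤ (1 - 1 / (d : ℝ)) * t :=
      mul_le_mul_of_nonneg_right (by linarith) (Nat.cast_nonneg t)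
    have h8 : (k₁ : ℝ) ≤ sg w := by
      have : (0 : ℝ) ≤ t := Nat.cast_nonneg t
      linarith
    exact_mod_cast h8
  have h3 : cW d t (fun w => |(sg w : ℝ) - (1 - 1 / (d : ℝ)) * t| ≤ δ * t ∧
      Hit d m r k₁ b w) ≤ cW d t (fun w => k₁ ≤ sg w ∧ Hit d m r k₁ b w) :=
    cW_mono fun w _ hw => ⟨hq w hw.1, hw.2⟩
  have h4 : cW d t (fun w => k₁ ≤ sg w ∧ Hit d m r k₁ b w) ≤
      cW d t (fun w => |(sg w : ℝ) - (1 - 1 / (d : ℝ)) * t| ≤ δ * t ∧ Hit d m r k₁ b w) +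
      cW d t (fun w => δ * t < |(sg w : ℝ) - (1 - 1 / (d : ℝ)) * t| ∧ Hit d m r k₁ b w) := by
    refine (cW_mono fun w _ hw => ?_).trans (cW_or_le _ _ _ _)
    rcases le_or_gt |(sg w : ℝ) - (1 - 1 / (d : ℝ)) * t| (δ * t) with h | h
    · exact Or.inl ⟨h, hw.2⟩
    · exact Or.inr ⟨h, hw.2⟩
  have h5 : |E1 - (m : ℝ) ^ k₁ * nut d m r t k₁ b| ≤
      (m : ℝ) ^ k₁ * cW d t (fun w => δ * t < |(sg w : ℝ) - (1 - 1 / (d : ℝ)) * t| ∧
        Hit d m r k₁ b w) / (d : ℝ) ^ t := by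
    have e1 : E1 - (m : ℝ) ^ k₁ * nut d m r t k₁ b = -((m : ℝ) ^ k₁ *
        (cW d t (fun w => k₁ ≤ sg w ∧ Hit d m r k₁ b w) -
        cW d t (fun w => |(sg w : ℝ) - (1 - 1 / (d : ℝ)) * t| ≤ δ * t ∧
          Hit d m r k₁ b w)) / (d : ℝ) ^ t) := by
      rw [h2]
      unfold nut
      ring
    rw [e1, abs_neg, abs_of_nonneg (div_nonneg (mul_nonneg hm0.le (by linarith)) hd0.le)]
    exact div_le_div_of_nonneg_right (mul_le_mul_of_nonneg_left (by linarith) hm0.le) hd0.le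
  have h6 : |(m : ℝ) ^ k₁ * nut d m r t k₁ b - fk d m r k₁ b| ≤
      (m : ℝ) ^ k₁ * (nu d m r k₁ b - nut d m r t k₁ b) := by
    have h7 := nut_le_nu (d := d) (m := m) (r := r) t k₁ b
    have e1 : (m : ℝ) ^ k₁ * nut d m r t k₁ b - fk d m r k₁ b =
        -((m : ℝ) ^ k₁ * (nu d m r k₁ b - nut d m r t k₁ b)) := by
      unfold fk
      ring
    rw [e1, abs_neg, abs_of_nonneg (mul_nonneg hm0.le (by linarith))]
  have t1 := abs_sub_le (DD d m r t δ b) E1 (fk d m r k b)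
  have t2 := abs_sub_le E1 ((m : ℝ) ^ k₁ * nut d m r t k₁ b) (fk d m r k b)
  have t3 := abs_sub_le ((m : ℝ) ^ k₁ * nut d m r t k₁ b) (fk d m r k₁ b) (fk d m r k b)
  linarith

theorem dt_main (hd : 2 ≤ d) (hdm : d < m) (hco : Nat.Coprime m d) (hmix : Mixing d m r)
    {δ : ℝ} (hδ : 0 < δ) (hδ' : δ ≤ 1 / 5) {ε : ℝ} (hε : 0 < ε) :
    ∃ k0 : ℕ, ∀ k : ℕ, k0 ≤ k → ∃ t0 : ℕ, ∀ t : ℕ, t0 ≤ t → ∀ y : ℕ, m ^ t ≤ y →
      ∑ b ∈ Yw y, |DD d m r t δ b - fk d m r k b| ≤ ε * y := by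
  obtain ⟨k0, hk0⟩ := nu_cauchy (r := r) hd hdm hco hmix (ε := ε / 8) (by positivity)
  obtain ⟨C, hC, hmix2⟩ := hmix 2
  refine ⟨k0, fun k hk => ?_⟩
  have hm : 0 < m := by omega
  -- the limit
  have hlim : Tendsto (fun t : ℕ => (400 * C + 2 / δ ^ 2) / (t : ℝ) + 2 * (9 / 10 : ℝ) ^ t)
      atTop (𝓝 (0 + 2 * 0)) :=
    (tendsto_const_div_atTop_nhds_zero_nat _).add
      ((tendsto_pow_atTop_nhds_zero_of_lt_one (by norm_num) (by norm_num)).const_mul 2)
  rw [mul_zero, add_zero] at hlim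
  obtain ⟨t1, ht1⟩ := Filter.eventually_atTop.mp
    (hlim.eventually_le_const (by positivity : (0 : ℝ) < ε / 2))
  refine ⟨max t1 (max 10 (5 * k)), fun t ht y hy => ?_⟩
  have ht1' : t1 ≤ t := (le_max_left _ _).trans ht
  have ht10 : 10 ≤ t := (le_max_left _ _).trans ((le_max_right _ _).trans ht)
  have ht5 : 5 * k ≤ t := (le_max_right _ _).trans ((le_max_right _ _).trans ht)
  obtain ⟨e, he⟩ := exists_e hco t
  set k₁ := t / 5 with hk₁
  have hk₁5 : 5 * k₁ ≤ t := by omega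
  have hkk₁ : k ≤ k₁ := by omega
  have hk₁1 : 1 ≤ k₁ := by omega
  have hk₁t : k₁ ≤ t := by omega
  have hk₁10 : t ≤ 10 * k₁ := by omega
  have hy1 : m ^ k₁ ≤ y := (Nat.pow_le_pow_right hm hk₁t).trans hy
  have ht0 : (0 : ℝ) < t := by
    have : 0 < t := by omega
    exact_mod_cast this
  have hd0 : (0 : ℝ) < (d : ℝ) ^ t := by
    have : 0 < d := by omega
    positivity
  have hd2 : (2 : ℝ) ≤ d := by exact_mod_cast hd
  refine (Finset.sum_le_sum fun b _ => dt_point (k := k) hd hdm hδ' hk₁5 b).trans ?_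
  rw [Finset.sum_add_distrib, Finset.sum_add_distrib, Finset.sum_add_distrib]
  have s2 := dt_step2 (r := r) hd hdm hco hδ (by omega : 1 ≤ t) hy1
  have s3 := dt_step3 (r := r) hd hdm hco hk₁5 hy1
  have s4 := dt_step4 (r := r) hdm hkk₁ hy1 (hk0 k k₁ hk hkk₁)
  have hCk : C * (k₁ : ℝ) ^ (-(2 : ℝ)) ≤ 100 * C / (t : ℝ) ^ 2 := by
    have h1 : (0 : ℝ) < k₁ := by exact_mod_cast hk₁1
    have h2 : (k₁ : ℝ) ^ (-(2 : ℝ)) = 1 / (k₁ : ℝ) ^ 2 := by
      rw [Real.rpow_neg h1.le]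
      norm_num
    rw [h2]
    have h3 : (t : ℝ) ≤ 10 * k₁ := by exact_mod_cast hk₁10
    have h4 : (t : ℝ) ^ 2 ≤ 100 * (k₁ : ℝ) ^ 2 := by
      have := pow_le_pow_left₀ ht0.le h3 2
      nlinarith
    rw [mul_one_div, div_le_div_iff₀ (by positivity) (by positivity)]
    have := mul_le_mul_of_nonneg_left h4 hC.le
    linarith
  have s1 : ∑ b ∈ Yw y, ∑ S ∈ (Finset.range (t + 1)).filter
        (fun S : ℕ => |(S : ℝ) - (1 - 1 / (d : ℝ)) * t| ≤ δ * t),
        |(m : ℝ) ^ S * cW d t (fun w => sg w = S ∧ Hit d m r S b w) / (d : ℝ) ^ t -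
          (m : ℝ) ^ k₁ * cW d t (fun w => sg w = S ∧ Hit d m r k₁ b w) / (d : ℝ) ^ t| ≤
      y * (400 * C / t) := by
    rw [Finset.sum_comm]
    have hS : ∀ S ∈ (Finset.range (t + 1)).filter
        (fun S : ℕ => |(S : ℝ) - (1 - 1 / (d : ℝ)) * t| ≤ δ * t),
        ∑ b ∈ Yw y, |(m : ℝ) ^ S * cW d t (fun w => sg w = S ∧ Hit d m r S b w) / (d : ℝ) ^ t -
          (m : ℝ) ^ k₁ * cW d t (fun w => sg w = S ∧ Hit d m r k₁ b w) / (d : ℝ) ^ t| ≤
        2 * y * (100 * C / (t : ℝ) ^ 2) := by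
      intro S hS
      rw [Finset.mem_filter, Finset.mem_range] at hS
      obtain ⟨hS1, hS2⟩ := hS
      have hkS : k₁ ≤ S := by
        have h3 := (abs_le.mp hS2).1
        have h4 : 1 / (d : ℝ) ≤ 1 / 2 := one_div_le_one_div_of_le (by norm_num) hd2
        have h5 : (5 : ℝ) * k₁ ≤ t := by exact_mod_cast hk₁5
        have h6 : δ * t ≤ 1 / 5 * t := mul_le_mul_of_nonneg_right hδ' ht0.le
        have h7 : (1 / 2 : ℝ) * t ≤ (1 - 1 / (d : ℝ)) * t :=
          mul_le_mul_of_nonneg_right (by linarith) ht0.le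
        have h8 : (k₁ : ℝ) ≤ S := by linarith
        exact_mod_cast h8
      refine (dt_step1 (r := r) hdm he hy hkS (by omega)).trans ?_
      refine mul_le_mul_of_nonneg_left ?_ (by positivity)
      refine le_trans ?_ hCk
      rw [div_le_iff₀ hd0]
      have := hmix2 S k₁ hk₁1 hkS e ((pow_dvd_pow _ (by omega)).trans he) t S le_rfl
      linarith
    refine (Finset.sum_le_card_nsmul _ _ _ hS).trans ?_
    rw [nsmul_eq_mul]
    have hc : (((Finset.range (t + 1)).filter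
        (fun S : ℕ => |(S : ℝ) - (1 - 1 / (d : ℝ)) * t| ≤ δ * t)).card : ℝ) ≤ 2 * t := by
      have h1 := Finset.card_filter_le (Finset.range (t + 1))
        (fun S : ℕ => |(S : ℝ) - (1 - 1 / (d : ℝ)) * t| ≤ δ * t)
      rw [Finset.card_range] at h1
      have h2 : (((Finset.range (t + 1)).filter
        (fun S : ℕ => |(S : ℝ) - (1 - 1 / (d : ℝ)) * t| ≤ δ * t)).card : ℝ) ≤ (t + 1 : ℕ) := by
        exact_mod_cast h1
      push_cast at h2
      have h3 : (1 : ℝ) ≤ t := by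
        have : 1 ≤ t := by omega
        exact_mod_cast this
      linarith
    refine (mul_le_mul_of_nonneg_right hc (by positivity)).trans (le_of_eq ?_)
    field_simp
    ring
  have h9 := ht1 t ht1'
  have hy0 : (0 : ℝ) ≤ y := Nat.cast_nonneg y
  have h10 := mul_le_mul_of_nonneg_left h9 hy0
  have e1 : (y : ℝ) * ((400 * C + 2 / δ ^ 2) / (t : ℝ) + 2 * (9 / 10 : ℝ) ^ t) =
      y * (400 * C / t) + 2 * y * (1 / (δ ^ 2 * t)) + 2 * y * (9 / 10) ^ t := by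
    field_simp
  rw [e1] at h10
  have h11 : 0 ≤ (y : ℝ) * ε := mul_nonneg hy0 hε.le
  linarith

end Pool.Agent.Helper91.PL
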