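import Pool.Agent.Helper91.PL.Defs

/-!
# Block PL-VC: returns to the window

Let `b ∈ [y, 2 y)` with `T^[i] b ∈ [y, 2 y)` and `v = wd d m r i b`. By `wd_spec`
`m ^ sg v * b = d ^ i T^[i] b + Off v ≥ d ^ i y - B₀ m ^ i` (`abs_Off_le`), so
`2 m ^ sg v ≥ d ^ i - B₀ m ^ i / y ≥ d ^ i / 2`, since `2 B₀ m ^ i ≤ y`. Hence `d ^ i ≤ 4 m ^ sg v`. For a
given word `v` two such `b`, `b'` are congruent modulo `d ^ i` (`wd_spec`: `d ^ i ∣ m ^ sg v (b - b')`) and
modulo `m ^ s`, hence modulo `m ^ s d ^ i`; so there are at most `y / (m ^ s d ^ i) + 1 ≤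
2 y / (m ^ s d ^ i)` of them. The number of words `v ∈ W d i` with `d ^ i ≤ 4 m ^ sg v` is `≤ C' d ^ i e ^ (-c i)`:
by `chernoff` with `θ = 1`, `N = t = i` and `a` between `1 - 1 / d` and `log d / log m` (here `gam > 0` is
used), for `i ≥ i0`; trivially for `i < i0`.
-/

set_option autoImplicit false

namespace Pool.Agent.Helper91.PL

open Pool.Agent.Helper68.Moeller Pool.Agent.Helper52.Tao Pool.Agent.Helper8.ND
  Pool.Agent.Helper8.CL Filter Topology

variable {d m : ℕ} {r : ℤ → ℤ}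

/-- Two integers with the same word of length `i` are congruent modulo `d ^ i`. -/
theorem vc_dvd (hd : 2 ≤ d) (hco : Nat.Coprime m d) (hr : Admissible d m r) {i : ℕ} {b b' : ℤ}
    (h : wd d m r i b = wd d m r i b') : (d : ℤ) ^ i ∣ b - b' := by
  have h1 := wd_spec hd hr i b
  have h2 := wd_spec hd hr i b'
  rw [h] at h1
  have hcop : IsCoprime ((d : ℤ) ^ i) ((m : ℤ) ^ sg (wd d m r i b')) := by
    apply IsCoprime.pow
    exact (Nat.isCoprime_iff_coprime.mpr hco).symm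
  refine hcop.dvd_of_dvd_mul_left ⟨(T d m r)^[i] b - (T d m r)^[i] b', ?_⟩
  linear_combination h2 - h1

/-- The number of points of a residue class in the window. -/
theorem vc_count {y M : ℕ} (hM : 1 ≤ M) (hMy : M ≤ y) (S : Finset ℤ) (hS : S ⊆ Yw y)
    (h : ∀ b ∈ S, ∀ b' ∈ S, (M : ℤ) ∣ b - b') : (S.card : ℝ) ≤ 2 * (y / (M : ℝ)) := by
  have hM0 : (0 : ℤ) < M := by omega
  have h1 : S.card ≤ y / M + 1 := by
    rw [← Finset.card_range (y / M + 1)]
    refine Finset.card_le_card_of_injOn (fun b => ((b - y) / (M : ℤ)).toNat) ?_ ?_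
    · intro b hb
      have h2 := hS hb
      rw [Yw, Finset.mem_Ico] at h2
      obtain ⟨h3, h4⟩ := h2
      simp only [Finset.coe_range, Set.mem_Iio]
      have h5 : (b - y) / (M : ℤ) ≤ (y : ℤ) / (M : ℤ) := Int.ediv_le_ediv hM0 (by linarith)
      have h6 : (0 : ℤ) ≤ (b - y) / (M : ℤ) := Int.ediv_nonneg (by linarith) hM0.le
      have h7 : ((y / M : ℕ) : ℤ) = (y : ℤ) / (M : ℤ) := by push_cast; rfl
      omega
    · intro b hb b' hb' hbb
      simp only at hbb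
      have h2 := hS hb
      have h2' := hS hb'
      rw [Yw, Finset.mem_Ico] at h2 h2'
      have h6 : (0 : ℤ) ≤ (b - y) / (M : ℤ) := Int.ediv_nonneg (by linarith [h2.1]) hM0.le
      have h6' : (0 : ℤ) ≤ (b' - y) / (M : ℤ) := Int.ediv_nonneg (by linarith [h2'.1]) hM0.le
      have h7 : (b - y) / (M : ℤ) = (b' - y) / (M : ℤ) := by omega
      have h8 : (b - y) % (M : ℤ) = (b' - y) % (M : ℤ) := by
        refine Int.emod_eq_emod_iff_emod_sub_eq_zero.2 (Int.emod_eq_zero_of_dvd ?_)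
        rw [sub_sub_sub_cancel_right]
        exact h b hb b' hb'
      have e1 := Int.mul_ediv_add_emod (b - y) M
      have e2 := Int.mul_ediv_add_emod (b' - y) M
      rw [h7, h8] at e1
      linarith
  have hM0' : (0 : ℝ) < M := by exact_mod_cast hM
  have h2 : (1 : ℝ) ≤ y / (M : ℝ) := by
    rw [le_div_iff₀ hM0', one_mul]; exact_mod_cast hMy
  calc (S.card : ℝ) ≤ ((y / M + 1 : ℕ) : ℝ) := by exact_mod_cast h1
    _ = ((y / M : ℕ) : ℝ) + 1 := by push_cast; ring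
    _ ≤ y / (M : ℝ) + 1 := by gcongr; exact Nat.cast_div_le
    _ ≤ 2 * (y / (M : ℝ)) := by linarith

/-- The number of the words which are long enough. -/
theorem vc_words (hd : 2 ≤ d) (hdm : d < m) (hg : 0 < gam d m) :
    ∃ C c : ℝ, 0 < C ∧ 0 < c ∧ ∀ i : ℕ,
      cW d i (fun w => (d : ℝ) ^ i ≤ 4 * (m : ℝ) ^ sg w) ≤
        C * ((d : ℝ) ^ i * Real.exp (-(c * i))) := by
  have hd0 : (0 : ℝ) < d := by positivity
  have hm0 : (0 : ℝ) < m := by
    have : 0 < m := by omega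
    exact_mod_cast this
  have hlm : 0 < Real.log m := by
    apply Real.log_pos
    have : 1 < m := by omega
    exact_mod_cast this
  set a : ℝ := (1 - 1 / (d : ℝ) + Real.log d / Real.log m) / 2 with ha
  have hlt : 1 - 1 / (d : ℝ) < Real.log d / Real.log m := by
    rw [lt_div_iff₀ hlm]; unfold gam at hg; linarith
  have ha1 : (1 - 1 / (d : ℝ)) * 1 < a := by rw [ha]; linarith
  have ha2 : a < Real.log d / Real.log m := by rw [ha]; linarith
  obtain ⟨c, hc0, hc⟩ := chernoff hd one_pos ha1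
  obtain ⟨i0, hi0⟩ := exists_nat_ge (Real.log 4 / (Real.log d - a * Real.log m))
  have hδ : 0 < Real.log d - a * Real.log m := by
    rw [lt_div_iff₀ hlm] at ha2; linarith
  refine ⟨Real.exp (c * i0), c, Real.exp_pos _, hc0, ?_⟩
  intro i
  rcases le_or_gt i0 i with h | h
  · have h1 : cW d i (fun w => (d : ℝ) ^ i ≤ 4 * (m : ℝ) ^ sg w) ≤
        cW d i (fun w => a * i ≤ (sg w : ℝ)) := by
      apply cW_mono
      intro w _ hw
      have h2 := Real.log_le_log (by positivity) hw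
      rw [Real.log_pow, Real.log_mul (by norm_num) (by positivity), Real.log_pow] at h2
      have h3 : Real.log 4 ≤ (i : ℝ) * (Real.log d - a * Real.log m) := by
        rw [div_le_iff₀ hδ] at hi0
        have : (i0 : ℝ) ≤ i := by exact_mod_cast h
        nlinarith
      have h4 : a * i * Real.log m ≤ (sg w : ℝ) * Real.log m := by nlinarith
      exact le_of_mul_le_mul_right h4 hlm
    have h2 := hc i i (by linarith)
    have h3 : 1 ≤ Real.exp (c * i0) := Real.one_le_exp (by positivity)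
    have h4 : 0 ≤ (d : ℝ) ^ i * Real.exp (-(c * i)) := by positivity
    nlinarith
  · have h1 := cW_le_pow d i (fun w => (d : ℝ) ^ i ≤ 4 * (m : ℝ) ^ sg w)
    have h2 : 1 ≤ Real.exp (c * i0) * Real.exp (-(c * i)) := by
      rw [← Real.exp_add]
      apply Real.one_le_exp
      have : (i : ℝ) ≤ i0 := by exact_mod_cast h.le
      nlinarith
    have h3 : (0 : ℝ) < (d : ℝ) ^ i := by positivity
    calc _ ≤ (d : ℝ) ^ i * 1 := by rw [mul_one]; exact h1
      _ ≤ (d : ℝ) ^ i * (Real.exp (c * i0) * Real.exp (-(c * i))) := by gcongr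
      _ = _ := by ring

theorem vc (hd : 2 ≤ d) (hdm : d < m) (hco : Nat.Coprime m d) (hr : Admissible d m r)
    (hg : 0 < gam d m) {B₀ : ℕ} (hB : ∀ j : ℤ, 0 < j → j < (d : ℤ) → |r j| ≤ B₀) :
    ∃ C c : ℝ, 0 < C ∧ 0 < c ∧ ∀ (i s : ℕ) (c₀ : ℤ) (y : ℕ),
      (2 * (B₀ : ℝ) + 1) * (m : ℝ) ^ s * ((d : ℝ) * m) ^ i ≤ y →
        (((Yw y).filter (fun b => (m : ℤ) ^ s ∣ b - c₀ ∧ (T d m r)^[i] b ∈ Yw y)).card : ℝ) ≤
          C * Real.exp (-(c * i)) * (y / (m : ℝ) ^ s) := by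
  classical
  obtain ⟨C, c, hC, hc, hw⟩ := vc_words (d := d) (m := m) hd hdm hg
  refine ⟨2 * C, c, by positivity, hc, ?_⟩
  intro i s c₀ y hy
  have hd0 : (0 : ℝ) < d := by positivity
  have hd1 : (1 : ℝ) ≤ d := by exact_mod_cast (by omega : 1 ≤ d)
  have hm1 : (1 : ℝ) ≤ m := by exact_mod_cast (by omega : 1 ≤ m)
  have hm0 : (0 : ℝ) < m := by linarith
  have hdi : (1 : ℝ) ≤ (d : ℝ) ^ i := one_le_pow₀ hd1
  have hmi : (1 : ℝ) ≤ (m : ℝ) ^ i := one_le_pow₀ hm1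
  have hms : (1 : ℝ) ≤ (m : ℝ) ^ s := one_le_pow₀ hm1
  have hB0 : (0 : ℝ) ≤ B₀ := Nat.cast_nonneg _
  rw [mul_pow] at hy
  set S := (Yw y).filter (fun b => (m : ℤ) ^ s ∣ b - c₀ ∧ (T d m r)^[i] b ∈ Yw y) with hS
  set V := (W d i).filter (fun w => (d : ℝ) ^ i ≤ 4 * (m : ℝ) ^ sg w) with hV
  have hmaps : ∀ b ∈ S, wd d m r i b ∈ V := by
    intro b hb
    rw [hS, Finset.mem_filter, Yw, Finset.mem_Ico, Finset.mem_Ico] at hb
    obtain ⟨⟨h1, h2⟩, _, h3, h4⟩ := hb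
    rw [hV, Finset.mem_filter]
    have hmem := wd_mem (m := m) hd r i b
    refine ⟨hmem, ?_⟩
    set v := wd d m r i b with hv
    have h5 := wd_spec hd hr i b
    rw [← hv] at h5
    have h6 := abs_Off_le hd hdm hB hmem
    have h5' : (d : ℝ) ^ i * (((T d m r)^[i] b : ℤ) : ℝ) =
        (m : ℝ) ^ sg v * (b : ℝ) - ((Off d m r v : ℤ) : ℝ) := by exact_mod_cast h5
    have h6' : |((Off d m r v : ℤ) : ℝ)| ≤ (B₀ : ℝ) * (m : ℝ) ^ i := by exact_mod_cast h6
    have h2' : (b : ℝ) ≤ 2 * y := by exact_mod_cast h2.le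
    have h3' : (y : ℝ) ≤ (((T d m r)^[i] b : ℤ) : ℝ) := by exact_mod_cast h3
    have h7 := (abs_le.1 h6').1
    have hsv : (0 : ℝ) < (m : ℝ) ^ sg v := by positivity
    have hy0 : (0 : ℝ) < y := by
      refine lt_of_lt_of_le ?_ hy
      positivity
    -- `B₀ m ^ i ≤ y / 2`
    have h8 : 2 * ((B₀ : ℝ) * (m : ℝ) ^ i) ≤ y := by
      refine le_trans ?_ hy
      have e : (0 : ℝ) ≤ (B₀ : ℝ) * (m : ℝ) ^ i := by positivity
      have e2 : (1 : ℝ) ≤ (m : ℝ) ^ s * (d : ℝ) ^ i := one_le_mul_of_one_le_of_one_le hms hdi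
      calc 2 * ((B₀ : ℝ) * (m : ℝ) ^ i) ≤ (2 * (B₀ : ℝ) + 1) * (m : ℝ) ^ i * 1 := by nlinarith
        _ ≤ (2 * (B₀ : ℝ) + 1) * (m : ℝ) ^ i * ((m : ℝ) ^ s * (d : ℝ) ^ i) := by gcongr
        _ = _ := by ring
    have h9 : (d : ℝ) ^ i * y ≤ (m : ℝ) ^ sg v * (2 * y) + (B₀ : ℝ) * (m : ℝ) ^ i := by
      calc (d : ℝ) ^ i * y ≤ (d : ℝ) ^ i * (((T d m r)^[i] b : ℤ) : ℝ) := by gcongr
        _ = (m : ℝ) ^ sg v * (b : ℝ) - ((Off d m r v : ℤ) : ℝ) := h5'
        _ ≤ (m : ℝ) ^ sg v * (2 * y) + (B₀ : ℝ) * (m : ℝ) ^ i := by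
            have := mul_le_mul_of_nonneg_left h2' hsv.le
            have h10 := (abs_le.1 h6').1
            linarith
    have h10 : (d : ℝ) ^ i * y ≤ (4 * (m : ℝ) ^ sg v) * y := by nlinarith
    exact le_of_mul_le_mul_right h10 hy0
  have hcard : S.card = ∑ v ∈ V, (S.filter (fun b => wd d m r i b = v)).card :=
    Finset.card_eq_sum_card_fiberwise hmaps
  have hM1 : 1 ≤ m ^ s * d ^ i := Nat.mul_pos (pow_pos (by omega) _) (pow_pos (by omega) _)
  have hMy : m ^ s * d ^ i ≤ y := by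
    have : ((m ^ s * d ^ i : ℕ) : ℝ) ≤ (y : ℝ) := by
      push_cast
      refine le_trans ?_ hy
      calc (m : ℝ) ^ s * (d : ℝ) ^ i = 1 * (m : ℝ) ^ s * ((d : ℝ) ^ i * 1) := by ring
        _ ≤ (2 * (B₀ : ℝ) + 1) * (m : ℝ) ^ s * ((d : ℝ) ^ i * (m : ℝ) ^ i) := by
            gcongr
            linarith
    exact_mod_cast this
  have hfib : ∀ v ∈ V, ((S.filter (fun b => wd d m r i b = v)).card : ℝ) ≤
      2 * (y / ((m ^ s * d ^ i : ℕ) : ℝ)) := by
    intro v _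
    refine vc_count hM1 hMy _ ?_ ?_
    · exact (Finset.filter_subset _ _).trans (Finset.filter_subset _ _)
    · intro b hb b' hb'
      rw [Finset.mem_filter, hS, Finset.mem_filter] at hb hb'
      obtain ⟨⟨_, h1, _⟩, h2⟩ := hb
      obtain ⟨⟨_, h1', _⟩, h2'⟩ := hb'
      have h3 := vc_dvd hd hco hr (h2.trans h2'.symm)
      have h4 : (m : ℤ) ^ s ∣ b - b' := by
        have := _root_.dvd_sub h1 h1'
        rwa [sub_sub_sub_cancel_right] at this
      have hcop : IsCoprime ((m : ℤ) ^ s) ((d : ℤ) ^ i) := by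
        apply IsCoprime.pow
        exact Nat.isCoprime_iff_coprime.mpr hco
      push_cast
      exact hcop.mul_dvd h4 h3
  have hVc : (V.card : ℝ) ≤ C * ((d : ℝ) ^ i * Real.exp (-(c * i))) := by
    refine le_trans (le_of_eq ?_) (hw i)
    rw [hV, cW]
  calc (S.card : ℝ) = ∑ v ∈ V, ((S.filter (fun b => wd d m r i b = v)).card : ℝ) := by
        rw [hcard]; push_cast; rfl
    _ ≤ ∑ v ∈ V, 2 * (y / ((m ^ s * d ^ i : ℕ) : ℝ)) := Finset.sum_le_sum hfib
    _ = V.card * (2 * (y / ((m ^ s * d ^ i : ℕ) : ℝ))) := by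
        rw [Finset.sum_const, nsmul_eq_mul]
    _ ≤ C * ((d : ℝ) ^ i * Real.exp (-(c * i))) * (2 * (y / ((m ^ s * d ^ i : ℕ) : ℝ))) := by
        gcongr
    _ = 2 * C * Real.exp (-(c * i)) * (y / (m : ℝ) ^ s) := by
        push_cast
        field_simp

end Pool.Agent.Helper91.PL
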