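import Pool.Agent.Helper8.CL.Time

/-!
# The predecessor law: definitions

`T` is the Möller map, `W d t` the words of length `t`, `sg w` the number of non-zero digits of `w`,
`Off w` the offset: `d ^ t * T^[t] n = m ^ sg w * n - Off w` if `w = wd t n` is the word of `n`
(`wd_spec`, `wd_unique`).
-/

set_option autoImplicit false

namespace Pool.Agent.Helper91.PL

open Pool.Agent.Helper68.Moeller Pool.Agent.Helper52.Tao Pool.Agent.Helper8.ND
  Pool.Agent.Helper8.CL Filter Topology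

/-- The negative drift of the walk `log (T^[k] n)`. -/
noncomputable def gam (d m : ℕ) : ℝ := Real.log d - (1 - 1 / (d : ℝ)) * Real.log m

/-- The integers whose `T`-orbit contains `a`. -/
def Pr (d m : ℕ) (r : ℤ → ℤ) (a : ℤ) : Set ℤ := {n | ∃ t : ℕ, (T d m r)^[t] n = a}

/-- The limit of the densities in `[A, 2A)`. -/
noncomputable def dens (G : Set ℤ) : ℝ := limUnder atTop (fun A : ℝ => fd G A)

/-! ### Averages over the scales -/

/-- The weight of `n`: the sum of `1 / A ^ 2` over the `A` in `[A0, A1)` with `A ≤ n < 2 A`. -/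
noncomputable def om (A0 A1 : ℕ) (n : ℤ) : ℝ :=
  ∑ A ∈ (Finset.Ico A0 A1).filter (fun A : ℕ => (A : ℤ) ≤ n ∧ n < 2 * (A : ℤ)), 1 / (A : ℝ) ^ 2

/-- The weighted sum of `h`. -/
noncomputable def sm (A0 A1 : ℕ) (h : ℤ → ℝ) : ℝ :=
  ∑ n ∈ Finset.Ico (A0 : ℤ) (2 * (A1 : ℤ)), om A0 A1 n * h n

/-- The total mass. -/
noncomputable def mass (A0 A1 : ℕ) : ℝ := ∑ A ∈ Finset.Ico A0 A1, 1 / (A : ℝ)

/-- The window `[y, 2 y)`. -/
noncomputable def Yw (y : ℕ) : Finset ℤ := Finset.Ico (y : ℤ) (2 * (y : ℤ))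

/-- The first scale. -/
noncomputable def lo (d m y N : ℕ) : ℕ := ⌈(y : ℝ) * Real.exp (gam d m * N)⌉₊

/-- The last scale. -/
noncomputable def hi (d m y N : ℕ) : ℕ := ⌈(y : ℝ) * Real.exp (2 * (gam d m * N))⌉₊

/-- The number of steps belonging to `y`. -/
noncomputable def Ny (d m y : ℕ) : ℕ := ⌊Real.log y / (200 * Real.log ((d : ℝ) * m))⌋₊

/-- The number of visits of `B` before the time `τ`. -/
noncomputable def vis (d m : ℕ) (r : ℤ → ℤ) (τ : ℕ) (B : Finset ℤ) (n : ℤ) : ℕ :=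
  ((Finset.range τ).filter (fun t => (T d m r)^[t] n ∈ B)).card

open Classical in
/-- The number of elements of `B` on the orbit of `n`. -/
noncomputable def hits (d m : ℕ) (r : ℤ → ℤ) (B : Finset ℤ) (n : ℤ) : ℕ :=
  (B.filter (fun b => n ∈ Pr d m r b)).card

/-! ### The limit law -/

/-- The congruence `b ≡ F w (mod m ^ k)`, if `sg w ≥ k`: the end point of the orbit segments with the
word `w` is congruent to `b` modulo `m ^ k`. -/
def Hit (d m : ℕ) (r : ℤ → ℤ) (k : ℕ) (b : ℤ) (w : List ℕ) : Prop :=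
  (m : ℤ) ^ k ∣ (d : ℤ) ^ w.length * b + Off d m r w

/-- The proportion of the words of length `t` with at least `k` non-zero digits whose end point is
congruent to `b` modulo `m ^ k`. -/
noncomputable def nut (d m : ℕ) (r : ℤ → ℤ) (t k : ℕ) (b : ℤ) : ℝ :=
  cW d t (fun w => k ≤ sg w ∧ Hit d m r k b w) / (d : ℝ) ^ t

/-- The limit of `nut` as `t → ∞` (`nut` is increasing in `t`). -/
noncomputable def nu (d m : ℕ) (r : ℤ → ℤ) (k : ℕ) (b : ℤ) : ℝ := ⨆ t : ℕ, nut d m r t k b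

/-- The density modulo `m ^ k` of the limit law. -/
noncomputable def fk (d m : ℕ) (r : ℤ → ℤ) (k : ℕ) (b : ℤ) : ℝ := (m : ℝ) ^ k * nu d m r k b

/-- The point with word `w` (of length `t`) and `T^[t] n = b`, if `Hit (sg w) b w`. -/
noncomputable def pt (d m : ℕ) (r : ℤ → ℤ) (w : List ℕ) (b : ℤ) : ℤ :=
  ((d : ℤ) ^ w.length * b + Off d m r w) / (m : ℤ) ^ sg w

open Classical in
/-- The weighted number of the words `w` of length `t`, with `sg w` near its mean value, whose end point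
is congruent to `b` modulo `m ^ sg w`. -/
noncomputable def DD (d m : ℕ) (r : ℤ → ℤ) (t : ℕ) (δ : ℝ) (b : ℤ) : ℝ :=
  (∑ w ∈ (W d t).filter (fun w => |(sg w : ℝ) - (1 - 1 / (d : ℝ)) * t| ≤ δ * t ∧
    Hit d m r (sg w) b w), (m : ℝ) ^ sg w) / (d : ℝ) ^ t

/-- The periodic points. -/
def Per (d m : ℕ) (r : ℤ → ℤ) (a : ℤ) : Prop := ∃ t : ℕ, 1 ≤ t ∧ (T d m r)^[t] a = a

/-- The points whose orbit is `≥ y` at some time and `≥ z` up to this time. -/
def Rt (d m : ℕ) (r : ℤ → ℤ) (z y : ℝ) : Set ℤ :=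
  {n | ∃ j : ℕ, y ≤ ((T d m r)^[j] n : ℝ) ∧ ∀ i : ℕ, i ≤ j → z ≤ ((T d m r)^[i] n : ℝ)}

/-- The points `b` of the window whose orbit makes `J` visits of the window before a further visit,
all before going below `y ^ θ`. -/
def QJ (d m : ℕ) (r : ℤ → ℤ) (θ : ℝ) (J y : ℕ) : Set ℤ :=
  {b | b ∈ Yw y ∧ ∃ j : ℕ, J ≤ vis d m r j (Yw y) b ∧ (T d m r)^[j] b ∈ Yw y ∧
    ∀ i : ℕ, i ≤ j → (y : ℝ) ^ θ ≤ ((T d m r)^[i] b : ℝ)}

/-- Along the backward orbits of `a` there is a bounded number of points not divisible by `d`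
(for `3x + 1`: the multiples of `3`). -/
def Dead (d m : ℕ) (r : ℤ → ℤ) (a : ℤ) : Prop :=
  ∃ k : ℕ, ∀ (n : ℤ) (t : ℕ), (T d m r)^[t] n = a →
    ((Finset.range t).filter (fun i => ¬ (d : ℤ) ∣ (T d m r)^[i] n)).card < k

end Pool.Agent.Helper91.PL
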