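import Pool.Agent.Helper91.PL.Defs

/-!
# Block PL-NUa: elementary properties of the limit law

Facts on words: `W d (i + j)` consists of the `u ++ v`, `u ∈ W d i`, `v ∈ W d j` (`cW_add`, `sum_W_add`),
`sg (u ++ v) = sg u + sg v`, `Off (u ++ v) = m ^ sg u * Off v + d ^ |v| * Off u` (`Off_append`), hence
`d ^ (i + j) * b + Off (u ++ v) = d ^ j * (d ^ i * b + Off u) + m ^ sg u * Off v`, and `m` is coprime
to `d`. `few_nonzero`: `cW d t (sg w < k) ≤ d ^ t * (9 / 10) ^ t` if `5 k ≤ t`.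
* `nut_mono`: if `k ≤ sg u` then `Hit k b (u ++ v) ↔ Hit k b u`; so the words `u ++ v` with `k ≤ sg u`,
  `Hit k b u` are counted in `nut (i + j)`.
* `sum_nut`: every word has exactly one residue `b` modulo `m ^ k` with `Hit k b w` (`d` is invertible
  modulo `m ^ k`).
* `sum_nu`: pass to the limit (`few_nonzero`). `sum_nu_sub_nut_le`: `sum_nu`, `sum_nut`, `few_nonzero`.
* `nu_push`: let `w ∈ W d t`, `s = sg w ≤ K`. For a word `v ∈ W d j` with `K - s ≤ sg v` and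
  `Hit (K - s) x v` the word `w ++ v` satisfies `K ≤ sg (w ++ v)` and `Hit K b (w ++ v)`, because
  `d ^ (t + j) b + Off (w ++ v) = d ^ j (d ^ t b + Off w) + m ^ s Off v ≡ m ^ s (d ^ j x + Off v)`.
  So `nut j (K - s) x ≤ d ^ t * nut (t + j) K b ≤ d ^ t * nu K b`.
* `nu_pos_iff`: if `nu k b > 0` some word `w` has `k ≤ sg w` and `Hit k b w`; write `w = u ++ v` with
  `sg u = k`; then `Hit k b u` (cancel `d ^ |v|`). Conversely `nu k b ≥ nut |u| k b ≥ 1 / d ^ |u|`.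
-/

set_option autoImplicit false

namespace Pool.Agent.Helper91.PL

open Pool.Agent.Helper68.Moeller Pool.Agent.Helper52.Tao Pool.Agent.Helper8.ND
  Pool.Agent.Helper8.CL Filter Topology

variable {d m : ℕ} {r : ℤ → ℤ}

/-- There is exactly one residue. -/
theorem nua_card_res {M : ℕ} (hM : 0 < M) {D : ℤ} (hco : IsCoprime (M : ℤ) D) (O : ℤ) :
    ((Finset.range M).filter (fun b : ℕ => (M : ℤ) ∣ D * (b : ℤ) + O)).card = 1 := by
  obtain ⟨x, y, hxy⟩ := hco
  have hM' : (0 : ℤ) < M := by exact_mod_cast hM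
  rw [Finset.card_eq_one]
  have h0 : 0 ≤ (-(O * y)) % (M : ℤ) := Int.emod_nonneg _ hM'.ne'
  have h1 : (-(O * y)) % (M : ℤ) < M := Int.emod_lt_of_pos _ hM'
  have h2 : (M : ℤ) ∣ D * ((-(O * y)) % (M : ℤ)) + O := by
    have e : (-(O * y)) % (M : ℤ) = -(O * y) - M * ((-(O * y)) / (M : ℤ)) := by
      have := Int.emod_add_mul_ediv (-(O * y)) (M : ℤ)
      linarith
    rw [e]
    refine ⟨x * O - D * ((-(O * y)) / (M : ℤ)), ?_⟩
    linear_combination (-O) * hxy
  refine ⟨((-(O * y)) % (M : ℤ)).toNat, ?_⟩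
  ext b
  rw [Finset.mem_filter, Finset.mem_range, Finset.mem_singleton]
  constructor
  · rintro ⟨h3, h4⟩
    have h5 : (M : ℤ) ∣ (b : ℤ) - (-(O * y)) % (M : ℤ) := by
      have h6 : (M : ℤ) ∣ D * ((b : ℤ) - (-(O * y)) % (M : ℤ)) := by
        have := dvd_sub h4 h2
        rwa [show D * (b : ℤ) + O - (D * ((-(O * y)) % (M : ℤ)) + O) =
          D * ((b : ℤ) - (-(O * y)) % (M : ℤ)) by ring] at this
      exact (show IsCoprime (M : ℤ) D from ⟨x, y, hxy⟩).dvd_of_dvd_mul_left h6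
    have h6 : (b : ℤ) - (-(O * y)) % (M : ℤ) = 0 := by
      refine Int.eq_zero_of_abs_lt_dvd h5 ?_
      rw [abs_lt]
      constructor <;> omega
    omega
  · rintro rfl
    refine ⟨by omega, ?_⟩
    rw [Int.toNat_of_nonneg h0]
    exact h2

theorem nua_le_cW_add {i j : ℕ} {P Q : List ℕ → Prop}
    (h : ∀ u ∈ W d i, Q u → ∀ v ∈ W d j, P (u ++ v)) :
    (d : ℝ) ^ j * cW d i Q ≤ cW d (i + j) P := by
  classical
  rw [cW_add, cW_eq_sum, Finset.mul_sum]
  refine Finset.sum_le_sum fun u hu => ?_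
  by_cases h1 : Q u
  · rw [if_pos h1, mul_one, ← cW_true]
    exact cW_mono fun v hv _ => h u hu h1 v hv
  · rw [if_neg h1, mul_zero]
    exact cW_nonneg _ _ _

theorem nua_cW_compl (t : ℕ) (P : List ℕ → Prop) :
    cW d t P + cW d t (fun w => ¬ P w) = (d : ℝ) ^ t := by
  classical
  rw [cW_eq_sum, cW_eq_sum, ← Finset.sum_add_distrib, ← cW_true, cW_eq_sum]
  refine Finset.sum_congr rfl fun w _ => ?_
  by_cases h : P w <;> simp [h]

open Classical in
theorem nua_cW_pos_iff (t : ℕ) (P : List ℕ → Prop) : 0 < cW d t P ↔ ∃ w ∈ W d t, P w := by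
  unfold cW
  rw [Nat.cast_pos, Finset.card_pos]
  constructor
  · intro h
    obtain ⟨w, hw⟩ := h
    exact ⟨w, (Finset.mem_filter.1 hw).1, (Finset.mem_filter.1 hw).2⟩
  · intro h
    obtain ⟨w, hw1, hw2⟩ := h
    refine ⟨w, ?_⟩
    refine Finset.mem_filter.2 ?_
    exact ⟨hw1, hw2⟩

theorem nua_hit_append {k : ℕ} {b : ℤ} {u v : List ℕ} (hk : k ≤ sg u) (h : Hit d m r k b u) :
    Hit d m r k b (u ++ v) := by
  unfold Hit at *
  rw [Off_append, List.length_append]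
  have h1 : (m : ℤ) ^ k ∣ (m : ℤ) ^ sg u := pow_dvd_pow _ hk
  have e : (d : ℤ) ^ (u.length + v.length) * b + ((m : ℤ) ^ sg u * Off d m r v +
      (d : ℤ) ^ v.length * Off d m r u) = (d : ℤ) ^ v.length * ((d : ℤ) ^ u.length * b +
      Off d m r u) + (m : ℤ) ^ sg u * Off d m r v := by
    rw [pow_add]; ring
  rw [e]
  exact dvd_add (Dvd.dvd.mul_left h _) (Dvd.dvd.mul_right h1 _)

theorem nua_hit_of_append (hco : Nat.Coprime m d) {k : ℕ} {b : ℤ} {u v : List ℕ} (hk : k ≤ sg u)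
    (h : Hit d m r k b (u ++ v)) : Hit d m r k b u := by
  unfold Hit at *
  rw [Off_append, List.length_append] at h
  have h1 : (m : ℤ) ^ k ∣ (m : ℤ) ^ sg u := pow_dvd_pow _ hk
  have e : (d : ℤ) ^ (u.length + v.length) * b + ((m : ℤ) ^ sg u * Off d m r v +
      (d : ℤ) ^ v.length * Off d m r u) = (d : ℤ) ^ v.length * ((d : ℤ) ^ u.length * b +
      Off d m r u) + (m : ℤ) ^ sg u * Off d m r v := by
    rw [pow_add]; ring
  rw [e] at h
  have h2 := (dvd_add_left (Dvd.dvd.mul_right h1 (Off d m r v))).1 h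
  have h3 : IsCoprime ((m : ℤ) ^ k) ((d : ℤ) ^ v.length) :=
    (Nat.isCoprime_iff_coprime.2 hco).pow
  exact h3.dvd_of_dvd_mul_left h2

theorem nut_nonneg (t k : ℕ) (b : ℤ) : 0 ≤ nut d m r t k b :=
  div_nonneg (cW_nonneg _ _ _) (by positivity)

theorem nut_le_one (t k : ℕ) (b : ℤ) : nut d m r t k b ≤ 1 :=
  div_le_one_of_le₀ (cW_le_pow _ _ _) (by positivity)

theorem nua_nut_bdd (k : ℕ) (b : ℤ) : BddAbove (Set.range fun t => nut d m r t k b) :=
  ⟨1, by rintro _ ⟨t, rfl⟩; exact nut_le_one t k b⟩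

theorem nut_mono (hd : 1 ≤ d) (k : ℕ) (b : ℤ) : Monotone (fun t => nut d m r t k b) := by
  intro i i' hi
  obtain ⟨j, rfl⟩ := Nat.exists_eq_add_of_le hi
  have hd0 : (0 : ℝ) < d := by exact_mod_cast hd
  simp only [nut]
  rw [div_le_div_iff₀ (by positivity) (by positivity)]
  have h := nua_le_cW_add (d := d) (i := i) (j := j)
    (P := fun w => k ≤ sg w ∧ Hit d m r k b w) (Q := fun w => k ≤ sg w ∧ Hit d m r k b w)
    (fun u _ hu v _ => ⟨by rw [sg_append]; exact hu.1.trans (Nat.le_add_right _ _),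
      nua_hit_append hu.1 hu.2⟩)
  have h2 := mul_le_mul_of_nonneg_right h (by positivity : (0 : ℝ) ≤ (d : ℝ) ^ i)
  rw [pow_add]
  linarith

theorem nut_le_nu (t k : ℕ) (b : ℤ) : nut d m r t k b ≤ nu d m r k b :=
  le_ciSup (nua_nut_bdd k b) t

theorem tendsto_nut (hd : 1 ≤ d) (k : ℕ) (b : ℤ) :
    Tendsto (fun t => nut d m r t k b) atTop (𝓝 (nu d m r k b)) :=
  tendsto_atTop_ciSup (nut_mono hd k b) (nua_nut_bdd k b)

theorem nu_nonneg (k : ℕ) (b : ℤ) : 0 ≤ nu d m r k b :=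
  (nut_nonneg 0 k b).trans (nut_le_nu 0 k b)

theorem nu_le_one (k : ℕ) (b : ℤ) : nu d m r k b ≤ 1 :=
  ciSup_le fun t => nut_le_one t k b

theorem nut_congr {t k : ℕ} {b b' : ℤ} (h : (m : ℤ) ^ k ∣ b - b') :
    nut d m r t k b = nut d m r t k b' := by
  unfold nut
  congr 1
  refine cW_congr fun w _ => and_congr_right fun _ => ?_
  unfold Hit
  refine dvd_iff_dvd_of_dvd_sub ?_
  rw [show (d : ℤ) ^ w.length * b + Off d m r w - ((d : ℤ) ^ w.length * b' + Off d m r w) =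
    (d : ℤ) ^ w.length * (b - b') by ring]
  exact Dvd.dvd.mul_left h _

theorem nu_congr {k : ℕ} {b b' : ℤ} (h : (m : ℤ) ^ k ∣ b - b') : nu d m r k b = nu d m r k b' := by
  unfold nu
  exact congrArg _ (funext fun t => nut_congr h)

theorem sum_nut (hd : 2 ≤ d) (hm : 1 ≤ m) (hco : Nat.Coprime m d) (t k : ℕ) :
    ∑ b ∈ Finset.range (m ^ k), nut d m r t k b = cW d t (fun w => k ≤ sg w) / (d : ℝ) ^ t := by
  classical
  unfold nut
  rw [← Finset.sum_div]
  congr 1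
  simp_rw [cW_eq_sum]
  rw [Finset.sum_comm]
  refine Finset.sum_congr rfl fun w _ => ?_
  by_cases h : k ≤ sg w
  · simp only [h, true_and, if_true]
    rw [← Finset.sum_filter, Finset.sum_const, nsmul_eq_mul, mul_one]
    have h3 : IsCoprime (((m ^ k : ℕ) : ℤ)) ((d : ℤ) ^ w.length) := by
      push_cast
      exact (Nat.isCoprime_iff_coprime.2 hco).pow
    have h4 := nua_card_res (pow_pos hm k) h3 (Off d m r w)
    have h5 : (Finset.range (m ^ k)).filter (fun b : ℕ => Hit d m r k (b : ℤ) w) =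
        (Finset.range (m ^ k)).filter
          (fun b : ℕ => (((m ^ k : ℕ) : ℤ)) ∣ (d : ℤ) ^ w.length * (b : ℤ) + Off d m r w) := by
      refine Finset.filter_congr fun b _ => ?_
      unfold Hit
      push_cast
      rfl
    rw [h5, h4, Nat.cast_one]
  · simp [h]

theorem nua_tendsto_frac (hd : 2 ≤ d) (k : ℕ) :
    Tendsto (fun t => cW d t (fun w => k ≤ sg w) / (d : ℝ) ^ t) atTop (𝓝 1) := by
  have hd0 : (0 : ℝ) < d := by exact_mod_cast (by omega : 0 < d)
  have h9 : Tendsto (fun t : ℕ => 1 - (9 / 10 : ℝ) ^ t) atTop (𝓝 1) := by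
    have := (tendsto_pow_atTop_nhds_zero_of_lt_one (by norm_num : (0 : ℝ) ≤ 9 / 10)
      (by norm_num)).const_sub 1
    simpa using this
  refine tendsto_of_tendsto_of_tendsto_of_le_of_le' h9 tendsto_const_nhds ?_ ?_
  · filter_upwards [eventually_ge_atTop (5 * k)] with t ht
    have h1 := few_nonzero hd ht
    have h2 := nua_cW_compl (d := d) t (fun w => k ≤ sg w)
    have h3 : cW d t (fun w => ¬ k ≤ sg w) = cW d t (fun w => sg w < k) :=
      cW_congr fun w _ => not_le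
    rw [h3] at h2
    rw [le_div_iff₀ (by positivity)]
    have h4 : (0 : ℝ) < (d : ℝ) ^ t := by positivity
    nlinarith
  · filter_upwards with t
    exact div_le_one_of_le₀ (cW_le_pow _ _ _) (by positivity)

theorem sum_nu (hd : 2 ≤ d) (hm : 1 ≤ m) (hco : Nat.Coprime m d) (k : ℕ) :
    ∑ b ∈ Finset.range (m ^ k), nu d m r k b = 1 := by
  have h1 : Tendsto (fun t => ∑ b ∈ Finset.range (m ^ k), nut d m r t k b) atTop
      (𝓝 (∑ b ∈ Finset.range (m ^ k), nu d m r k b)) :=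
    tendsto_finsetSum _ fun b _ => tendsto_nut (by omega) k b
  have h2 := nua_tendsto_frac hd k
  simp_rw [sum_nut (r := r) hd hm hco] at h1
  exact tendsto_nhds_unique h1 h2

theorem sum_nu_sub_nut_le (hd : 2 ≤ d) (hm : 1 ≤ m) (hco : Nat.Coprime m d) {t k : ℕ}
    (ht : 5 * k ≤ t) :
    ∑ b ∈ Finset.range (m ^ k), (nu d m r k b - nut d m r t k b) ≤ (9 / 10) ^ t := by
  have hd0 : (0 : ℝ) < d := by exact_mod_cast (by omega : 0 < d)
  rw [Finset.sum_sub_distrib, sum_nu hd hm hco, sum_nut hd hm hco]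
  have h1 := few_nonzero hd ht
  have h2 := nua_cW_compl (d := d) t (fun w => k ≤ sg w)
  have h3 : cW d t (fun w => ¬ k ≤ sg w) = cW d t (fun w => sg w < k) :=
    cW_congr fun w _ => not_le
  rw [h3] at h2
  have h4 : (0 : ℝ) < (d : ℝ) ^ t := by positivity
  have h5 : 1 - (9 / 10 : ℝ) ^ t ≤ cW d t (fun w => k ≤ sg w) / (d : ℝ) ^ t := by
    rw [le_div_iff₀ h4]
    nlinarith
  linarith

theorem nu_anti {k K : ℕ} (hkK : k ≤ K) (b : ℤ) : nu d m r K b ≤ nu d m r k b := by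
  refine ciSup_mono (nua_nut_bdd k b) fun t => ?_
  refine div_le_div_of_nonneg_right (cW_mono fun w _ h => ?_) (by positivity)
  exact ⟨hkK.trans h.1, (pow_dvd_pow _ hkK).trans h.2⟩

theorem nu_push (hd : 2 ≤ d) {t : ℕ} {w : List ℕ} (hw : w ∈ W d t) {K : ℕ} (hK : sg w ≤ K)
    {b x : ℤ} (h : (m : ℤ) ^ K ∣ (d : ℤ) ^ t * b + Off d m r w - (m : ℤ) ^ sg w * x) :
    nu d m r (K - sg w) x ≤ (d : ℝ) ^ t * nu d m r K b := by
  have hd0 : (0 : ℝ) < d := by exact_mod_cast (by omega : 0 < d)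
  refine ciSup_le fun j => ?_
  have h1 : (d : ℝ) ^ t * nut d m r (t + j) K b ≤ (d : ℝ) ^ t * nu d m r K b :=
    mul_le_mul_of_nonneg_left (nut_le_nu _ _ _) (by positivity)
  refine le_trans ?_ h1
  unfold nut
  have e : (d : ℝ) ^ t * (cW d (t + j) (fun w => K ≤ sg w ∧ Hit d m r K b w) / (d : ℝ) ^ (t + j)) =
      cW d (t + j) (fun w => K ≤ sg w ∧ Hit d m r K b w) / (d : ℝ) ^ j := by
    rw [pow_add]; field_simp
  rw [e]
  refine div_le_div_of_nonneg_right ?_ (by positivity)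
  rw [cW_add]
  have h2 : cW d j (fun v => K ≤ sg (w ++ v) ∧ Hit d m r K b (w ++ v)) ≤
      ∑ u ∈ W d t, cW d j (fun v => K ≤ sg (u ++ v) ∧ Hit d m r K b (u ++ v)) :=
    Finset.single_le_sum (f := fun u => cW d j (fun v => K ≤ sg (u ++ v) ∧ Hit d m r K b (u ++ v)))
      (fun u _ => cW_nonneg _ _ _) hw
  refine le_trans (cW_mono fun v hv hvv => ?_) h2
  refine ⟨by rw [sg_append]; omega, ?_⟩
  unfold Hit at *
  rw [Off_append, List.length_append, length_of_mem_W hw, length_of_mem_W hv]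
  rw [length_of_mem_W hv] at hvv
  have e2 : (d : ℤ) ^ (t + j) * b + ((m : ℤ) ^ sg w * Off d m r v + (d : ℤ) ^ j * Off d m r w) =
      (d : ℤ) ^ j * ((d : ℤ) ^ t * b + Off d m r w - (m : ℤ) ^ sg w * x) +
        (m : ℤ) ^ sg w * ((d : ℤ) ^ j * x + Off d m r v) := by
    rw [pow_add]; ring
  rw [e2]
  refine dvd_add (Dvd.dvd.mul_left h _) ?_
  have e3 : (m : ℤ) ^ K = (m : ℤ) ^ sg w * (m : ℤ) ^ (K - sg w) := by
    rw [← pow_add]; congr 1; omega
  rw [e3]
  exact mul_dvd_mul_left _ hvv.2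

theorem nua_exists_take {w : List ℕ} {k : ℕ} (hk : k ≤ sg w) : ∃ i, sg (w.take i) = k := by
  induction w generalizing k with
  | nil => exact ⟨0, by simp at hk ⊢; omega⟩
  | cons a w ih =>
    rw [sg_cons] at hk
    rcases Nat.eq_zero_or_pos k with rfl | hk0
    · exact ⟨0, by simp⟩
    · have ha := nz_le a
      obtain ⟨i, hi⟩ := ih (k := k - nz a) (by omega)
      exact ⟨i + 1, by rw [List.take_succ_cons, sg_cons, hi]; omega⟩

theorem nu_pos_iff (hd : 2 ≤ d) (hco : Nat.Coprime m d) (k : ℕ) (b : ℤ) :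
    0 < nu d m r k b ↔ ∃ t : ℕ, ∃ w ∈ W d t, sg w = k ∧ Hit d m r k b w := by
  classical
  have hd0 : (0 : ℝ) < d := by exact_mod_cast (by omega : 0 < d)
  constructor
  · intro h
    obtain ⟨t, ht⟩ := exists_lt_of_lt_ciSup h
    have h1 : 0 < cW d t (fun w => k ≤ sg w ∧ Hit d m r k b w) := by
      by_contra h2
      have h3 : cW d t (fun w => k ≤ sg w ∧ Hit d m r k b w) = 0 :=
        le_antisymm (not_lt.1 h2) (cW_nonneg _ _ _)
      unfold nut at ht
      rw [h3, zero_div] at ht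
      exact lt_irrefl _ ht
    obtain ⟨w, hw⟩ := (nua_cW_pos_iff t _).1 h1
    obtain ⟨hw1, hw2, hw3⟩ := hw
    obtain ⟨i, hi⟩ := nua_exists_take hw2
    refine ⟨(w.take i).length, w.take i, ?_, hi, ?_⟩
    · rw [mem_W]
      exact ⟨rfl, fun a ha => (mem_W.1 hw1).2 a (List.mem_of_mem_take ha)⟩
    · refine nua_hit_of_append hco (v := w.drop i) hi.ge ?_
      rw [List.take_append_drop]
      exact hw3
  · rintro ⟨t, w, hw, hs, hh⟩
    refine lt_of_lt_of_le ?_ (nut_le_nu t k b)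
    unfold nut
    exact div_pos ((nua_cW_pos_iff t _).2 ⟨w, hw, hs.ge, hh⟩) (by positivity)

end Pool.Agent.Helper91.PL
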