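import Pool.Agent.Helper91.PL.FD

/-!
# Block PL-MU: the limit measure (abstract)

`muk` is the law of `f k b / g` for `b` uniform modulo `m ^ k`. These laws have mean `1 / g`, so they are
tight; by Prokhorov's theorem there is a limit `μ`, and `limit_law` identifies `∫ φ dμ` with the limit of the
averages of `φ (a c a)`. The mean of `μ` is `1 / g` since `f k` is a Cauchy sequence in `L¹`.
-/

set_option autoImplicit false

namespace Pool.Agent.Helper91.PL

open Pool.Agent.Helper8.ND Filter Topology MeasureTheory BoundedContinuousFunction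
open scoped NNReal ENNReal

variable {m : ℕ} {g : ℝ} {f : ℕ → ℤ → ℝ}

/-- The law of `f k b / g`, `b` uniform modulo `m ^ k`. -/
noncomputable def muk (m : ℕ) (g : ℝ) (f : ℕ → ℤ → ℝ) (k : ℕ) : Measure ℝ :=
  ∑ b ∈ Finset.range (m ^ k), ENNReal.ofReal (1 / (m : ℝ) ^ k) • Measure.dirac (f k b / g)

theorem integrable_muk (φ : ℝ → ℝ) (k : ℕ) : Integrable φ (muk m g f k) := by
  unfold muk
  rw [integrable_finsetSum_measure]
  intro b _
  exact (integrable_dirac (by simp)).smul_measure ENNReal.ofReal_ne_top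

theorem integral_muk (φ : ℝ → ℝ) (k : ℕ) :
    ∫ s, φ s ∂(muk m g f k) = (∑ b ∈ Finset.range (m ^ k), φ (f k b / g)) / (m : ℝ) ^ k := by
  unfold muk
  rw [integral_finsetSum_measure, Finset.sum_div]
  · refine Finset.sum_congr rfl fun b _ => ?_
    rw [integral_smul_measure, integral_dirac, ENNReal.toReal_ofReal (by positivity), smul_eq_mul]
    ring
  · intro b _
    exact (integrable_dirac (by simp)).smul_measure ENNReal.ofReal_ne_top

theorem isProb_muk (hm : 1 ≤ m) (k : ℕ) : IsProbabilityMeasure (muk m g f k) := by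
  have hm0 : (0 : ℝ) < (m : ℝ) ^ k := by
    have : (0 : ℝ) < m := by exact_mod_cast hm
    positivity
  refine ⟨?_⟩
  unfold muk
  rw [Measure.finsetSum_apply]
  simp only [Measure.smul_apply, measure_univ, smul_eq_mul, mul_one, Finset.sum_const,
    Finset.card_range, nsmul_eq_mul]
  rw [show ((m ^ k : ℕ) : ℝ≥0∞) = ENNReal.ofReal ((m : ℝ) ^ k) by
    rw [← ENNReal.ofReal_natCast]; push_cast; rfl, ← ENNReal.ofReal_mul hm0.le]
  rw [mul_one_div_cancel hm0.ne', ENNReal.ofReal_one]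

/-- The truncation at `R`. -/
noncomputable def tr (R s : ℝ) : ℝ := max 0 (min s R)

theorem tr_cont (R : ℝ) : Continuous (tr R) := by unfold tr; fun_prop

theorem tr_nonneg (R s : ℝ) : 0 ≤ tr R s := le_max_left _ _

theorem tr_le {R : ℝ} (hR : 0 ≤ R) (s : ℝ) : tr R s ≤ R := max_le hR (min_le_right _ _)

theorem tr_le_self {R s : ℝ} (hs : 0 ≤ s) : tr R s ≤ s := max_le hs (min_le_left _ _)

theorem tr_eq {R s : ℝ} (hs : 0 ≤ s) (h : s ≤ R) : tr R s = s := by
  unfold tr; rw [min_eq_left h, max_eq_right hs]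

theorem tr_sub_le (R s s' : ℝ) : tr R s - tr R s' ≤ |s - s'| := by
  unfold tr
  have h := abs_le.1 (le_refl |s - s'|)
  rcases le_total s R with h1 | h1 <;> rcases le_total s' R with h2 | h2 <;>
    simp only [min_eq_left, min_eq_right, h1, h2] <;>
    [skip; skip; skip; skip]
  all_goals
    refine sub_le_iff_le_add.2 (max_le ?_ ?_)
    · have := le_max_left (0 : ℝ) (min s' R)
      have := le_max_left (0 : ℝ) s'
      have := le_max_left (0 : ℝ) R
      have := abs_nonneg (s - s')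
      linarith
    · have := le_max_right (0 : ℝ) s'
      have := le_max_right (0 : ℝ) R
      linarith

/-- `f k` is bounded by `m ^ k`. -/
theorem f_le (hm : 1 ≤ m) (hf0 : ∀ k b, 0 ≤ f k b)
    (hper : ∀ k b b', (m : ℤ) ^ k ∣ b - b' → f k b = f k b')
    (hmean : ∀ k, ∑ b ∈ Finset.range (m ^ k), f k b = (m : ℝ) ^ k) (k : ℕ) (b : ℤ) :
    f k b ≤ (m : ℝ) ^ k := by
  have hM : (0 : ℤ) < (m : ℤ) ^ k := by positivity
  have h1 : (m : ℤ) ^ k ∣ b - ((b % (m : ℤ) ^ k).toNat : ℤ) := by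
    rw [Int.toNat_of_nonneg (Int.emod_nonneg _ hM.ne')]
    exact Int.dvd_self_sub_emod
  rw [hper k b _ h1, ← hmean k]
  refine Finset.single_le_sum (f := fun b : ℕ => f k b) (fun b _ => hf0 k b) ?_
  rw [Finset.mem_range]
  have h2 := Int.emod_lt_of_pos b hM
  have h3 := Int.emod_nonneg b hM.ne'
  have h4 : (((b % (m : ℤ) ^ k).toNat : ℕ) : ℤ) < ((m ^ k : ℕ) : ℤ) := by
    rw [Int.toNat_of_nonneg h3]; push_cast; exact h2
  exact_mod_cast h4

theorem exists_measure (hm : 1 ≤ m) (hg : 0 < g) (hf0 : ∀ k b, 0 ≤ f k b)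
    (hper : ∀ k b b', (m : ℤ) ^ k ∣ b - b' → f k b = f k b')
    (hmean : ∀ k, ∑ b ∈ Finset.range (m ^ k), f k b = (m : ℝ) ^ k)
    (hcau : ∀ ε : ℝ, 0 < ε → ∃ k0 : ℕ, ∀ K : ℕ, k0 ≤ K →
      ∑ b ∈ Finset.range (m ^ K), |f K b - f k0 b| ≤ ε * (m : ℝ) ^ K)
    (hlim : ∀ φ : ℝ → ℝ, Continuous φ → (∃ M, ∀ s, |φ s| ≤ M) → ∃ L : ℝ,
      Tendsto (fun k : ℕ => (∑ b ∈ Finset.range (m ^ k), φ (f k b / g)) / (m : ℝ) ^ k) atTop (𝓝 L)) :
    ∃ μ : Measure ℝ, IsProbabilityMeasure μ ∧ (∀ᵐ s ∂μ, 0 ≤ s) ∧ Integrable (fun s => s) μ ∧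
      ∫ s, s ∂μ = 1 / g ∧ ∀ φ : ℝ → ℝ, Continuous φ → (∃ M, ∀ s, |φ s| ≤ M) →
      Tendsto (fun k : ℕ => (∑ b ∈ Finset.range (m ^ k), φ (f k b / g)) / (m : ℝ) ^ k) atTop
        (𝓝 (∫ s, φ s ∂μ)) := by
  have hm0 : (0 : ℝ) < m := by exact_mod_cast hm
  have hnn : ∀ k (b : ℤ), 0 ≤ f k b / g := fun k b => div_nonneg (hf0 k b) hg.le
  have hmean' : ∀ k, (∑ b ∈ Finset.range (m ^ k), f k b / g) / (m : ℝ) ^ k = 1 / g := by
    intro k
    rw [← Finset.sum_div, hmean]
    have : (0 : ℝ) < (m : ℝ) ^ k := by positivity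
    field_simp
  have hprob : ∀ k, IsProbabilityMeasure (muk m g f k) := isProb_muk hm
  set P : ℕ → ProbabilityMeasure ℝ := fun k => ⟨muk m g f k, hprob k⟩ with hP
  have hPμ : ∀ k, ((P k : ProbabilityMeasure ℝ) : Measure ℝ) = muk m g f k := fun k => rfl
  -- tightness
  set K : ℕ → Set ℝ := fun n => Metric.closedBall 0 ((n : ℝ) + 1) with hK
  set u : ℕ → ℝ≥0 := fun n => ⟨1 / g / ((n : ℝ) + 1), by positivity⟩ with hu
  have hmass : ∀ k n, P k (K n)ᶜ ≤ u n := by
    intro k n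
    rw [← NNReal.coe_le_coe]
    change (muk m g f k).real (K n)ᶜ ≤ 1 / g / ((n : ℝ) + 1)
    have hn : (0 : ℝ) < (n : ℝ) + 1 := by positivity
    have h1 := mul_meas_ge_le_integral_of_nonneg (μ := muk m g f k) (f := fun s : ℝ => |s|)
      (Eventually.of_forall fun s => abs_nonneg s) (integrable_muk _ k) ((n : ℝ) + 1)
    rw [integral_muk] at h1
    have h2 : (∑ b ∈ Finset.range (m ^ k), |f k b / g|) / (m : ℝ) ^ k = 1 / g := by
      rw [← hmean' k]
      congr 1
      exact Finset.sum_congr rfl fun b _ => abs_of_nonneg (hnn k b)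
    rw [h2] at h1
    have h3 : (muk m g f k).real (K n)ᶜ ≤ (muk m g f k).real {s | (n : ℝ) + 1 ≤ |s|} := by
      refine measureReal_mono ?_
      intro s hs
      rw [Set.mem_compl_iff, hK, Metric.mem_closedBall, Real.dist_eq, sub_zero, not_le] at hs
      exact hs.le
    rw [le_div_iff₀ hn]
    nlinarith
  have hu0 : Tendsto u atTop (𝓝 0) := by
    rw [← NNReal.tendsto_coe]
    have h1 : Tendsto (fun n : ℕ => 1 / g / ((n : ℝ) + 1)) atTop (𝓝 0) :=
      tendsto_const_nhds.div_atTop (tendsto_atTop_add_const_right _ _ tendsto_natCast_atTop_atTop)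
    exact h1
  have hcomp := isCompact_setOfPred_probabilityMeasure_mass_eq_compl_isCompact_le
    (E := ℝ) (u := u) (K := K) hu0 (fun n => isCompact_closedBall _ _) (Or.inl inferInstance)
  obtain ⟨μ, hμ, σ, hσ, hconv⟩ := hcomp.tendsto_subseq (x := P) (fun k n => hmass k n)
  rw [ProbabilityMeasure.tendsto_iff_forall_integral_tendsto] at hconv
  -- the integrals
  have hint : ∀ φ : ℝ → ℝ, Continuous φ → (∃ M, ∀ s, |φ s| ≤ M) →
      Tendsto (fun k : ℕ => (∑ b ∈ Finset.range (m ^ k), φ (f k b / g)) / (m : ℝ) ^ k) atTop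
        (𝓝 (∫ s, φ s ∂(μ : Measure ℝ))) := by
    intro φ hφ hM
    obtain ⟨L, hL⟩ := hlim φ hφ hM
    obtain ⟨M, hM⟩ := hM
    have h1 := hconv (BoundedContinuousFunction.ofNormedAddCommGroup φ hφ M hM)
    have h2 := hL.comp hσ.tendsto_atTop
    have h3 : ∀ k, ∫ s, (BoundedContinuousFunction.ofNormedAddCommGroup φ hφ M hM) s
        ∂((P ∘ σ) k : Measure ℝ) =
        (∑ b ∈ Finset.range (m ^ σ k), φ (f (σ k) b / g)) / (m : ℝ) ^ σ k := by
      intro k
      exact integral_muk φ (σ k)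
    simp_rw [h3] at h1
    have h4 := tendsto_nhds_unique h1 h2
    have h5 : ∫ s, φ s ∂(μ : Measure ℝ) = L := h4
    rw [h5]
    exact hL
  have hprobμ : IsProbabilityMeasure (μ : Measure ℝ) := inferInstance
  -- non-negative
  have hpos : ∀ᵐ s ∂(μ : Measure ℝ), 0 ≤ s := by
    set ψ : ℝ → ℝ := fun s => min 1 (max 0 (-s)) with hψ
    have hψc : Continuous ψ := by fun_prop
    have hψ0 : ∀ s, 0 ≤ ψ s := fun s => le_min zero_le_one (le_max_left _ _)
    have hψ1 : ∀ s, ψ s ≤ 1 := fun s => min_le_left _ _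
    have h1 := hint ψ hψc ⟨1, fun s => by rw [abs_of_nonneg (hψ0 s)]; exact hψ1 s⟩
    have h2 : ∀ k : ℕ, (∑ b ∈ Finset.range (m ^ k), ψ (f k b / g)) / (m : ℝ) ^ k = 0 := by
      intro k
      rw [Finset.sum_eq_zero, zero_div]
      intro b _
      simp only [hψ]
      rw [max_eq_left (neg_nonpos.2 (hnn k b)), min_eq_right zero_le_one]
    simp_rw [h2] at h1
    have h3 : ∫ s, ψ s ∂(μ : Measure ℝ) = 0 := tendsto_nhds_unique h1 tendsto_const_nhds
    have hψi : Integrable ψ (μ : Measure ℝ) :=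
      Integrable.of_bound hψc.aestronglyMeasurable 1
        (Eventually.of_forall fun s => by rw [Real.norm_eq_abs, abs_of_nonneg (hψ0 s)]; exact hψ1 s)
    rw [integral_eq_zero_iff_of_nonneg hψ0 hψi] at h3
    filter_upwards [h3] with s hs
    by_contra hcon
    rw [not_le] at hcon
    have h4 : 0 < ψ s := lt_min one_pos (lt_max_of_lt_right (by linarith))
    rw [hs] at h4
    exact lt_irrefl _ h4
  -- the truncated means
  have htr : ∀ n : ℕ, ∫ s, tr n s ∂(μ : Measure ℝ) ≤ 1 / g := by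
    intro n
    have h1 := hint (tr n) (tr_cont n) ⟨n, fun s => by
      rw [abs_of_nonneg (tr_nonneg _ _)]; exact tr_le (by positivity) s⟩
    refine le_of_tendsto h1 (Eventually.of_forall fun k => ?_)
    rw [← hmean' k]
    exact div_le_div_of_nonneg_right (Finset.sum_le_sum fun b _ => tr_le_self (hnn k b))
      (by positivity)
  have htr2 : ∀ ε : ℝ, 0 < ε → ∀ᶠ n : ℕ in atTop,
      (1 - 2 * ε) / g ≤ ∫ s, tr n s ∂(μ : Measure ℝ) := by
    intro ε hε
    obtain ⟨k0, hk0⟩ := hcau ε hε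
    filter_upwards [tendsto_natCast_atTop_atTop.eventually_ge_atTop ((m : ℝ) ^ k0 / g)] with n hn
    have h1 := hint (tr n) (tr_cont n) ⟨n, fun s => by
      rw [abs_of_nonneg (tr_nonneg _ _)]; exact tr_le (by positivity) s⟩
    refine ge_of_tendsto h1 ?_
    filter_upwards [eventually_ge_atTop k0] with k hk
    have hmk : (0 : ℝ) < (m : ℝ) ^ k := by positivity
    rw [le_div_iff₀ hmk]
    have h2 : ∑ b ∈ Finset.range (m ^ k), f k b / g -
        ∑ b ∈ Finset.range (m ^ k), 2 * |f k b - f k0 b| / g ≤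
        ∑ b ∈ Finset.range (m ^ k), tr n (f k b / g) := by
      rw [← Finset.sum_sub_distrib]
      refine Finset.sum_le_sum fun b _ => ?_
      have h3 := tr_sub_le n (f k0 b / g) (f k b / g)
      have h4 : tr n (f k0 b / g) = f k0 b / g :=
        tr_eq (hnn k0 b) (le_trans (div_le_div_of_nonneg_right
          (f_le hm hf0 hper hmean k0 b) hg.le) hn)
      rw [h4] at h3
      have h5 : |f k0 b / g - f k b / g| = |f k b - f k0 b| / g := by
        rw [← sub_div, abs_div, abs_of_pos hg, abs_sub_comm]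
      rw [h5] at h3
      have h6 : f k b / g - f k0 b / g ≤ |f k b - f k0 b| / g := by
        rw [← sub_div]
        exact div_le_div_of_nonneg_right (le_abs_self _) hg.le
      have e : 2 * |f k b - f k0 b| / g = |f k b - f k0 b| / g + |f k b - f k0 b| / g := by ring
      rw [e]
      linarith
    have h7 : ∑ b ∈ Finset.range (m ^ k), f k b / g = (m : ℝ) ^ k / g := by
      rw [← Finset.sum_div, hmean]
    have h8 : ∑ b ∈ Finset.range (m ^ k), 2 * |f k b - f k0 b| / g ≤ 2 * (ε * (m : ℝ) ^ k) / g := by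
      rw [← Finset.sum_div, ← Finset.mul_sum]
      exact div_le_div_of_nonneg_right (mul_le_mul_of_nonneg_left (hk0 k hk) (by norm_num)) hg.le
    rw [h7] at h2
    refine le_trans ?_ h2
    have e : (1 - 2 * ε) / g * (m : ℝ) ^ k = (m : ℝ) ^ k / g - 2 * (ε * (m : ℝ) ^ k) / g := by ring
    rw [e]
    linarith
  -- integrability and mean
  have htri : ∀ n : ℕ, Integrable (tr n) (μ : Measure ℝ) := fun n =>
    Integrable.of_bound (tr_cont n).aestronglyMeasurable n
      (Eventually.of_forall fun s => by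
        rw [Real.norm_eq_abs, abs_of_nonneg (tr_nonneg _ _)]; exact tr_le (by positivity) s)
  have hev : ∀ s : ℝ, 0 ≤ s → ∀ᶠ n : ℕ in atTop, tr n s = s := by
    intro s hs
    filter_upwards [tendsto_natCast_atTop_atTop.eventually_ge_atTop s] with n hn
    exact tr_eq hs hn
  have hlint : ∫⁻ s, ‖s‖ₑ ∂(μ : Measure ℝ) ≤ ENNReal.ofReal (1 / g) := by
    have h1 : ∫⁻ s, ‖s‖ₑ ∂(μ : Measure ℝ) =
        ∫⁻ s, liminf (fun n : ℕ => ENNReal.ofReal (tr n s)) atTop ∂(μ : Measure ℝ) := by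
      refine lintegral_congr_ae ?_
      filter_upwards [hpos] with s hs
      have h2 : Tendsto (fun n : ℕ => ENNReal.ofReal (tr n s)) atTop (𝓝 (ENNReal.ofReal s)) := by
        refine tendsto_const_nhds.congr' ?_
        filter_upwards [hev s hs] with n hn
        rw [hn]
      rw [h2.liminf_eq, Real.enorm_of_nonneg hs]
    rw [h1]
    refine (lintegral_liminf_le (u := atTop) (f := fun (n : ℕ) (s : ℝ) => ENNReal.ofReal (tr n s))
      fun n => (tr_cont n).measurable.ennreal_ofReal).trans ?_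
    refine (Filter.liminf_le_liminf (v := fun _ : ℕ => ENNReal.ofReal (1 / g)) ?_).trans ?_
    · refine Eventually.of_forall fun n => ?_
      rw [← ofReal_integral_eq_lintegral_ofReal (htri n) (Eventually.of_forall (tr_nonneg n))]
      exact ENNReal.ofReal_le_ofReal (htr n)
    · rw [liminf_const]
  have hint1 : Integrable (fun s : ℝ => s) (μ : Measure ℝ) :=
    ⟨aestronglyMeasurable_id, lt_of_le_of_lt hlint ENNReal.ofReal_lt_top⟩
  have hdom : Tendsto (fun n : ℕ => ∫ s, tr n s ∂(μ : Measure ℝ)) atTop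
      (𝓝 (∫ s, s ∂(μ : Measure ℝ))) := by
    refine tendsto_integral_of_dominated_convergence (fun s : ℝ => |s|)
      (fun n => (tr_cont n).aestronglyMeasurable) hint1.abs ?_ ?_
    · intro n
      filter_upwards [hpos] with s hs
      rw [Real.norm_eq_abs, abs_of_nonneg (tr_nonneg _ _), abs_of_nonneg hs]
      exact tr_le_self hs
    · filter_upwards [hpos] with s hs
      refine tendsto_const_nhds.congr' ?_
      filter_upwards [hev s hs] with n hn
      rw [hn]
  refine ⟨μ, hprobμ, hpos, hint1, le_antisymm ?_ ?_, hint⟩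
  · exact le_of_tendsto hdom (Eventually.of_forall htr)
  · refine le_of_forall_pos_le_add fun ε hε => ?_
    have h1 := ge_of_tendsto hdom (htr2 (ε * g / 2) (by positivity))
    have e : (1 - 2 * (ε * g / 2)) / g = 1 / g - ε := by field_simp
    rw [e] at h1
    linarith

open Classical in
theorem cN_eq_sum (S : Set ℤ) {x : ℝ} (hx : 0 ≤ x) :
    cN S x = ∑ a ∈ Finset.Icc 1 ⌊x⌋₊, (if ((a : ℕ) : ℤ) ∈ S then (1 : ℝ) else 0) := by
  rw [Finset.sum_boole]
  unfold cN
  have h1 : {n : ℤ | n ∈ S ∧ 0 < n ∧ (n : ℝ) ≤ x} =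
      (((Finset.Icc 1 ⌊x⌋₊).filter (fun a : ℕ => (a : ℤ) ∈ S)).image (fun a : ℕ => (a : ℤ)) :
        Finset ℤ) := by
    ext n
    simp only [Set.mem_ofPred_eq, Finset.coe_image, Set.mem_image, Finset.mem_coe,
      Finset.mem_filter, Finset.mem_Icc]
    constructor
    · rintro ⟨h1, h2, h3⟩
      obtain ⟨a, rfl⟩ := Int.eq_ofNat_of_zero_le h2.le
      refine ⟨a, ⟨⟨by omega, ?_⟩, h1⟩, rfl⟩
      rw [Nat.le_floor_iff hx]
      exact_mod_cast h3
    · rintro ⟨a, ⟨⟨h1, h2⟩, h3⟩, rfl⟩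
      refine ⟨h3, by omega, ?_⟩
      rw [Nat.le_floor_iff hx] at h2
      exact_mod_cast h2
  rw [h1, Set.ncard_coe_finset, Finset.card_image_of_injective _ Nat.cast_injective]

/-- The tent function. -/
noncomputable def tent (η s : ℝ) : ℝ := max 0 (1 - |s| / η)

theorem tent_cont (η : ℝ) : Continuous (tent η) := by unfold tent; fun_prop

theorem tent_nonneg (η s : ℝ) : 0 ≤ tent η s := le_max_left _ _

theorem tent_le {η : ℝ} (hη : 0 < η) (s : ℝ) : tent η s ≤ 1 :=
  max_le zero_le_one (by have := div_nonneg (abs_nonneg s) hη.le; linarith)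

theorem tent_zero (η : ℝ) : tent η 0 = 1 := by unfold tent; simp

theorem tent_eq_zero {η s : ℝ} (hη : 0 < η) (h : η ≤ |s|) : tent η s = 0 := by
  unfold tent
  rw [max_eq_left]
  have := (one_le_div hη).2 h
  linarith

/-- The natural density of the dead points is the mass of `0`. -/
theorem dead_density {μ : Measure ℝ} [IsProbabilityMeasure μ] {c : ℤ → ℝ} {S : Set ℤ}
    (hφ : ∀ φ : ℝ → ℝ, Continuous φ → (∃ M, ∀ s, |φ s| ≤ M) →
      Tendsto (fun x : ℝ => (∑ a ∈ Finset.Icc 1 ⌊x⌋₊, φ (a * c a)) / x) atTop (𝓝 (∫ s, φ s ∂μ)))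
    (hdead : ∀ a ∈ S, c a = 0)
    (hpos : ∀ ε : ℝ, 0 < ε → ∃ δ : ℝ, 0 < δ ∧ ∃ X : ℝ, ∀ x : ℝ, X ≤ x →
      cN {a : ℤ | a ∉ S ∧ c a < δ / a} x ≤ ε * x) (hc0 : ∀ a, 0 ≤ c a) :
    Tendsto (fun x : ℝ => cN S x / x) atTop (𝓝 (μ.real {0})) := by
  classical
  -- the integrals of the tent functions
  have htent : Tendsto (fun n : ℕ => ∫ s, tent (1 / ((n : ℝ) + 1)) s ∂μ) atTop
      (𝓝 (μ.real {0})) := by
    have h1 : μ.real {0} = ∫ s, ({0} : Set ℝ).indicator (fun _ => (1 : ℝ)) s ∂μ := by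
      rw [integral_indicator (measurableSet_singleton 0)]
      simp [Measure.real]
    rw [h1]
    refine tendsto_integral_of_dominated_convergence (fun _ : ℝ => (1 : ℝ))
      (fun n => (tent_cont _).aestronglyMeasurable) (integrable_const 1) ?_ ?_
    · intro n
      refine Eventually.of_forall fun s => ?_
      rw [Real.norm_eq_abs, abs_of_nonneg (tent_nonneg _ _)]
      exact tent_le (by positivity) s
    · refine Eventually.of_forall fun s => ?_
      rcases eq_or_ne s 0 with rfl | hs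
      · simp [tent_zero]
      · rw [Set.indicator_of_notMem (by simpa using hs)]
        refine tendsto_const_nhds.congr' ?_
        have h2 : Tendsto (fun n : ℕ => 1 / ((n : ℝ) + 1)) atTop (𝓝 0) :=
          tendsto_one_div_add_atTop_nhds_zero_nat
        filter_upwards [h2.eventually_le_const (abs_pos.2 hs)] with n hn
        rw [tent_eq_zero (by positivity) hn]
  rw [Metric.tendsto_atTop] at htent ⊢
  intro ε hε
  obtain ⟨δ, hδ, X1, hX1⟩ := hpos (ε / 4) (by positivity)
  obtain ⟨n1, hn1⟩ := htent (ε / 4) (by positivity)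
  obtain ⟨n2, hn2⟩ := exists_nat_ge (1 / δ)
  set n := max n1 n2 with hn
  set η : ℝ := 1 / ((n : ℝ) + 1) with hη
  have hη0 : 0 < η := by positivity
  have hηδ : η ≤ δ := by
    rw [hη, div_le_iff₀ (by positivity)]
    have h1 : (n2 : ℝ) ≤ n := by exact_mod_cast le_max_right n1 n2
    have h2 : 1 / δ ≤ (n : ℝ) + 1 := by linarith
    rw [div_le_iff₀ hδ] at h2
    linarith
  have h3 := hn1 n (le_max_left _ _)
  have h4 := Metric.tendsto_atTop.1 (hφ (tent η) (tent_cont η) ⟨1, fun s => by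
    rw [abs_of_nonneg (tent_nonneg _ _)]; exact tent_le hη0 s⟩) (ε / 4) (by positivity)
  obtain ⟨X2, hX2⟩ := h4
  refine ⟨max 1 (max X1 X2), fun x hx => ?_⟩
  have hx1 : 1 ≤ x := (le_max_left _ _).trans hx
  have hx0 : 0 < x := by linarith
  have h5 := hX1 x (((le_max_left _ _).trans (le_max_right _ _)).trans hx)
  have h6 := hX2 x (((le_max_right _ _).trans (le_max_right _ _)).trans hx)
  -- comparison
  have h7 : cN S x ≤ ∑ a ∈ Finset.Icc 1 ⌊x⌋₊, tent η (a * c a) := by
    rw [cN_eq_sum S hx0.le]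
    refine Finset.sum_le_sum fun a _ => ?_
    split_ifs with h
    · rw [hdead _ h, mul_zero, tent_zero]
    · exact tent_nonneg _ _
  have h8 : ∑ a ∈ Finset.Icc 1 ⌊x⌋₊, tent η (a * c a) ≤
      cN S x + cN {a : ℤ | a ∉ S ∧ c a < δ / a} x := by
    rw [cN_eq_sum S hx0.le, cN_eq_sum _ hx0.le, ← Finset.sum_add_distrib]
    refine Finset.sum_le_sum fun a ha => ?_
    have ha1 : 1 ≤ a := (Finset.mem_Icc.1 ha).1
    have ha0 : (0 : ℝ) < a := by exact_mod_cast ha1
    by_cases h : (a : ℤ) ∈ S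
    · rw [if_pos h]
      have := tent_le hη0 (a * c a)
      split_ifs <;> linarith
    · rw [if_neg h, zero_add]
      split_ifs with h'
      · exact tent_le hη0 _
      · have h9 : δ / ((a : ℤ) : ℝ) ≤ c a := by
          by_contra hcon
          exact h' ⟨h, not_le.1 hcon⟩
        rw [Int.cast_natCast, div_le_iff₀ ha0] at h9
        refine (tent_eq_zero hη0 ?_).le
        have h10 : (a : ℝ) * c a = c a * a := mul_comm _ _
        rw [h10, abs_of_nonneg (mul_nonneg (hc0 _) ha0.le)]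
        linarith
  rw [Real.dist_eq] at h3 h6 ⊢
  have h9 : cN S x / x ≤ (∑ a ∈ Finset.Icc 1 ⌊x⌋₊, tent η (a * c a)) / x :=
    div_le_div_of_nonneg_right h7 hx0.le
  have h10 : (∑ a ∈ Finset.Icc 1 ⌊x⌋₊, tent η (a * c a)) / x ≤ cN S x / x + ε / 4 := by
    rw [div_le_iff₀ hx0, add_mul, div_mul_cancel₀ _ hx0.ne']
    linarith
  have h11 := abs_lt.1 h3
  have h12 := abs_lt.1 h6
  rw [abs_lt]
  constructor <;> linarith

/-- The mass of `0` is less than `1`. -/
theorem mass_zero_lt {μ : Measure ℝ} [IsProbabilityMeasure μ] (hmean : 0 < ∫ s, s ∂μ) :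
    μ.real {0} < 1 := by
  by_contra hcon
  have h1 : μ.real {0} = 1 := le_antisymm measureReal_le_one (not_lt.1 hcon)
  have h2 : μ {0} = 1 := by
    rw [← ENNReal.toReal_eq_one_iff]
    exact h1
  have h3 : μ ({0} : Set ℝ)ᶜ = 0 := (prob_compl_eq_zero_iff (measurableSet_singleton 0)).2 h2
  have h4 : ∀ᵐ s ∂μ, s = 0 := by
    rw [ae_iff]
    exact h3
  rw [integral_congr_ae (g := fun _ => (0 : ℝ)) h4, integral_zero] at hmean
  exact lt_irrefl _ hmean

end Pool.Agent.Helper91.PL
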