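import Pool.Agent.Helper91.PL.EX
import Pool.Agent.Helper91.PL.VC

/-!
# Block PL-P3: the second moment of the number of visits

`vis (6 N) (Yw y) n ^ 2 ≤ 2 ∑_{t < 6 N} ∑_{i < 6 N, t + i < 6 N} 1[T^t n ∈ Yw y] 1[T^(t + i) n ∈ Yw y]`.
By `sm_exact` with `h b = 1[T^i b ∈ Yw y]`
`sm (1[T^t n ∈ Yw y] h (T^t n)) = ∑_{w ∈ W d t} ∑_{b ∈ Yw y, Hit (sg w) b w, T^i b ∈ Yw y} om (pt w b)`.
If `om (pt w b) ≠ 0` then `pt w b ≥ lo ≥ y ≥ 4` (`om_eq_zero`), `om (pt w b) ≤ 2 / pt w b` (`om_le`), and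
`pt w b ≥ (d ^ t b - B₀ m ^ t) / m ^ sg w ≥ d ^ t y / (2 m ^ sg w)` (`pt_bound`), so
`om (pt w b) ≤ 4 m ^ sg w / (d ^ t y)`. The `b` with `Hit (sg w) b w` lie in one class modulo
`m ^ sg w`, so by `vc` (with `s = sg w ≤ t`) there are at most `C e ^ (-c i) y / m ^ sg w` of them. Sum
over `w` (`card_W`): the result is `≤ 4 C e ^ (-c i)`. Sum over `i` (geometric series) and `t < 6 N`.
The condition of `vc` holds for `N ≥ N0`: `(2 B₀ + 1) m ^ t (d m) ^ i ≤ (2 B₀ + 1) (d m) ^ (12 N) ≤ y`.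
-/

set_option autoImplicit false

namespace Pool.Agent.Helper91.PL

open Pool.Agent.Helper68.Moeller Pool.Agent.Helper52.Tao Pool.Agent.Helper8.ND
  Pool.Agent.Helper8.CL Filter Topology

variable {d m : ℕ} {r : ℤ → ℤ}

namespace P3Aux

theorem exists_B0 (d : ℕ) (r : ℤ → ℤ) :
    ∃ B : ℕ, ∀ j : ℤ, 0 < j → j < (d : ℤ) → |r j| ≤ B := by
  refine ⟨∑ j ∈ Finset.range d, (r j).natAbs, fun j h0 h1 => ?_⟩
  lift j to ℕ using h0.le
  have h1' : j ∈ Finset.range d := by
    rw [Finset.mem_range]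
    exact_mod_cast h1
  have := Finset.single_le_sum (f := fun j : ℕ => (r j).natAbs) (fun _ _ => Nat.zero_le _) h1'
  rw [Int.abs_eq_natAbs]
  exact_mod_cast this

theorem sm_mono (A0 A1 : ℕ) {f g : ℤ → ℝ} (h : ∀ n, f n ≤ g n) : sm A0 A1 f ≤ sm A0 A1 g := by
  unfold sm
  exact Finset.sum_le_sum fun n _ => mul_le_mul_of_nonneg_left (h n) (om_nonneg A0 A1 n)

theorem sm_mul (A0 A1 : ℕ) (c : ℝ) (f : ℤ → ℝ) :
    sm A0 A1 (fun n => c * f n) = c * sm A0 A1 f := by
  unfold sm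
  rw [Finset.mul_sum]
  exact Finset.sum_congr rfl fun n _ => by ring

theorem sm_sum (A0 A1 : ℕ) (s : Finset ℕ) (f : ℕ → ℤ → ℝ) :
    sm A0 A1 (fun n => ∑ k ∈ s, f k n) = ∑ k ∈ s, sm A0 A1 (f k) := by
  unfold sm
  rw [Finset.sum_comm]
  exact Finset.sum_congr rfl fun n _ => Finset.mul_sum _ _ _

theorem sq_sum_le (M : ℕ) (I : ℕ → ℝ) (hI : ∀ t, 0 ≤ I t) :
    (∑ t ∈ Finset.range M, I t) ^ 2 ≤
      2 * ∑ t ∈ Finset.range M, ∑ i ∈ Finset.range M, I t * I (t + i) := by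
  have h1 : (∑ t ∈ Finset.range M, I t) ^ 2 =
      ∑ t ∈ Finset.range M, ∑ u ∈ Finset.range M, I t * I u := by
    rw [pow_two, Finset.sum_mul_sum]
  have h2 : ∑ t ∈ Finset.range M, ∑ u ∈ Finset.range M, I t * I u ≤
      ∑ t ∈ Finset.range M, ∑ u ∈ Finset.range M, (if t ≤ u then I t * I u else 0) +
      ∑ t ∈ Finset.range M, ∑ u ∈ Finset.range M, (if u ≤ t then I t * I u else 0) := by
    rw [← Finset.sum_add_distrib]
    refine Finset.sum_le_sum fun t _ => ?_
    rw [← Finset.sum_add_distrib]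
    refine Finset.sum_le_sum fun u _ => ?_
    have h0 : 0 ≤ I t * I u := mul_nonneg (hI t) (hI u)
    rcases le_total t u with h | h
    · rw [if_pos h]
      split_ifs <;> linarith
    · rw [if_pos h]
      split_ifs <;> linarith
  have h3 : ∑ t ∈ Finset.range M, ∑ u ∈ Finset.range M, (if u ≤ t then I t * I u else 0) =
      ∑ t ∈ Finset.range M, ∑ u ∈ Finset.range M, (if t ≤ u then I t * I u else 0) := by
    rw [Finset.sum_comm]
    refine Finset.sum_congr rfl fun t _ => Finset.sum_congr rfl fun u _ => ?_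
    rw [mul_comm]
  have h4 : ∀ t ∈ Finset.range M, ∑ u ∈ Finset.range M, (if t ≤ u then I t * I u else 0) ≤
      ∑ i ∈ Finset.range M, I t * I (t + i) := by
    intro t _
    rw [← Finset.sum_filter]
    have e1 : (Finset.range M).filter (fun u => t ≤ u) = Finset.Ico t M := by
      ext u
      simp only [Finset.mem_filter, Finset.mem_range, Finset.mem_Ico]
      tauto
    rw [e1, Finset.sum_Ico_eq_sum_range]
    apply Finset.sum_le_sum_of_subset_of_nonneg
    · intro i hi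
      rw [Finset.mem_range] at hi ⊢
      omega
    · intro i _ _
      exact mul_nonneg (hI t) (hI _)
  rw [h1]
  have h5 := Finset.sum_le_sum h4
  rw [h3] at h2
  linarith

/-- The estimate for one pair of times. -/
theorem pair_bound (hd : 2 ≤ d) (hdm : d < m) (hco : Nat.Coprime m d) (hr : Admissible d m r)
    {B₀ : ℕ} (hB : ∀ j : ℤ, 0 < j → j < (d : ℤ) → |r j| ≤ B₀) {C c : ℝ} (hC : 0 < C)
    (hvc : ∀ (i s : ℕ) (c₀ : ℤ) (y : ℕ),
      (2 * (B₀ : ℝ) + 1) * (m : ℝ) ^ s * ((d : ℝ) * m) ^ i ≤ y →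
        (((Yw y).filter (fun b => (m : ℤ) ^ s ∣ b - c₀ ∧ (T d m r)^[i] b ∈ Yw y)).card : ℝ) ≤
          C * Real.exp (-(c * i)) * (y / (m : ℝ) ^ s))
    (A0 A1 y t i : ℕ) (hy4 : 4 ≤ y) (hA0 : y ≤ A0)
    (hy : (2 * (B₀ : ℝ) + 1) * (m : ℝ) ^ t * ((d : ℝ) * m) ^ i ≤ y) :
    sm A0 A1 (fun n => if (T d m r)^[t] n ∈ Yw y then
      (if (T d m r)^[i] ((T d m r)^[t] n) ∈ Yw y then (1 : ℝ) else 0) else 0) ≤
      4 * C * Real.exp (-(c * i)) := by
  classical
  have hm1 : (1 : ℝ) ≤ m := by exact_mod_cast (by omega : 1 ≤ m)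
  have hd1 : (1 : ℝ) ≤ d := by exact_mod_cast (by omega : 1 ≤ d)
  have hm0 : (0 : ℝ) < m := by linarith
  have hd0 : (0 : ℝ) < d := by linarith
  have hy0 : (0 : ℝ) < y := by exact_mod_cast (by omega : 0 < y)
  rw [sm_exact hd hdm hco hr A0 A1 t (Yw y)
    (fun b => if (T d m r)^[i] b ∈ Yw y then (1 : ℝ) else 0)]
  have hdt : (0 : ℝ) < (d : ℝ) ^ t := by positivity
  -- exchange
  have e1 : ∑ b ∈ Yw y, (if (T d m r)^[i] b ∈ Yw y then (1 : ℝ) else 0) *
      ∑ w ∈ (W d t).filter (fun w => Hit d m r (sg w) b w), om A0 A1 (pt d m r w b) =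
      ∑ w ∈ W d t, ∑ b ∈ (Yw y).filter (fun b => Hit d m r (sg w) b w ∧ (T d m r)^[i] b ∈ Yw y),
        om A0 A1 (pt d m r w b) := by
    have e2 : ∀ b ∈ Yw y, (if (T d m r)^[i] b ∈ Yw y then (1 : ℝ) else 0) *
        ∑ w ∈ (W d t).filter (fun w => Hit d m r (sg w) b w), om A0 A1 (pt d m r w b) =
        ∑ w ∈ W d t, (if Hit d m r (sg w) b w ∧ (T d m r)^[i] b ∈ Yw y then
          om A0 A1 (pt d m r w b) else 0) := by
      intro b _
      rw [Finset.sum_filter, Finset.mul_sum]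
      refine Finset.sum_congr rfl fun w _ => ?_
      by_cases h1 : (T d m r)^[i] b ∈ Yw y <;> by_cases h2 : Hit d m r (sg w) b w <;> simp [h1, h2]
    rw [Finset.sum_congr rfl e2, Finset.sum_comm]
    refine Finset.sum_congr rfl fun w _ => ?_
    rw [Finset.sum_filter]
  rw [e1]
  -- one word
  have e3 : ∀ w ∈ W d t, ∑ b ∈ (Yw y).filter
      (fun b => Hit d m r (sg w) b w ∧ (T d m r)^[i] b ∈ Yw y), om A0 A1 (pt d m r w b) ≤
      4 * C * Real.exp (-(c * i)) / (d : ℝ) ^ t := by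
    intro w hw
    set s := sg w with hs
    have hst : s ≤ t := by
      have := sg_le_length w
      rw [(mem_W.1 hw).1] at this
      exact this
    have hms : (0 : ℝ) < (m : ℝ) ^ s := by positivity
    have hmst : (m : ℝ) ^ s ≤ (m : ℝ) ^ t := pow_le_pow_right₀ hm1 hst
    have hB0 : (0 : ℝ) ≤ B₀ := Nat.cast_nonneg _
    have hdmi : (1 : ℝ) ≤ ((d : ℝ) * m) ^ i := one_le_pow₀ (by nlinarith)
    -- weights
    have w1 : ∀ b ∈ (Yw y).filter (fun b => Hit d m r s b w ∧ (T d m r)^[i] b ∈ Yw y),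
        om A0 A1 (pt d m r w b) ≤ 4 * (m : ℝ) ^ s / ((d : ℝ) ^ t * y) := by
      intro b hb
      obtain ⟨hbY, hHit, -⟩ := Finset.mem_filter.1 hb
      have hby : (y : ℤ) ≤ b := (Finset.mem_Ico.1 hbY).1
      have hby' : (y : ℝ) ≤ (b : ℝ) := by exact_mod_cast hby
      by_cases hz : om A0 A1 (pt d m r w b) = 0
      · rw [hz]; positivity
      · have hlo : (A0 : ℤ) ≤ pt d m r w b := by
          by_contra h
          push Not at h
          exact hz (om_eq_zero (Or.inl h))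
        have hp4 : (4 : ℤ) ≤ pt d m r w b := by
          have : (4 : ℤ) ≤ A0 := by exact_mod_cast hy4.trans hA0
          exact this.trans hlo
        have hp4' : (4 : ℝ) ≤ (pt d m r w b : ℝ) := by exact_mod_cast hp4
        have ho := om_le (A0 := A0) (A1 := A1) (n := pt d m r w b) (by omega)
        have ho2 : om A0 A1 (pt d m r w b) ≤ 2 / (pt d m r w b : ℝ) := by
          refine ho.trans ?_
          apply div_le_div_of_nonneg_right _ (by linarith)
          have : 4 / (pt d m r w b : ℝ) ≤ 1 := by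
            rw [div_le_one (by linarith)]
            exact hp4'
          linarith
        have hpb := pt_bound hd hdm hB hw hHit
        have hpb' := (abs_le.mp hpb).1
        have h1 : (B₀ : ℝ) * (m : ℝ) ^ t ≤ (d : ℝ) ^ t * y / 2 := by
          have g1 : 2 * (B₀ : ℝ) * (m : ℝ) ^ t ≤ y := by
            have : 2 * (B₀ : ℝ) * (m : ℝ) ^ t ≤
                (2 * (B₀ : ℝ) + 1) * (m : ℝ) ^ t * ((d : ℝ) * m) ^ i := by
              have hmt : (0 : ℝ) < (m : ℝ) ^ t := by positivity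
              have g2 : 2 * (B₀ : ℝ) * (m : ℝ) ^ t ≤ (2 * (B₀ : ℝ) + 1) * (m : ℝ) ^ t := by
                nlinarith
              have g3 : (2 * (B₀ : ℝ) + 1) * (m : ℝ) ^ t * 1 ≤
                  (2 * (B₀ : ℝ) + 1) * (m : ℝ) ^ t * ((d : ℝ) * m) ^ i :=
                mul_le_mul_of_nonneg_left hdmi (by positivity)
              linarith
            exact this.trans hy
          have g4 : (1 : ℝ) ≤ (d : ℝ) ^ t := one_le_pow₀ hd1
          nlinarith
        have h2 : (d : ℝ) ^ t * y / 2 ≤ (m : ℝ) ^ s * (pt d m r w b : ℝ) := by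
          have g5 : (d : ℝ) ^ t * y ≤ (d : ℝ) ^ t * b := mul_le_mul_of_nonneg_left hby' hdt.le
          linarith
        refine ho2.trans ?_
        rw [div_le_div_iff₀ (by linarith) (by positivity)]
        nlinarith
    -- the count
    have w2 : (((Yw y).filter (fun b => Hit d m r s b w ∧ (T d m r)^[i] b ∈ Yw y)).card : ℝ) ≤
        C * Real.exp (-(c * i)) * (y / (m : ℝ) ^ s) := by
      have hcond : (2 * (B₀ : ℝ) + 1) * (m : ℝ) ^ s * ((d : ℝ) * m) ^ i ≤ y := by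
        refine le_trans ?_ hy
        apply mul_le_mul_of_nonneg_right _ (by positivity)
        exact mul_le_mul_of_nonneg_left hmst (by positivity)
      rcases ((Yw y).filter (fun b => Hit d m r s b w ∧ (T d m r)^[i] b ∈ Yw y)).eq_empty_or_nonempty
        with he | ⟨c₀, hc₀⟩
      · rw [he]
        simp only [Finset.card_empty, Nat.cast_zero]
        positivity
      · refine le_trans ?_ (hvc i s c₀ y hcond)
        norm_cast
        apply Finset.card_le_card
        intro b hb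
        obtain ⟨hbY, hHit, hT⟩ := Finset.mem_filter.1 hb
        obtain ⟨-, hHit₀, -⟩ := Finset.mem_filter.1 hc₀
        refine Finset.mem_filter.2 ⟨hbY, ?_, hT⟩
        have h1 : (m : ℤ) ^ s ∣ (d : ℤ) ^ w.length * (b - c₀) := by
          have := dvd_sub hHit hHit₀
          have e : (d : ℤ) ^ w.length * b + Off d m r w - ((d : ℤ) ^ w.length * c₀ + Off d m r w)
            = (d : ℤ) ^ w.length * (b - c₀) := by ring
          rwa [e] at this
        have h2 : IsCoprime ((m : ℤ) ^ s) ((d : ℤ) ^ w.length) := by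
          apply IsCoprime.pow
          exact Nat.isCoprime_iff_coprime.mpr hco
        exact h2.dvd_of_dvd_mul_left h1
    calc ∑ b ∈ (Yw y).filter (fun b => Hit d m r s b w ∧ (T d m r)^[i] b ∈ Yw y),
          om A0 A1 (pt d m r w b)
        ≤ ∑ b ∈ (Yw y).filter (fun b => Hit d m r s b w ∧ (T d m r)^[i] b ∈ Yw y),
          4 * (m : ℝ) ^ s / ((d : ℝ) ^ t * y) := Finset.sum_le_sum w1
      _ = (((Yw y).filter (fun b => Hit d m r s b w ∧ (T d m r)^[i] b ∈ Yw y)).card : ℝ) *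
          (4 * (m : ℝ) ^ s / ((d : ℝ) ^ t * y)) := by rw [Finset.sum_const, nsmul_eq_mul]
      _ ≤ C * Real.exp (-(c * i)) * (y / (m : ℝ) ^ s) *
          (4 * (m : ℝ) ^ s / ((d : ℝ) ^ t * y)) := mul_le_mul_of_nonneg_right w2 (by positivity)
      _ = 4 * C * Real.exp (-(c * i)) / (d : ℝ) ^ t := by
          field_simp
  calc ∑ w ∈ W d t, ∑ b ∈ (Yw y).filter
        (fun b => Hit d m r (sg w) b w ∧ (T d m r)^[i] b ∈ Yw y), om A0 A1 (pt d m r w b)
      ≤ ∑ w ∈ W d t, 4 * C * Real.exp (-(c * i)) / (d : ℝ) ^ t := Finset.sum_le_sum e3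
    _ = 4 * C * Real.exp (-(c * i)) := by
        rw [Finset.sum_const, card_W, nsmul_eq_mul]
        push_cast
        field_simp

end P3Aux

open P3Aux

theorem p3 (hd : 2 ≤ d) (hdm : d < m) (hco : Nat.Coprime m d) (hr : Admissible d m r)
    (hg : 0 < gam d m) :
    ∃ C : ℝ, 0 < C ∧ ∃ N0 : ℕ, ∀ N : ℕ, N0 ≤ N → ∀ y : ℕ, ((d : ℝ) * m) ^ (100 * N) ≤ y →
      sm (lo d m y N) (hi d m y N) (fun n => (vis d m r (6 * N) (Yw y) n : ℝ) ^ 2) ≤ C * N := by
  classical
  obtain ⟨B₀, hB⟩ := exists_B0 d r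
  obtain ⟨C, c, hC, hc, hvc⟩ := vc hd hdm hco hr hg hB
  have hgeo : ∀ M : ℕ, ∑ i ∈ Finset.range M, Real.exp (-(c * i)) ≤ (1 - Real.exp (-c))⁻¹ := by
    intro M
    have h1 : Real.exp (-c) < 1 := by
      rw [Real.exp_lt_one_iff]
      linarith
    have h2 : ∀ i ∈ Finset.range M, Real.exp (-(c * i)) = Real.exp (-c) ^ i := by
      intro i _
      rw [← Real.exp_nat_mul]
      congr 1
      ring
    rw [Finset.sum_congr rfl h2]
    have h3 := (summable_geometric_of_lt_one (Real.exp_pos _).le h1).sum_le_tsum (Finset.range M)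
      (fun i _ => by positivity)
    rw [tsum_geometric_of_lt_one (Real.exp_pos _).le h1] at h3
    exact h3
  have hgp : 0 < (1 - Real.exp (-c))⁻¹ := by
    have h1 : Real.exp (-c) < 1 := by
      rw [Real.exp_lt_one_iff]
      linarith
    apply inv_pos.mpr
    linarith
  set G := (1 - Real.exp (-c))⁻¹ with hG
  refine ⟨48 * C * G, by positivity, 2 * B₀ + 1, fun N hN y hy => ?_⟩
  have hdR : (2 : ℝ) ≤ d := by exact_mod_cast hd
  have hmR : (3 : ℝ) ≤ m := by exact_mod_cast (by omega : 3 ≤ m)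
  have hdm2 : (2 : ℝ) ≤ (d : ℝ) * m := by nlinarith
  have hdm1 : (1 : ℝ) ≤ (d : ℝ) * m := by linarith
  have hN1 : 1 ≤ N := by omega
  have hy4 : 4 ≤ y := by
    have h1 : (2 : ℝ) ^ 2 ≤ y := by
      calc (2 : ℝ) ^ 2 ≤ ((d : ℝ) * m) ^ 2 := pow_le_pow_left₀ (by norm_num) hdm2 2
        _ ≤ ((d : ℝ) * m) ^ (100 * N) := pow_le_pow_right₀ hdm1 (by omega)
        _ ≤ y := hy
    have h2 : (4 : ℝ) ≤ y := by linarith
    exact_mod_cast h2
  have hlo : y ≤ lo d m y N := by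
    unfold lo
    have h1 : (y : ℝ) ≤ y * Real.exp (gam d m * N) := by
      have : (1 : ℝ) ≤ Real.exp (gam d m * N) := by
        rw [← Real.exp_zero]
        apply Real.exp_le_exp.mpr
        positivity
      nlinarith [Nat.cast_nonneg (α := ℝ) y]
    exact_mod_cast h1.trans (Nat.le_ceil _)
  have hcond : ∀ t i : ℕ, t < 6 * N → i < 6 * N →
      (2 * (B₀ : ℝ) + 1) * (m : ℝ) ^ t * ((d : ℝ) * m) ^ i ≤ y := by
    intro t i ht hi
    have h1 : (2 * (B₀ : ℝ) + 1) ≤ ((d : ℝ) * m) ^ N := by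
      have h2 : ((2 * B₀ + 1 : ℕ) : ℝ) ≤ (N : ℝ) := by exact_mod_cast hN
      have h3 : (N : ℝ) ≤ (2 : ℝ) ^ N := by exact_mod_cast Nat.lt_two_pow_self.le
      have h4 : (2 : ℝ) ^ N ≤ ((d : ℝ) * m) ^ N := pow_le_pow_left₀ (by norm_num) hdm2 N
      push_cast at h2
      linarith
    have h5 : (m : ℝ) ^ t ≤ ((d : ℝ) * m) ^ (6 * N) := by
      calc (m : ℝ) ^ t ≤ ((d : ℝ) * m) ^ t := pow_le_pow_left₀ (by linarith) (by nlinarith) t
        _ ≤ ((d : ℝ) * m) ^ (6 * N) := pow_le_pow_right₀ hdm1 ht.le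
    have h6 : ((d : ℝ) * m) ^ i ≤ ((d : ℝ) * m) ^ (6 * N) := pow_le_pow_right₀ hdm1 hi.le
    calc (2 * (B₀ : ℝ) + 1) * (m : ℝ) ^ t * ((d : ℝ) * m) ^ i
        ≤ ((d : ℝ) * m) ^ N * ((d : ℝ) * m) ^ (6 * N) * ((d : ℝ) * m) ^ (6 * N) := by
          apply mul_le_mul (mul_le_mul h1 h5 (by positivity) (by positivity)) h6 (by positivity)
            (by positivity)
      _ = ((d : ℝ) * m) ^ (13 * N) := by
          rw [← pow_add, ← pow_add]
          congr 1
          ring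
      _ ≤ ((d : ℝ) * m) ^ (100 * N) := pow_le_pow_right₀ hdm1 (by omega)
      _ ≤ y := hy
  set I : ℤ → ℕ → ℝ := fun n t => if (T d m r)^[t] n ∈ Yw y then 1 else 0 with hI
  have hI0 : ∀ n t, 0 ≤ I n t := by
    intro n t
    simp only [hI]
    split_ifs <;> norm_num
  have hvis : ∀ n, (vis d m r (6 * N) (Yw y) n : ℝ) = ∑ t ∈ Finset.range (6 * N), I n t := by
    intro n
    unfold vis
    rw [Finset.card_filter]
    push_cast
    rfl
  have hpt : ∀ n, (vis d m r (6 * N) (Yw y) n : ℝ) ^ 2 ≤ 2 * ∑ t ∈ Finset.range (6 * N),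
      ∑ i ∈ Finset.range (6 * N), (if (T d m r)^[t] n ∈ Yw y then
        (if (T d m r)^[i] ((T d m r)^[t] n) ∈ Yw y then (1 : ℝ) else 0) else 0) := by
    intro n
    rw [hvis]
    refine (sq_sum_le (6 * N) (I n) (hI0 n)).trans (le_of_eq ?_)
    congr 1
    refine Finset.sum_congr rfl fun t _ => Finset.sum_congr rfl fun i _ => ?_
    simp only [hI]
    rw [add_comm t i, Function.iterate_add_apply]
    split_ifs <;> simp
  calc sm (lo d m y N) (hi d m y N) (fun n => (vis d m r (6 * N) (Yw y) n : ℝ) ^ 2)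
      ≤ sm (lo d m y N) (hi d m y N) (fun n => 2 * ∑ t ∈ Finset.range (6 * N),
        ∑ i ∈ Finset.range (6 * N), (if (T d m r)^[t] n ∈ Yw y then
          (if (T d m r)^[i] ((T d m r)^[t] n) ∈ Yw y then (1 : ℝ) else 0) else 0)) :=
        sm_mono _ _ hpt
    _ = 2 * ∑ t ∈ Finset.range (6 * N), ∑ i ∈ Finset.range (6 * N),
        sm (lo d m y N) (hi d m y N) (fun n => if (T d m r)^[t] n ∈ Yw y then
          (if (T d m r)^[i] ((T d m r)^[t] n) ∈ Yw y then (1 : ℝ) else 0) else 0) := by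
        rw [sm_mul, sm_sum]
        congr 1
        refine Finset.sum_congr rfl fun t _ => ?_
        rw [sm_sum]
    _ ≤ 2 * ∑ t ∈ Finset.range (6 * N), ∑ i ∈ Finset.range (6 * N),
        4 * C * Real.exp (-(c * i)) := by
        apply mul_le_mul_of_nonneg_left _ (by norm_num)
        refine Finset.sum_le_sum fun t ht => Finset.sum_le_sum fun i hi' => ?_
        rw [Finset.mem_range] at ht hi'
        exact pair_bound hd hdm hco hr hB hC hvc _ _ y t i hy4 hlo (hcond t i ht hi')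
    _ ≤ 2 * ∑ t ∈ Finset.range (6 * N), 4 * C * G := by
        apply mul_le_mul_of_nonneg_left _ (by norm_num)
        refine Finset.sum_le_sum fun t _ => ?_
        rw [← Finset.mul_sum]
        exact mul_le_mul_of_nonneg_left (hgeo _) (by positivity)
    _ = 48 * C * G * N := by
        rw [Finset.sum_const, Finset.card_range, nsmul_eq_mul]
        push_cast
        ring

end Pool.Agent.Helper91.PL
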