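import Pool.Agent.Helper91.PL.Defs
import Pool.Agent.Helper8.SparseTransversals

/-!
# Block PL-TR: sets on which one iterate is injective

Here `T` is `Pool.Agent.Helper68.Moeller.T`; compare with `Helper8.SparseTransversals.T` (same formula) to
use the lemmas of that file, or repeat them with `wd`.
* `trans_one`: let `X ≤ x < X + d ^ N` for `x ∈ F`. Choose `γ < 1`, `η < 1`, `lam ≥ 1` as in
  `SparseTransversals` (condition `hbad` of `main`, which holds for suitable parameters because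
  `eta0 d m < 1`: see the end of that file). The points with `(d ^ γ) ^ N < m ^ cnt N x` are at most
  `(d ^ η) ^ N` (`card_bad`). For each `s` with `m ^ s ≤ (d ^ γ) ^ N` the images `T^[N] x` of the points of `F`
  with `cnt N x = s` are different and lie in an interval of length `(2 A + 2) m ^ s`
  (`image_interval`), so there are at most `(2 A + 2) (d ^ γ) ^ N` of them. Sum over `s ≤ N`:
  `|F| ≤ d ^ (η N) + (N + 1) (2 A + 2) d ^ (γ N) ≤ C d ^ (η' N)`, `η' < 1`.
* `per_few`: every `T^[N]` is injective on the set of the periodic points; cover `[y, 2 y)` by two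
  intervals of length `d ^ N`, `y ≤ d ^ N < d y`.
* `u1`: choose `θ ≤ 1 / 2` with `θ + η' < 1`. Let `a ∈ Yw y` be on the orbit of `n`, `0 < n < y ^ θ`.
  Let `P` be the number of different points of the orbit of `n` (possibly infinite) and `N` as above.
  If `a` is periodic use `per_few`. Otherwise `a = T^[j] n`, `j < P`. The points `T^[j] n` with
  `j + N < P` have different images under `T^[N]`, so at most `2 C d ^ (η' N)` of them are in the
  window, and there are at most `N` values `j` with `P ≤ j + N`, `j < P`. Sum over the less than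
  `y ^ θ` values `n`.
-/

set_option autoImplicit false

namespace Pool.Agent.Helper91.PL

open Pool.Agent.Helper68.Moeller Pool.Agent.Helper52.Tao Pool.Agent.Helper8.ND
  Pool.Agent.Helper8.CL Filter Topology

variable {d m : ℕ} {r : ℤ → ℤ}

/-- A bound for the numbers `r j`. -/
lemma tr_bound (d : ℕ) (r : ℤ → ℤ) : ∃ A : ℕ, ∀ j : ℤ, 0 < j → j < (d : ℤ) → |r j| ≤ A := by
  refine ⟨∑ j ∈ Finset.range d, (r j).natAbs, fun j hj1 hj2 => ?_⟩
  obtain ⟨j', rfl⟩ := Int.eq_ofNat_of_zero_le hj1.le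
  have h1 : (r (j' : ℤ)).natAbs ≤ ∑ j ∈ Finset.range d, (r j).natAbs :=
    Finset.single_le_sum (f := fun j : ℕ => (r (j : ℤ)).natAbs) (fun _ _ => Nat.zero_le _)
      (Finset.mem_range.2 (by exact_mod_cast hj2))
  rw [Int.abs_eq_natAbs]
  exact_mod_cast h1

/-- `N + 1` is at most a constant times `d ^ (κ N)`. -/
lemma tr_lin (hd : 2 ≤ d) {κ : ℝ} (hκ : 0 < κ) :
    ∃ K : ℝ, 0 < K ∧ ∀ N : ℕ, (N : ℝ) + 1 ≤ K * (d : ℝ) ^ (κ * N) := by
  have hd0 : (0 : ℝ) < d := by positivity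
  have hd1 : (1 : ℝ) < d := by exact_mod_cast (by omega : 1 < d)
  obtain ⟨a, ha⟩ : ∃ a : ℝ, a = (d : ℝ) ^ κ - 1 := ⟨_, rfl⟩
  have ha0 : 0 < a := by
    rw [ha, sub_pos]
    exact Real.one_lt_rpow hd1 hκ
  refine ⟨1 + 1 / a, by positivity, fun N => ?_⟩
  have h1 : (d : ℝ) ^ (κ * N) = (1 + a) ^ N := by
    rw [ha, add_sub_cancel, Real.rpow_mul hd0.le, Real.rpow_natCast]
  have h2 : 1 + (N : ℝ) * a ≤ (1 + a) ^ N := by
    have := one_add_mul_le_pow (a := a) (by linarith) N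
    linarith
  rw [h1]
  have h3 : (1 + 1 / a) * (1 + (N : ℝ) * a) ≤ (1 + 1 / a) * (1 + a) ^ N :=
    mul_le_mul_of_nonneg_left h2 (by positivity)
  have h4 : (1 + 1 / a) * (1 + (N : ℝ) * a) = 1 + N + N * a + 1 / a := by
    field_simp
    ring
  have h5 : 0 ≤ (N : ℝ) * a := by positivity
  have h6 : 0 ≤ 1 / a := by positivity
  linarith

/-- A power with exponent less than one is small compared with `y`. -/
lemma tr_small {K κ : ℝ} (hκ : κ < 1) {ε : ℝ} (hε : 0 < ε) :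
    ∃ y0 : ℕ, ∀ y : ℕ, y0 ≤ y → K * (y : ℝ) ^ κ ≤ ε * y := by
  have h1 : Tendsto (fun y : ℕ => K * (y : ℝ) ^ (κ - 1)) atTop (nhds 0) := by
    have h2 : Tendsto (fun y : ℝ => y ^ (-(1 - κ))) atTop (nhds 0) :=
      tendsto_rpow_neg_atTop (by linarith)
    have h3 := (h2.comp tendsto_natCast_atTop_atTop).const_mul K
    rw [mul_zero] at h3
    refine h3.congr fun y => ?_
    simp only [Function.comp_apply]
    congr 2
    ring
  have h4 := (h1.eventually (gt_mem_nhds hε)).and (eventually_ge_atTop 1)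
  obtain ⟨y0, hy0⟩ := Filter.eventually_atTop.1 h4
  refine ⟨y0, fun y hy => ?_⟩
  obtain ⟨h5, h6⟩ := hy0 y hy
  have hy1 : (0 : ℝ) < y := by exact_mod_cast h6
  have h7 : (y : ℝ) ^ κ = (y : ℝ) ^ (κ - 1) * y := by
    rw [Real.rpow_sub_one hy1.ne']
    field_simp
  rw [h7, ← mul_assoc]
  exact mul_le_mul_of_nonneg_right h5.le hy1.le

theorem trans_one (hd : 2 ≤ d) (hdm : d < m) (hco : Nat.Coprime m d)
    (hm : (m : ℝ) ≤ (d : ℝ) ^ ((d : ℝ) / ((d : ℝ) - 1))) (hr : Admissible d m r) :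
    ∃ η C : ℝ, 0 < η ∧ η < 1 ∧ 0 < C ∧ ∀ (N : ℕ) (X : ℤ) (F : Finset ℤ),
      (∀ x ∈ F, X ≤ x ∧ x < X + (d : ℤ) ^ N) → Set.InjOn ((T d m r)^[N]) F →
        (F.card : ℝ) ≤ C * (d : ℝ) ^ (η * N) := by
  classical
  have hlt := Helper8.SparseTransversals.strict hd hco hm
  have he1 := Helper8.SparseTransversals.eta0_lt_one hd hdm hlt
  have he0 := Helper8.SparseTransversals.eta0_pos hd hdm hlt
  obtain ⟨e, he2, he3⟩ := exists_between he1
  obtain ⟨γ, lam, hγ0, hγ1, hlam, hbad⟩ := Helper8.SparseTransversals.exists_params hd hdm hlt he2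
  obtain ⟨A, hA⟩ := tr_bound d r
  have hd0 : (0 : ℝ) < d := by positivity
  have hd1 : (1 : ℝ) ≤ d := by exact_mod_cast (by omega : 1 ≤ d)
  obtain ⟨K, hK0, hK⟩ := tr_lin (d := d) hd (κ := (1 - γ) / 2) (by linarith)
  refine ⟨max e ((1 + γ) / 2), 1 + (2 * A + 2) * K, lt_max_of_lt_left (by linarith),
    max_lt he3 (by linarith), by positivity, fun N X F hF hinj => ?_⟩
  have hm2 : 2 ≤ m := by omega
  have hcb := Helper8.SparseTransversals.card_bad (r := r) hd hm2 hco hr hlam hbad N X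
  set B := (Finset.Ico X (X + (d : ℤ) ^ N)).filter (fun x => ((d : ℝ) ^ γ) ^ N <
    (m : ℝ) ^ Helper8.SparseTransversals.cnt d m r N x) with hB
  have hs : ∀ s ∈ Finset.range (N + 1), ((F.filter (fun x =>
      Helper8.SparseTransversals.cnt d m r N x = s ∧ (m : ℝ) ^ s ≤ ((d : ℝ) ^ γ) ^ N)).card : ℝ) ≤
      (2 * A + 2) * ((d : ℝ) ^ γ) ^ N := by
    intro s _
    by_cases hgood : (m : ℝ) ^ s ≤ ((d : ℝ) ^ γ) ^ N
    · obtain ⟨L, hL⟩ := Helper8.SparseTransversals.image_interval (r := r) hd hm2 hr hA N s X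
      have hcard : (F.filter (fun x => Helper8.SparseTransversals.cnt d m r N x = s ∧
          (m : ℝ) ^ s ≤ ((d : ℝ) ^ γ) ^ N)).card ≤
          (Finset.Ico L (L + (((2 * A + 2) * m ^ s : ℕ) : ℤ))).card := by
        refine Finset.card_le_card_of_injOn ((T d m r)^[N]) ?_ ?_
        · intro x hx
          have hx' := Finset.mem_filter.1 (Finset.mem_coe.1 hx)
          obtain ⟨h1, h2⟩ := hF x hx'.1
          exact Finset.mem_coe.2 (Finset.mem_Ico.2 (hL x h1 h2 hx'.2.1))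
        · intro x hx y hy hxy
          exact hinj (Finset.mem_coe.2 (Finset.mem_filter.1 (Finset.mem_coe.1 hx)).1)
            (Finset.mem_coe.2 (Finset.mem_filter.1 (Finset.mem_coe.1 hy)).1) hxy
      rw [Int.card_Ico, add_sub_cancel_left, Int.toNat_natCast] at hcard
      calc ((F.filter (fun x => Helper8.SparseTransversals.cnt d m r N x = s ∧
          (m : ℝ) ^ s ≤ ((d : ℝ) ^ γ) ^ N)).card : ℝ) ≤ (((2 * A + 2) * m ^ s : ℕ) : ℝ) := by
            exact_mod_cast hcard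
        _ = (2 * A + 2) * (m : ℝ) ^ s := by push_cast; ring
        _ ≤ _ := mul_le_mul_of_nonneg_left hgood (by positivity)
    · have : F.filter (fun x => Helper8.SparseTransversals.cnt d m r N x = s ∧
          (m : ℝ) ^ s ≤ ((d : ℝ) ^ γ) ^ N) = ∅ := by
        rw [Finset.filter_eq_empty_iff]
        intro x _ hx
        exact hgood hx.2
      rw [this, Finset.card_empty, Nat.cast_zero]
      positivity
  have hcover : F ⊆ B ∪ (Finset.range (N + 1)).biUnion (fun s => F.filter (fun x =>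
      Helper8.SparseTransversals.cnt d m r N x = s ∧ (m : ℝ) ^ s ≤ ((d : ℝ) ^ γ) ^ N)) := by
    intro x hx
    rw [Finset.mem_union]
    by_cases h : ((d : ℝ) ^ γ) ^ N < (m : ℝ) ^ Helper8.SparseTransversals.cnt d m r N x
    · left
      rw [hB, Finset.mem_filter, Finset.mem_Ico]
      exact ⟨hF x hx, h⟩
    · right
      rw [Finset.mem_biUnion]
      refine ⟨Helper8.SparseTransversals.cnt d m r N x, ?_, ?_⟩
      · rw [Finset.mem_range]
        have := Helper8.SparseTransversals.cnt_le (d := d) (m := m) (r := r) N x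
        omega
      · rw [Finset.mem_filter]
        exact ⟨hx, rfl, not_lt.1 h⟩
  have hsum : (F.card : ℝ) ≤ ((d : ℝ) ^ e) ^ N +
      ((N : ℝ) + 1) * ((2 * A + 2) * ((d : ℝ) ^ γ) ^ N) := by
    calc (F.card : ℝ) ≤ B.card + ∑ s ∈ Finset.range (N + 1), ((F.filter (fun x =>
          Helper8.SparseTransversals.cnt d m r N x = s ∧
          (m : ℝ) ^ s ≤ ((d : ℝ) ^ γ) ^ N)).card : ℝ) := by
          have h1 := (Finset.card_le_card hcover).trans (Finset.card_union_le _ _)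
          have h2 : ((Finset.range (N + 1)).biUnion (fun s => F.filter (fun x =>
              Helper8.SparseTransversals.cnt d m r N x = s ∧
              (m : ℝ) ^ s ≤ ((d : ℝ) ^ γ) ^ N))).card ≤ ∑ s ∈ Finset.range (N + 1),
              (F.filter (fun x => Helper8.SparseTransversals.cnt d m r N x = s ∧
              (m : ℝ) ^ s ≤ ((d : ℝ) ^ γ) ^ N)).card := Finset.card_biUnion_le
          exact_mod_cast h1.trans (Nat.add_le_add_left h2 _)
      _ ≤ ((d : ℝ) ^ e) ^ N + ∑ s ∈ Finset.range (N + 1), (2 * A + 2) * ((d : ℝ) ^ γ) ^ N :=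
          add_le_add hcb (Finset.sum_le_sum hs)
      _ = _ := by
          rw [Finset.sum_const, Finset.card_range, nsmul_eq_mul]; push_cast; ring
  have e1 : ((d : ℝ) ^ e) ^ N ≤ (d : ℝ) ^ (max e ((1 + γ) / 2) * N) := by
    rw [← Real.rpow_natCast, ← Real.rpow_mul hd0.le]
    exact Real.rpow_le_rpow_of_exponent_le hd1
      (mul_le_mul_of_nonneg_right (le_max_left _ _) (Nat.cast_nonneg _))
  have e2 : ((N : ℝ) + 1) * ((d : ℝ) ^ γ) ^ N ≤ K * (d : ℝ) ^ (max e ((1 + γ) / 2) * N) := by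
    calc ((N : ℝ) + 1) * ((d : ℝ) ^ γ) ^ N ≤
          (K * (d : ℝ) ^ ((1 - γ) / 2 * N)) * ((d : ℝ) ^ γ) ^ N :=
          mul_le_mul_of_nonneg_right (hK N) (by positivity)
      _ = K * (d : ℝ) ^ ((1 + γ) / 2 * N) := by
          rw [← Real.rpow_natCast ((d : ℝ) ^ γ), ← Real.rpow_mul hd0.le, mul_assoc,
            ← Real.rpow_add hd0]
          congr 2
          ring
      _ ≤ _ := by
          refine mul_le_mul_of_nonneg_left ?_ hK0.le
          exact Real.rpow_le_rpow_of_exponent_le hd1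
            (mul_le_mul_of_nonneg_right (le_max_right _ _) (Nat.cast_nonneg _))
  have e3 := mul_le_mul_of_nonneg_left e2 (by positivity : (0 : ℝ) ≤ 2 * A + 2)
  linarith

/-! ### Periodic points -/

lemma tr_per_iff (a : ℤ) : Per d m r a ↔ a ∈ Function.periodicPts (T d m r) := by
  constructor
  · rintro ⟨t, ht, h⟩
    exact ⟨t, ht, h⟩
  · rintro ⟨t, ht, h⟩
    exact ⟨t, ht, h⟩

lemma tr_per_inj (N : ℕ) : Set.InjOn ((T d m r)^[N]) {a | Per d m r a} := by
  have h : {a | Per d m r a} = Function.periodicPts (T d m r) := by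
    ext a
    exact tr_per_iff a
  rw [h]
  exact ((Function.bijOn_periodicPts (T d m r)).iterate N).injOn

lemma tr_per_iter {a : ℤ} (h : Per d m r a) (i : ℕ) : Per d m r ((T d m r)^[i] a) := by
  obtain ⟨t, ht, h⟩ := h
  refine ⟨t, ht, ?_⟩
  rw [← Function.iterate_add_apply, add_comm, Function.iterate_add_apply, h]

lemma tr_clog (hd : 2 ≤ d) {y : ℕ} (hy : 2 ≤ y) :
    y ≤ d ^ Nat.clog d y ∧ (d : ℝ) ^ (Nat.clog d y) ≤ d * y := by
  refine ⟨Nat.le_pow_clog (by omega) y, ?_⟩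
  have h1 : d ^ (Nat.clog d y - 1) < y := Nat.pow_pred_clog_lt_self (by omega) (by omega)
  have h2 : 0 < Nat.clog d y := Nat.clog_pos (by omega) hy
  have h3 : d ^ Nat.clog d y = d * d ^ (Nat.clog d y - 1) := by
    rw [← pow_succ']
    congr 1
    omega
  have h4 : d ^ Nat.clog d y ≤ d * y := by
    rw [h3]
    exact Nat.mul_le_mul_left _ h1.le
  exact_mod_cast h4

lemma tr_pow (hd : 2 ≤ d) {y : ℕ} (hy : 2 ≤ y) {η : ℝ} (hη : 0 < η) :
    (d : ℝ) ^ (η * (Nat.clog d y : ℕ)) ≤ (d : ℝ) ^ η * (y : ℝ) ^ η := by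
  have hd0 : (0 : ℝ) < d := by positivity
  rw [← Real.mul_rpow hd0.le (Nat.cast_nonneg _), mul_comm η, Real.rpow_mul hd0.le,
    Real.rpow_natCast]
  exact Real.rpow_le_rpow (by positivity) (tr_clog hd hy).2 hη.le

lemma tr_window (hd : 2 ≤ d) {y : ℕ} (hy : 2 ≤ y) {a : ℤ} (ha : a ∈ Yw y) :
    (y : ℤ) ≤ a ∧ a < (y : ℤ) + (d : ℤ) ^ (Nat.clog d y) := by
  rw [Yw, Finset.mem_Ico] at ha
  refine ⟨ha.1, lt_of_lt_of_le ha.2 ?_⟩
  have : (y : ℤ) ≤ (d : ℤ) ^ (Nat.clog d y) := by exact_mod_cast (tr_clog hd hy).1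
  linarith

open Classical in
lemma tr_ncard (y : ℕ) (P : ℤ → Prop) :
    {a : ℤ | a ∈ Yw y ∧ P a}.ncard = ((Yw y).filter P).card := by
  rw [← Set.ncard_coe_finset]
  congr 1
  ext a
  simp

theorem per_few (hd : 2 ≤ d) (hdm : d < m) (hco : Nat.Coprime m d)
    (hm : (m : ℝ) ≤ (d : ℝ) ^ ((d : ℝ) / ((d : ℝ) - 1))) (hr : Admissible d m r) {ε : ℝ}
    (hε : 0 < ε) :
    ∃ y0 : ℕ, ∀ y : ℕ, y0 ≤ y → ({a : ℤ | a ∈ Yw y ∧ Per d m r a}.ncard : ℝ) ≤ ε * y := by
  classical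
  obtain ⟨η, C, hη0, hη1, hC, h⟩ := trans_one hd hdm hco hm hr
  obtain ⟨y0, hy0⟩ := tr_small (K := C * (d : ℝ) ^ η) hη1 hε
  refine ⟨max y0 2, fun y hy => ?_⟩
  have hy2 : 2 ≤ y := le_trans (le_max_right _ _) hy
  have hy1 : y0 ≤ y := le_trans (le_max_left _ _) hy
  rw [tr_ncard]
  have h1 := h (Nat.clog d y) y ((Yw y).filter (Per d m r))
    (fun x hx => tr_window hd hy2 (Finset.mem_filter.1 hx).1)
    ((tr_per_inj _).mono (fun x hx => (Finset.mem_filter.1 (Finset.mem_coe.1 hx)).2))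
  refine h1.trans ((mul_le_mul_of_nonneg_left (tr_pow hd hy2 hη0) hC.le).trans ?_)
  rw [← mul_assoc]
  exact hy0 y hy1

/-- The points of one orbit in the window that are not periodic. -/
lemma tr_orbit {η C : ℝ} (hd : 2 ≤ d) (hC : 0 < C)
    (h : ∀ (N : ℕ) (X : ℤ) (F : Finset ℤ),
      (∀ x ∈ F, X ≤ x ∧ x < X + (d : ℤ) ^ N) → Set.InjOn ((T d m r)^[N]) F →
        (F.card : ℝ) ≤ C * (d : ℝ) ^ (η * N)) (N : ℕ) (X : ℤ) (n : ℤ) (F : Finset ℤ)
    (hF : ∀ x ∈ F, X ≤ x ∧ x < X + (d : ℤ) ^ N) (hn : ∀ x ∈ F, n ∈ Pr d m r x)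
    (hp : ∀ x ∈ F, ¬ Per d m r x) : (F.card : ℝ) ≤ C * (d : ℝ) ^ (η * N) + N := by
  classical
  have h1 : ((F.filter (fun a => ¬ Per d m r ((T d m r)^[N] a))).card : ℝ) ≤
      C * (d : ℝ) ^ (η * N) := by
    refine h N X _ (fun x hx => hF x (Finset.mem_filter.1 hx).1) ?_
    intro a ha b hb hab
    have ha' := Finset.mem_filter.1 (Finset.mem_coe.1 ha)
    have hb' := Finset.mem_filter.1 (Finset.mem_coe.1 hb)
    obtain ⟨i, hi⟩ := hn a ha'.1
    obtain ⟨j, hj⟩ := hn b hb'.1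
    have key : ∀ (i j : ℕ) (a b : ℤ), (T d m r)^[i] n = a → (T d m r)^[j] n = b →
        (T d m r)^[N] a = (T d m r)^[N] b → i < j → Per d m r ((T d m r)^[N] a) := by
      intro i j a b hi hj hab hij
      refine ⟨j - i, by omega, ?_⟩
      nth_rewrite 1 [← hi]
      rw [← Function.iterate_add_apply, ← Function.iterate_add_apply, hab, ← hj,
        ← Function.iterate_add_apply]
      have e : j - i + N + i = N + j := by omega
      rw [e]
    rcases lt_trichotomy i j with hij | hij | hij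
    · exact absurd (key i j a b hi hj hab hij) ha'.2
    · rw [← hi, ← hj, hij]
    · exact absurd (key j i b a hj hi hab.symm hij) hb'.2
  have h2 : (F.filter (fun a => Per d m r ((T d m r)^[N] a))).card ≤ N := by
    rcases (F.filter (fun a => Per d m r ((T d m r)^[N] a))).eq_empty_or_nonempty with he | ⟨a0, ha0⟩
    · rw [he]
      simp
    · have ha0' := Finset.mem_filter.1 ha0
      obtain ⟨j0, hj0⟩ := hn a0 ha0'.1
      have hex : ∃ P : ℕ, Per d m r ((T d m r)^[P] n) := by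
        refine ⟨N + j0, ?_⟩
        rw [Function.iterate_add_apply, hj0]
        exact ha0'.2
      have hsub : F.filter (fun a => Per d m r ((T d m r)^[N] a)) ⊆
          (Finset.Ico (Nat.find hex - N) (Nat.find hex)).image (fun j => (T d m r)^[j] n) := by
        intro a ha
        have ha' := Finset.mem_filter.1 ha
        obtain ⟨j, hj⟩ := hn a ha'.1
        rw [Finset.mem_image]
        refine ⟨j, ?_, hj⟩
        rw [Finset.mem_Ico]
        constructor
        · have : Nat.find hex ≤ N + j := by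
            refine Nat.find_min' hex ?_
            rw [Function.iterate_add_apply, hj]
            exact ha'.2
          omega
        · by_contra hcon
          have hle : Nat.find hex ≤ j := not_lt.1 hcon
          have hper := tr_per_iter (Nat.find_spec hex) (j - Nat.find hex)
          rw [← Function.iterate_add_apply, Nat.sub_add_cancel hle, hj] at hper
          exact hp a ha'.1 hper
      refine (Finset.card_le_card hsub).trans (Finset.card_image_le.trans ?_)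
      rw [Nat.card_Ico]
      omega
  have h3 : F.card = (F.filter (fun a => Per d m r ((T d m r)^[N] a))).card +
      (F.filter (fun a => ¬ Per d m r ((T d m r)^[N] a))).card :=
    (Finset.card_filter_add_card_filter_not _).symm
  have h4 : (F.card : ℝ) = ((F.filter (fun a => Per d m r ((T d m r)^[N] a))).card : ℝ) +
      ((F.filter (fun a => ¬ Per d m r ((T d m r)^[N] a))).card : ℝ) := by
    exact_mod_cast h3
  have h5 : ((F.filter (fun a => Per d m r ((T d m r)^[N] a))).card : ℝ) ≤ N := by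
    exact_mod_cast h2
  linarith

theorem u1 (hd : 2 ≤ d) (hdm : d < m) (hco : Nat.Coprime m d)
    (hm : (m : ℝ) ≤ (d : ℝ) ^ ((d : ℝ) / ((d : ℝ) - 1))) (hr : Admissible d m r) :
    ∃ θ : ℝ, 0 < θ ∧ θ ≤ 1 / 2 ∧ ∀ ε : ℝ, 0 < ε → ∃ y0 : ℕ, ∀ y : ℕ, y0 ≤ y →
      ({a : ℤ | a ∈ Yw y ∧ ∃ n : ℤ, 0 < n ∧ (n : ℝ) < (y : ℝ) ^ θ ∧ n ∈ Pr d m r a}.ncard : ℝ) ≤
        ε * y := by
  classical
  obtain ⟨η, C, hη0, hη1, hC, h⟩ := trans_one hd hdm hco hm hr
  obtain ⟨K, hK0, hK⟩ := tr_lin (d := d) hd hη0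
  obtain ⟨θ, hθ⟩ : ∃ θ : ℝ, θ = min (1 / 2) ((1 - η) / 2) := ⟨_, rfl⟩
  have hθ0 : 0 < θ := by
    rw [hθ]
    exact lt_min (by norm_num) (by linarith)
  have hθ1 : θ ≤ 1 / 2 := by
    rw [hθ]
    exact min_le_left _ _
  have hθ2 : θ ≤ (1 - η) / 2 := by
    rw [hθ]
    exact min_le_right _ _
  refine ⟨θ, hθ0, hθ1, fun ε hε => ?_⟩
  obtain ⟨y0, hy0⟩ := per_few hd hdm hco hm hr (half_pos hε)
  obtain ⟨y1, hy1⟩ := tr_small (K := (C + K) * (d : ℝ) ^ η) (κ := θ + η) (by linarith) (half_pos hε)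
  refine ⟨max (max y0 y1) 2, fun y hy => ?_⟩
  have hy2 : 2 ≤ y := le_trans (le_max_right _ _) hy
  have hyy0 : y0 ≤ y := le_trans (le_trans (le_max_left _ _) (le_max_left _ _)) hy
  have hyy1 : y1 ≤ y := le_trans (le_trans (le_max_right _ _) (le_max_left _ _)) hy
  have hypos : (0 : ℝ) < y := by
    have : 0 < y := by omega
    exact_mod_cast this
  have hp := hy0 y hyy0
  rw [tr_ncard] at hp ⊢
  obtain ⟨M, hM⟩ : ∃ M : ℕ, M = ⌈(y : ℝ) ^ θ⌉₊ := ⟨_, rfl⟩
  have hsub : (Yw y).filter (fun a => ∃ n : ℤ, 0 < n ∧ (n : ℝ) < (y : ℝ) ^ θ ∧ n ∈ Pr d m r a) ⊆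
      (Yw y).filter (Per d m r) ∪ (Finset.Ico 1 M).biUnion (fun n : ℕ =>
        (Yw y).filter (fun a => ¬ Per d m r a ∧ (n : ℤ) ∈ Pr d m r a)) := by
    intro a ha
    obtain ⟨ha1, n, hn0, hn1, hn2⟩ := Finset.mem_filter.1 ha
    rw [Finset.mem_union]
    by_cases hper : Per d m r a
    · exact Or.inl (Finset.mem_filter.2 ⟨ha1, hper⟩)
    · right
      rw [Finset.mem_biUnion]
      obtain ⟨k, rfl⟩ := Int.eq_ofNat_of_zero_le hn0.le
      refine ⟨k, ?_, Finset.mem_filter.2 ⟨ha1, hper, hn2⟩⟩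
      rw [Finset.mem_Ico, hM]
      constructor
      · have : (0 : ℤ) < (k : ℤ) := hn0
        omega
      · rw [Nat.lt_ceil]
        exact_mod_cast hn1
  have hone : ∀ n ∈ Finset.Ico 1 M, (((Yw y).filter (fun a => ¬ Per d m r a ∧
      ((n : ℕ) : ℤ) ∈ Pr d m r a)).card : ℝ) ≤ (C + K) * (d : ℝ) ^ (η * (Nat.clog d y : ℕ)) := by
    intro n _
    have h1 := tr_orbit hd hC h (Nat.clog d y) y n
      ((Yw y).filter (fun a => ¬ Per d m r a ∧ ((n : ℕ) : ℤ) ∈ Pr d m r a))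
      (fun x hx => tr_window hd hy2 (Finset.mem_filter.1 hx).1)
      (fun x hx => (Finset.mem_filter.1 hx).2.2) (fun x hx => (Finset.mem_filter.1 hx).2.1)
    have h2 := hK (Nat.clog d y)
    have h3 : (C + K) * (d : ℝ) ^ (η * (Nat.clog d y : ℕ)) =
      C * (d : ℝ) ^ (η * (Nat.clog d y : ℕ)) + K * (d : ℝ) ^ (η * (Nat.clog d y : ℕ)) := by ring
    rw [h3]
    linarith
  have hM1 : ((Finset.Ico 1 M).card : ℝ) ≤ (y : ℝ) ^ θ := by
    rw [Nat.card_Ico]
    have hpos : (0 : ℝ) < (y : ℝ) ^ θ := by positivity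
    have h1 : (M : ℝ) < (y : ℝ) ^ θ + 1 := by
      rw [hM]
      exact Nat.ceil_lt_add_one hpos.le
    have h2 : 1 ≤ M := by
      rw [hM, Nat.one_le_ceil_iff]
      exact hpos
    rw [Nat.cast_sub h2]
    push_cast
    linarith
  have hbi : (((Finset.Ico 1 M).biUnion (fun n : ℕ =>
        (Yw y).filter (fun a => ¬ Per d m r a ∧ (n : ℤ) ∈ Pr d m r a))).card : ℝ) ≤
      ε / 2 * y := by
    calc (((Finset.Ico 1 M).biUnion (fun n : ℕ =>
        (Yw y).filter (fun a => ¬ Per d m r a ∧ (n : ℤ) ∈ Pr d m r a))).card : ℝ)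
        ≤ ∑ n ∈ Finset.Ico 1 M, (((Yw y).filter (fun a => ¬ Per d m r a ∧
          ((n : ℕ) : ℤ) ∈ Pr d m r a)).card : ℝ) := by exact_mod_cast Finset.card_biUnion_le
      _ ≤ ∑ n ∈ Finset.Ico 1 M, (C + K) * (d : ℝ) ^ (η * (Nat.clog d y : ℕ)) :=
          Finset.sum_le_sum hone
      _ = ((Finset.Ico 1 M).card : ℝ) * ((C + K) * (d : ℝ) ^ (η * (Nat.clog d y : ℕ))) := by
          rw [Finset.sum_const, nsmul_eq_mul]
      _ ≤ (y : ℝ) ^ θ * ((C + K) * ((d : ℝ) ^ η * (y : ℝ) ^ η)) := by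
          apply mul_le_mul hM1 _ (by positivity) (by positivity)
          exact mul_le_mul_of_nonneg_left (tr_pow hd hy2 hη0) (by positivity)
      _ = (C + K) * (d : ℝ) ^ η * (y : ℝ) ^ (θ + η) := by
          rw [Real.rpow_add hypos]
          ring
      _ ≤ ε / 2 * y := hy1 y hyy1
  have hfin := (Finset.card_le_card hsub).trans (Finset.card_union_le _ _)
  have hfin' : (((Yw y).filter (fun a => ∃ n : ℤ, 0 < n ∧ (n : ℝ) < (y : ℝ) ^ θ ∧
      n ∈ Pr d m r a)).card : ℝ) ≤ (((Yw y).filter (Per d m r)).card : ℝ) +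
      (((Finset.Ico 1 M).biUnion (fun n : ℕ =>
        (Yw y).filter (fun a => ¬ Per d m r a ∧ (n : ℤ) ∈ Pr d m r a))).card : ℝ) := by
    exact_mod_cast hfin
  linarith

end Pool.Agent.Helper91.PL
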