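import Pool.Agent.Helper91.PL.QB
import Pool.Agent.Helper91.PL.TR

/-!
# Block PL-BAD: the exceptional points of the window

Let `θ` be as in `u1`, `Y = Yw y`. For `b ∈ QJ θ J y` let `p b = T^[j] b`, where `j` is the least number with
`vis j Y b = J` and `T^[j] b ∈ Y` (it exists: `vis 0 Y b = 0`, `vis (j + 1) Y b = vis j Y b + 1[T^j b ∈ Y]`).
`Bad` is the set of the `a ∈ Y` which are (i) on the orbit of some `n` with `0 < n < y ^ θ`, or
(ii) periodic, or (iii) `a = p b` for some `b ∈ QJ θ J y`. By `u1`, `per_few`, `qb` its cardinality is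
`≤ ε y` if `J ≥ J0` and `y ≥ y0`.
Claim 1: if `a ∈ Y`, `a = T^[j] n` and `J ≤ vis j Y n`, then `a ∈ Bad`. Let `i < j` be the largest number with
`T^[i] n ∈ Y` and `J ≤ #{i' ∈ [i, j) : T^[i'] n ∈ Y}`; then this number is `J`. Put `b = T^[i] n`; then
`vis (j - i) Y b = J`, `T^[j - i] b = a ∈ Y`, and `j - i` is the least number with these properties.
If `T^[l] b ≥ y ^ θ` for all `l ≤ j - i`, then `b ∈ QJ θ J y` and `a = p b`. Otherwise take the last
`l < j - i` with `n' = T^[l] b < y ^ θ`; `T n' ≥ y ^ θ > B₀` implies `n' > 0` (if `n' ≤ 0`, then `T n' ≤ B₀`),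
and `a` is on the orbit of `n'`.
Claim 2: for `B = Y \ Bad`: `hits B n ≤ J` for all `n`. The elements of `B` on the orbit of `n`: `b = T^[t_b] n`
with different times `t_b`; if there are more than `J` of them, the one with the largest time has `J`
visits before it, a contradiction to Claim 1.
Claim 3: if `b ∈ Y \ Bad`, `b = T^[t] n` and `τ ≤ t`, then `T^[τ] n ∈ Rt (y ^ θ) y` (else `b` is on the orbit of
some `0 < n' < y ^ θ`, as above).
-/

set_option autoImplicit false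

namespace Pool.Agent.Helper91.PL

open Pool.Agent.Helper68.Moeller Pool.Agent.Helper52.Tao Pool.Agent.Helper8.ND
  Pool.Agent.Helper8.CL Filter Topology

variable {d m : ℕ} {r : ℤ → ℤ}

/-- For `n ≤ 0` the image is bounded. -/
theorem T_le_of_nonpos97 (hd : 2 ≤ d) (hr : Admissible d m r) {B : ℕ}
    (hB : ∀ j : ℤ, 0 < j → j < (d : ℤ) → |r j| ≤ B) {n : ℤ} (hn : n ≤ 0) : T d m r n ≤ B := by
  have hd0 : (0 : ℤ) < d := by exact_mod_cast (by omega : 0 < d)
  have hB0 : (0 : ℤ) ≤ B := Int.natCast_nonneg B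
  by_cases h : (d : ℤ) ∣ n
  · have h1 : T d m r n = n / d := if_pos h
    rw [h1]
    exact (Int.ediv_nonpos_of_nonpos_of_neg hn hd0).trans hB0
  · have h1 := d_mul_T_of_not_dvd hr hd h
    have h2 := emod_pos hd h
    have h3 := (abs_le.1 (hB _ h2.1 h2.2)).1
    have h4 : (m : ℤ) * n ≤ 0 := mul_nonpos_of_nonneg_of_nonpos (Int.natCast_nonneg m) hn
    by_contra hlt
    push Not at hlt
    have h5 : (d : ℤ) * T d m r n ≤ B := by rw [h1]; linarith
    nlinarith

theorem vis_succ97 (d m : ℕ) (r : ℤ → ℤ) (j : ℕ) (Y : Finset ℤ) (n : ℤ) :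
    vis d m r (j + 1) Y n = (if n ∈ Y then 1 else 0) + vis d m r j Y (T d m r n) := by
  unfold vis
  rw [Finset.card_filter, Finset.card_filter, Finset.sum_range_succ']
  simp only [Function.iterate_zero, id, Function.iterate_succ_apply]
  rw [add_comm]
  congr 1

theorem vis_mono97 (d m : ℕ) (r : ℤ → ℤ) {j j' : ℕ} (h : j ≤ j') (Y : Finset ℤ) (n : ℤ) :
    vis d m r j Y n ≤ vis d m r j' Y n := by
  unfold vis
  apply Finset.card_le_card
  apply Finset.filter_subset_filter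
  exact Finset.range_subset_range.mpr h

theorem vis_succ_last97 (d m : ℕ) (r : ℤ → ℤ) (j : ℕ) (Y : Finset ℤ) (n : ℤ)
    (h : (T d m r)^[j] n ∈ Y) : vis d m r (j + 1) Y n = vis d m r j Y n + 1 := by
  unfold vis
  rw [Finset.range_add_one, Finset.filter_insert, if_pos h, Finset.card_insert_of_notMem]
  simp

/-- The time of the visit number `J` is unique. -/
theorem vis_unique97 {J j j' : ℕ} {Y : Finset ℤ} {b : ℤ} (h1 : vis d m r j Y b = J)
    (h2 : (T d m r)^[j] b ∈ Y) (h1' : vis d m r j' Y b = J) (h2' : (T d m r)^[j'] b ∈ Y) :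
    j = j' := by
  have key : ∀ {j j' : ℕ}, vis d m r j Y b = J → (T d m r)^[j] b ∈ Y → vis d m r j' Y b = J →
      ¬ j < j' := by
    intro j j' h1 h2 h1' hlt
    have h3 := vis_mono97 d m r (show j + 1 ≤ j' from hlt) Y b
    rw [vis_succ_last97 d m r j Y b h2] at h3
    omega
  have a1 := key h1 h2 h1'
  have a2 := key h1' h2' h1
  omega

/-- The last possible starting point with exactly `J` visits. -/
theorem exists_start97 {J : ℕ} (hJ : 1 ≤ J) (Y : Finset ℤ) (j : ℕ) : ∀ n : ℤ,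
    J ≤ vis d m r j Y n → ∃ i : ℕ, i < j ∧ (T d m r)^[i] n ∈ Y ∧
      vis d m r (j - i) Y ((T d m r)^[i] n) = J := by
  induction j with
  | zero =>
    intro n hn
    have : vis d m r 0 Y n = 0 := by unfold vis; simp
    omega
  | succ j ih =>
    intro n hn
    by_cases h : J ≤ vis d m r j Y (T d m r n)
    · obtain ⟨i, hi, h1, h2⟩ := ih _ h
      refine ⟨i + 1, by omega, ?_, ?_⟩
      · rw [Function.iterate_succ_apply]; exact h1
      · rw [Function.iterate_succ_apply, show j + 1 - (i + 1) = j - i by omega]; exact h2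
    · rw [vis_succ97] at hn
      have hnY : n ∈ Y := by
        by_contra hc
        rw [if_neg hc] at hn
        omega
      rw [if_pos hnY] at hn
      refine ⟨0, by omega, by simpa using hnY, ?_⟩
      rw [Function.iterate_zero, id, Nat.sub_zero, vis_succ97, if_pos hnY]
      omega

/-- An orbit from below `z` to `a ≥ z` passes a positive integer below `z`. -/
theorem from_below97 {z : ℝ} (hTz : ∀ n : ℤ, n ≤ 0 → (T d m r n : ℝ) < z) {a : ℤ}
    (ha : z ≤ (a : ℝ)) (t : ℕ) : ∀ x : ℤ, (T d m r)^[t] x = a →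
    (∃ l : ℕ, l ≤ t ∧ ((T d m r)^[l] x : ℝ) < z) →
      ∃ n : ℤ, 0 < n ∧ (n : ℝ) < z ∧ n ∈ Pr d m r a := by
  induction t with
  | zero =>
    rintro x hx ⟨l, hl, hlz⟩
    obtain rfl : l = 0 := by omega
    rw [hx] at hlz
    linarith
  | succ t ih =>
    rintro x hx ⟨l, hl, hlz⟩
    by_cases h : ∃ l : ℕ, l ≤ t ∧ ((T d m r)^[l] (T d m r x) : ℝ) < z
    · exact ih (T d m r x) (by rwa [Function.iterate_succ_apply] at hx) h
    · push Not at h
      have hl0 : l = 0 := by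
        by_contra hne
        obtain ⟨l', rfl⟩ : ∃ l', l = l' + 1 := ⟨l - 1, by omega⟩
        rw [Function.iterate_succ_apply] at hlz
        exact absurd hlz (not_lt.mpr (h l' (by omega)))
      subst hl0
      rw [Function.iterate_zero, id] at hlz
      refine ⟨x, ?_, hlz, ⟨t + 1, hx⟩⟩
      by_contra hneg
      push Not at hneg
      have h1 := hTz x hneg
      have h2 := h 0 (Nat.zero_le _)
      rw [Function.iterate_zero, id] at h2
      linarith

theorem bad (hd : 2 ≤ d) (hdm : d < m) (hco : Nat.Coprime m d)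
    (hm : (m : ℝ) ≤ (d : ℝ) ^ ((d : ℝ) / ((d : ℝ) - 1))) (hr : Admissible d m r)
    (hg : 0 < gam d m) (hmix : Mixing d m r) :
    ∃ θ : ℝ, 0 < θ ∧ θ ≤ 1 / 2 ∧ ∀ ε : ℝ, 0 < ε → ∃ J : ℕ, 1 ≤ J ∧ ∃ y0 : ℕ, ∀ y : ℕ, y0 ≤ y →
      ∃ Bad : Finset ℤ, Bad ⊆ Yw y ∧ (Bad.card : ℝ) ≤ ε * y ∧
        (∀ b ∈ Yw y \ Bad, ¬ Per d m r b) ∧
        (∀ n : ℤ, hits d m r (Yw y \ Bad) n ≤ J) ∧
        (∀ b ∈ Yw y \ Bad, ∀ (n : ℤ) (τ t : ℕ), τ ≤ t → (T d m r)^[t] n = b →
          (T d m r)^[τ] n ∈ Rt d m r ((y : ℝ) ^ θ) y) := by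
  classical
  obtain ⟨θ, hθ, hθ2, hu1⟩ := u1 hd hdm hco hm hr
  obtain ⟨C, hC, hqb⟩ := qb hd hdm hco hr hg hmix
  obtain ⟨B, hB⟩ := FL_exists_B d r
  refine ⟨θ, hθ, hθ2, fun ε hε => ?_⟩
  -- the number J
  set J : ℕ := ⌈4 * C / ε⌉₊ + 1 with hJdef
  have hJ1 : 1 ≤ J := by omega
  have hJr : (1 : ℝ) ≤ J := by exact_mod_cast hJ1
  have hCJ : C / J ≤ ε / 4 := by
    have h1 : 4 * C / ε ≤ J := by
      have := Nat.le_ceil (4 * C / ε)
      rw [hJdef]; push_cast; linarith
    rw [div_le_iff₀ hε] at h1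
    rw [div_le_iff₀ (by linarith)]
    linarith
  obtain ⟨y1, hy1⟩ := hu1 (ε / 4) (by linarith)
  obtain ⟨y2, hy2⟩ := per_few hd hdm hco hm hr (ε := ε / 4) (by linarith)
  obtain ⟨y3, hy3⟩ := hqb θ hθ hθ2 J hJ1 (ε / 4) (by linarith)
  have hev : ∀ᶠ y : ℕ in atTop, (B : ℝ) < (y : ℝ) ^ θ :=
    ((tendsto_rpow_atTop hθ).comp tendsto_natCast_atTop_atTop).eventually_gt_atTop _
  obtain ⟨y4, hy4⟩ := Filter.eventually_atTop.mp hev
  refine ⟨J, hJ1, y1 + y2 + y3 + y4 + 1, fun y hy => ?_⟩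
  have hyr : (1 : ℝ) ≤ y := by exact_mod_cast (by omega : 1 ≤ y)
  have hzB := hy4 y (by omega)
  have hu := hy1 y (by omega)
  have hp := hy2 y (by omega)
  have hq := hy3 y (by omega)
  set z : ℝ := (y : ℝ) ^ θ with hz
  have hzy : z ≤ y := by
    calc z ≤ (y : ℝ) ^ (1 : ℝ) := Real.rpow_le_rpow_of_exponent_le hyr (by linarith)
      _ = y := Real.rpow_one _
  have hTz : ∀ n : ℤ, n ≤ 0 → (T d m r n : ℝ) < z := by
    intro n hn
    have h1 := T_le_of_nonpos97 (m := m) hd hr hB hn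
    have h2 : (T d m r n : ℝ) ≤ B := by exact_mod_cast h1
    linarith
  have hYge : ∀ a ∈ Yw y, (y : ℝ) ≤ (a : ℝ) := by
    intro a ha
    have := (Finset.mem_Ico.1 ha).1
    exact_mod_cast this
  -- the three sets
  set P1 : ℤ → Prop := fun a => ∃ n : ℤ, 0 < n ∧ (n : ℝ) < z ∧ n ∈ Pr d m r a with hP1
  set P3 : ℤ → Prop := fun a => ∃ b ∈ QJ d m r θ J y, ∃ j : ℕ, vis d m r j (Yw y) b = J ∧
    (T d m r)^[j] b = a with hP3
  set Bad : Finset ℤ := (Yw y).filter (fun a => P1 a ∨ Per d m r a ∨ P3 a) with hBad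
  have hBY : Bad ⊆ Yw y := Finset.filter_subset _ _
  have hnot : ∀ b ∈ Yw y \ Bad, b ∈ Yw y ∧ ¬ P1 b ∧ ¬ Per d m r b ∧ ¬ P3 b := by
    intro b hb
    rw [Finset.mem_sdiff, hBad, Finset.mem_filter] at hb
    refine ⟨hb.1, ?_, ?_, ?_⟩
    · intro h; exact hb.2 ⟨hb.1, Or.inl h⟩
    · intro h; exact hb.2 ⟨hb.1, Or.inr (Or.inl h)⟩
    · intro h; exact hb.2 ⟨hb.1, Or.inr (Or.inr h)⟩
  -- Claim 1
  have claim1 : ∀ (a n : ℤ) (j : ℕ), a ∈ Yw y → (T d m r)^[j] n = a → J ≤ vis d m r j (Yw y) n →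
      P1 a ∨ P3 a := by
    intro a n j ha hja hJj
    obtain ⟨i, hi, hiY, hvis⟩ := exists_start97 hJ1 (Yw y) j n hJj
    set b := (T d m r)^[i] n with hb
    have hba : (T d m r)^[j - i] b = a := by
      rw [hb, ← Function.iterate_add_apply, Nat.sub_add_cancel hi.le, hja]
    by_cases h : ∀ l : ℕ, l ≤ j - i → z ≤ ((T d m r)^[l] b : ℝ)
    · right
      refine ⟨b, ⟨hiY, j - i, hvis.ge, by rw [hba]; exact ha, h⟩, j - i, hvis, hba⟩
    · left
      push Not at h
      exact from_below97 hTz (hzy.trans (hYge a ha)) (j - i) b hba h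
  refine ⟨Bad, hBY, ?_, ?_, ?_, ?_⟩
  · -- cardinality
    have hYfin : (↑(Yw y) : Set ℤ).Finite := (Yw y).finite_toSet
    set S1 : Set ℤ := {a : ℤ | a ∈ Yw y ∧ ∃ n : ℤ, 0 < n ∧ (n : ℝ) < z ∧ n ∈ Pr d m r a} with hS1
    set S2 : Set ℤ := {a : ℤ | a ∈ Yw y ∧ Per d m r a} with hS2
    set S3 : Set ℤ := {a : ℤ | a ∈ Yw y ∧ P3 a} with hS3
    have hfin1 : S1.Finite := hYfin.subset (fun a ha => ha.1)
    have hfin2 : S2.Finite := hYfin.subset (fun a ha => ha.1)
    have hfinQ : (QJ d m r θ J y).Finite := hYfin.subset (fun a ha => ha.1)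
    -- the map p
    set p : ℤ → ℤ := fun b => if h : ∃ j : ℕ, vis d m r j (Yw y) b = J ∧ (T d m r)^[j] b ∈ Yw y
      then (T d m r)^[h.choose] b else 0 with hpdef
    have hS3p : S3 ⊆ p '' (QJ d m r θ J y) := by
      rintro a ⟨haY, b, hbQ, j, hj1, hj2⟩
      refine ⟨b, hbQ, ?_⟩
      have hex : ∃ j : ℕ, vis d m r j (Yw y) b = J ∧ (T d m r)^[j] b ∈ Yw y :=
        ⟨j, hj1, by rw [hj2]; exact haY⟩
      have hch := hex.choose_spec
      have heq : hex.choose = j :=
        vis_unique97 hch.1 hch.2 hj1 (by rw [hj2]; exact haY)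
      simp only [hpdef]
      rw [dif_pos hex, heq, hj2]
    have hS3card : S3.ncard ≤ (QJ d m r θ J y).ncard :=
      (Set.ncard_le_ncard hS3p (hfinQ.image p)).trans (Set.ncard_image_le hfinQ)
    have hBadset : (↑Bad : Set ℤ) ⊆ S1 ∪ S2 ∪ S3 := by
      intro a ha
      have ha' := Finset.mem_filter.1 (Finset.mem_coe.1 ha)
      rcases ha'.2 with h | h | h
      · exact Or.inl (Or.inl ⟨ha'.1, h⟩)
      · exact Or.inl (Or.inr ⟨ha'.1, h⟩)
      · exact Or.inr ⟨ha'.1, h⟩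
    have hfin3 : S3.Finite := hYfin.subset (fun a ha => ha.1)
    have hcard : Bad.card ≤ S1.ncard + S2.ncard + S3.ncard := by
      rw [← Set.ncard_coe_finset]
      calc (↑Bad : Set ℤ).ncard ≤ (S1 ∪ S2 ∪ S3).ncard :=
            Set.ncard_le_ncard hBadset ((hfin1.union hfin2).union hfin3)
        _ ≤ (S1 ∪ S2).ncard + S3.ncard := Set.ncard_union_le _ _
        _ ≤ S1.ncard + S2.ncard + S3.ncard := Nat.add_le_add_right (Set.ncard_union_le _ _) _
    have hcard' : (Bad.card : ℝ) ≤ S1.ncard + S2.ncard + (QJ d m r θ J y).ncard := by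
      exact_mod_cast hcard.trans (Nat.add_le_add_left hS3card _)
    have hq' : ((QJ d m r θ J y).ncard : ℝ) ≤ (ε / 4 + ε / 4) * y :=
      hq.trans (mul_le_mul_of_nonneg_right (by linarith) (by linarith))
    linarith
  · intro b hb
    exact (hnot b hb).2.2.1
  · -- Claim 2
    intro n
    by_contra hlt
    push Not at hlt
    unfold hits at hlt
    set H := (Yw y \ Bad).filter (fun b => n ∈ Pr d m r b) with hH
    have hex : ∀ b : ℤ, b ∈ H → ∃ t : ℕ, (T d m r)^[t] n = b := by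
      intro b hb
      exact (Finset.mem_filter.1 hb).2
    choose! τ hτ using hex
    have hinj : Set.InjOn τ (↑H : Set ℤ) := by
      intro a ha b hb hab
      rw [← hτ a (Finset.mem_coe.1 ha), ← hτ b (Finset.mem_coe.1 hb), hab]
    set S := H.image τ with hS
    have hScard : S.card = H.card := Finset.card_image_of_injOn hinj
    have hSne : S.Nonempty := by
      rw [← Finset.card_pos]; omega
    set M := S.max' hSne with hM
    have hMS : M ∈ S := S.max'_mem hSne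
    obtain ⟨b, hbH, hbM⟩ := Finset.mem_image.1 hMS
    have hbB := (Finset.mem_filter.1 hbH).1
    have hbn := hnot b hbB
    have hvis : J ≤ vis d m r M (Yw y) n := by
      have h1 : S.erase M ⊆ (Finset.range M).filter (fun t => (T d m r)^[t] n ∈ Yw y) := by
        intro t ht
        have ht1 := Finset.mem_erase.1 ht
        have ht2 := S.le_max' t ht1.2
        obtain ⟨b', hb'H, hb't⟩ := Finset.mem_image.1 ht1.2
        rw [Finset.mem_filter, Finset.mem_range]
        refine ⟨lt_of_le_of_ne ht2 ht1.1, ?_⟩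
        rw [← hb't, hτ b' hb'H]
        exact (Finset.mem_sdiff.1 (Finset.mem_filter.1 hb'H).1).1
      have h2 := Finset.card_le_card h1
      rw [Finset.card_erase_of_mem hMS] at h2
      unfold vis
      omega
    have hbT : (T d m r)^[M] n = b := by rw [← hbM]; exact hτ b hbH
    rcases claim1 b n M hbn.1 hbT hvis with h | h
    · exact hbn.2.1 h
    · exact hbn.2.2.2 h
  · -- Claim 3
    intro b hb n τ t hτt htb
    have hbn := hnot b hb
    have hb2 : (T d m r)^[t - τ] ((T d m r)^[τ] n) = b := by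
      rw [← Function.iterate_add_apply, Nat.sub_add_cancel hτt, htb]
    refine ⟨t - τ, by rw [hb2]; exact hYge b hbn.1, ?_⟩
    by_contra h
    push Not at h
    exact hbn.2.1 (from_below97 hTz (hzy.trans (hYge b hbn.1)) (t - τ) _ hb2 h)

end Pool.Agent.Helper91.PL
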