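import Pool.Agent.Helper91.PL.Defs
import Pool.Agent.Helper8.ND.Density

/-!
# Block PL-FD: the limit distribution (abstract)

`c a` plays the role of the density, `f k` is periodic modulo `m ^ k`, non-negative with mean `1`, and
`|g a c a - f k a| ≤ ε` for all `a ≤ x` but `ε x` (`k ≥ k0(ε)`, `x ≥ X(ε, k)`). Let `φ` be continuous, `|φ| ≤ M`,
`μ_k = (∑_{b < m^k} φ (f k b / g)) / m ^ k`, `A(x) = (∑_{1 ≤ a ≤ x} φ (a c a)) / x`.
Claim: for every `η > 0` there is `k1` such that for all `k ≥ k1` there is `X` with `|A(x) - μ_k| ≤ η` for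
`x ≥ X`. Then `A` is Cauchy at infinity, has a limit `L`, and `|μ_k - L| ≤ η` for `k ≥ k1`, so `μ_k → L`.
Proof of the claim: choose `R` with `2 M * 2 / (g R) ≤ η / 8`; `φ` is uniformly continuous on `[-1, R + 1]`: let
`0 < κ ≤ 1` belong to `η / 8`; apply the hypothesis with `ε = min (g κ) (η / (16 (M + 1)))`. For `a ≤ x` with
`|g a c a - f k a| ≤ ε` and `f k a / g ≤ R` the values `φ (a c a)`, `φ (f k a / g)` differ by `≤ η / 8`. The
number of the `a ≤ x` with `f k a / g > R` is `≤ (x / m ^ k + 1) m ^ k / (g R) ≤ 2 x / (g R)` for `x ≥ m ^ k`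
(Markov, mean `1`). Finally `(∑_{1 ≤ a ≤ x} φ (f k a / g)) / x → μ_k` as `x → ∞` (periodic function; see
`MX2.sum_periodic`, Helper52/Tao/MX2).
-/

set_option autoImplicit false

namespace Pool.Agent.Helper91.PL

open Pool.Agent.Helper8.ND Filter Topology

theorem fd_sum_periodic {M : ℕ} (f : ℕ → ℝ) (hf : ∀ X, f (X + M) = f X) (L : ℕ) :
    ∑ X ∈ Finset.range (M * L), f X = L * ∑ X ∈ Finset.range M, f X := by
  induction L with
  | zero => simp
  | succ L ih =>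
    rw [Nat.mul_succ, Finset.sum_range_add, ih]
    have h : ∀ X, f (M * L + X) = f X := by
      intro X
      clear ih
      induction L with
      | zero => simp
      | succ L ih => rw [Nat.mul_succ, show M * L + M + X = (M * L + X) + M by ring, hf, ih]
    simp only [h]
    push_cast
    ring

theorem fd_shift {P : ℕ} {h : ℕ → ℝ} (hp : ∀ n, h (n + P) = h n) :
    ∑ i ∈ Finset.range P, h (i + 1) = ∑ i ∈ Finset.range P, h i := by
  have h1 := Finset.sum_range_succ h P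
  have h2 := Finset.sum_range_succ' h P
  have h3 : h P = h 0 := by simpa using hp 0
  linarith

theorem fd_Icc (h : ℕ → ℝ) (N : ℕ) :
    ∑ a ∈ Finset.Icc 1 N, h a = ∑ i ∈ Finset.range N, h (i + 1) := by
  induction N with
  | zero => simp
  | succ N ih => rw [Finset.sum_Icc_succ_top (by omega), ih, Finset.sum_range_succ]

theorem fd_split {P : ℕ} {h : ℕ → ℝ} (hp : ∀ n, h (n + P) = h n) (N : ℕ) :
    ∑ a ∈ Finset.Icc 1 N, h a = ((N / P : ℕ) : ℝ) * ∑ b ∈ Finset.range P, h b +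
      ∑ x ∈ Finset.range (N % P), h (P * (N / P) + x + 1) := by
  rw [fd_Icc]
  conv_lhs => rw [← Nat.div_add_mod N P]
  rw [Finset.sum_range_add, fd_sum_periodic (fun i => h (i + 1)) (fun X => by
    have := hp (X + 1)
    rw [show X + P + 1 = X + 1 + P by ring]
    exact this), fd_shift hp]

theorem fd_per {P : ℕ} (hP : 0 < P) {h : ℕ → ℝ} (hp : ∀ n, h (n + P) = h n) {B : ℝ}
    (hB : ∀ n, |h n| ≤ B) (N : ℕ) :
    |∑ a ∈ Finset.Icc 1 N, h a - ((N / P : ℕ) : ℝ) * ∑ b ∈ Finset.range P, h b| ≤ P * B := by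
  rw [fd_split hp, add_sub_cancel_left]
  have hB0 : 0 ≤ B := (abs_nonneg _).trans (hB 0)
  refine (Finset.abs_sum_le_sum_abs _ _).trans ?_
  refine (Finset.sum_le_sum fun x _ => hB _).trans ?_
  rw [Finset.sum_const, Finset.card_range, nsmul_eq_mul]
  have : ((N % P : ℕ) : ℝ) ≤ P := by exact_mod_cast (Nat.mod_lt N hP).le
  exact mul_le_mul_of_nonneg_right this hB0

theorem fd_per_le {P : ℕ} (hP : 0 < P) {h : ℕ → ℝ} (hp : ∀ n, h (n + P) = h n)
    (h0 : ∀ n, 0 ≤ h n) (hm : ∑ b ∈ Finset.range P, h b = P) (N : ℕ) :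
    ∑ a ∈ Finset.Icc 1 N, h a ≤ N + P := by
  rw [fd_split hp, hm]
  have h1 : ∑ x ∈ Finset.range (N % P), h (P * (N / P) + x + 1) ≤
      ∑ x ∈ Finset.range P, h (P * (N / P) + x + 1) :=
    Finset.sum_le_sum_of_subset_of_nonneg (Finset.range_mono (Nat.mod_lt N hP).le)
      (fun _ _ _ => h0 _)
  have h2 : ∀ L X, h (P * L + X) = h X := by
    intro L X
    induction L with
    | zero => simp
    | succ L ih => rw [Nat.mul_succ, show P * L + P + X = (P * L + X) + P by ring, hp, ih]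
  have h3 : ∑ x ∈ Finset.range P, h (P * (N / P) + x + 1) = P := by
    rw [← hm, ← fd_shift hp]
    refine Finset.sum_congr rfl fun x _ => ?_
    rw [add_assoc, h2]
  have h4 : (((N / P : ℕ) : ℝ)) * P ≤ N := by exact_mod_cast Nat.div_mul_le_self N P
  linarith

theorem fd_key {m : ℕ} (hm : 1 ≤ m) {g : ℝ} (hg : 0 < g) {c : ℤ → ℝ} {f : ℕ → ℤ → ℝ}
    (hf0 : ∀ k b, 0 ≤ f k b) (hper : ∀ k b b', (m : ℤ) ^ k ∣ b - b' → f k b = f k b')
    (hmean : ∀ k, ∑ b ∈ Finset.range (m ^ k), f k b = (m : ℝ) ^ k)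
    (hlaw : ∀ ε : ℝ, 0 < ε → ∃ k0 : ℕ, ∀ k : ℕ, k0 ≤ k → ∃ X : ℝ, ∀ x : ℝ, X ≤ x →
      cN {a : ℤ | ε < |g * a * c a - f k a|} x ≤ ε * x)
    {φ : ℝ → ℝ} (hφ : Continuous φ) {M : ℝ} (hM : ∀ s, |φ s| ≤ M) {η : ℝ} (hη : 0 < η) :
    ∃ k1 : ℕ, ∀ k : ℕ, k1 ≤ k → ∃ X : ℝ, ∀ x : ℝ, X ≤ x →
      |(∑ a ∈ Finset.Icc 1 ⌊x⌋₊, φ (a * c a)) / x -
        (∑ b ∈ Finset.range (m ^ k), φ (f k b / g)) / (m : ℝ) ^ k| ≤ η := by
  have hM0 : 0 ≤ M := (abs_nonneg _).trans (hM 0)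
  obtain ⟨R, hR⟩ : ∃ R : ℝ, R = 32 * (M + 1) / (g * η) := ⟨_, rfl⟩
  have hR0 : 0 < R := by rw [hR]; positivity
  obtain ⟨δ, hδ, huc⟩ := Metric.uniformContinuousOn_iff.1
    ((isCompact_Icc (a := (-1 : ℝ)) (b := R + 1)).uniformContinuousOn_of_continuous
      hφ.continuousOn) (η / 8) (by positivity)
  obtain ⟨κ, hκ⟩ : ∃ κ : ℝ, κ = min 1 (δ / 2) := ⟨_, rfl⟩
  have hκ0 : 0 < κ := by rw [hκ]; exact lt_min one_pos (by positivity)
  have hκ1 : κ ≤ 1 := by rw [hκ]; exact min_le_left _ _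
  have hκδ : κ < δ := by
    have : κ ≤ δ / 2 := by rw [hκ]; exact min_le_right _ _
    linarith
  obtain ⟨ε, hε⟩ : ∃ ε : ℝ, ε = min (g * κ) (η / (16 * (M + 1))) := ⟨_, rfl⟩
  have hε0 : 0 < ε := by rw [hε]; exact lt_min (by positivity) (by positivity)
  have hεg : ε ≤ g * κ := by rw [hε]; exact min_le_left _ _
  have hεη : ε ≤ η / (16 * (M + 1)) := by rw [hε]; exact min_le_right _ _
  obtain ⟨k1, hk1⟩ := hlaw ε hε0
  refine ⟨k1, fun k hk => ?_⟩
  obtain ⟨X0, hX0⟩ := hk1 k hk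
  obtain ⟨P, hP⟩ : ∃ P : ℕ, P = m ^ k := ⟨_, rfl⟩
  have hP0 : 0 < P := by rw [hP]; positivity
  have hPr : (0 : ℝ) < P := by exact_mod_cast hP0
  have hPc : (m : ℝ) ^ k = P := by rw [hP]; push_cast; rfl
  have hfp : ∀ n : ℕ, f k ((n + P : ℕ) : ℤ) = f k (n : ℤ) := by
    intro n
    refine hper k _ _ ?_
    rw [hP]
    push_cast
    rw [add_sub_cancel_left]
  refine ⟨max X0 (max P (8 * ((2 * P + 1) * (M + 1)) / η)), fun x hx => ?_⟩
  have hx0 : X0 ≤ x := (le_max_left _ _).trans hx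
  have hx1 : (P : ℝ) ≤ x := ((le_max_left _ _).trans (le_max_right _ _)).trans hx
  have hx2 : 8 * ((2 * P + 1) * (M + 1)) / η ≤ x :=
    ((le_max_right _ _).trans (le_max_right _ _)).trans hx
  have hxp : 0 < x := hPr.trans_le hx1
  obtain ⟨N, hN⟩ : ∃ N : ℕ, N = ⌊x⌋₊ := ⟨_, rfl⟩
  have hN1 : (N : ℝ) ≤ x := by rw [hN]; exact Nat.floor_le hxp.le
  have hN2 : x < N + 1 := by rw [hN]; exact Nat.lt_floor_add_one x
  rw [← hN, hPc, ← hP]
  -- the bad set
  classical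
  obtain ⟨bad, hbad⟩ : ∃ bad : Finset ℕ, bad = (Finset.Icc 1 N).filter
    (fun a : ℕ => ε < |g * ((a : ℤ) : ℝ) * c a - f k a|) := ⟨_, rfl⟩
  have hcard : (bad.card : ℝ) ≤ ε * x := by
    refine le_trans ?_ (hX0 x hx0)
    unfold cN
    have h1 : ((bad.image (fun a : ℕ => (a : ℤ)) : Finset ℤ) : Set ℤ) ⊆
        {n : ℤ | n ∈ {a : ℤ | ε < |g * a * c a - f k a|} ∧ 0 < n ∧ (n : ℝ) ≤ x} := by
      intro n hn
      rw [Finset.mem_coe, Finset.mem_image] at hn
      obtain ⟨a, ha, rfl⟩ := hn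
      rw [hbad, Finset.mem_filter, Finset.mem_Icc] at ha
      obtain ⟨⟨a1, a2⟩, a3⟩ := ha
      refine ⟨a3, by exact_mod_cast a1, ?_⟩
      have : (a : ℝ) ≤ N := by exact_mod_cast a2
      push_cast
      linarith
    have h2 := Set.ncard_le_ncard h1 (finite_cN _ x)
    rw [Set.ncard_coe_finset, Finset.card_image_of_injective _ Nat.cast_injective] at h2
    exact_mod_cast h2
  -- pointwise comparison
  have hpt : ∀ a ∈ Finset.Icc 1 N, |φ (a * c a) - φ (f k a / g)| ≤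
      η / 8 + (if a ∈ bad then 2 * M else 0) + 2 * M / (g * R) * f k a := by
    intro a ha
    have hb2 : |φ (a * c a) - φ (f k a / g)| ≤ 2 * M := by
      refine (abs_sub _ _).trans ?_
      linarith [hM (a * c a), hM (f k a / g)]
    have hpos : 0 ≤ 2 * M / (g * R) * f k a := mul_nonneg (by positivity) (hf0 _ _)
    by_cases h1 : a ∈ bad
    · rw [if_pos h1]
      linarith
    rw [if_neg h1]
    by_cases h2 : f k a / g ≤ R
    · have h3 : |g * (a : ℝ) * c a - f k a| ≤ ε := by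
        by_contra hc
        push Not at hc
        apply h1
        rw [hbad, Finset.mem_filter]
        exact ⟨ha, by simpa using hc⟩
      have h4 : |(a : ℝ) * c a - f k a / g| ≤ κ := by
        have : (a : ℝ) * c a - f k a / g = (g * (a : ℝ) * c a - f k a) / g := by
          field_simp
        rw [this, abs_div, abs_of_pos hg, div_le_iff₀ hg]
        linarith
      have h5 := abs_le.1 h4
      have h6 : 0 ≤ f k a / g := div_nonneg (hf0 _ _) hg.le
      have h7 := huc (a * c a) ⟨by linarith [h5.1], by linarith [h5.2]⟩ (f k a / g)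
        ⟨by linarith, by linarith⟩ (by rw [Real.dist_eq]; linarith)
      rw [Real.dist_eq] at h7
      linarith
    · push Not at h2
      have h3 : 2 * M ≤ 2 * M / (g * R) * f k a := by
        rw [div_mul_eq_mul_div, le_div_iff₀ (by positivity)]
        refine mul_le_mul_of_nonneg_left ?_ (by positivity)
        rw [lt_div_iff₀ hg] at h2
        linarith
      linarith
  -- the sum of the differences
  have hS1 : |∑ a ∈ Finset.Icc 1 N, φ (a * c a) - ∑ a ∈ Finset.Icc 1 N, φ (f k a / g)| ≤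
      3 * (η / 8) * x := by
    rw [← Finset.sum_sub_distrib]
    refine (Finset.abs_sum_le_sum_abs _ _).trans ((Finset.sum_le_sum hpt).trans ?_)
    rw [Finset.sum_add_distrib, Finset.sum_add_distrib, ← Finset.mul_sum, Finset.sum_const,
      Nat.card_Icc, Nat.add_sub_cancel, nsmul_eq_mul, ← Finset.sum_filter, Finset.sum_const,
      nsmul_eq_mul]
    have h1 : (N : ℝ) * (η / 8) ≤ x * (η / 8) := mul_le_mul_of_nonneg_right hN1 (by positivity)
    have h2 : (((Finset.Icc 1 N).filter (fun a => a ∈ bad)).card : ℝ) * (2 * M) ≤ η / 8 * x := by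
      have h3 : ((Finset.Icc 1 N).filter (fun a => a ∈ bad)).card ≤ bad.card :=
        Finset.card_le_card fun a ha => (Finset.mem_filter.1 ha).2
      have h4 : (((Finset.Icc 1 N).filter (fun a => a ∈ bad)).card : ℝ) ≤ ε * x :=
        le_trans (by exact_mod_cast h3) hcard
      calc (((Finset.Icc 1 N).filter (fun a => a ∈ bad)).card : ℝ) * (2 * M) ≤ ε * x * (2 * M) :=
            mul_le_mul_of_nonneg_right h4 (by positivity)
        _ ≤ η / (16 * (M + 1)) * x * (2 * (M + 1)) := by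
            refine mul_le_mul ?_ (by linarith) (by positivity) (by positivity)
            exact mul_le_mul_of_nonneg_right hεη hxp.le
        _ = η / 8 * x := by
            field_simp
            ring
    have h5 := fd_per_le hP0 (h := fun n : ℕ => f k (n : ℤ)) hfp (fun n => hf0 _ _)
      (by rw [hP]; rw [hmean k]; push_cast; rfl) N
    have h6 : 2 * M / (g * R) * ∑ a ∈ Finset.Icc 1 N, f k (a : ℤ) ≤ η / 8 * x := by
      have h7 : ∑ a ∈ Finset.Icc 1 N, f k (a : ℤ) ≤ 2 * x := by linarith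
      calc 2 * M / (g * R) * ∑ a ∈ Finset.Icc 1 N, f k (a : ℤ) ≤ 2 * M / (g * R) * (2 * x) :=
            mul_le_mul_of_nonneg_left h7 (by positivity)
        _ ≤ 2 * (M + 1) / (g * R) * (2 * x) := by
            refine mul_le_mul_of_nonneg_right ?_ (by positivity)
            refine div_le_div_of_nonneg_right ?_ (by positivity)
            linarith
        _ = η / 8 * x := by
            rw [hR]
            field_simp
            ring
    linarith
  -- the periodic sum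
  obtain ⟨S, hS⟩ : ∃ S : ℝ, S = ∑ b ∈ Finset.range P, φ (f k (b : ℤ) / g) := ⟨_, rfl⟩
  have hSM : |S| ≤ P * M := by
    rw [hS]
    refine (Finset.abs_sum_le_sum_abs _ _).trans ((Finset.sum_le_sum fun _ _ => hM _).trans ?_)
    rw [Finset.sum_const, Finset.card_range, nsmul_eq_mul]
  have hS2 := fd_per hP0 (h := fun n : ℕ => φ (f k (n : ℤ) / g))
    (fun n => by simp only [hfp]) (fun n => hM _) N
  simp only [← hS] at hS2
  have hS3 : |∑ a ∈ Finset.Icc 1 N, φ (f k (a : ℤ) / g) - x * (S / P)| ≤ (2 * P + 1) * M := by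
    have h1 : |((N / P : ℕ) : ℝ) * S - x * (S / P)| ≤ (P + 1) * M := by
      have h2 : ((N / P : ℕ) : ℝ) * S - x * (S / P) = (((N / P : ℕ) : ℝ) * P - x) * (S / P) := by
        field_simp
      rw [h2, abs_mul]
      have h3 : |((N / P : ℕ) : ℝ) * P - x| ≤ P + 1 := by
        have h4 : (P : ℝ) * ((N / P : ℕ) : ℝ) + ((N % P : ℕ) : ℝ) = N := by
          exact_mod_cast Nat.div_add_mod N P
        have h5 : ((N % P : ℕ) : ℝ) ≤ P := by exact_mod_cast (Nat.mod_lt N hP0).le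
        have h6 : (0 : ℝ) ≤ ((N % P : ℕ) : ℝ) := Nat.cast_nonneg _
        rw [abs_le]
        constructor <;> linarith
      have h4 : |S / P| ≤ M := by
        rw [abs_div, abs_of_pos hPr, div_le_iff₀ hPr]
        linarith
      exact mul_le_mul h3 h4 (abs_nonneg _) (by positivity)
    have h2 := abs_add_le (∑ a ∈ Finset.Icc 1 N, φ (f k (a : ℤ) / g) - ((N / P : ℕ) : ℝ) * S)
      (((N / P : ℕ) : ℝ) * S - x * (S / P))
    rw [sub_add_sub_cancel] at h2
    linarith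
  have hS4 : (2 * P + 1) * M ≤ η / 8 * x := by
    rw [div_le_iff₀ hη] at hx2
    have : (2 * (P : ℝ) + 1) * M ≤ (2 * P + 1) * (M + 1) :=
      mul_le_mul_of_nonneg_left (by linarith) (by positivity)
    linarith
  rw [← hS]
  have hfin : |∑ a ∈ Finset.Icc 1 N, φ (a * c a) - x * (S / P)| ≤ η * x := by
    have h2 := abs_add_le (∑ a ∈ Finset.Icc 1 N, φ (a * c a) - ∑ a ∈ Finset.Icc 1 N, φ (f k a / g))
      (∑ a ∈ Finset.Icc 1 N, φ (f k (a : ℤ) / g) - x * (S / P))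
    rw [sub_add_sub_cancel] at h2
    have h3 : 0 < η * x := by positivity
    linarith
  have h8 : (∑ a ∈ Finset.Icc 1 N, φ (a * c a)) / x - S / P =
      (∑ a ∈ Finset.Icc 1 N, φ (a * c a) - x * (S / P)) / x := by
    field_simp
  rw [h8, abs_div, abs_of_pos hxp, div_le_iff₀ hxp]
  exact hfin

theorem limit_law {m : ℕ} (hm : 1 ≤ m) {g : ℝ} (hg : 0 < g) {c : ℤ → ℝ} {f : ℕ → ℤ → ℝ}
    (hf0 : ∀ k b, 0 ≤ f k b) (hper : ∀ k b b', (m : ℤ) ^ k ∣ b - b' → f k b = f k b')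
    (hmean : ∀ k, ∑ b ∈ Finset.range (m ^ k), f k b = (m : ℝ) ^ k)
    (hlaw : ∀ ε : ℝ, 0 < ε → ∃ k0 : ℕ, ∀ k : ℕ, k0 ≤ k → ∃ X : ℝ, ∀ x : ℝ, X ≤ x →
      cN {a : ℤ | ε < |g * a * c a - f k a|} x ≤ ε * x)
    {φ : ℝ → ℝ} (hφ : Continuous φ) {M : ℝ} (hM : ∀ s, |φ s| ≤ M) :
    ∃ L : ℝ, Tendsto (fun x : ℝ => (∑ a ∈ Finset.Icc 1 ⌊x⌋₊, φ (a * c a)) / x) atTop (𝓝 L) ∧
      Tendsto (fun k : ℕ => (∑ b ∈ Finset.range (m ^ k), φ (f k b / g)) / (m : ℝ) ^ k) atTop
        (𝓝 L) := by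
  obtain ⟨A, hA⟩ : ∃ A : ℝ → ℝ, A = fun x : ℝ => (∑ a ∈ Finset.Icc 1 ⌊x⌋₊, φ (a * c a)) / x :=
    ⟨_, rfl⟩
  obtain ⟨μ, hμ⟩ : ∃ μ : ℕ → ℝ, μ = fun k : ℕ =>
    (∑ b ∈ Finset.range (m ^ k), φ (f k b / g)) / (m : ℝ) ^ k := ⟨_, rfl⟩
  rw [← hA, ← hμ]
  have hkey : ∀ η : ℝ, 0 < η → ∃ k1 : ℕ, ∀ k : ℕ, k1 ≤ k → ∃ X : ℝ, ∀ x : ℝ, X ≤ x →
      |A x - μ k| ≤ η := by
    intro η hη
    rw [hA, hμ]
    exact fd_key hm hg hf0 hper hmean hlaw hφ hM hη
  have hcauchy : CauchySeq A := by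
    rw [Metric.cauchySeq_iff']
    intro e he
    obtain ⟨k1, h1⟩ := hkey (e / 4) (by positivity)
    obtain ⟨X, hX⟩ := h1 k1 le_rfl
    refine ⟨X, fun x hx => ?_⟩
    have e1 := abs_le.1 (hX x hx)
    have e2 := abs_le.1 (hX X le_rfl)
    rw [Real.dist_eq, abs_lt]
    constructor <;> linarith [e1.1, e1.2, e2.1, e2.2]
  obtain ⟨L, hL⟩ := cauchySeq_tendsto_of_complete hcauchy
  refine ⟨L, hL, ?_⟩
  rw [Metric.tendsto_atTop]
  intro e he
  obtain ⟨k1, h1⟩ := hkey (e / 2) (by positivity)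
  refine ⟨k1, fun k hk => ?_⟩
  obtain ⟨X, hX⟩ := h1 k hk
  have h2 : |L - μ k| ≤ e / 2 :=
    le_of_tendsto ((hL.sub_const (μ k)).abs) (eventually_atTop.2 ⟨X, hX⟩)
  rw [Real.dist_eq, abs_sub_comm]
  linarith

end Pool.Agent.Helper91.PL
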