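import Pool.Agent.Helper91.PL.OM
import Pool.Agent.Helper91.PL.ST3

/-!
# Block PL-HT: the sets `{n | j ≤ hits B n}`

`hits B n` is the number of elements of `B` on the orbit of `n`.
-/

set_option autoImplicit false

namespace Pool.Agent.Helper91.PL

open Pool.Agent.Helper68.Moeller Pool.Agent.Helper52.Tao Pool.Agent.Helper8.ND
  Pool.Agent.Helper8.CL Filter Topology

variable {d m : ℕ} {r : ℤ → ℤ}

theorem mem_Pr_iff {a n : ℤ} (h : n ≠ a) : n ∈ Pr d m r a ↔ T d m r n ∈ Pr d m r a := by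
  constructor
  · rintro ⟨t, ht⟩
    rcases t with _ | t
    · exact absurd ht h
    · exact ⟨t, by rwa [Function.iterate_succ_apply] at ht⟩
  · rintro ⟨t, ht⟩
    exact ⟨t + 1, by rwa [Function.iterate_succ_apply]⟩

theorem tinv_Pr (d m : ℕ) (r : ℤ → ℤ) (a : ℤ) : TInv d m r (Pr d m r a) a := by
  intro n hn
  refine mem_Pr_iff ?_
  rintro rfl
  exact lt_irrefl _ hn

theorem hits_inv {y : ℕ} {B : Finset ℤ} (hB : B ⊆ Yw y) (j : ℕ) :
    TInv d m r {n | j ≤ hits d m r B n} (2 * y) := by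
  classical
  intro n hn
  have h1 : hits d m r B n = hits d m r B (T d m r n) := by
    unfold hits
    congr 1
    refine Finset.filter_congr fun b hb => mem_Pr_iff ?_
    rintro rfl
    have h2 := hB hb
    rw [Yw, Finset.mem_Ico] at h2
    have h3 : (n : ℝ) < 2 * y := by exact_mod_cast h2.2
    linarith
  rw [Set.mem_ofPred_eq, Set.mem_ofPred_eq, h1]

/-- The sum of a function over the integers in `[A, 2A)`. -/
theorem fd_mul_eq (G : Set ℤ) {A : ℝ} (hA : 0 < A) [DecidablePred (· ∈ G)] :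
    A * fd G A = ∑ n ∈ (finite_Ico A (2 * A)).toFinset, if n ∈ G then (1 : ℝ) else 0 := by
  unfold fd
  rw [mul_div_cancel₀ _ hA.ne', Finset.sum_boole]
  congr 1
  rw [Set.ncard_eq_toFinset_card _ (finite_Y G A)]
  congr 1
  ext n
  simp only [Set.Finite.mem_toFinset, Set.mem_ofPred_eq, Finset.mem_filter]
  tauto

open Classical in
theorem sum_fd_Pr (B : Finset ℤ) {A : ℝ} (hA : 0 < A) :
    A * ∑ b ∈ B, fd (Pr d m r b) A =
      ∑ n ∈ (finite_Ico A (2 * A)).toFinset, (hits d m r B n : ℝ) := by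
  rw [Finset.mul_sum]
  simp only [fd_mul_eq _ hA]
  rw [Finset.sum_comm]
  refine Finset.sum_congr rfl fun n _ => ?_
  rw [Finset.sum_boole]
  rfl

open Classical in
theorem sum_fd_hits (B : Finset ℤ) (J : ℕ) {A : ℝ} (hA : 0 < A) :
    A * ∑ j ∈ Finset.range J, fd {n | j + 1 ≤ hits d m r B n} A =
      ∑ n ∈ (finite_Ico A (2 * A)).toFinset, ((min (hits d m r B n) J : ℕ) : ℝ) := by
  rw [Finset.mul_sum]
  simp only [fd_mul_eq _ hA]
  rw [Finset.sum_comm]
  refine Finset.sum_congr rfl fun n _ => ?_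
  rw [Finset.sum_boole]
  congr 1
  have h1 : (Finset.range J).filter (fun j => n ∈ {n | j + 1 ≤ hits d m r B n}) =
      Finset.range (min (hits d m r B n) J) := by
    ext j
    simp only [Finset.mem_filter, Finset.mem_range, Set.mem_ofPred_eq, lt_min_iff]
    omega
  rw [h1, Finset.card_range]

theorem sum_dens_ge (hd : 2 ≤ d) (hdm : d < m) (hco : Nat.Coprime m d) (hr : Admissible d m r)
    (hg : 0 < gam d m) (hmix : Mixing d m r) {y : ℕ} {B : Finset ℤ} (hB : B ⊆ Yw y) (J : ℕ) :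
    ∑ j ∈ Finset.range J, dens {n | j + 1 ≤ hits d m r B n} ≤ ∑ b ∈ B, dens (Pr d m r b) := by
  classical
  have h1 : Tendsto (fun A : ℝ => ∑ j ∈ Finset.range J, fd {n | j + 1 ≤ hits d m r B n} A) atTop
      (𝓝 (∑ j ∈ Finset.range J, dens {n | j + 1 ≤ hits d m r B n})) :=
    tendsto_finsetSum _ fun j _ => stab_tendsto hd hdm hco hr hg hmix (hits_inv hB (j + 1))
  have h2 : Tendsto (fun A : ℝ => ∑ b ∈ B, fd (Pr d m r b) A) atTop
      (𝓝 (∑ b ∈ B, dens (Pr d m r b))) :=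
    tendsto_finsetSum _ fun b _ => stab_tendsto hd hdm hco hr hg hmix (tinv_Pr d m r b)
  refine le_of_tendsto_of_tendsto h1 h2 ?_
  filter_upwards [eventually_gt_atTop 0] with A hA
  refine le_of_mul_le_mul_left ?_ hA
  rw [sum_fd_Pr _ hA, sum_fd_hits _ _ hA]
  refine Finset.sum_le_sum fun n _ => ?_
  exact_mod_cast min_le_left _ _

theorem sum_dens_le (hd : 2 ≤ d) (hdm : d < m) (hco : Nat.Coprime m d) (hr : Admissible d m r)
    (hg : 0 < gam d m) (hmix : Mixing d m r) {y : ℕ} {B : Finset ℤ} (hB : B ⊆ Yw y) {J : ℕ}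
    (hJ : ∀ n, hits d m r B n ≤ J) :
    ∑ b ∈ B, dens (Pr d m r b) ≤ ∑ j ∈ Finset.range J, dens {n | j + 1 ≤ hits d m r B n} := by
  classical
  have h1 : Tendsto (fun A : ℝ => ∑ j ∈ Finset.range J, fd {n | j + 1 ≤ hits d m r B n} A) atTop
      (𝓝 (∑ j ∈ Finset.range J, dens {n | j + 1 ≤ hits d m r B n})) :=
    tendsto_finsetSum _ fun j _ => stab_tendsto hd hdm hco hr hg hmix (hits_inv hB (j + 1))
  have h2 : Tendsto (fun A : ℝ => ∑ b ∈ B, fd (Pr d m r b) A) atTop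
      (𝓝 (∑ b ∈ B, dens (Pr d m r b))) :=
    tendsto_finsetSum _ fun b _ => stab_tendsto hd hdm hco hr hg hmix (tinv_Pr d m r b)
  refine le_of_tendsto_of_tendsto h2 h1 ?_
  filter_upwards [eventually_gt_atTop 0] with A hA
  refine le_of_mul_le_mul_left ?_ hA
  rw [sum_fd_Pr _ hA, sum_fd_hits _ _ hA]
  refine Finset.sum_le_sum fun n _ => ?_
  rw [min_eq_left (hJ n)]

theorem mass_nonneg (A0 A1 : ℕ) : 0 ≤ mass A0 A1 :=
  Finset.sum_nonneg fun _ _ => by positivity

theorem dens_sub_sm {A0 A1 : ℕ} (h0 : 1 ≤ A0) {G : Set ℤ} {η : ℝ}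
    (h : ∀ A : ℝ, (A0 : ℝ) ≤ A → |fd G A - dens G| ≤ η) :
    |sm A0 A1 (G.indicator fun _ => 1) - dens G * mass A0 A1| ≤ η * mass A0 A1 := by
  rw [sm_indicator h0, mass, Finset.mul_sum, Finset.mul_sum, ← Finset.sum_sub_distrib]
  refine (Finset.abs_sum_le_sum_abs _ _).trans (Finset.sum_le_sum fun A hA => ?_)
  rw [Finset.mem_Ico] at hA
  have hA0 : (0 : ℝ) < A := by exact_mod_cast (by omega : 0 < A)
  have e : fd G A / A - dens G * (1 / (A : ℝ)) = (fd G A - dens G) * (1 / (A : ℝ)) := by ring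
  rw [e, abs_mul, abs_of_pos (by positivity : 0 < 1 / (A : ℝ))]
  exact mul_le_mul_of_nonneg_right (h _ (by exact_mod_cast hA.1)) (by positivity)

theorem hits_ge_vis {B : Finset ℤ} (hper : ∀ b ∈ B, ¬ Per d m r b) (τ : ℕ) (n : ℤ) :
    vis d m r τ B n ≤ hits d m r B n := by
  classical
  unfold vis hits
  refine Finset.card_le_card_of_injOn (fun t => (T d m r)^[t] n) ?_ ?_
  · intro t ht
    rw [Finset.mem_coe, Finset.mem_filter] at ht
    rw [Finset.mem_coe, Finset.mem_filter]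
    exact ⟨ht.2, t, rfl⟩
  · intro t ht t' ht' h
    rw [Finset.mem_coe, Finset.mem_filter] at ht ht'
    simp only at h
    by_contra hne
    rcases lt_or_gt_of_ne hne with hlt | hlt
    · obtain ⟨j, rfl⟩ := Nat.exists_eq_add_of_lt hlt
      refine hper _ ht.2 ⟨j + 1, by omega, ?_⟩
      rw [← Function.iterate_add_apply, show j + 1 + t = t + j + 1 by ring]
      exact h.symm
    · obtain ⟨j, rfl⟩ := Nat.exists_eq_add_of_lt hlt
      refine hper _ ht'.2 ⟨j + 1, by omega, ?_⟩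
      rw [← Function.iterate_add_apply, show j + 1 + t' = t' + j + 1 by ring]
      exact h

end Pool.Agent.Helper91.PL
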