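import Pool.Agent.Helper91.PL.EX
import Pool.Agent.Helper91.PL.DT

/-!
# Block PL-P2L: the expected number of visits, lower bound

Write `q = 1 - 1 / d`, `g = gam d m = log d - q log m`, `μ = log m`, `B₀` a bound of `r`
(`FL_exists_B`). We may assume `ε ≤ 1`. Fix a small `δ = δ(ε)` and `δ' = min (g δ / (4 μ)) (1 / 5)`. Let
`t` be an integer with `N (1 + δ) ≤ t ≤ 2 N (1 - δ)`. For `w ∈ W d t` with `|sg w - q t| ≤ δ' t`,
`b ∈ Yw y`, `Hit (sg w) b w` (the words in `DD t δ' b`) one has, for `N ≥ N0(δ)`,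
`2 lo ≤ pt w b < hi` and `om (pt w b) ≥ 1 / (pt w b + 4) ≥ (1 - δ) m ^ sg w / (d ^ t b)` (`le_om`,
`pt_bound`, `t g - δ' μ t ≤ log (d ^ t / m ^ sg w) ≤ t g + δ' μ t`, `m ^ t ≤ m ^ (2 N)`,
`((d m) ^ (100 N) ≤ y`). By `sm_exact` (with `h = 1`)
`sm (1[T^t n ∈ B]) ≥ (1 - δ) ∑_{b ∈ B} DD t δ' b / b`, and by `dt_main` (`t ≥ N ≥ t0`, `m ^ t ≤ y`, `b ≥ y`)
this is `≥ (1 - δ) (∑_{b ∈ B} fk k b / b - δ)`. Sum over these `t < 6 N`; there are at least
`N (1 - 3 δ) - 2` of them; `0 ≤ ∑_{b ∈ B} fk k b / b ≤ 2` (`sum_win_fk`); the other `t < 6 N` contribute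
`≥ 0`. (If `∑_{b ∈ B} fk k b / b < ε` there is nothing to prove.)
-/

set_option autoImplicit false

namespace Pool.Agent.Helper91.PL

open Pool.Agent.Helper68.Moeller Pool.Agent.Helper52.Tao Pool.Agent.Helper8.ND
  Pool.Agent.Helper8.CL Filter Topology

variable {d m : ℕ} {r : ℤ → ℤ}

/-- the weight of the point of a typical word -/
theorem om_low_word (hd : 2 ≤ d) (hdm : d < m) {B₀ : ℕ}
    (hB : ∀ j : ℤ, 0 < j → j < (d : ℤ) → |r j| ≤ B₀) (hg : 0 < gam d m) {δ : ℝ} (hδ0 : 0 < δ)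
    (hδ1 : δ ≤ 1 / 11) {N t y : ℕ} (hN1 : 4 ≤ gam d m * δ * N)
    (hy : ((B₀ : ℝ) + 4) * 4 * (m : ℝ) ^ (2 * N) ≤ δ * y) (ht1 : (N : ℝ) * (1 + δ) ≤ t)
    (ht2 : (t : ℝ) ≤ 2 * N * (1 - δ)) {w : List ℕ} (hw : w ∈ W d t)
    (hS : |(sg w : ℝ) - (1 - 1 / (d : ℝ)) * t| ≤
      min (gam d m * δ / (4 * Real.log m)) (1 / 5) * t)
    {b : ℤ} (hb : b ∈ Yw y) (hH : Hit d m r (sg w) b w) :
    (1 - δ) * ((m : ℝ) ^ sg w / ((d : ℝ) ^ t * b)) ≤
      om (lo d m y N) (hi d m y N) (pt d m r w b) := by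
  have hm1 : (1 : ℝ) < m := by exact_mod_cast (by omega : 1 < m)
  have hm0 : (0 : ℝ) < m := by linarith
  have hd1 : (1 : ℝ) < d := by exact_mod_cast (by omega : 1 < d)
  have hd0 : (0 : ℝ) < d := by linarith
  have hμ : 0 < Real.log m := Real.log_pos hm1
  have htN : t ≤ 2 * N := by
    have h1 : (t : ℝ) ≤ 2 * N := by
      have : 0 ≤ (N : ℝ) * δ := by positivity
      nlinarith
    exact_mod_cast h1
  have hSt : sg w ≤ t := by rw [← length_of_mem_W hw]; exact sg_le_length w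
  set g : ℝ := gam d m with hgdef
  set S : ℕ := sg w with hSdef
  have hmt : (m : ℝ) ^ t ≤ (m : ℝ) ^ (2 * N) := pow_le_pow_right₀ hm1.le htN
  have hmS : (m : ℝ) ^ S ≤ (m : ℝ) ^ t := pow_le_pow_right₀ hm1.le hSt
  have hmS1 : (1 : ℝ) ≤ (m : ℝ) ^ S := one_le_pow₀ hm1.le
  have hmS0 : (0 : ℝ) < (m : ℝ) ^ S := by linarith
  have hdt1 : (1 : ℝ) ≤ (d : ℝ) ^ t := one_le_pow₀ hd1.le
  have hdt0 : (0 : ℝ) < (d : ℝ) ^ t := by linarith
  -- size of y
  have hB0 : (0 : ℝ) ≤ B₀ := Nat.cast_nonneg _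
  have hy1 : (B₀ : ℝ) * (m : ℝ) ^ t ≤ y / 44 ∧ ((B₀ : ℝ) + 4) * (m : ℝ) ^ t ≤ δ * y ∧
      (176 : ℝ) ≤ y := by
    have h1 : (1 : ℝ) ≤ (m : ℝ) ^ t := one_le_pow₀ hm1.le
    have h2 : ((B₀ : ℝ) + 4) * 4 * (m : ℝ) ^ t ≤ δ * y :=
      (mul_le_mul_of_nonneg_left hmt (by positivity)).trans hy
    have hy0 : (0 : ℝ) ≤ y := Nat.cast_nonneg _
    have h3 : δ * y ≤ y / 11 := by nlinarith
    have h4 : 0 ≤ (B₀ : ℝ) * (m : ℝ) ^ t := by positivity
    refine ⟨by nlinarith, by nlinarith, by nlinarith⟩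
  obtain ⟨hy2, hy3, hy4⟩ := hy1
  have hy0 : (0 : ℝ) < y := by linarith
  -- the window
  rw [Yw, Finset.mem_Ico] at hb
  have hb1 : (y : ℝ) ≤ b := by exact_mod_cast hb.1
  have hb2 : (b : ℝ) ≤ 2 * y := by exact_mod_cast hb.2.le
  have hb0 : (0 : ℝ) < b := by linarith
  -- the ratio
  set Q : ℝ := (d : ℝ) ^ t / (m : ℝ) ^ S with hQ
  have hQ0 : 0 < Q := by positivity
  have hlogQ : Real.log Q = t * Real.log d - S * Real.log m := by
    rw [hQ, Real.log_div hdt0.ne' hmS0.ne', Real.log_pow, Real.log_pow]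
  have hgt : (t : ℝ) * Real.log d = t * g + (1 - 1 / (d : ℝ)) * t * Real.log m := by
    rw [hgdef, gam]; ring
  have hdev : |Real.log Q - t * g| ≤ g * δ / 4 * t := by
    have h1 : Real.log Q - t * g = -(((S : ℝ) - (1 - 1 / (d : ℝ)) * t) * Real.log m) := by
      rw [hlogQ, hgt]; ring
    rw [h1, abs_neg, abs_mul, abs_of_pos hμ]
    have h2 : |(S : ℝ) - (1 - 1 / (d : ℝ)) * t| ≤ g * δ / (4 * Real.log m) * t :=
      hS.trans (mul_le_mul_of_nonneg_right (min_le_left _ _) (Nat.cast_nonneg _))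
    refine (mul_le_mul_of_nonneg_right h2 hμ.le).trans (le_of_eq ?_)
    field_simp
  rw [abs_le] at hdev
  have hN0 : (0 : ℝ) ≤ N := Nat.cast_nonneg _
  have hgN : 0 ≤ g * N := by positivity
  have ht0 : (0 : ℝ) ≤ t := Nat.cast_nonneg _
  have hlow : g * N + g * δ * N / 2 ≤ Real.log Q := by
    have h1 : (N : ℝ) * (1 + δ / 2) ≤ t * (1 - δ / 4) := by
      have h2 : (N : ℝ) * (1 + δ) * (1 - δ / 4) ≤ t * (1 - δ / 4) :=
        mul_le_mul_of_nonneg_right ht1 (by linarith)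
      have h3 : 0 ≤ (N : ℝ) * δ * (1 / 4 - δ / 4) := by
        have : 0 ≤ 1 / 4 - δ / 4 := by linarith
        positivity
      linarith
    have h4 := mul_le_mul_of_nonneg_left h1 hg.le
    linarith [hdev.1]
  have hupp : Real.log Q ≤ 2 * (g * N) - g * δ * N := by
    have h1 : (t : ℝ) * (1 + δ / 4) ≤ 2 * N * (1 - δ / 2) := by
      have h2 := mul_le_mul_of_nonneg_right ht2 (show (0 : ℝ) ≤ 1 + δ / 4 by linarith)
      have h3 : 0 ≤ (N : ℝ) * δ * (1 / 2 + δ / 2) := by positivity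
      linarith
    have h4 := mul_le_mul_of_nonneg_left h1 hg.le
    linarith [hdev.2]
  have hQlow : 5 * Real.exp (g * N) ≤ Q := by
    have h1 : Real.exp (g * N + g * δ * N / 2) ≤ Q := by
      rw [← Real.exp_log hQ0]; exact Real.exp_le_exp.2 hlow
    have h2 : (5 : ℝ) ≤ Real.exp (g * δ * N / 2) := by
      have h3 : (2 : ℝ) ≤ g * δ * N / 2 := by linarith
      have h4 := Real.quadratic_le_exp_of_nonneg (show (0 : ℝ) ≤ g * δ * N / 2 by linarith)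
      nlinarith
    rw [Real.exp_add] at h1
    have h5 := mul_le_mul_of_nonneg_left h2 (Real.exp_pos (g * N)).le
    linarith
  have hQupp : Q ≤ Real.exp (2 * (g * N)) / 5 := by
    have h1 : Q ≤ Real.exp (2 * (g * N) - g * δ * N) := by
      rw [← Real.exp_log hQ0]; exact Real.exp_le_exp.2 hupp
    refine h1.trans ?_
    rw [Real.exp_sub]
    have h2 : (5 : ℝ) ≤ Real.exp (g * δ * N) := by
      have := Real.add_one_le_exp (g * δ * N)
      linarith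
    exact div_le_div_of_nonneg_left (Real.exp_pos _).le (by norm_num) h2
  -- the point
  have hpb := pt_bound hd hdm hB hw hH
  set P : ℝ := (pt d m r w b : ℝ) with hP
  rw [← hSdef, abs_le] at hpb
  have hQm : Q * (m : ℝ) ^ S = (d : ℝ) ^ t := by rw [hQ]; field_simp
  have he1 : (1 : ℝ) ≤ Real.exp (g * N) := Real.one_le_exp hgN
  have he2 : (1 : ℝ) ≤ Real.exp (2 * (g * N)) := Real.one_le_exp (by positivity)
  have hPlow : 5 * Real.exp (g * N) * y - y / 44 ≤ P := by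
    have h1 : (m : ℝ) ^ S * (Q * b) - (m : ℝ) ^ S * (y / 44) ≤ (m : ℝ) ^ S * P := by
      have h2 : (y : ℝ) / 44 ≤ (m : ℝ) ^ S * (y / 44) := by
        have : (0 : ℝ) ≤ y / 44 := by positivity
        nlinarith
      have h3 : (m : ℝ) ^ S * (Q * b) = (d : ℝ) ^ t * b := by rw [← hQm]; ring
      rw [h3]
      linarith [hpb.1]
    have h4 : Q * b - y / 44 ≤ P := by
      rw [← mul_sub] at h1
      exact le_of_mul_le_mul_left h1 hmS0
    have h5 : 5 * Real.exp (g * N) * y ≤ Q * b :=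
      mul_le_mul hQlow hb1 hy0.le hQ0.le
    linarith
  have hPupp : P ≤ Real.exp (2 * (g * N)) / 5 * (2 * y) + y / 44 := by
    have h1 : (m : ℝ) ^ S * P ≤ (m : ℝ) ^ S * (Q * b) + (m : ℝ) ^ S * (y / 44) := by
      have h2 : (y : ℝ) / 44 ≤ (m : ℝ) ^ S * (y / 44) := by
        have : (0 : ℝ) ≤ y / 44 := by positivity
        nlinarith
      have h3 : (m : ℝ) ^ S * (Q * b) = (d : ℝ) ^ t * b := by rw [← hQm]; ring
      rw [h3]
      linarith [hpb.2]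
    have h4 : P ≤ Q * b + y / 44 := by
      rw [← mul_add] at h1
      exact le_of_mul_le_mul_left h1 hmS0
    have h5 : Q * b ≤ Real.exp (2 * (g * N)) / 5 * (2 * y) :=
      mul_le_mul hQupp hb2 hb0.le (by positivity)
    linarith
  -- position with respect to the scales
  have hlo : 2 * ((lo d m y N : ℕ) : ℝ) ≤ P := by
    have h1 : ((lo d m y N : ℕ) : ℝ) < y * Real.exp (g * N) + 1 :=
      Nat.ceil_lt_add_one (by positivity)
    nlinarith
  have hhi : P < ((hi d m y N : ℕ) : ℝ) := by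
    have h1 : (y : ℝ) * Real.exp (2 * (g * N)) ≤ ((hi d m y N : ℕ) : ℝ) := Nat.le_ceil _
    nlinarith
  have hP2 : (2 : ℝ) ≤ P := by nlinarith
  rw [hP] at hP2 hlo hhi
  have hom := le_om (A0 := lo d m y N) (A1 := hi d m y N) (n := pt d m r w b)
    (by exact_mod_cast hP2) (by exact_mod_cast hlo) (by exact_mod_cast hhi)
  refine le_trans ?_ hom
  rw [← mul_div_assoc, div_le_div_iff₀ (by positivity) (by linarith)]
  have h6 : (m : ℝ) ^ S * P ≤ (d : ℝ) ^ t * b + B₀ * (m : ℝ) ^ t := by linarith [hpb.2]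
  have h7 : (m : ℝ) ^ S * (P + 4) ≤ (d : ℝ) ^ t * b + ((B₀ : ℝ) + 4) * (m : ℝ) ^ t := by
    nlinarith
  have h8 : ((B₀ : ℝ) + 4) * (m : ℝ) ^ t ≤ δ * ((d : ℝ) ^ t * b) := by
    refine hy3.trans (mul_le_mul_of_nonneg_left ?_ hδ0.le)
    nlinarith
  have h9 : 0 < (d : ℝ) ^ t * b := by positivity
  have h10 : (1 - δ) * ((m : ℝ) ^ S * (P + 4)) ≤
      (1 - δ) * ((d : ℝ) ^ t * b + δ * ((d : ℝ) ^ t * b)) :=
    mul_le_mul_of_nonneg_left (by linarith) (by linarith)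
  have h11 : 0 ≤ δ * δ * ((d : ℝ) ^ t * b) := by positivity
  linarith

theorem sm_nonneg (A0 A1 : ℕ) (h : ℤ → ℝ) (h0 : ∀ n, 0 ≤ h n) : 0 ≤ sm A0 A1 h :=
  Finset.sum_nonneg fun n _ => mul_nonneg (om_nonneg A0 A1 n) (h0 n)

theorem sm_vis (A0 A1 τ : ℕ) (B : Finset ℤ) :
    sm A0 A1 (fun n => (vis d m r τ B n : ℝ)) = ∑ t ∈ Finset.range τ,
      sm A0 A1 (fun n => if (T d m r)^[t] n ∈ B then (1 : ℝ) else 0) := by
  unfold sm
  rw [Finset.sum_comm]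
  refine Finset.sum_congr rfl fun n _ => ?_
  rw [← Finset.mul_sum]
  congr 1
  show ((vis d m r τ B n : ℕ) : ℝ) = ∑ t ∈ Finset.range τ,
    (if (T d m r)^[t] n ∈ B then (1 : ℝ) else 0)
  unfold vis
  rw [Finset.card_filter]
  push_cast
  rfl

open Classical in
/-- one step -/
theorem sm_low (hd : 2 ≤ d) (hdm : d < m) (hco : Nat.Coprime m d) (hr : Admissible d m r) {B₀ : ℕ}
    (hB : ∀ j : ℤ, 0 < j → j < (d : ℤ) → |r j| ≤ B₀) (hg : 0 < gam d m) {δ : ℝ} (hδ0 : 0 < δ)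
    (hδ1 : δ ≤ 1 / 11) {N t y k : ℕ} (hN1 : 4 ≤ gam d m * δ * N)
    (hy : ((B₀ : ℝ) + 4) * 4 * (m : ℝ) ^ (2 * N) ≤ δ * y) (ht1 : (N : ℝ) * (1 + δ) ≤ t)
    (ht2 : (t : ℝ) ≤ 2 * N * (1 - δ))
    (hdt : ∑ b ∈ Yw y, |DD d m r t (min (gam d m * δ / (4 * Real.log m)) (1 / 5)) b -
      fk d m r k b| ≤ δ * y) {B : Finset ℤ} (hBY : B ⊆ Yw y) :
    (1 - δ) * (∑ b ∈ B, fk d m r k b / b - δ) ≤
      sm (lo d m y N) (hi d m y N) (fun n => if (T d m r)^[t] n ∈ B then (1 : ℝ) else 0) := by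
  have hm1 : (1 : ℝ) < m := by exact_mod_cast (by omega : 1 < m)
  have hy0 : (0 : ℝ) < y := by
    have h1 : (0 : ℝ) < ((B₀ : ℝ) + 4) * 4 * (m : ℝ) ^ (2 * N) := by positivity
    have h2 := h1.trans_le hy
    by_contra hc
    have h3 : (y : ℝ) ≤ 0 := not_lt.1 hc
    nlinarith
  have hbpos : ∀ b ∈ B, (y : ℝ) ≤ b := by
    intro b hb
    have := hBY hb
    rw [Yw, Finset.mem_Ico] at this
    exact_mod_cast this.1
  have hex := sm_exact hd hdm hco hr (lo d m y N) (hi d m y N) t B (fun _ => (1 : ℝ))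
  have e0 : (fun n : ℤ => if (T d m r)^[t] n ∈ B then (1 : ℝ) else 0) =
      (fun n => if (T d m r)^[t] n ∈ B then (fun _ => (1 : ℝ)) ((T d m r)^[t] n) else 0) := rfl
  rw [e0]
  refine le_trans ?_ (ge_of_eq hex)
  set δ' : ℝ := min (gam d m * δ / (4 * Real.log m)) (1 / 5) with hδ'
  -- every b
  have hb1 : ∀ b ∈ B, (1 - δ) * (DD d m r t δ' b / b) ≤
      1 * ∑ w ∈ (W d t).filter (fun w => Hit d m r (sg w) b w),
        om (lo d m y N) (hi d m y N) (pt d m r w b) := by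
    intro b hb
    rw [one_mul]
    have hb0 : (0 : ℝ) < b := hy0.trans_le (hbpos b hb)
    have h1 : (1 - δ) * (DD d m r t δ' b / b) =
        ∑ w ∈ (W d t).filter (fun w => |(sg w : ℝ) - (1 - 1 / (d : ℝ)) * t| ≤ δ' * t ∧
          Hit d m r (sg w) b w), (1 - δ) * ((m : ℝ) ^ sg w / ((d : ℝ) ^ t * b)) := by
      unfold DD
      rw [← Finset.mul_sum, ← Finset.sum_div, div_div]
    rw [h1]
    refine le_trans (Finset.sum_le_sum (g := fun w => om (lo d m y N) (hi d m y N)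
      (pt d m r w b)) fun w hw => ?_) ?_
    · rw [Finset.mem_filter] at hw
      exact om_low_word hd hdm hB hg hδ0 hδ1 hN1 hy ht1 ht2 hw.1 hw.2.1 (hBY hb) hw.2.2
    · refine Finset.sum_le_sum_of_subset_of_nonneg ?_ fun w _ _ => om_nonneg _ _ _
      intro w hw
      rw [Finset.mem_filter] at hw ⊢
      exact ⟨hw.1, hw.2.2⟩
  refine le_trans ?_ (Finset.sum_le_sum hb1)
  rw [← Finset.mul_sum]
  refine mul_le_mul_of_nonneg_left ?_ (by linarith)
  have h2 : ∑ b ∈ B, fk d m r k b / b - ∑ b ∈ B, DD d m r t δ' b / b ≤ δ := by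
    rw [← Finset.sum_sub_distrib]
    have h3 : ∀ b ∈ B, fk d m r k b / b - DD d m r t δ' b / b ≤
        |DD d m r t δ' b - fk d m r k b| / y := by
      intro b hb
      have hb0 : (0 : ℝ) < b := hy0.trans_le (hbpos b hb)
      rw [← sub_div]
      have h4 : fk d m r k b - DD d m r t δ' b ≤ |DD d m r t δ' b - fk d m r k b| := by
        rw [abs_sub_comm]; exact le_abs_self _
      exact (div_le_div_of_nonneg_right h4 hb0.le).trans
        (div_le_div_of_nonneg_left (abs_nonneg _) hy0 (hbpos b hb))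
    refine (Finset.sum_le_sum h3).trans ?_
    rw [← Finset.sum_div, div_le_iff₀ hy0]
    exact (Finset.sum_le_sum_of_subset_of_nonneg hBY fun b _ _ => abs_nonneg _).trans hdt
  linarith

theorem nu_nonneg' (d m : ℕ) (r : ℤ → ℤ) (k : ℕ) (b : ℤ) : 0 ≤ nu d m r k b := by
  unfold nu
  exact Real.iSup_nonneg fun t => by
    unfold nut
    have := cW_nonneg d t (fun w => k ≤ sg w ∧ Hit d m r k b w)
    positivity

theorem fk_nonneg' (d m : ℕ) (r : ℤ → ℤ) (k : ℕ) (b : ℤ) : 0 ≤ fk d m r k b :=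
  mul_nonneg (by positivity) (nu_nonneg' d m r k b)

theorem p2_low (hd : 2 ≤ d) (hdm : d < m) (hco : Nat.Coprime m d) (hr : Admissible d m r)
    (hg : 0 < gam d m) (hmix : Mixing d m r) {ε : ℝ} (hε : 0 < ε) :
    ∃ k0 : ℕ, ∀ k : ℕ, k0 ≤ k → ∃ N0 : ℕ, ∀ N : ℕ, N0 ≤ N → ∀ y : ℕ,
      ((d : ℝ) * m) ^ (100 * N) ≤ y → ∀ B : Finset ℤ, B ⊆ Yw y →
        N * (∑ b ∈ B, fk d m r k b / b - ε) ≤
          sm (lo d m y N) (hi d m y N) (fun n => (vis d m r (6 * N) B n : ℝ)) := by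
  obtain ⟨B₀, hB⟩ := FL_exists_B d r
  have hm1 : (1 : ℝ) < m := by exact_mod_cast (by omega : 1 < m)
  have hd1 : (2 : ℝ) ≤ d := by exact_mod_cast hd
  have hμ : 0 < Real.log m := Real.log_pos hm1
  set δ : ℝ := min ε 1 / 12 with hδ
  have hδ0 : 0 < δ := by
    have : 0 < min ε 1 := lt_min hε one_pos
    positivity
  have hδ1 : δ ≤ 1 / 11 := by
    have : min ε 1 ≤ 1 := min_le_right _ _
    rw [hδ]; linarith
  have hδε : 12 * δ ≤ ε := by
    have : min ε 1 ≤ ε := min_le_left _ _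
    rw [hδ]; linarith
  have hδ'0 : 0 < min (gam d m * δ / (4 * Real.log m)) (1 / 5) :=
    lt_min (by positivity) (by norm_num)
  obtain ⟨k0, hk0⟩ := dt_main hd hdm hco hmix hδ'0 (min_le_right _ _) hδ0
  refine ⟨k0, fun k hk => ?_⟩
  obtain ⟨t0, ht0⟩ := hk0 k hk
  obtain ⟨n1, hn1⟩ := exists_nat_ge (4 / (gam d m * δ))
  obtain ⟨n2, hn2⟩ := exists_nat_ge (((B₀ : ℝ) + 4) * 4 / δ)
  obtain ⟨n3, hn3⟩ := exists_nat_ge (2 / δ)
  refine ⟨t0 + k + n1 + n2 + n3 + 1, fun N hN y hyN B hBY => ?_⟩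
  have hNt0 : t0 ≤ N := by omega
  have hNk : k ≤ N := by omega
  have hN1' : (1 : ℝ) ≤ N := by exact_mod_cast (by omega : 1 ≤ N)
  have hcast : ∀ n : ℕ, n ≤ N → (n : ℝ) ≤ N := fun n hn => by exact_mod_cast hn
  have hNa : 4 ≤ gam d m * δ * N := by
    have h1 := hn1.trans (hcast n1 (by omega))
    rw [div_le_iff₀ (by positivity)] at h1
    linarith
  have hNb : 2 ≤ δ * N := by
    have h1 := hn3.trans (hcast n3 (by omega))
    rw [div_le_iff₀ hδ0] at h1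
    linarith
  have hdm1 : (1 : ℝ) ≤ (d : ℝ) * m := by nlinarith
  have hmdm : (m : ℝ) ≤ (d : ℝ) * m := by nlinarith
  have hyc : ((B₀ : ℝ) + 4) * 4 * (m : ℝ) ^ (2 * N) ≤ δ * y := by
    have h1 := hn2.trans (hcast n2 (by omega))
    rw [div_le_iff₀ hδ0] at h1
    have h2 : (N : ℝ) ≤ ((d : ℝ) * m) ^ N := by
      have h3 : (N : ℝ) ≤ 2 ^ N := by exact_mod_cast (Nat.lt_two_pow_self).le
      exact h3.trans (pow_le_pow_left₀ (by norm_num) (by nlinarith) N)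
    have h4 : (m : ℝ) ^ (2 * N) ≤ ((d : ℝ) * m) ^ (2 * N) :=
      pow_le_pow_left₀ (by linarith) hmdm _
    calc ((B₀ : ℝ) + 4) * 4 * (m : ℝ) ^ (2 * N) ≤ (N * δ) * ((d : ℝ) * m) ^ (2 * N) :=
          mul_le_mul h1 h4 (by positivity) (by positivity)
      _ ≤ (((d : ℝ) * m) ^ N * δ) * ((d : ℝ) * m) ^ (2 * N) := by gcongr
      _ = δ * ((d : ℝ) * m) ^ (3 * N) := by
          rw [show 3 * N = N + 2 * N by ring, pow_add]; ring
      _ ≤ δ * ((d : ℝ) * m) ^ (100 * N) := by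
          refine mul_le_mul_of_nonneg_left (pow_le_pow_right₀ hdm1 (by omega)) hδ0.le
      _ ≤ δ * y := mul_le_mul_of_nonneg_left hyN hδ0.le
  have hpowy : ∀ s : ℕ, s ≤ 100 * N → m ^ s ≤ y := by
    intro s hs
    have h1 : ((m ^ s : ℕ) : ℝ) ≤ y := by
      push_cast
      calc (m : ℝ) ^ s ≤ ((d : ℝ) * m) ^ s := pow_le_pow_left₀ (by linarith) hmdm _
        _ ≤ ((d : ℝ) * m) ^ (100 * N) := pow_le_pow_right₀ hdm1 hs
        _ ≤ y := hyN
    exact_mod_cast h1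
  have hy0 : (0 : ℝ) < y := by
    have h1 : (1 : ℝ) ≤ ((d : ℝ) * m) ^ (100 * N) := one_le_pow₀ hdm1
    linarith
  set F : ℝ := ∑ b ∈ B, fk d m r k b / b with hF
  -- F ≤ 2
  have hF2 : F ≤ 2 := by
    have h1 : F ≤ ∑ b ∈ B, fk d m r k b / y := by
      refine Finset.sum_le_sum fun b hb => ?_
      have h2 := hBY hb
      rw [Yw, Finset.mem_Ico] at h2
      have h3 : (y : ℝ) ≤ b := by exact_mod_cast h2.1
      exact div_le_div_of_nonneg_left (fk_nonneg' d m r k b) hy0 h3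
    rw [← Finset.sum_div] at h1
    refine h1.trans ?_
    rw [div_le_iff₀ hy0]
    exact (Finset.sum_le_sum_of_subset_of_nonneg hBY fun b _ _ => fk_nonneg' d m r k b).trans
      (sum_win_fk hd (by omega) hco (hpowy k (by omega)))
  have hnn : ∀ t : ℕ, 0 ≤ sm (lo d m y N) (hi d m y N)
      (fun n => if (T d m r)^[t] n ∈ B then (1 : ℝ) else 0) := fun t =>
    sm_nonneg _ _ _ fun n => by split_ifs <;> norm_num
  rw [sm_vis]
  rcases le_or_gt F ε with hFe | hFe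
  · refine le_trans ?_ (Finset.sum_nonneg fun t _ => hnn t)
    have : (N : ℝ) * (F - ε) ≤ 0 := mul_nonpos_of_nonneg_of_nonpos (by linarith) (by linarith)
    exact this
  -- the main case
  set I : Finset ℕ := Finset.Icc ⌈(N : ℝ) * (1 + δ)⌉₊ ⌊2 * (N : ℝ) * (1 - δ)⌋₊ with hI
  have hIsub : I ⊆ Finset.range (6 * N) := by
    intro t ht
    rw [hI, Finset.mem_Icc] at ht
    rw [Finset.mem_range]
    have h1 : (t : ℝ) ≤ 2 * (N : ℝ) * (1 - δ) :=
      (Nat.le_floor_iff (by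
        have : 0 ≤ 1 - δ := by linarith
        positivity)).1 ht.2
    have h2 : (t : ℝ) < 6 * N := by
      have : 0 ≤ (N : ℝ) * δ := by positivity
      nlinarith
    exact_mod_cast h2
  have hstep : ∀ t ∈ I, (1 - δ) * (F - δ) ≤ sm (lo d m y N) (hi d m y N)
      (fun n => if (T d m r)^[t] n ∈ B then (1 : ℝ) else 0) := by
    intro t ht
    rw [hI, Finset.mem_Icc] at ht
    have h1 : (t : ℝ) ≤ 2 * (N : ℝ) * (1 - δ) :=
      (Nat.le_floor_iff (by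
        have : 0 ≤ 1 - δ := by linarith
        positivity)).1 ht.2
    have h2 : (N : ℝ) * (1 + δ) ≤ t := Nat.ceil_le.1 ht.1
    have h3 : N ≤ t := by
      have : (N : ℝ) ≤ t := by nlinarith
      exact_mod_cast this
    have h4 : t ≤ 2 * N := by
      have : (t : ℝ) ≤ 2 * N := by nlinarith
      exact_mod_cast this
    exact sm_low hd hdm hco hr hB hg hδ0 hδ1 hNa hyc h2 h1
      (ht0 t (hNt0.trans h3) y (hpowy t (by omega))) hBY
  have hcard : (N : ℝ) * (1 - 3 * δ) - 1 ≤ (I.card : ℝ) := by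
    rw [hI, Nat.card_Icc]
    have h1 := Nat.sub_le_iff_le_add.1 (le_refl (⌊2 * (N : ℝ) * (1 - δ)⌋₊ + 1 -
      ⌈(N : ℝ) * (1 + δ)⌉₊))
    have h2 : (⌊2 * (N : ℝ) * (1 - δ)⌋₊ : ℝ) + 1 ≤
        ((⌊2 * (N : ℝ) * (1 - δ)⌋₊ + 1 - ⌈(N : ℝ) * (1 + δ)⌉₊ : ℕ) : ℝ) +
          (⌈(N : ℝ) * (1 + δ)⌉₊ : ℝ) := by exact_mod_cast h1
    have h3 : (⌈(N : ℝ) * (1 + δ)⌉₊ : ℝ) < (N : ℝ) * (1 + δ) + 1 :=
      Nat.ceil_lt_add_one (by positivity)
    have h4 := Nat.lt_floor_add_one (2 * (N : ℝ) * (1 - δ))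
    linarith
  have hFd : 0 ≤ (1 - δ) * (F - δ) := mul_nonneg (by linarith) (by linarith)
  have hsum : (I.card : ℝ) * ((1 - δ) * (F - δ)) ≤ ∑ t ∈ Finset.range (6 * N),
      sm (lo d m y N) (hi d m y N) (fun n => if (T d m r)^[t] n ∈ B then (1 : ℝ) else 0) := by
    refine le_trans ?_ (Finset.sum_le_sum_of_subset_of_nonneg hIsub fun t _ _ => hnn t)
    rw [← nsmul_eq_mul]
    exact Finset.card_nsmul_le_sum _ _ _ hstep
  refine le_trans ?_ hsum
  have h5 : (N : ℝ) * (1 - 4 * δ) ≤ (I.card : ℝ) := by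
    have : (N : ℝ) * (1 - 4 * δ) ≤ (N : ℝ) * (1 - 3 * δ) - 1 := by nlinarith
    linarith
  have h6 := mul_le_mul_of_nonneg_right h5 hFd
  refine le_trans ?_ h6
  rw [mul_assoc]
  refine mul_le_mul_of_nonneg_left ?_ (by linarith)
  have h8 : 0 ≤ F - δ := by linarith
  have h9 : 0 ≤ δ * δ * (F - δ) := by positivity
  have h10 : δ * F ≤ δ * 2 := mul_le_mul_of_nonneg_left hF2 hδ0.le
  have h11 : 0 < δ * δ := mul_pos hδ0 hδ0
  have e : (1 - 4 * δ) * ((1 - δ) * (F - δ)) =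
      F - δ - 5 * (δ * F) + 5 * (δ * δ) + 4 * (δ * δ * (F - δ)) := by ring
  rw [e]
  linarith

end Pool.Agent.Helper91.PL
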