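import Pool.Agent.Helper91.PL.SMB
import Pool.Agent.Helper91.PL.P2L
import Pool.Agent.Helper91.PL.P3

/-!
# Block PL-LOW: lower bound for the sum of the densities
-/

set_option autoImplicit false

namespace Pool.Agent.Helper91.PL

open Pool.Agent.Helper68.Moeller Pool.Agent.Helper52.Tao Pool.Agent.Helper8.ND
  Pool.Agent.Helper8.CL Filter Topology

variable {d m : ℕ} {r : ℤ → ℤ}

theorem fk_nonneg (k : ℕ) (b : ℤ) : 0 ≤ fk d m r k b :=
  mul_nonneg (by positivity) (nu_nonneg k b)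

theorem sum_fk_div (hd : 2 ≤ d) (hm : 1 ≤ m) (hco : Nat.Coprime m d) {k y : ℕ} (hy : 1 ≤ y)
    (hk : m ^ k ≤ y) {B : Finset ℤ} (hB : B ⊆ Yw y) :
    0 ≤ ∑ b ∈ B, fk d m r k b / b ∧ ∑ b ∈ B, fk d m r k b / b ≤ 2 := by
  have hy0 : (0 : ℝ) < y := by exact_mod_cast hy
  have h0 : ∀ b ∈ Yw y, 0 ≤ fk d m r k b / b := fun b hb =>
    div_nonneg (fk_nonneg k b) (Yw_pos hy hb).1.le
  refine ⟨Finset.sum_nonneg fun b hb => h0 b (hB hb), ?_⟩
  calc ∑ b ∈ B, fk d m r k b / b ≤ ∑ b ∈ Yw y, fk d m r k b / b :=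
        Finset.sum_le_sum_of_subset_of_nonneg hB fun b hb _ => h0 b hb
    _ ≤ ∑ b ∈ Yw y, fk d m r k b / y := by
        refine Finset.sum_le_sum fun b hb => ?_
        exact div_le_div_of_nonneg_left (fk_nonneg k b) hy0 (Yw_pos hy hb).2.1
    _ = (∑ b ∈ Yw y, fk d m r k b) / y := by rw [Finset.sum_div]
    _ ≤ 2 := by
        rw [div_le_iff₀ hy0]
        exact sum_win_fk hd hm hco hk

theorem low_sum (hd : 2 ≤ d) (hdm : d < m) (hco : Nat.Coprime m d) (hr : Admissible d m r)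
    (hg : 0 < gam d m) (hmix : Mixing d m r) {ε : ℝ} (hε : 0 < ε) :
    ∃ k0 : ℕ, ∀ k : ℕ, k0 ≤ k → ∃ y0 : ℕ, ∀ y : ℕ, y0 ≤ y → ∀ B : Finset ℤ, B ⊆ Yw y →
      (∀ b ∈ B, ¬ Per d m r b) →
        ∑ b ∈ B, fk d m r k b / b - ε ≤ gam d m * ∑ b ∈ B, dens (Pr d m r b) := by
  classical
  obtain ⟨C, hC, N3, h3⟩ := p3 hd hdm hco hr hg
  set ε' := min ε 1 with hε'
  have hε0 : 0 < ε' := lt_min hε one_pos
  have hε1 : ε' ≤ 1 := min_le_right _ _
  obtain ⟨J, hJ⟩ := exists_nat_ge (8 * C / ε' + 1)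
  have hJ1 : (1 : ℝ) ≤ J := by
    have : 0 < 8 * C / ε' := by positivity
    linarith
  have hJ0 : (0 : ℝ) < J := by linarith
  have hCJ : C / J ≤ ε' / 8 := by
    rw [div_le_iff₀ hJ0]
    have h4 : 8 * C / ε' ≤ J := by linarith
    rw [div_le_iff₀ hε0] at h4
    linarith
  set g := gam d m with hgdef
  set η := ε' / (8 * g * J) with hη
  have hη0 : 0 < η := by positivity
  have hgJη : g * (J * η) = ε' / 8 := by rw [hη]; field_simp
  obtain ⟨k0, hk0⟩ := p2_low hd hdm hco hr hg hmix (by positivity : 0 < ε' / 8)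
  refine ⟨k0, fun k hk => ?_⟩
  obtain ⟨N2, h2⟩ := hk0 k hk
  obtain ⟨y1, hst⟩ := stab_y hd hdm hco hr hg hmix hη0
  obtain ⟨N4, hN4⟩ := exists_nat_ge ((4 / ε' + 1) / g)
  obtain ⟨y2, hy2⟩ := ny_ge hd hdm (max N2 (max N3 N4))
  refine ⟨max (max y1 y2) (max 1 (m ^ k)), fun y hy B hB hper => ?_⟩
  have hyy1 : y1 ≤ y := (le_max_left _ _).trans ((le_max_left _ _).trans hy)
  have hyy2 : y2 ≤ y := (le_max_right _ _).trans ((le_max_left _ _).trans hy)
  have hy1 : 1 ≤ y := (le_max_left _ _).trans ((le_max_right _ _).trans hy)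
  have hymk : m ^ k ≤ y := (le_max_right _ _).trans ((le_max_right _ _).trans hy)
  set N := Ny d m y with hN
  have hNN := hy2 y hyy2
  have hN2 : N2 ≤ N := (le_max_left _ _).trans hNN
  have hN3 : N3 ≤ N := (le_max_left _ _).trans ((le_max_right _ _).trans hNN)
  have hN4' : (N4 : ℝ) ≤ N := by
    exact_mod_cast (le_max_right _ _).trans ((le_max_right _ _).trans hNN)
  have hbig := ny_big hd hdm (m := m) hy1
  rw [← hN] at hbig
  have hP2 := h2 N hN2 y hbig B hB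
  have hP3 := h3 N hN3 y hbig
  obtain ⟨hM1, hM2⟩ := mass_bounds (m := m) hg hy1 N
  set A0 := lo d m y N with hA0
  set A1 := hi d m y N with hA1
  set Λ := mass A0 A1 with hΛ
  rw [← hgdef] at hM1 hM2
  have hΛbig : 4 / ε' ≤ Λ := by
    have h4 : 4 / ε' + 1 ≤ g * N := by
      have h5 := hN4.trans hN4'
      rw [div_le_iff₀ hg] at h5
      linarith
    linarith
  have hΛ0 : 0 < Λ := lt_of_lt_of_le (by positivity) hΛbig
  obtain ⟨hS0, hS2⟩ := sum_fk_div (r := r) hd (by omega : 1 ≤ m) hco hy1 hymk hB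
  set S := ∑ b ∈ B, fk d m r k b / b with hS
  have hsum := sum_dens_ge hd hdm hco hr hg hmix hB J
  set D := ∑ b ∈ B, dens (Pr d m r b) with hD
  -- the comparison with `sm`
  have hcmp : ∀ j ∈ Finset.range J, sm A0 A1 ({n | j + 1 ≤ hits d m r B n}.indicator fun _ => 1) -
      η * Λ ≤ dens {n | j + 1 ≤ hits d m r B n} * Λ := by
    intro j _
    have h5 := dens_sub_sm (A1 := A1) (lo_pos (d := d) (m := m) hy1 N)
      (fun A hA => hst y hyy1 _ (hits_inv hB (j + 1)) A hA)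
    have h6 := (abs_le.1 h5).2
    linarith
  have hcmp' := Finset.sum_le_sum hcmp
  rw [Finset.sum_sub_distrib, sum_sm_hits, Finset.sum_const, Finset.card_range, nsmul_eq_mul,
    ← Finset.sum_mul] at hcmp'
  -- the pointwise inequality
  have hpt : ∀ n : ℤ, (vis d m r (6 * N) B n : ℝ) - (1 / J) * (vis d m r (6 * N) (Yw y) n : ℝ) ^ 2 ≤
      ((min (hits d m r B n) J : ℕ) : ℝ) := by
    intro n
    have h5 := hits_ge_vis hper (6 * N) n
    have h6 : vis d m r (6 * N) B n ≤ vis d m r (6 * N) (Yw y) n :=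
      Finset.card_le_card (Finset.monotone_filter_right _ fun t _ h => hB h)
    have h7 : min (vis d m r (6 * N) B n) J ≤ min (hits d m r B n) J := min_le_min h5 le_rfl
    have h8 : ((min (vis d m r (6 * N) B n) J : ℕ) : ℝ) ≤ ((min (hits d m r B n) J : ℕ) : ℝ) := by
      exact_mod_cast h7
    refine le_trans ?_ h8
    have h9 : (vis d m r (6 * N) B n : ℝ) ≤ (vis d m r (6 * N) (Yw y) n : ℝ) := by
      exact_mod_cast h6
    set v := (vis d m r (6 * N) B n : ℝ) with hv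
    set V := (vis d m r (6 * N) (Yw y) n : ℝ) with hV
    have hv0 : 0 ≤ v := by positivity
    have hV2 : v ^ 2 ≤ V ^ 2 := pow_le_pow_left₀ hv0 h9 2
    rw [Nat.cast_min]
    refine le_min ?_ ?_
    · have : 0 ≤ 1 / (J : ℝ) * V ^ 2 := by positivity
      linarith
    · have h10 : v - J ≤ 1 / (J : ℝ) * v ^ 2 := by
        rw [one_div, inv_mul_eq_div, le_div_iff₀ hJ0]
        nlinarith [sq_nonneg (v - J), mul_nonneg hv0 hJ0.le]
      have h11 : 1 / (J : ℝ) * v ^ 2 ≤ 1 / (J : ℝ) * V ^ 2 :=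
        mul_le_mul_of_nonneg_left hV2 (by positivity)
      linarith
  have hsm := sm_mono (A0 := A0) (A1 := A1) hpt
  rw [sm_sub, sm_mul] at hsm
  -- conclusion
  have hJC : 1 / (J : ℝ) * sm A0 A1 (fun n => (vis d m r (6 * N) (Yw y) n : ℝ) ^ 2) ≤
      (ε' / 8) * N := by
    have hN0 : (0 : ℝ) ≤ N := by positivity
    calc _ ≤ 1 / (J : ℝ) * (C * N) := mul_le_mul_of_nonneg_left hP3 (by positivity)
      _ = C / J * N := by ring
      _ ≤ _ := mul_le_mul_of_nonneg_right hCJ hN0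
  have hDΛ : (∑ j ∈ Finset.range J, dens {n | j + 1 ≤ hits d m r B n}) * Λ ≤ D * Λ :=
    mul_le_mul_of_nonneg_right hsum hΛ0.le
  have hX : N * (S - ε' / 4) - J * (η * Λ) ≤ D * Λ := by
    have e1 : (N : ℝ) * (S - ε' / 4) = N * (S - ε' / 8) - ε' / 8 * N := by ring
    linarith
  have hX2 : g * N * (S - ε' / 4) - ε' / 8 * Λ ≤ g * D * Λ := by
    have h5 := mul_le_mul_of_nonneg_left hX hg.le
    have e1 : g * (N * (S - ε' / 4) - J * (η * Λ)) =
        g * N * (S - ε' / 4) - (g * (J * η)) * Λ := by ring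
    rw [e1, hgJη] at h5
    linarith
  have hX3 : Λ * (S - ε' / 4) - 2 ≤ g * N * (S - ε' / 4) := by
    have h5 : |(g * N - Λ) * (S - ε' / 4)| ≤ 1 * 2 := by
      rw [abs_mul]
      refine mul_le_mul ?_ ?_ (abs_nonneg _) zero_le_one
      · rw [abs_le]; constructor <;> linarith
      · rw [abs_le]; constructor <;> linarith
    have h6 := (abs_le.1 h5).1
    have e1 : (g * N - Λ) * (S - ε' / 4) = g * N * (S - ε' / 4) - Λ * (S - ε' / 4) := by ring
    linarith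
  have hX4 : 2 ≤ Λ * (5 * ε' / 8) := by
    rw [div_le_iff₀ hε0] at hΛbig
    linarith
  have hX5 : (S - ε') * Λ ≤ g * D * Λ := by
    have e1 : (S - ε') * Λ = Λ * (S - ε' / 4) - Λ * (5 * ε' / 8) - ε' / 8 * Λ := by ring
    linarith
  have hX6 := le_of_mul_le_mul_right hX5 hΛ0
  have hεε : ε' ≤ ε := min_le_left _ _
  linarith

end Pool.Agent.Helper91.PL
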