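import Pool.Agent.Helper91.PL.Defs

/-!
# Block PL-OM: the weights

`om A0 A1 n` is the sum of `1 / A ^ 2` over the integers `A` with `max (A0, n / 2 + 1) ≤ A ≤ min (n, A1 - 1)`
(`n / 2` rounded down). Put `p = n / 2`.
* `om_le`: `∑_{A = p+1}^{n} 1 / A ^ 2 ≤ ∑ (1 / (A - 1) - 1 / A) = 1 / p - 1 / n`, and `p ≥ (n - 1) / 2`.
* `le_om`: all `A` with `p + 1 ≤ A ≤ n` belong to `[A0, A1)`, and
  `∑_{A = p+1}^{n} 1 / A ^ 2 ≥ ∑ (1 / A - 1 / (A + 1)) = 1 / (p + 1) - 1 / (n + 1) ≥ n / ((n + 1) (n + 2))`.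
* `sm_indicator`: exchange the sums; `fd G A = (number of n ∈ G with A ≤ n < 2 A) / A`.
* `mass_bounds`: `log (A1 / A0) ≤ ∑_{A = A0}^{A1 - 1} 1 / A ≤ 1 + log ((A1 - 1) / A0)`.
-/

set_option autoImplicit false

namespace Pool.Agent.Helper91.PL

open Pool.Agent.Helper68.Moeller Pool.Agent.Helper52.Tao Pool.Agent.Helper8.ND
  Pool.Agent.Helper8.CL Filter Topology

variable {d m : ℕ} {r : ℤ → ℤ}

theorem h24_sum_sq_le {p N : ℕ} (hp : 1 ≤ p) (hN : p ≤ N) :
    ∑ A ∈ Finset.Ico (p + 1) (N + 1), 1 / (A : ℝ) ^ 2 ≤ 1 / (p : ℝ) - 1 / (N : ℝ) := by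
  induction N, hN using Nat.le_induction with
  | base => simp
  | succ N hN ih =>
    rw [Finset.sum_Ico_succ_top (by omega)]
    have hN0 : (0 : ℝ) < N := by
      have : 1 ≤ N := hp.trans hN
      exact_mod_cast this
    have h1 : 1 / ((N + 1 : ℕ) : ℝ) ^ 2 ≤ 1 / (N : ℝ) - 1 / ((N + 1 : ℕ) : ℝ) := by
      push_cast
      rw [div_sub_div _ _ hN0.ne' (by positivity), div_le_div_iff₀ (by positivity) (by positivity)]
      nlinarith
    linarith

theorem h24_le_sum_sq {p N : ℕ} (hN : p ≤ N) :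
    1 / ((p : ℝ) + 1) - 1 / ((N : ℝ) + 1) ≤ ∑ A ∈ Finset.Ico (p + 1) (N + 1), 1 / (A : ℝ) ^ 2 := by
  induction N, hN using Nat.le_induction with
  | base => simp
  | succ N hN ih =>
    rw [Finset.sum_Ico_succ_top (by omega)]
    have h1 : 1 / ((N : ℝ) + 1) - 1 / (((N + 1 : ℕ) : ℝ) + 1) ≤ 1 / ((N + 1 : ℕ) : ℝ) ^ 2 := by
      push_cast
      rw [div_sub_div _ _ (by positivity) (by positivity), div_le_div_iff₀ (by positivity) (by positivity)]
      nlinarith [Nat.cast_nonneg (α := ℝ) N]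
    linarith

theorem h24_log_le {a b : ℕ} (ha : 1 ≤ a) (hab : a ≤ b) :
    Real.log ((b : ℝ) / a) ≤ ∑ A ∈ Finset.Ico a b, 1 / (A : ℝ) := by
  have ha0 : (0 : ℝ) < a := by exact_mod_cast ha
  induction b, hab using Nat.le_induction with
  | base => simp [div_self ha0.ne']
  | succ b hb ih =>
    rw [Finset.sum_Ico_succ_top (by omega)]
    have hb0 : (0 : ℝ) < b := lt_of_lt_of_le ha0 (by exact_mod_cast hb)
    have h1 : Real.log (((b + 1 : ℕ) : ℝ) / b) ≤ 1 / (b : ℝ) := by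
      have h2 := Real.log_le_sub_one_of_pos (x := ((b + 1 : ℕ) : ℝ) / b) (by positivity)
      have h3 : ((b + 1 : ℕ) : ℝ) / b - 1 = 1 / (b : ℝ) := by
        push_cast
        field_simp
        ring
      linarith
    have h4 : ((b + 1 : ℕ) : ℝ) / a = (((b + 1 : ℕ) : ℝ) / b) * ((b : ℝ) / a) := by
      field_simp
    rw [h4, Real.log_mul (by positivity) (by positivity)]
    linarith

theorem h24_sum_inv_le {a b : ℕ} (ha : 1 ≤ a) (hab : a ≤ b) :
    ∑ A ∈ Finset.Ico a (b + 1), 1 / (A : ℝ) ≤ 1 / (a : ℝ) + Real.log ((b : ℝ) / a) := by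
  have ha0 : (0 : ℝ) < a := by exact_mod_cast ha
  induction b, hab using Nat.le_induction with
  | base => simp [div_self ha0.ne']
  | succ b hb ih =>
    rw [Finset.sum_Ico_succ_top (by omega)]
    have hb0 : (0 : ℝ) < b := lt_of_lt_of_le ha0 (by exact_mod_cast hb)
    have h1 : 1 / ((b + 1 : ℕ) : ℝ) ≤ Real.log (((b + 1 : ℕ) : ℝ) / b) := by
      have h2 := Real.one_sub_inv_le_log_of_pos (x := ((b + 1 : ℕ) : ℝ) / b) (by positivity)
      have h3 : 1 - (((b + 1 : ℕ) : ℝ) / b)⁻¹ = 1 / ((b + 1 : ℕ) : ℝ) := by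
        rw [inv_div]
        push_cast
        field_simp
        ring
      linarith
    have h4 : ((b + 1 : ℕ) : ℝ) / a = (((b + 1 : ℕ) : ℝ) / b) * ((b : ℝ) / a) := by
      field_simp
    rw [h4, Real.log_mul (by positivity) (by positivity)]
    linarith

theorem om_nonneg (A0 A1 : ℕ) (n : ℤ) : 0 ≤ om A0 A1 n := by
  unfold om
  exact Finset.sum_nonneg fun A _ => by positivity

theorem om_le {A0 A1 : ℕ} {n : ℤ} (hn : 3 ≤ n) : om A0 A1 n ≤ (1 + 4 / (n : ℝ)) / n := by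
  obtain ⟨N, rfl⟩ := Int.eq_ofNat_of_zero_le (by omega : 0 ≤ n)
  have hN : 3 ≤ N := by exact_mod_cast hn
  have h1 : om A0 A1 (N : ℤ) ≤ ∑ A ∈ Finset.Ico (N / 2 + 1) (N + 1), 1 / (A : ℝ) ^ 2 := by
    unfold om
    refine Finset.sum_le_sum_of_subset_of_nonneg ?_ (fun A _ _ => by positivity)
    intro A hA
    rw [Finset.mem_filter, Finset.mem_Ico] at hA
    rw [Finset.mem_Ico]
    have h2 := hA.2.1
    have h3 := hA.2.2
    constructor <;> omega
  have h2 := h24_sum_sq_le (p := N / 2) (N := N) (by omega) (by omega)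
  have hp : (0 : ℝ) < (N / 2 : ℕ) := by
    have : 1 ≤ N / 2 := by omega
    exact_mod_cast this
  have hp2 : (N : ℝ) ≤ 2 * ((N / 2 : ℕ) : ℝ) + 1 := by
    have : N ≤ 2 * (N / 2) + 1 := by omega
    exact_mod_cast this
  have hN0 : (3 : ℝ) ≤ N := by exact_mod_cast hN
  have h3 : 1 / ((N / 2 : ℕ) : ℝ) ≤ 2 / ((N : ℝ) - 1) := by
    rw [div_le_div_iff₀ hp (by linarith)]
    linarith
  have h4 : 2 / ((N : ℝ) - 1) - 1 / (N : ℝ) ≤ (1 + 4 / (N : ℝ)) / N := by
    have e : (1 + 4 / (N : ℝ)) / N - (2 / ((N : ℝ) - 1) - 1 / (N : ℝ))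
        = (2 * (N : ℝ) - 4) / ((N : ℝ) ^ 2 * ((N : ℝ) - 1)) := by
      have hx : (N : ℝ) - 1 ≠ 0 := by
        intro h
        linarith
      have hy : (N : ℝ) ≠ 0 := by
        intro h
        linarith
      field_simp
      ring
    have h5 : 0 ≤ (2 * (N : ℝ) - 4) / ((N : ℝ) ^ 2 * ((N : ℝ) - 1)) :=
      div_nonneg (by linarith) (mul_nonneg (by positivity) (by linarith))
    linarith
  rw [Int.cast_natCast]
  linarith

theorem le_om {A0 A1 : ℕ} {n : ℤ} (hn : 2 ≤ n) (h0 : 2 * (A0 : ℤ) ≤ n) (h1 : n < A1) :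
    1 / ((n : ℝ) + 4) ≤ om A0 A1 n := by
  obtain ⟨N, rfl⟩ := Int.eq_ofNat_of_zero_le (by omega : 0 ≤ n)
  have hN : 2 ≤ N := by exact_mod_cast hn
  have h1' : ∑ A ∈ Finset.Ico (N / 2 + 1) (N + 1), 1 / (A : ℝ) ^ 2 ≤ om A0 A1 (N : ℤ) := by
    unfold om
    refine Finset.sum_le_sum_of_subset_of_nonneg ?_ (fun A _ _ => by positivity)
    intro A hA
    rw [Finset.mem_Ico] at hA
    rw [Finset.mem_filter, Finset.mem_Ico]
    refine ⟨⟨?_, ?_⟩, ?_, ?_⟩ <;> omega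
  have h2 := h24_le_sum_sq (p := N / 2) (N := N) (by omega)
  have hp2 : 2 * ((N / 2 : ℕ) : ℝ) ≤ N := by
    have : 2 * (N / 2) ≤ N := by omega
    exact_mod_cast this
  have hp0 : (0 : ℝ) ≤ ((N / 2 : ℕ) : ℝ) := Nat.cast_nonneg _
  have hN0 : (2 : ℝ) ≤ N := by exact_mod_cast hN
  have h3 : 2 / ((N : ℝ) + 2) ≤ 1 / (((N / 2 : ℕ) : ℝ) + 1) := by
    rw [div_le_div_iff₀ (by linarith) (by linarith)]
    linarith
  have h4 : 1 / ((N : ℝ) + 4) ≤ 2 / ((N : ℝ) + 2) - 1 / ((N : ℝ) + 1) := by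
    have e : 2 / ((N : ℝ) + 2) - 1 / ((N : ℝ) + 1) - 1 / ((N : ℝ) + 4)
        = ((N : ℝ) - 2) / (((N : ℝ) + 2) * ((N : ℝ) + 1) * ((N : ℝ) + 4)) := by
      field_simp
      ring
    have h5 : 0 ≤ ((N : ℝ) - 2) / (((N : ℝ) + 2) * ((N : ℝ) + 1) * ((N : ℝ) + 4)) :=
      div_nonneg (by linarith) (by positivity)
    linarith
  rw [Int.cast_natCast]
  linarith

theorem om_eq_zero {A0 A1 : ℕ} {n : ℤ} (h : n < A0 ∨ 2 * (A1 : ℤ) ≤ n) : om A0 A1 n = 0 := by
  unfold om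
  rw [Finset.filter_eq_empty_iff.2, Finset.sum_empty]
  intro A hA
  rw [Finset.mem_Ico] at hA
  rintro ⟨h1, h2⟩
  omega

theorem sm_indicator {A0 A1 : ℕ} (h0 : 1 ≤ A0) (G : Set ℤ) :
    sm A0 A1 (G.indicator fun _ => 1) = ∑ A ∈ Finset.Ico A0 A1, fd G A / A := by
  classical
  unfold sm om
  simp_rw [Finset.sum_filter, Finset.sum_mul]
  rw [Finset.sum_comm]
  refine Finset.sum_congr rfl fun A hA => ?_
  rw [Finset.mem_Ico] at hA
  have hA0 : (0 : ℝ) < A := by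
    have : 1 ≤ A := h0.trans hA.1
    exact_mod_cast this
  have h1 : ∀ n ∈ Finset.Ico (A0 : ℤ) (2 * (A1 : ℤ)),
      (if (A : ℤ) ≤ n ∧ n < 2 * (A : ℤ) then 1 / (A : ℝ) ^ 2 else 0) * G.indicator (fun _ => (1 : ℝ)) n
        = if ((A : ℤ) ≤ n ∧ n < 2 * (A : ℤ) ∧ n ∈ G) then 1 / (A : ℝ) ^ 2 else 0 := by
    intro n _
    by_cases hG : n ∈ G
    · rw [Set.indicator_of_mem hG, mul_one]
      simp [hG]
    · rw [Set.indicator_of_notMem hG, mul_zero]
      simp [hG]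
  rw [Finset.sum_congr rfl h1, ← Finset.sum_filter, Finset.sum_const, nsmul_eq_mul]
  have h2 : {n : ℤ | (A : ℝ) ≤ n ∧ (n : ℝ) < 2 * (A : ℝ) ∧ n ∈ G} =
      ↑((Finset.Ico (A0 : ℤ) (2 * (A1 : ℤ))).filter
        (fun n => (A : ℤ) ≤ n ∧ n < 2 * (A : ℤ) ∧ n ∈ G)) := by
    ext n
    simp only [Set.mem_ofPred_eq, Finset.coe_filter, Finset.mem_Ico]
    have e1 : (A : ℝ) ≤ n ↔ (A : ℤ) ≤ n := by
      rw [← Int.cast_natCast, Int.cast_le]
    have e2 : (n : ℝ) < 2 * (A : ℝ) ↔ n < 2 * (A : ℤ) := by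
      rw [← Int.cast_lt (R := ℝ)]
      push_cast
      exact Iff.rfl
    rw [e1, e2]
    constructor
    · rintro ⟨a, b, c⟩
      refine ⟨⟨?_, ?_⟩, a, b, c⟩ <;> omega
    · rintro ⟨_, h⟩
      exact h
  unfold fd
  rw [h2, Set.ncard_coe_finset]
  field_simp

theorem mass_bounds (hg : 0 < gam d m) {y : ℕ} (hy : 1 ≤ y) (N : ℕ) :
    gam d m * N - 1 ≤ mass (lo d m y N) (hi d m y N) ∧
      mass (lo d m y N) (hi d m y N) ≤ gam d m * N + 1 := by
  have hy0 : (1 : ℝ) ≤ y := by exact_mod_cast hy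
  have hgN : 0 ≤ gam d m * N := mul_nonneg hg.le (Nat.cast_nonneg _)
  set g : ℝ := gam d m * N with hgdef
  have hexp : 1 ≤ Real.exp g := Real.one_le_exp hgN
  have hexp2 : Real.exp (2 * g) = Real.exp g * Real.exp g := by
    rw [← Real.exp_add]
    congr 1
    ring
  have hp1 : (1 : ℝ) ≤ (y : ℝ) * Real.exp g := by nlinarith
  have hlo : (y : ℝ) * Real.exp g ≤ lo d m y N := Nat.le_ceil _
  have hhi : (y : ℝ) * Real.exp (2 * g) ≤ hi d m y N := Nat.le_ceil _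
  have hlo' : (lo d m y N : ℝ) < (y : ℝ) * Real.exp g + 1 := Nat.ceil_lt_add_one (by positivity)
  have hhi' : (hi d m y N : ℝ) < (y : ℝ) * Real.exp (2 * g) + 1 :=
    Nat.ceil_lt_add_one (by positivity)
  have hlo1 : 1 ≤ lo d m y N := by
    have : (1 : ℝ) ≤ lo d m y N := hp1.trans hlo
    exact_mod_cast this
  have hle : lo d m y N ≤ hi d m y N := by
    refine Nat.ceil_mono ?_
    refine mul_le_mul_of_nonneg_left (Real.exp_le_exp.2 ?_) (by positivity)
    linarith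
  have hlo0 : (0 : ℝ) < lo d m y N := by linarith
  constructor
  · have h1 := h24_log_le hlo1 hle
    refine le_trans ?_ h1
    have h2 : Real.exp (g - 1) ≤ (hi d m y N : ℝ) / lo d m y N := by
      rw [le_div_iff₀ hlo0]
      have h3 : Real.exp (g - 1) * 2 ≤ Real.exp g := by
        rw [Real.exp_sub]
        have h4 : (2 : ℝ) ≤ Real.exp 1 := by
          have := Real.add_one_le_exp (1 : ℝ)
          linarith
        rw [div_mul_eq_mul_div, div_le_iff₀ (Real.exp_pos 1)]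
        exact mul_le_mul_of_nonneg_left h4 (Real.exp_pos g).le
      calc Real.exp (g - 1) * (lo d m y N : ℝ) ≤ Real.exp (g - 1) * (2 * ((y : ℝ) * Real.exp g)) := by
            refine mul_le_mul_of_nonneg_left ?_ (Real.exp_pos _).le
            linarith
        _ = (Real.exp (g - 1) * 2) * ((y : ℝ) * Real.exp g) := by ring
        _ ≤ Real.exp g * ((y : ℝ) * Real.exp g) :=
            mul_le_mul_of_nonneg_right h3 (by positivity)
        _ = (y : ℝ) * Real.exp (2 * g) := by rw [hexp2]; ring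
        _ ≤ _ := hhi
    calc g - 1 = Real.log (Real.exp (g - 1)) := (Real.log_exp _).symm
      _ ≤ _ := Real.log_le_log (Real.exp_pos _) h2
  · rcases hle.eq_or_lt with he | hlt
    · unfold mass
      rw [he, Finset.Ico_self, Finset.sum_empty]
      linarith
    · obtain ⟨b, hb⟩ : ∃ b, hi d m y N = b + 1 := ⟨hi d m y N - 1, by omega⟩
      have hlb : lo d m y N ≤ b := by omega
      have h1 := h24_sum_inv_le hlo1 hlb
      unfold mass
      rw [hb]
      refine h1.trans ?_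
      have h2 : 1 / (lo d m y N : ℝ) ≤ 1 := by
        rw [div_le_one hlo0]
        exact_mod_cast hlo1
      have hb0 : (0 : ℝ) < b := lt_of_lt_of_le hlo0 (by exact_mod_cast hlb)
      have hb1 : (b : ℝ) < (y : ℝ) * Real.exp (2 * g) := by
        rw [hb] at hhi'
        push_cast at hhi'
        linarith
      have h3 : (b : ℝ) / lo d m y N ≤ Real.exp g := by
        rw [div_le_iff₀ hlo0]
        calc (b : ℝ) ≤ (y : ℝ) * Real.exp (2 * g) := hb1.le
          _ = Real.exp g * ((y : ℝ) * Real.exp g) := by rw [hexp2]; ring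
          _ ≤ Real.exp g * (lo d m y N : ℝ) := mul_le_mul_of_nonneg_left hlo (Real.exp_pos g).le
      have h4 : Real.log ((b : ℝ) / lo d m y N) ≤ g := by
        calc Real.log ((b : ℝ) / lo d m y N) ≤ Real.log (Real.exp g) :=
              Real.log_le_log (by positivity) h3
          _ = g := Real.log_exp _
      linarith

end Pool.Agent.Helper91.PL
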