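import Pool.Agent.Helper91.PL.EX
import Pool.Agent.Helper91.PL.SW

/-!
# Block PL-P2U: the expected number of visits of the window, upper bound

Notation of block P2L. Fix a small `δ = δ(ε)`. By `sm_exact` with `h = 1`, for `t < 6 N`,
`sm (1[T^t n ∈ Yw y]) = ∑_{w ∈ W d t} ∑_{b ∈ Yw y, Hit (sg w) b w} om (pt w b)`. If `om (pt w b) ≠ 0`,
then `lo ≤ pt w b < 2 hi` (`om_eq_zero`), `om (pt w b) ≤ (1 + 4 / pt) / pt ≤ (1 + δ) m ^ sg w / (d ^ t b)`
(`om_le`, `pt_bound`, `pt w b ≥ lo ≥ y`, `y` large), and (`pt_bound`)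
`e ^ (g N) / 4 ≤ d ^ t / m ^ sg w ≤ 4 e ^ (2 g N)` (**). The `b` with `Hit (sg w) b w` lie in one class
modulo `m ^ sg w`, so by `sum_inv_class`
`sm (1[T^t n ∈ Yw y]) ≤ (1 + δ) (log 2 + m ^ t / y) P_t`, `P_t = cW d t ((**)) / d ^ t`.
As `log (d ^ t / m ^ s) = g t - μ (s - q t)`, the condition (**) implies for `t ≤ N (1 - δ)`
`q t - s ≥ (g δ N - log 4) / μ ≥ g δ N / (2 μ)` and for `t ≥ 2 N (1 + δ)`
`s - q t ≥ (2 g δ N - log 4) / μ ≥ g δ N / (2 μ)` (`N ≥ N0`), so that by `chebyshev`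
`P_t ≤ t / (g δ N / (2 μ)) ^ 2 ≤ 24 μ ^ 2 / (g ^ 2 δ ^ 2 N)`; for the other `t` use `P_t ≤ 1`. Hence
`∑_{t < 6 N} P_t ≤ N (1 + 3 δ) + 2 + 144 μ ^ 2 / (g ^ 2 δ ^ 2)`.
-/

set_option autoImplicit false

namespace Pool.Agent.Helper91.PL

open Pool.Agent.Helper68.Moeller Pool.Agent.Helper52.Tao Pool.Agent.Helper8.ND
  Pool.Agent.Helper8.CL Filter Topology

variable {d m : ℕ} {r : ℤ → ℤ}

namespace P2U30

theorem sm_vis (A0 A1 τ : ℕ) (B : Finset ℤ) :
    sm A0 A1 (fun n => (vis d m r τ B n : ℝ)) =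
      ∑ t ∈ Finset.range τ, sm A0 A1 (fun n => if (T d m r)^[t] n ∈ B then (1 : ℝ) else 0) := by
  unfold sm
  rw [Finset.sum_comm]
  refine Finset.sum_congr rfl fun n _ => ?_
  rw [← Finset.mul_sum]
  congr 1
  simp only [vis, Finset.card_filter]
  push_cast
  rfl

/-- the condition (**) -/
def Cond (d m N t : ℕ) (w : List ℕ) : Prop :=
  Real.exp (gam d m * N) ≤ 4 * ((d : ℝ) ^ t / (m : ℝ) ^ sg w) ∧
    (d : ℝ) ^ t / (m : ℝ) ^ sg w ≤ 8 * Real.exp (2 * (gam d m * N))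

theorem term_le (hd : 2 ≤ d) (hdm : d < m) (hg : 0 < gam d m) {B₀ : ℕ}
    (hB : ∀ j : ℤ, 0 < j → j < (d : ℤ) → |r j| ≤ B₀) {δ : ℝ} (hδ : 0 < δ) (hδ1 : δ ≤ 1)
    {N y t : ℕ} (hy1 : (B₀ : ℝ) * (m : ℝ) ^ (6 * N) ≤ δ / 4 * y) (hy2 : 4 ≤ δ / 4 * (y : ℝ))
    (ht : t ≤ 6 * N) {w : List ℕ} (hw : w ∈ W d t) {b : ℤ} (hb : b ∈ Yw y)
    (hit : Hit d m r (sg w) b w) (hom : om (lo d m y N) (hi d m y N) (pt d m r w b) ≠ 0) :
    om (lo d m y N) (hi d m y N) (pt d m r w b) ≤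
        (1 + δ) * ((m : ℝ) ^ sg w / (d : ℝ) ^ t) * (1 / (b : ℝ)) ∧ Cond d m N t w := by
  set n : ℤ := pt d m r w b with hn
  have hm1 : (1 : ℝ) ≤ m := by exact_mod_cast (by omega : 1 ≤ m)
  have hd1 : (1 : ℝ) ≤ d := by exact_mod_cast (by omega : 1 ≤ d)
  have hm0 : (0 : ℝ) < m := by linarith
  have hd0 : (0 : ℝ) < d := by linarith
  rw [Yw, Finset.mem_Ico] at hb
  have hby : (y : ℝ) ≤ b := by exact_mod_cast hb.1
  have hby2 : (b : ℝ) < 2 * y := by exact_mod_cast hb.2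
  have hy16 : (16 : ℝ) ≤ y := by nlinarith
  have hrange : ¬ (n < (lo d m y N : ℤ) ∨ 2 * (hi d m y N : ℤ) ≤ n) := fun h =>
    hom (om_eq_zero h)
  push Not at hrange
  obtain ⟨hr1, hr2⟩ := hrange
  have hr1' : ((lo d m y N : ℕ) : ℝ) ≤ n := by exact_mod_cast hr1
  have hr2' : (n : ℝ) < 2 * ((hi d m y N : ℕ) : ℝ) := by exact_mod_cast hr2
  have hgN : 0 ≤ gam d m * N := by positivity
  have he1 : 1 ≤ Real.exp (gam d m * N) := Real.one_le_exp hgN
  have he2 : 1 ≤ Real.exp (2 * (gam d m * N)) := Real.one_le_exp (by linarith)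
  have hlo : (y : ℝ) * Real.exp (gam d m * N) ≤ lo d m y N := Nat.le_ceil _
  have hhi : ((hi d m y N : ℕ) : ℝ) < (y : ℝ) * Real.exp (2 * (gam d m * N)) + 1 :=
    Nat.ceil_lt_add_one (by positivity)
  have hy0 : (0 : ℝ) < y := by linarith
  have hye1 : (y : ℝ) * 1 ≤ y * Real.exp (gam d m * N) := mul_le_mul_of_nonneg_left he1 hy0.le
  have hye2 : (y : ℝ) * 1 ≤ y * Real.exp (2 * (gam d m * N)) :=
    mul_le_mul_of_nonneg_left he2 hy0.le
  have hny : (y : ℝ) ≤ n := by linarith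
  have hn0 : (0 : ℝ) < n := by linarith
  have hpb := pt_bound hd hdm hB hw hit
  rw [← hn] at hpb
  set X : ℝ := (d : ℝ) ^ t * b with hX
  set P : ℝ := (m : ℝ) ^ sg w with hP
  have hP0 : 0 < P := by positivity
  have hdt : 1 ≤ (d : ℝ) ^ t := one_le_pow₀ hd1
  have hdt0 : 0 < (d : ℝ) ^ t := by linarith
  have hb0 : (0 : ℝ) < b := by linarith
  have hX0 : 0 < X := by positivity
  have hyX : (y : ℝ) ≤ X := by
    have : 1 * (b : ℝ) ≤ (d : ℝ) ^ t * b := mul_le_mul_of_nonneg_right hdt hb0.le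
    linarith
  have hBm : (B₀ : ℝ) * (m : ℝ) ^ t ≤ δ / 4 * X := by
    have h1 : (m : ℝ) ^ t ≤ (m : ℝ) ^ (6 * N) := pow_le_pow_right₀ hm1 ht
    have h2 : (B₀ : ℝ) * (m : ℝ) ^ t ≤ B₀ * (m : ℝ) ^ (6 * N) :=
      mul_le_mul_of_nonneg_left h1 (Nat.cast_nonneg _)
    have h3 : δ / 4 * y ≤ δ / 4 * X := mul_le_mul_of_nonneg_left hyX (by linarith)
    linarith
  have hlow : (1 - δ / 4) * X ≤ P * n := by
    have := (abs_le.1 hpb).1
    linarith
  have hupp : P * n ≤ (1 + δ / 4) * X := by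
    have := (abs_le.1 hpb).2
    linarith
  refine ⟨?_, ?_, ?_⟩
  · have h1 := om_le (A0 := lo d m y N) (A1 := hi d m y N) (n := n) (by
      have : (3 : ℝ) ≤ n := by linarith
      exact_mod_cast this)
    refine h1.trans ?_
    have h2 : 4 / (n : ℝ) ≤ δ / 4 := by
      rw [div_le_iff₀ hn0]
      have : δ / 4 * (y : ℝ) ≤ δ / 4 * n := mul_le_mul_of_nonneg_left hny (by linarith)
      linarith
    have h3 : (1 + δ / 4) * X ≤ (1 + δ) * (P * n) := by
      have h4 : (1 + δ) * ((1 - δ / 4) * X) ≤ (1 + δ) * (P * n) :=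
        mul_le_mul_of_nonneg_left hlow (by linarith)
      have h5 : (1 + δ / 4) * X ≤ (1 + δ) * (1 - δ / 4) * X := by
        refine mul_le_mul_of_nonneg_right ?_ hX0.le
        nlinarith
      linarith
    calc (1 + 4 / (n : ℝ)) / n ≤ (1 + δ / 4) / n :=
          div_le_div_of_nonneg_right (by linarith) hn0.le
      _ ≤ (1 + δ) * P / X := by
          rw [div_le_div_iff₀ hn0 hX0]
          linarith
      _ = (1 + δ) * (P / (d : ℝ) ^ t) * (1 / (b : ℝ)) := by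
          rw [hX]
          field_simp
  · have h1 : P * ((y : ℝ) * Real.exp (gam d m * N)) ≤ P * n :=
      mul_le_mul_of_nonneg_left (by linarith) hP0.le
    have h2 : (1 + δ / 4) * X ≤ 2 * X := mul_le_mul_of_nonneg_right (by linarith) hX0.le
    have h3 : X ≤ (d : ℝ) ^ t * (2 * y) := mul_le_mul_of_nonneg_left hby2.le hdt0.le
    have h4 : (y : ℝ) * (P * Real.exp (gam d m * N)) ≤ y * (4 * (d : ℝ) ^ t) := by linarith
    have h5 := le_of_mul_le_mul_left h4 hy0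
    rw [← mul_div_assoc, le_div_iff₀ hP0]
    linarith
  · have h1 : P * n ≤ P * (4 * (y * Real.exp (2 * (gam d m * N)))) :=
      mul_le_mul_of_nonneg_left (by linarith) hP0.le
    have h2 : 1 / 2 * X ≤ (1 - δ / 4) * X := mul_le_mul_of_nonneg_right (by linarith) hX0.le
    have h3 : (d : ℝ) ^ t * y ≤ X := mul_le_mul_of_nonneg_left hby hdt0.le
    have h4 : (y : ℝ) * (d : ℝ) ^ t ≤ y * (8 * Real.exp (2 * (gam d m * N)) * P) := by linarith
    have h5 := le_of_mul_le_mul_left h4 hy0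
    rw [div_le_iff₀ hP0]
    exact h5

open Classical in
theorem sum_b_le (hd : 2 ≤ d) (hdm : d < m) (hco : Nat.Coprime m d) (hg : 0 < gam d m) {B₀ : ℕ}
    (hB : ∀ j : ℤ, 0 < j → j < (d : ℤ) → |r j| ≤ B₀) {δ : ℝ} (hδ : 0 < δ) (hδ1 : δ ≤ 1)
    {N y t : ℕ} (hy1 : (B₀ : ℝ) * (m : ℝ) ^ (6 * N) ≤ δ / 4 * y) (hy2 : 4 ≤ δ / 4 * (y : ℝ))
    (hy3 : (m : ℝ) ^ (6 * N) ≤ δ * y)
    (ht : t ≤ 6 * N) {w : List ℕ} (hw : w ∈ W d t) :
    ∑ b ∈ (Yw y).filter (fun b => Hit d m r (sg w) b w),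
        om (lo d m y N) (hi d m y N) (pt d m r w b) ≤
      if Cond d m N t w then (1 + δ) * (Real.log 2 + δ) / (d : ℝ) ^ t else 0 := by
  have hm1 : (1 : ℝ) ≤ m := by exact_mod_cast (by omega : 1 ≤ m)
  have hd1 : (1 : ℝ) ≤ d := by exact_mod_cast (by omega : 1 ≤ d)
  have hm0 : (0 : ℝ) < m := by linarith
  have hd0 : (0 : ℝ) < d := by linarith
  have hlog2 : 0 < Real.log 2 := Real.log_pos (by norm_num)
  have hy0 : (0 : ℝ) < y := by
    by_contra h
    have h1 : (y : ℝ) ≤ 0 := not_lt.1 h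
    have h2 : δ / 4 * (y : ℝ) ≤ 0 := mul_nonpos_of_nonneg_of_nonpos (by linarith) h1
    linarith
  have hy1' : 1 ≤ y := by
    have : 0 < y := by exact_mod_cast hy0
    omega
  by_cases hC : Cond d m N t w
  · rw [if_pos hC]
    have h1 : ∀ b ∈ (Yw y).filter (fun b => Hit d m r (sg w) b w),
        om (lo d m y N) (hi d m y N) (pt d m r w b) ≤
          (1 + δ) * ((m : ℝ) ^ sg w / (d : ℝ) ^ t) * (1 / (b : ℝ)) := by
      intro b hb
      rw [Finset.mem_filter] at hb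
      by_cases h0 : om (lo d m y N) (hi d m y N) (pt d m r w b) = 0
      · rw [h0]
        have : (0 : ℝ) < b := by
          have h2 := hb.1
          rw [Yw, Finset.mem_Ico] at h2
          have h3 : (y : ℝ) ≤ b := by exact_mod_cast h2.1
          linarith
        positivity
      · exact (term_le hd hdm hg hB hδ hδ1 hy1 hy2 ht hw hb.1 hb.2 h0).1
    refine (Finset.sum_le_sum h1).trans ?_
    rw [← Finset.mul_sum]
    have hms : (m : ℝ) ^ sg w ≤ (m : ℝ) ^ (6 * N) := by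
      refine pow_le_pow_right₀ hm1 ?_
      have h2 := sg_le_length w
      rw [length_of_mem_W hw] at h2
      omega
    have hP0 : 0 < (m : ℝ) ^ sg w := by positivity
    have hdt0 : 0 < (d : ℝ) ^ t := by positivity
    have h2 : ∑ b ∈ (Yw y).filter (fun b => Hit d m r (sg w) b w), 1 / (b : ℝ) ≤
        Real.log 2 / (m : ℝ) ^ sg w + 1 / y := by
      rcases Finset.eq_empty_or_nonempty ((Yw y).filter (fun b => Hit d m r (sg w) b w)) with
        he | ⟨c, hc⟩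
      · rw [he, Finset.sum_empty]
        positivity
      · rw [Finset.mem_filter] at hc
        have hM : 0 < m ^ sg w := Nat.pos_of_ne_zero (pow_ne_zero _ (by omega))
        have h3 := (sum_inv_class hM hy1' c).1
        push_cast at h3
        refine le_trans (Finset.sum_le_sum_of_subset_of_nonneg ?_ ?_) h3
        · intro b hb
          rw [Finset.mem_filter] at hb ⊢
          refine ⟨hb.1, ?_⟩
          have h4 : (m : ℤ) ^ sg w ∣ (d : ℤ) ^ w.length * (b - c) := by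
            have h5 := dvd_sub hb.2 hc.2
            have h6 : (d : ℤ) ^ w.length * b + Off d m r w -
                ((d : ℤ) ^ w.length * c + Off d m r w) = (d : ℤ) ^ w.length * (b - c) := by ring
            rwa [h6] at h5
          have h7 : IsCoprime ((m : ℤ) ^ sg w) ((d : ℤ) ^ w.length) :=
            IsCoprime.pow (Nat.isCoprime_iff_coprime.2 hco)
          exact h7.dvd_of_dvd_mul_left h4
        · intro b hb _
          rw [Finset.mem_filter, Yw, Finset.mem_Ico] at hb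
          have : (y : ℝ) ≤ b := by exact_mod_cast hb.1.1
          have : (0 : ℝ) < b := by linarith
          positivity
    have h3 : (m : ℝ) ^ sg w / y ≤ δ := by
      rw [div_le_iff₀ hy0]
      linarith
    calc (1 + δ) * ((m : ℝ) ^ sg w / (d : ℝ) ^ t) *
          ∑ b ∈ (Yw y).filter (fun b => Hit d m r (sg w) b w), 1 / (b : ℝ)
        ≤ (1 + δ) * ((m : ℝ) ^ sg w / (d : ℝ) ^ t) * (Real.log 2 / (m : ℝ) ^ sg w + 1 / y) :=
          mul_le_mul_of_nonneg_left h2 (by positivity)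
      _ = (1 + δ) * (Real.log 2 + (m : ℝ) ^ sg w / y) / (d : ℝ) ^ t := by
          field_simp
      _ ≤ (1 + δ) * (Real.log 2 + δ) / (d : ℝ) ^ t := by
          refine div_le_div_of_nonneg_right ?_ hdt0.le
          exact mul_le_mul_of_nonneg_left (by linarith) (by linarith)
  · rw [if_neg hC]
    refine le_of_eq (Finset.sum_eq_zero fun b hb => ?_)
    rw [Finset.mem_filter] at hb
    by_contra h0
    exact hC (term_le hd hdm hg hB hδ hδ1 hy1 hy2 ht hw hb.1 hb.2 h0).2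

open Classical in
theorem St_le (hd : 2 ≤ d) (hdm : d < m) (hco : Nat.Coprime m d) (hr : Admissible d m r)
    (hg : 0 < gam d m) {B₀ : ℕ}
    (hB : ∀ j : ℤ, 0 < j → j < (d : ℤ) → |r j| ≤ B₀) {δ : ℝ} (hδ : 0 < δ) (hδ1 : δ ≤ 1)
    {N y t : ℕ} (hy1 : (B₀ : ℝ) * (m : ℝ) ^ (6 * N) ≤ δ / 4 * y) (hy2 : 4 ≤ δ / 4 * (y : ℝ))
    (hy3 : (m : ℝ) ^ (6 * N) ≤ δ * y) (ht : t ≤ 6 * N) :
    sm (lo d m y N) (hi d m y N) (fun n => if (T d m r)^[t] n ∈ Yw y then (1 : ℝ) else 0) ≤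
      (1 + δ) * (Real.log 2 + δ) * (cW d t (Cond d m N t) / (d : ℝ) ^ t) := by
  have h1 := sm_exact hd hdm hco hr (lo d m y N) (hi d m y N) t (Yw y) (fun _ => 1)
  simp only [one_mul] at h1
  rw [h1]
  have h2 : ∑ b ∈ Yw y, ∑ w ∈ (W d t).filter (fun w => Hit d m r (sg w) b w),
        om (lo d m y N) (hi d m y N) (pt d m r w b) =
      ∑ w ∈ W d t, ∑ b ∈ (Yw y).filter (fun b => Hit d m r (sg w) b w),
        om (lo d m y N) (hi d m y N) (pt d m r w b) := by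
    simp only [Finset.sum_filter]
    exact Finset.sum_comm
  rw [h2]
  refine (Finset.sum_le_sum fun w hw =>
    sum_b_le hd hdm hco hg hB hδ hδ1 hy1 hy2 hy3 ht hw).trans ?_
  rw [cW_eq_sum, mul_div_assoc', Finset.mul_sum, Finset.sum_div]
  refine le_of_eq (Finset.sum_congr rfl fun w _ => ?_)
  split_ifs <;> ring

theorem log_quot (hd : 2 ≤ d) (hdm : d < m) (t s : ℕ) :
    Real.log ((d : ℝ) ^ t / (m : ℝ) ^ s) =
      gam d m * t - Real.log m * (s - (1 - 1 / (d : ℝ)) * t) := by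
  have hm0 : (0 : ℝ) < m := by exact_mod_cast (by omega : 0 < m)
  have hd0 : (0 : ℝ) < d := by exact_mod_cast (by omega : 0 < d)
  rw [Real.log_div (by positivity) (by positivity), Real.log_pow, Real.log_pow, gam]
  ring

/-- outside the middle range the condition is rare -/
theorem rare (hd : 2 ≤ d) (hdm : d < m) (hg : 0 < gam d m) {δ : ℝ} (hδ : 0 < δ) {N t : ℕ}
    (hN : 4 ≤ gam d m * δ * N) (ht : t ≤ 6 * N)
    (h : (t : ℝ) ≤ N * (1 - δ) ∨ 2 * N * (1 + δ) ≤ (t : ℝ)) :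
    cW d t (Cond d m N t) / (d : ℝ) ^ t ≤ 96 * Real.log m ^ 2 / (gam d m * δ) ^ 2 / N := by
  have hm0 : (0 : ℝ) < m := by exact_mod_cast (by omega : 0 < m)
  have hd0 : (0 : ℝ) < d := by exact_mod_cast (by omega : 0 < d)
  have hμ : 0 < Real.log m := Real.log_pos (by exact_mod_cast (by omega : 1 < m))
  have hN0 : (0 : ℝ) < N := by
    by_contra h0
    have h1 : (N : ℝ) ≤ 0 := not_lt.1 h0
    have h2 : gam d m * δ * N ≤ 0 := mul_nonpos_of_nonneg_of_nonpos (by positivity) h1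
    linarith
  set R : ℝ := gam d m * δ * N / (4 * Real.log m) with hR
  have hR0 : 0 < R := by positivity
  have h3 : cW d t (Cond d m N t) ≤
      cW d t (fun w => R < |(sg w : ℝ) - (1 - 1 / (d : ℝ)) * t|) := by
    refine cW_mono fun w _ hw => ?_
    obtain ⟨h1, h2⟩ := hw
    have hq0 : 0 < (d : ℝ) ^ t / (m : ℝ) ^ sg w := by positivity
    have hlog4 : Real.log 4 < 2 := by
      have h4 : Real.log 4 = 2 * Real.log 2 := by
        rw [show (4 : ℝ) = 2 ^ 2 by norm_num, Real.log_pow]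
        push_cast
        ring
      have := Real.log_two_lt_d9
      rw [h4]
      linarith
    have hlog8 : Real.log 8 < 5 / 2 := by
      have h4 : Real.log 8 = 3 * Real.log 2 := by
        rw [show (8 : ℝ) = 2 ^ 3 by norm_num, Real.log_pow]
        push_cast
        ring
      have := Real.log_two_lt_d9
      rw [h4]
      linarith
    have a1 : gam d m * N ≤ Real.log 4 + Real.log ((d : ℝ) ^ t / (m : ℝ) ^ sg w) := by
      have := Real.log_le_log (Real.exp_pos _) h1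
      rwa [Real.log_exp, Real.log_mul (by norm_num) hq0.ne'] at this
    have a2 : Real.log ((d : ℝ) ^ t / (m : ℝ) ^ sg w) ≤ Real.log 8 + 2 * (gam d m * N) := by
      have := Real.log_le_log hq0 h2
      rwa [Real.log_mul (by norm_num) (Real.exp_pos _).ne', Real.log_exp] at this
    rw [log_quot hd hdm] at a1 a2
    have hRμ : R * Real.log m = gam d m * δ * N / 4 := by
      rw [hR]
      field_simp
    set z : ℝ := (sg w : ℝ) - (1 - 1 / (d : ℝ)) * t with hz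
    rcases h with h | h
    · have b1 : gam d m * t ≤ gam d m * (N * (1 - δ)) := mul_le_mul_of_nonneg_left h hg.le
      have b2 : R * Real.log m < (-z) * Real.log m := by linarith
      have b3 := lt_of_mul_lt_mul_right b2 hμ.le
      exact lt_of_lt_of_le b3 (neg_le_abs z)
    · have b1 : gam d m * (2 * N * (1 + δ)) ≤ gam d m * t := mul_le_mul_of_nonneg_left h hg.le
      have b2 : R * Real.log m < z * Real.log m := by linarith
      have b3 := lt_of_mul_lt_mul_right b2 hμ.le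
      exact lt_of_lt_of_le b3 (le_abs_self z)
  have h4 := h3.trans (chebyshev hd t hR0)
  rw [div_le_iff₀ (by positivity)]
  refine h4.trans ?_
  rw [mul_comm ((d : ℝ) ^ t)]
  refine mul_le_mul_of_nonneg_right ?_ (by positivity)
  have h5 : (t : ℝ) ≤ 6 * N := by exact_mod_cast ht
  calc (t : ℝ) / R ^ 2 ≤ 6 * N / R ^ 2 := div_le_div_of_nonneg_right h5 (by positivity)
    _ = 96 * Real.log m ^ 2 / (gam d m * δ) ^ 2 / N := by
        rw [hR]
        field_simp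
        ring

end P2U30

open P2U30 in
theorem p2_up (hd : 2 ≤ d) (hdm : d < m) (hco : Nat.Coprime m d) (hr : Admissible d m r)
    (hg : 0 < gam d m) {ε : ℝ} (hε : 0 < ε) :
    ∃ N0 : ℕ, ∀ N : ℕ, N0 ≤ N → ∀ y : ℕ, ((d : ℝ) * m) ^ (100 * N) ≤ y →
      sm (lo d m y N) (hi d m y N) (fun n => (vis d m r (6 * N) (Yw y) n : ℝ)) ≤
        N * (Real.log 2 + ε) := by
  classical
  obtain ⟨B₀, hB⟩ := FL_exists_B d r
  obtain ⟨δ, hδ, hδ4, hδε⟩ : ∃ δ : ℝ, 0 < δ ∧ δ ≤ 1 / 4 ∧ 7 * δ ≤ ε :=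
    ⟨min (1 / 4) (ε / 7), lt_min (by norm_num) (by linarith), min_le_left _ _, by
      have := min_le_right (1 / 4) (ε / 7)
      linarith⟩
  set K₀ : ℝ := 96 * Real.log m ^ 2 / (gam d m * δ) ^ 2 with hK₀
  have hK₀0 : 0 ≤ K₀ := by positivity
  obtain ⟨N0, hN0⟩ := exists_nat_ge
    (1 + 4 * ((B₀ : ℝ) + 5) / δ + 4 / (gam d m * δ) + (1 + 6 * K₀) / δ)
  refine ⟨N0, fun N hN y hy => ?_⟩
  have hNR : 1 + 4 * ((B₀ : ℝ) + 5) / δ + 4 / (gam d m * δ) + (1 + 6 * K₀) / δ ≤ N :=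
    hN0.trans (by exact_mod_cast hN)
  have c0 : 0 ≤ 4 * ((B₀ : ℝ) + 5) / δ := by positivity
  have c1 : 0 ≤ 4 / (gam d m * δ) := by positivity
  have c2 : 0 ≤ (1 + 6 * K₀) / δ := by positivity
  have hN1 : 1 ≤ (N : ℝ) := by linarith
  have hNB : 4 * ((B₀ : ℝ) + 5) ≤ N * δ := by
    rw [← div_le_iff₀ hδ]
    linarith
  have hNg : 4 ≤ gam d m * δ * N := by
    have h1 : 4 / (gam d m * δ) ≤ N := by linarith
    rw [div_le_iff₀ (by positivity)] at h1
    linarith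
  have hNK : 1 + 6 * K₀ ≤ N * δ := by
    rw [← div_le_iff₀ hδ]
    linarith
  have hm1 : (1 : ℝ) ≤ m := by exact_mod_cast (by omega : 1 ≤ m)
  have hd1 : (1 : ℝ) ≤ d := by exact_mod_cast (by omega : 1 ≤ d)
  have hm2 : (2 : ℝ) ≤ m := by exact_mod_cast (by omega : 2 ≤ m)
  have hyN : (m : ℝ) ^ (6 * N) * N ≤ y := by
    refine le_trans ?_ hy
    have h1 : (m : ℝ) ≤ (d : ℝ) * m := by
      have : 1 * (m : ℝ) ≤ d * m := mul_le_mul_of_nonneg_right hd1 (by linarith)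
      linarith
    have h2 : (m : ℝ) ^ (100 * N) ≤ ((d : ℝ) * m) ^ (100 * N) :=
      pow_le_pow_left₀ (by linarith) h1 _
    refine le_trans ?_ h2
    rw [show 100 * N = 6 * N + 94 * N by ring, pow_add]
    refine mul_le_mul_of_nonneg_left ?_ (by positivity)
    have h3 : (N : ℝ) ≤ 2 ^ N := by exact_mod_cast Nat.lt_two_pow_self.le
    calc (N : ℝ) ≤ 2 ^ N := h3
      _ ≤ (m : ℝ) ^ N := pow_le_pow_left₀ (by norm_num) hm2 N
      _ ≤ (m : ℝ) ^ (94 * N) := pow_le_pow_right₀ hm1 (by omega)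
  have hm6 : 1 ≤ (m : ℝ) ^ (6 * N) := one_le_pow₀ hm1
  have hm60 : 0 < (m : ℝ) ^ (6 * N) := by linarith
  -- conditions on `y`
  have hyδ : (m : ℝ) ^ (6 * N) * (4 * ((B₀ : ℝ) + 5)) ≤ δ * y := by
    have h1 : (m : ℝ) ^ (6 * N) * (4 * ((B₀ : ℝ) + 5)) ≤ (m : ℝ) ^ (6 * N) * (N * δ) :=
      mul_le_mul_of_nonneg_left hNB hm60.le
    have h2 : δ * ((m : ℝ) ^ (6 * N) * N) ≤ δ * y := mul_le_mul_of_nonneg_left hyN hδ.le
    linarith
  have hB0 : (0 : ℝ) ≤ B₀ := Nat.cast_nonneg _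
  have hmB : 0 ≤ (m : ℝ) ^ (6 * N) * B₀ := by positivity
  have hy1 : (B₀ : ℝ) * (m : ℝ) ^ (6 * N) ≤ δ / 4 * y := by linarith
  have hy2 : 4 ≤ δ / 4 * (y : ℝ) := by linarith
  have hy3 : (m : ℝ) ^ (6 * N) ≤ δ * y := by linarith
  have hlog2 : 0 < Real.log 2 := Real.log_pos (by norm_num)
  have hlog2' : Real.log 2 ≤ 3 / 4 := by
    have := Real.log_two_lt_d9
    linarith
  rw [sm_vis]
  set c : ℝ := (1 + δ) * (Real.log 2 + δ) with hc
  have hc0 : 0 ≤ c := by positivity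
  have hPt : ∀ t ∈ Finset.range (6 * N), cW d t (Cond d m N t) / (d : ℝ) ^ t ≤
      (if (N : ℝ) * (1 - δ) < t ∧ (t : ℝ) < 2 * N * (1 + δ) then 1 else 0) + K₀ / N := by
    intro t ht
    rw [Finset.mem_range] at ht
    have hKN : 0 ≤ K₀ / N := by positivity
    split_ifs with h
    · have h1 : cW d t (Cond d m N t) / (d : ℝ) ^ t ≤ 1 := by
        rw [div_le_one (by positivity)]
        exact cW_le_pow d t _
      linarith
    · rw [zero_add]
      refine rare hd hdm hg hδ hNg ht.le ?_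
      by_contra h1
      push Not at h1
      exact h ⟨h1.1, h1.2⟩
  have hcount : ((((Finset.range (6 * N)).filter
      (fun t : ℕ => (N : ℝ) * (1 - δ) < t ∧ (t : ℝ) < 2 * N * (1 + δ))).card : ℕ) : ℝ) ≤
      N * (1 + 3 * δ) + 1 := by
    have h1 : (Finset.range (6 * N)).filter
        (fun t : ℕ => (N : ℝ) * (1 - δ) < t ∧ (t : ℝ) < 2 * N * (1 + δ)) ⊆
        Finset.Icc ⌈(N : ℝ) * (1 - δ)⌉₊ ⌊2 * (N : ℝ) * (1 + δ)⌋₊ := by
      intro t ht
      rw [Finset.mem_filter] at ht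
      rw [Finset.mem_Icc]
      exact ⟨Nat.ceil_le.2 ht.2.1.le, Nat.le_floor ht.2.2.le⟩
    have h2 := Finset.card_le_card h1
    rw [Nat.card_Icc] at h2
    have h3 : (⌊2 * (N : ℝ) * (1 + δ)⌋₊ : ℝ) ≤ 2 * N * (1 + δ) := Nat.floor_le (by positivity)
    have h4 : (N : ℝ) * (1 - δ) ≤ ⌈(N : ℝ) * (1 - δ)⌉₊ := Nat.le_ceil _
    rcases Nat.lt_or_ge (⌊2 * (N : ℝ) * (1 + δ)⌋₊ + 1) ⌈(N : ℝ) * (1 - δ)⌉₊ with h5 | h5
    · have h6 : ((Finset.range (6 * N)).filter
          (fun t : ℕ => (N : ℝ) * (1 - δ) < t ∧ (t : ℝ) < 2 * N * (1 + δ))).card = 0 := by omega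
      rw [h6]
      push_cast
      positivity
    · have h6 : ((((Finset.range (6 * N)).filter
          (fun t : ℕ => (N : ℝ) * (1 - δ) < t ∧ (t : ℝ) < 2 * N * (1 + δ))).card : ℕ) : ℝ) ≤
          ((⌊2 * (N : ℝ) * (1 + δ)⌋₊ + 1 - ⌈(N : ℝ) * (1 - δ)⌉₊ : ℕ) : ℝ) := by exact_mod_cast h2
      rw [Nat.cast_sub h5] at h6
      push_cast at h6
      linarith
  have hsum : ∑ t ∈ Finset.range (6 * N), cW d t (Cond d m N t) / (d : ℝ) ^ t ≤
      N * (1 + 4 * δ) := by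
    refine (Finset.sum_le_sum hPt).trans ?_
    rw [Finset.sum_add_distrib, ← Finset.sum_filter, Finset.sum_const, Finset.sum_const,
      Finset.card_range, nsmul_eq_mul, nsmul_eq_mul, mul_one]
    have h1 : ((6 * N : ℕ) : ℝ) * (K₀ / N) = 6 * K₀ := by
      push_cast
      field_simp
    rw [h1]
    linarith
  calc ∑ t ∈ Finset.range (6 * N),
        sm (lo d m y N) (hi d m y N) (fun n => if (T d m r)^[t] n ∈ Yw y then (1 : ℝ) else 0)
      ≤ ∑ t ∈ Finset.range (6 * N), c * (cW d t (Cond d m N t) / (d : ℝ) ^ t) := by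
        refine Finset.sum_le_sum fun t ht => ?_
        rw [Finset.mem_range] at ht
        exact St_le hd hdm hco hr hg hB hδ (by linarith) hy1 hy2 hy3 ht.le
    _ = c * ∑ t ∈ Finset.range (6 * N), cW d t (Cond d m N t) / (d : ℝ) ^ t := by
        rw [Finset.mul_sum]
    _ ≤ c * (N * (1 + 4 * δ)) := mul_le_mul_of_nonneg_left hsum hc0
    _ = N * (c * (1 + 4 * δ)) := by ring
    _ ≤ N * (Real.log 2 + ε) := by
        refine mul_le_mul_of_nonneg_left ?_ (by linarith)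
        have h1 : (1 + δ) * (1 + 4 * δ) ≤ 1 + 6 * δ := by nlinarith
        have h2 : c * (1 + 4 * δ) = (Real.log 2 + δ) * ((1 + δ) * (1 + 4 * δ)) := by
          rw [hc]
          ring
        have h3 : (Real.log 2 + δ) * ((1 + δ) * (1 + 4 * δ)) ≤ (Real.log 2 + δ) * (1 + 6 * δ) :=
          mul_le_mul_of_nonneg_left h1 (by linarith)
        have h4 : (Real.log 2 + δ) * (6 * δ) ≤ 1 * (6 * δ) :=
          mul_le_mul_of_nonneg_right (by linarith) (by linarith)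
        rw [h2]
        linarith

end Pool.Agent.Helper91.PL
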