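import Pool.Agent.Helper91.PL.U2b
import Pool.Agent.Helper91.PL.VC

/-!
# Block PL-QB: few points return to the window many times

`N = Ny d m y`, `Y = Yw y`. Let `b ∈ QJ θ J y` with the time `j`. If `j ≤ 6 N`, then
`J ≤ vis j Y b ≤ vis (6 N) Y b`. If `j > 6 N`, then `T^(6 N) b ∈ Rt (y ^ θ) y` (with the time `j - 6 N`).
The number of `b ∈ Y` with `J ≤ vis (6 N) Y b` is `≤ (1 / J) ∑_{i < 6 N} #{b ∈ Y : T^i b ∈ Y} ≤
(1 / J) ∑_i C e ^ (-c i) y` (`vc` with `s = 0`; `(2 B₀ + 1) (d m) ^ i ≤ y` by `ny_big` for `y` large). The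
second case: `fd (pre (6 N) (Rt (y ^ θ) y)) y ≤ η` (`u2b` with `A = y`; `fd G y = #(G ∩ [y, 2 y)) / y`).
-/

set_option autoImplicit false

namespace Pool.Agent.Helper91.PL

open Pool.Agent.Helper68.Moeller Pool.Agent.Helper52.Tao Pool.Agent.Helper8.ND
  Pool.Agent.Helper8.CL Filter Topology

variable {d m : ℕ} {r : ℤ → ℤ}

/-- `vis` is monotone in the time. -/
theorem qb_vis_mono (d m : ℕ) (r : ℤ → ℤ) (B : Finset ℤ) (n : ℤ) {s t : ℕ} (h : s ≤ t) :
    vis d m r s B n ≤ vis d m r t B n := by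
  unfold vis
  exact Finset.card_le_card (Finset.filter_subset_filter _ (Finset.range_subset_range.2 h))

/-- First case: many visits before the time `τ`. -/
theorem qb_first (hd : 2 ≤ d) {B₀ : ℕ} {C c : ℝ} (hC : 0 < C) (hc : 0 < c)
    (hvc : ∀ (i s : ℕ) (c₀ : ℤ) (y : ℕ),
      (2 * (B₀ : ℝ) + 1) * (m : ℝ) ^ s * ((d : ℝ) * m) ^ i ≤ y →
        (((Yw y).filter (fun b => (m : ℤ) ^ s ∣ b - c₀ ∧ (T d m r)^[i] b ∈ Yw y)).card : ℝ) ≤
          C * Real.exp (-(c * i)) * (y / (m : ℝ) ^ s))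
    (y τ J : ℕ) (hJ : 1 ≤ J)
    (hbig : ∀ i, i < τ → (2 * (B₀ : ℝ) + 1) * ((d : ℝ) * m) ^ i ≤ y) :
    (((Yw y).filter (fun b => J ≤ vis d m r τ (Yw y) b)).card : ℝ) ≤
      (C / (1 - Real.exp (-c))) / J * y := by
  classical
  have hJ0 : (0 : ℝ) < J := by exact_mod_cast hJ
  have hx0 : 0 < Real.exp (-c) := Real.exp_pos _
  have hx1 : Real.exp (-c) < 1 := by rw [Real.exp_lt_one_iff]; linarith
  have h1 : (J : ℝ) * (((Yw y).filter (fun b => J ≤ vis d m r τ (Yw y) b)).card : ℝ) ≤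
      ∑ b ∈ Yw y, (vis d m r τ (Yw y) b : ℝ) := by
    calc (J : ℝ) * (((Yw y).filter (fun b => J ≤ vis d m r τ (Yw y) b)).card : ℝ)
        = ∑ b ∈ (Yw y).filter (fun b => J ≤ vis d m r τ (Yw y) b), (J : ℝ) := by
          rw [Finset.sum_const, nsmul_eq_mul, mul_comm]
      _ ≤ ∑ b ∈ (Yw y).filter (fun b => J ≤ vis d m r τ (Yw y) b), (vis d m r τ (Yw y) b : ℝ) := by
          apply Finset.sum_le_sum
          intro b hb
          exact_mod_cast (Finset.mem_filter.1 hb).2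
      _ ≤ ∑ b ∈ Yw y, (vis d m r τ (Yw y) b : ℝ) := by
          apply Finset.sum_le_sum_of_subset_of_nonneg (Finset.filter_subset _ _)
          intro b _ _
          exact Nat.cast_nonneg _
  have h2 : ∑ b ∈ Yw y, (vis d m r τ (Yw y) b : ℝ) =
      ∑ i ∈ Finset.range τ, (((Yw y).filter (fun b => (T d m r)^[i] b ∈ Yw y)).card : ℝ) := by
    have e1 : ∀ b, (vis d m r τ (Yw y) b : ℝ) =
        ∑ i ∈ Finset.range τ, if (T d m r)^[i] b ∈ Yw y then (1 : ℝ) else 0 := by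
      intro b
      unfold vis
      rw [Finset.sum_boole]
    have e2 : ∀ i, (((Yw y).filter (fun b => (T d m r)^[i] b ∈ Yw y)).card : ℝ) =
        ∑ b ∈ Yw y, if (T d m r)^[i] b ∈ Yw y then (1 : ℝ) else 0 := by
      intro i
      rw [Finset.sum_boole]
    simp_rw [e1, e2]
    exact Finset.sum_comm
  have h3 : ∀ i ∈ Finset.range τ,
      (((Yw y).filter (fun b => (T d m r)^[i] b ∈ Yw y)).card : ℝ) ≤
        C * y * Real.exp (-c) ^ i := by
    intro i hi
    have h4 := hvc i 0 0 y (by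
      rw [pow_zero, mul_one]; exact hbig i (Finset.mem_range.1 hi))
    have e3 : (Yw y).filter (fun b => (m : ℤ) ^ 0 ∣ b - 0 ∧ (T d m r)^[i] b ∈ Yw y) =
        (Yw y).filter (fun b => (T d m r)^[i] b ∈ Yw y) := by
      apply Finset.filter_congr
      intro b _
      simp
    rw [e3] at h4
    refine h4.trans (le_of_eq ?_)
    rw [pow_zero, div_one, ← Real.exp_nat_mul]
    have e4 : -(c * (i : ℝ)) = (i : ℝ) * -c := by ring
    rw [e4]; ring
  have h5 : ∑ i ∈ Finset.range τ, C * y * Real.exp (-c) ^ i ≤ C * y * (1 - Real.exp (-c))⁻¹ := by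
    rw [← Finset.mul_sum]
    apply mul_le_mul_of_nonneg_left _ (by positivity)
    rw [← tsum_geometric_of_lt_one hx0.le hx1]
    exact (summable_geometric_of_lt_one hx0.le hx1).sum_le_tsum _
      (fun _ _ => pow_nonneg hx0.le _)
  have h6 : (J : ℝ) * (((Yw y).filter (fun b => J ≤ vis d m r τ (Yw y) b)).card : ℝ) ≤
      C * y * (1 - Real.exp (-c))⁻¹ := by
    rw [h2] at h1
    exact h1.trans ((Finset.sum_le_sum h3).trans h5)
  have h7 : (C / (1 - Real.exp (-c))) / J * y = (C * y * (1 - Real.exp (-c))⁻¹) / J := by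
    rw [div_eq_mul_inv C]; ring
  rw [h7, le_div_iff₀ hJ0]
  linarith

theorem qb (hd : 2 ≤ d) (hdm : d < m) (hco : Nat.Coprime m d) (hr : Admissible d m r)
    (hg : 0 < gam d m) (hmix : Mixing d m r) :
    ∃ C : ℝ, 0 < C ∧ ∀ θ : ℝ, 0 < θ → θ ≤ 1 / 2 → ∀ J : ℕ, 1 ≤ J → ∀ η : ℝ, 0 < η →
      ∃ y0 : ℕ, ∀ y : ℕ, y0 ≤ y → ((QJ d m r θ J y).ncard : ℝ) ≤ (C / J + η) * y := by
  classical
  obtain ⟨B₀, hB⟩ := FL_exists_B d r
  obtain ⟨C, c, hC, hc, hvc⟩ := vc hd hdm hco hr hg hB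
  have hx1 : Real.exp (-c) < 1 := by rw [Real.exp_lt_one_iff]; linarith
  refine ⟨C / (1 - Real.exp (-c)), div_pos hC (by linarith), ?_⟩
  intro θ hθ hθ1 J hJ η hη
  obtain ⟨y1, hy1⟩ := u2b hd hdm hco hr hg hmix hθ hθ1 hη
  obtain ⟨y2, hy2⟩ := Filter.eventually_atTop.1
    ((ny_tendsto hd hdm).eventually (Filter.eventually_ge_atTop (2 * B₀ + 1)))
  refine ⟨max (max y1 y2) 1, fun y hy => ?_⟩
  have hyy1 : y1 ≤ y := (le_max_left _ _).trans ((le_max_left _ _).trans hy)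
  have hyy2 : y2 ≤ y := (le_max_right _ _).trans ((le_max_left _ _).trans hy)
  have hypos : 1 ≤ y := (le_max_right _ _).trans hy
  have hyR : (1 : ℝ) ≤ y := by exact_mod_cast hypos
  set N := Ny d m y with hN
  have hNB : 2 * B₀ + 1 ≤ N := hy2 y hyy2
  have hdR : (2 : ℝ) ≤ d := by exact_mod_cast hd
  have hmR : (2 : ℝ) ≤ m := by exact_mod_cast (by omega : 2 ≤ m)
  have hdm2 : (2 : ℝ) ≤ (d : ℝ) * m := by nlinarith
  have hbig : ∀ i, i < 6 * N → (2 * (B₀ : ℝ) + 1) * ((d : ℝ) * m) ^ i ≤ y := by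
    intro i hi
    have h1 : (2 * (B₀ : ℝ) + 1) ≤ ((d : ℝ) * m) ^ N := by
      calc (2 * (B₀ : ℝ) + 1) ≤ N := by exact_mod_cast hNB
        _ ≤ (2 : ℝ) ^ N := by exact_mod_cast (Nat.lt_two_pow_self (n := N)).le
        _ ≤ ((d : ℝ) * m) ^ N := pow_le_pow_left₀ (by norm_num) hdm2 N
    calc (2 * (B₀ : ℝ) + 1) * ((d : ℝ) * m) ^ i ≤ ((d : ℝ) * m) ^ N * ((d : ℝ) * m) ^ i :=
          mul_le_mul_of_nonneg_right h1 (by positivity)
      _ = ((d : ℝ) * m) ^ (N + i) := (pow_add _ _ _).symm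
      _ ≤ ((d : ℝ) * m) ^ (100 * N) := pow_le_pow_right₀ (by linarith) (by omega)
      _ ≤ y := ny_big hd hdm hypos
  have hfirst := qb_first (r := r) hd hC hc hvc y (6 * N) J hJ hbig
  -- second case
  have hhi : (y : ℝ) ≤ hi d m y N := by
    unfold hi
    refine le_trans ?_ (Nat.le_ceil _)
    have : (1 : ℝ) ≤ Real.exp (2 * (gam d m * N)) := by
      apply Real.one_le_exp
      have : (0 : ℝ) ≤ N := Nat.cast_nonneg _
      positivity
    nlinarith
  have hsec := hy1 y hyy1 y le_rfl hhi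
  have hy0 : (0 : ℝ) < y := by linarith
  unfold fd at hsec
  rw [div_le_iff₀ hy0] at hsec
  set S2 : Set ℤ := {n : ℤ | (y : ℝ) ≤ n ∧ (n : ℝ) < 2 * y ∧
    n ∈ pre d m r (6 * Ny d m y) (Rt d m r ((y : ℝ) ^ θ) y)} with hS2
  have hS2fin : S2.Finite := by
    apply (Finset.finite_toSet (Yw y)).subset
    intro n hn
    have h1 : (y : ℝ) ≤ n := hn.1
    have h2 : (n : ℝ) < 2 * y := hn.2.1
    have h3 : (y : ℤ) ≤ n := by exact_mod_cast h1
    have h4 : n < 2 * (y : ℤ) := by exact_mod_cast h2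
    unfold Yw
    rw [Finset.mem_coe, Finset.mem_Ico]
    exact ⟨h3, h4⟩
  have hsub : QJ d m r θ J y ⊆
      ((((Yw y).filter (fun b => J ≤ vis d m r (6 * N) (Yw y) b)) : Finset ℤ) : Set ℤ) ∪ S2 := by
    intro b hb
    obtain ⟨hbY, j, hj1, hj2, hj3⟩ := hb
    rcases le_or_gt j (6 * N) with h | h
    · left
      rw [Finset.mem_coe, Finset.mem_filter]
      exact ⟨hbY, hj1.trans (qb_vis_mono d m r (Yw y) b h)⟩
    · right
      have hbY' : (y : ℤ) ≤ b ∧ b < 2 * (y : ℤ) := by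
        unfold Yw at hbY
        exact Finset.mem_Ico.1 hbY
      refine ⟨by exact_mod_cast hbY'.1, by exact_mod_cast hbY'.2, ?_⟩
      have hit : ∀ i, (T d m r)^[i] ((T d m r)^[6 * N] b) = (T d m r)^[i + 6 * N] b := by
        intro i
        rw [Function.iterate_add_apply]
      refine ⟨j - 6 * N, ?_, ?_⟩
      · rw [hit, Nat.sub_add_cancel h.le]
        unfold Yw at hj2
        exact_mod_cast (Finset.mem_Ico.1 hj2).1
      · intro i hi
        rw [hit]
        exact hj3 _ (by omega)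
  have hcard : (QJ d m r θ J y).ncard ≤
      ((Yw y).filter (fun b => J ≤ vis d m r (6 * N) (Yw y) b)).card + S2.ncard := by
    calc (QJ d m r θ J y).ncard
        ≤ (((((Yw y).filter (fun b => J ≤ vis d m r (6 * N) (Yw y) b)) : Finset ℤ) : Set ℤ) ∪
            S2).ncard :=
          Set.ncard_le_ncard hsub ((Finset.finite_toSet _).union hS2fin)
      _ ≤ _ := by
          refine (Set.ncard_union_le _ _).trans ?_
          rw [Set.ncard_coe_finset]
  have hcard' : ((QJ d m r θ J y).ncard : ℝ) ≤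
      (((Yw y).filter (fun b => J ≤ vis d m r (6 * N) (Yw y) b)).card : ℝ) + (S2.ncard : ℝ) := by
    exact_mod_cast hcard
  calc ((QJ d m r θ J y).ncard : ℝ)
      ≤ (((Yw y).filter (fun b => J ≤ vis d m r (6 * N) (Yw y) b)).card : ℝ) + (S2.ncard : ℝ) :=
        hcard'
    _ ≤ C / (1 - Real.exp (-c)) / J * y + η * y := add_le_add hfirst hsec
    _ = (C / (1 - Real.exp (-c)) / J + η) * y := by ring

end Pool.Agent.Helper91.PL
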