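import Pool.Agent.Helper91.PL.HT

/-!
# Linearity of `sm`
-/

set_option autoImplicit false

namespace Pool.Agent.Helper91.PL

open Pool.Agent.Helper68.Moeller Pool.Agent.Helper52.Tao Pool.Agent.Helper8.ND
  Pool.Agent.Helper8.CL Filter Topology

variable {d m : ℕ} {r : ℤ → ℤ}

theorem sm_mono {A0 A1 : ℕ} {h h' : ℤ → ℝ} (H : ∀ n, h n ≤ h' n) : sm A0 A1 h ≤ sm A0 A1 h' :=
  Finset.sum_le_sum fun n _ => mul_le_mul_of_nonneg_left (H n) (om_nonneg _ _ _)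

theorem sm_sum {ι : Type} (A0 A1 : ℕ) (s : Finset ι) (h : ι → ℤ → ℝ) :
    sm A0 A1 (fun n => ∑ i ∈ s, h i n) = ∑ i ∈ s, sm A0 A1 (h i) := by
  unfold sm
  rw [Finset.sum_comm]
  exact Finset.sum_congr rfl fun n _ => Finset.mul_sum _ _ _

theorem sm_add (A0 A1 : ℕ) (h h' : ℤ → ℝ) :
    sm A0 A1 (fun n => h n + h' n) = sm A0 A1 h + sm A0 A1 h' := by
  unfold sm
  rw [← Finset.sum_add_distrib]
  exact Finset.sum_congr rfl fun n _ => mul_add _ _ _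

theorem sm_sub (A0 A1 : ℕ) (h h' : ℤ → ℝ) :
    sm A0 A1 (fun n => h n - h' n) = sm A0 A1 h - sm A0 A1 h' := by
  unfold sm
  rw [← Finset.sum_sub_distrib]
  exact Finset.sum_congr rfl fun n _ => mul_sub _ _ _

theorem sm_mul (A0 A1 : ℕ) (c : ℝ) (h : ℤ → ℝ) :
    sm A0 A1 (fun n => c * h n) = c * sm A0 A1 h := by
  unfold sm
  rw [Finset.mul_sum]
  exact Finset.sum_congr rfl fun n _ => by ring

/-- The sum of the indicators of `{j + 1 ≤ hits}`. -/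
theorem sum_sm_hits (A0 A1 : ℕ) (B : Finset ℤ) (J : ℕ) :
    ∑ j ∈ Finset.range J, sm A0 A1 ({n | j + 1 ≤ hits d m r B n}.indicator fun _ => 1) =
      sm A0 A1 (fun n => ((min (hits d m r B n) J : ℕ) : ℝ)) := by
  classical
  rw [← sm_sum]
  congr 1
  ext n
  simp only [Set.indicator_apply]
  rw [Finset.sum_boole]
  congr 1
  have h1 : (Finset.range J).filter (fun j => n ∈ {n | j + 1 ≤ hits d m r B n}) =
      Finset.range (min (hits d m r B n) J) := by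
    ext j
    simp only [Finset.mem_filter, Finset.mem_range, Set.mem_ofPred_eq, lt_min_iff]
    omega
  rw [h1, Finset.card_range]

theorem mem_Yw {y : ℕ} {b : ℤ} : b ∈ Yw y ↔ (y : ℤ) ≤ b ∧ b < 2 * (y : ℤ) := Finset.mem_Ico

theorem Yw_pos {y : ℕ} (hy : 1 ≤ y) {b : ℤ} (hb : b ∈ Yw y) :
    (0 : ℝ) < b ∧ (y : ℝ) ≤ b ∧ (b : ℝ) < 2 * y := by
  rw [mem_Yw] at hb
  refine ⟨by exact_mod_cast (by omega : (0 : ℤ) < b), by exact_mod_cast hb.1,
    by exact_mod_cast hb.2⟩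

/-- Larger `N` for larger `y`. -/
theorem ny_ge (hd : 2 ≤ d) (hdm : d < m) (N : ℕ) :
    ∃ y0 : ℕ, ∀ y : ℕ, y0 ≤ y → N ≤ Ny d m y :=
  eventually_atTop.1 ((ny_tendsto hd hdm).eventually_ge_atTop N)

theorem lo_pos {y : ℕ} (hy : 1 ≤ y) (N : ℕ) : 1 ≤ lo d m y N := by
  unfold lo
  rw [Nat.one_le_ceil_iff]
  have : (0 : ℝ) < y := by exact_mod_cast hy
  positivity

end Pool.Agent.Helper91.PL
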