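import Pool.Agent.Helper91.PL.Defs

/-!
# Block PL-ST1: the densities of a set invariant beyond `z` satisfy the equation of the walk beyond
`z ^ (1 + ε)`

As `good_gl` (Helper8/ND/Sets) but with `(1 + ε) log z` instead of `4 log z`. Use `flowg`
(Helper8/CL/FlowGen) with the set `G` and, as in the proof of `flowF` (Helper8/CL/Time; there with `SK`
sets, and `Q` large): `fd (pre (t + t) G) (e ^ u) = fd G (e ^ u)` and
`fd (pre t G) (e ^ u m ^ sg v / d ^ t) = fd G (...)` (`fd_congr`, `mem_iter`, `iter_gt`), provided that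
`C (d m) ^ (8 t) ≤ e ^ u` and `(2 d) ^ (3 t) Z ≤ e ^ u`, `Z = z + 1 + B₀`. Both hold for
`u ≥ (1 + ε) log z + K` and `t ≤ c u`, where `c` is so small that `c (3 log (2 d)) ≤ ε / (2 (1 + ε))` and
`8 c log (d m) ≤ 1 / 2`, and `K` is large (`log Z ≤ log z + log (B₀ + 2)`; we may assume `ε ≤ 1`). The
fields `nonneg`, `le_two`, `lip` of `Good` are proved as in `good_gl`.
-/

set_option autoImplicit false

namespace Pool.Agent.Helper91.PL

open Pool.Agent.Helper68.Moeller Pool.Agent.Helper52.Tao Pool.Agent.Helper8.ND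
  Pool.Agent.Helper8.CL Filter Topology

variable {d m : ℕ} {r : ℤ → ℤ}

theorem good_gl' (hd : 2 ≤ d) (hdm : d < m) (hco : Nat.Coprime m d) (hr : Admissible d m r)
    (hmix : Mixing d m r) {ε : ℝ} (hε : 0 < ε) :
    ∃ c C K : ℝ, 0 < c ∧ 0 < C ∧ 0 ≤ K ∧ ∀ z : ℝ, 1 ≤ z → ∀ G : Set ℤ, TInv d m r G z →
      Good d (Real.log m) (Real.log d) c C (K + (1 + ε) * Real.log z) (gl G) := by
  obtain ⟨C, hC, hflow⟩ := flowg hd hdm hco hr hmix
  obtain ⟨B, hB⟩ := FL_exists_B d r
  have hC0 : 0 < C := by linarith
  have hd2 : (2 : ℝ) ≤ d := by exact_mod_cast hd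
  have hm3 : (3 : ℝ) ≤ m := by exact_mod_cast (by omega : 3 ≤ m)
  have hd0 : (0 : ℝ) < d := by linarith
  have hm0 : (0 : ℝ) < m := by linarith
  have hq1 : 0 < Real.log ((d : ℝ) * m) := Real.log_pos (one_lt_mul_of_le_of_lt (by linarith) (by linarith))
  have hq2 : 0 < Real.log (2 * (d : ℝ)) := Real.log_pos (by linarith)
  have hB0 : (0 : ℝ) ≤ B := by positivity
  set L := Real.log ((d : ℝ) * m) with hLdef
  set L2 := Real.log (2 * (d : ℝ)) with hL2def
  -- the constant `c`
  set Q := 16 * L + 6 * L2 * (1 + ε) / ε with hQ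
  have hQ0 : 0 < Q := by positivity
  have hlC := Real.log_nonneg hC
  have hlB : 0 ≤ Real.log ((B : ℝ) + 2) := Real.log_nonneg (by linarith)
  refine ⟨1 / Q, C, 2 * Real.log C + 2 * Real.log ((B : ℝ) + 2), by positivity, hC0, by positivity, ?_⟩
  intro z hz G hG
  have hz0 : 0 < z := by linarith
  have hlz := Real.log_nonneg hz
  refine ⟨?_, ?_, ?_, ?_⟩
  · intro u
    unfold gl
    split_ifs
    · exact fd_nonneg G (Real.exp_pos u).le
    · exact le_rfl
  · intro u
    unfold gl
    split_ifs with hu
    · exact fd_le_two G (Real.one_le_exp hu)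
    · norm_num
  · intro u h hu hh hh2
    rw [gl_of_nonneg G hu, gl_of_nonneg G (by linarith), Real.exp_add, mul_comm]
    have hexp1 : 1 ≤ Real.exp h := Real.one_le_exp hh
    have hexp2 : Real.exp h ≤ 1 + 2 * h := by
      have h3 := Real.abs_exp_sub_one_sub_id_le (x := h) (by rw [abs_of_nonneg hh]; linarith)
      have h4 := (abs_le.1 h3).2
      have h4' : h ^ 2 ≤ h := by rw [sq]; exact mul_le_of_le_one_left hh (by linarith)
      linarith
    have h5 := fd_lip G (Real.one_le_exp hu) hexp1
    refine h5.trans ?_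
    have h6 : 2 / Real.exp u = 2 * Real.exp (-u) := by rw [Real.exp_neg]; rfl
    rw [h6]
    linarith
  · intro u hu t ht htu
    have ht0 : (0 : ℝ) < t := by exact_mod_cast ht
    have hdt : (0 : ℝ) < (d : ℝ) ^ t := by positivity
    have hεz : 0 ≤ ε * Real.log z := by positivity
    have hεz' : 0 ≤ (1 + ε) * Real.log z := mul_nonneg (by linarith) hlz
    have hu0 : 0 ≤ u := by linarith
    set Z := z + 1 + B with hZ
    have hZ1 : 2 ≤ Z := by linarith
    have htQ : t * Q ≤ u := by
      have h2 := mul_le_mul_of_nonneg_right htu hQ0.le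
      have e : 1 / Q * u * Q = u := by field_simp
      linarith
    have htQ' : t * Q = 16 * (t * L) + (3 * t * L2) * (2 * (1 + ε) / ε) := by
      rw [hQ]; field_simp; ring
    have htL : 0 ≤ t * L := by positivity
    have htL2 : 0 ≤ 3 * t * L2 := by positivity
    have h8t : 16 * (t * L) ≤ u := by
      have : 0 ≤ (3 * t * L2) * (2 * (1 + ε) / ε) := by positivity
      linarith
    have h3t : (3 * t * L2) * (2 * (1 + ε) / ε) ≤ u := by linarith
    -- the size of `a`
    have hs1 : C * ((d : ℝ) * m) ^ (8 * t) ≤ Real.exp u := by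
      have h2 : 0 < C * ((d : ℝ) * m) ^ (8 * t) := by positivity
      rw [← Real.log_le_iff_le_exp h2, Real.log_mul (by positivity) (by positivity), Real.log_pow,
        ← hLdef]
      push_cast
      linarith
    have hlZ : Real.log Z ≤ Real.log z + Real.log ((B : ℝ) + 2) := by
      rw [← Real.log_mul (by positivity) (by positivity)]
      apply Real.log_le_log (by linarith)
      rw [hZ]
      linarith [mul_nonneg (sub_nonneg.2 hz) (by linarith : (0 : ℝ) ≤ B + 1)]
    have hs2 : (2 * (d : ℝ)) ^ (3 * t) * Z ≤ Real.exp u := by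
      have h2 : 0 < (2 * (d : ℝ)) ^ (3 * t) * Z := by positivity
      rw [← Real.log_le_iff_le_exp h2, Real.log_mul (by positivity) (by positivity), Real.log_pow,
        ← hL2def]
      push_cast
      -- `3 t L2 ≤ ε u / (2 (1 + ε))`
      have h4 : 3 * t * L2 ≤ ε / (2 * (1 + ε)) * u := by
        have e : 3 * t * L2 = ε / (2 * (1 + ε)) * ((3 * t * L2) * (2 * (1 + ε) / ε)) := by
          field_simp
        rw [e]
        exact mul_le_mul_of_nonneg_left h3t (by positivity)
      have h5 : Real.log z + Real.log ((B : ℝ) + 2) ≤ (1 - ε / (2 * (1 + ε))) * u := by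
        have e : 1 - ε / (2 * (1 + ε)) = (2 + ε) / (2 * (1 + ε)) := by
          field_simp
          ring
        rw [e, div_mul_eq_mul_div, le_div_iff₀ (by positivity)]
        have h6 : (2 + ε) * (2 * Real.log ((B : ℝ) + 2) + (1 + ε) * Real.log z) ≤ (2 + ε) * u :=
          mul_le_mul_of_nonneg_left (by linarith) (by linarith)
        have h7 : 0 ≤ ε * ε * Real.log z := by positivity
        linarith
      linarith
    -- the iterates
    have hiter : ∀ n : ℤ, Real.exp u / (d : ℝ) ^ t ≤ n → ∀ j : ℕ, j ≤ t + t →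
        z < ((T d m r)^[j] n : ℝ) := by
      intro n hn
      refine iter_gt hd (by omega) hr hB (by linarith : z < Z) (by linarith) (by linarith) _ n ?_
      refine le_trans ?_ hn
      rw [le_div_iff₀ hdt]
      refine le_trans ?_ hs2
      have h2 : (d : ℝ) ^ t ≤ (2 * (d : ℝ)) ^ t := pow_le_pow_left₀ hd0.le (by linarith) t
      calc (2 * (d : ℝ)) ^ (t + t) * Z * (d : ℝ) ^ t
          ≤ (2 * (d : ℝ)) ^ (t + t) * Z * (2 * (d : ℝ)) ^ t := by gcongr
        _ = (2 * (d : ℝ)) ^ (3 * t) * Z := by ring
    have hexp0 := Real.exp_pos u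
    have hself : Real.exp u / (d : ℝ) ^ t ≤ Real.exp u :=
      div_le_self hexp0.le (one_le_pow₀ (by linarith))
    have h2 := hflow t ht (Real.exp u) hs1 G
    have e1 : fd (pre d m r (t + t) G) (Real.exp u) = fd G (Real.exp u) := by
      refine fd_congr fun n hn => ?_
      exact (mem_iter hG (t + t) n (hiter n (hself.trans hn))).symm
    have e2 : ∀ v ∈ W d t, fd (pre d m r t G) (Real.exp u * (m : ℝ) ^ sg v / (d : ℝ) ^ t) =
        gl G (u + sg v * Real.log m - t * Real.log d) := by
      intro v _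
      have e3 : Real.exp (u + sg v * Real.log m - t * Real.log d) =
          Real.exp u * (m : ℝ) ^ sg v / (d : ℝ) ^ t := by
        rw [Real.exp_sub, Real.exp_add, ← Real.log_pow, ← Real.log_pow, Real.exp_log (by positivity),
          Real.exp_log hdt]
      rw [gl_of_nonneg G, e3]
      · refine fd_congr fun n hn => ?_
        have h3 : ∀ j : ℕ, j ≤ t → z < ((T d m r)^[j] n : ℝ) := by
          intro j hj
          refine hiter n (le_trans ?_ hn) j (by omega)
          apply div_le_div_of_nonneg_right _ hdt.le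
          exact le_mul_of_one_le_right hexp0.le (one_le_pow₀ (by linarith))
        exact (mem_iter hG t n h3).symm
      · have h3 : Real.log d ≤ L := by
          rw [hLdef]
          apply Real.log_le_log hd0
          exact le_mul_of_one_le_right hd0.le (by linarith)
        have h4 : (t : ℝ) * Real.log d ≤ t * L := mul_le_mul_of_nonneg_left h3 ht0.le
        have h5 : 0 ≤ (sg v : ℝ) * Real.log m :=
          mul_nonneg (by positivity) (Real.log_nonneg (by linarith))
        linarith
    rw [e1, Finset.sum_congr rfl e2] at h2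
    rw [gl_of_nonneg G hu0]
    exact h2

end Pool.Agent.Helper91.PL
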