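import Pool.Agent.Helper91.PL.UPP
import Pool.Agent.Helper91.PL.LOW

/-!
# Block PL-TWO: the predecessor law in the windows
-/

set_option autoImplicit false

namespace Pool.Agent.Helper91.PL

open Pool.Agent.Helper68.Moeller Pool.Agent.Helper52.Tao Pool.Agent.Helper8.ND
  Pool.Agent.Helper8.CL Filter Topology

variable {d m : ℕ} {r : ℤ → ℤ}

theorem card_le_of_sum {y : ℕ} (hy : 1 ≤ y) {B : Finset ℤ} (hB : B ⊆ Yw y) {ε X : ℝ} (hε : 0 < ε)
    (h : ∑ b ∈ B, ε / (b : ℝ) ≤ X) : (B.card : ℝ) ≤ 2 * y * X / ε := by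
  have hy0 : (0 : ℝ) < y := by exact_mod_cast hy
  have h1 : (B.card : ℝ) * (ε / (2 * y)) ≤ X := by
    rw [← nsmul_eq_mul, ← Finset.sum_const]
    refine le_trans (Finset.sum_le_sum fun b hb => ?_) h
    have h2 := Yw_pos hy (hB hb)
    exact div_le_div_of_nonneg_left hε.le h2.1 h2.2.2.le
  rw [le_div_iff₀ hε]
  have h3 := mul_le_mul_of_nonneg_left h1 (by positivity : (0 : ℝ) ≤ 2 * y)
  have e : 2 * (y : ℝ) * (B.card * (ε / (2 * y))) = B.card * ε := by field_simp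
  linarith

open Classical in
theorem two (hd : 2 ≤ d) (hdm : d < m) (hco : Nat.Coprime m d)
    (hm : (m : ℝ) ≤ (d : ℝ) ^ ((d : ℝ) / ((d : ℝ) - 1))) (hr : Admissible d m r)
    (hg : 0 < gam d m) (hmix : Mixing d m r) {ε : ℝ} (hε : 0 < ε) :
    ∃ k0 : ℕ, ∀ k : ℕ, k0 ≤ k → ∃ y0 : ℕ, ∀ y : ℕ, y0 ≤ y →
      (((Yw y).filter (fun b : ℤ => ε < |gam d m * b * dens (Pr d m r b) - fk d m r k b|)).card : ℝ) ≤
        ε * y := by
  set ε' := min ε 1 with hε'
  have hε0 : 0 < ε' := lt_min hε one_pos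
  have hε1 : ε' ≤ 1 := min_le_right _ _
  have hεε : ε' ≤ ε := min_le_left _ _
  set ε2 := ε' ^ 2 / 100 with hε2
  have hε20 : 0 < ε2 := by positivity
  obtain ⟨k0, hk0⟩ := low_sum hd hdm hco hr hg hmix hε20
  refine ⟨k0, fun k hk => ?_⟩
  obtain ⟨y1, hlow⟩ := hk0 k hk
  have hm1 : (1 : ℝ) ≤ m := by exact_mod_cast (by omega : 1 ≤ m)
  have hM1 : (1 : ℝ) ≤ (m : ℝ) ^ k := one_le_pow₀ hm1
  set M := (m : ℝ) ^ k with hM
  have hM0 : 0 < M := by linarith
  set ε1 := ε' ^ 2 / (100 * M) with hε1'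
  have hε10 : 0 < ε1 := by positivity
  have hε1M : ε1 * M = ε2 := by rw [hε1', hε2]; field_simp
  have hε12 : ε1 ≤ ε2 := by
    rw [← hε1M]
    exact le_mul_of_one_le_right hε10.le hM1
  obtain ⟨y2, hupp⟩ := upp hd hdm hco hm hr hg hmix hε10
  obtain ⟨y3, hfs⟩ := fs (r := r) hd (by omega : 1 ≤ m) hco k hε10
  refine ⟨max (max y1 y2) (max y3 1), fun y hy => ?_⟩
  have hyy1 : y1 ≤ y := (le_max_left _ _).trans ((le_max_left _ _).trans hy)
  have hyy2 : y2 ≤ y := (le_max_right _ _).trans ((le_max_left _ _).trans hy)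
  have hyy3 : y3 ≤ y := (le_max_left _ _).trans ((le_max_right _ _).trans hy)
  have hy1 : 1 ≤ y := (le_max_right _ _).trans ((le_max_right _ _).trans hy)
  have hy0 : (0 : ℝ) < y := by exact_mod_cast hy1
  obtain ⟨Bad, hB1, hB2, hB3, hB4⟩ := hupp y hyy2
  have hlow' := hlow y hyy1
  have hfs' := (abs_le.1 (hfs y hyy3)).1
  set g := gam d m with hgdef
  set c : ℤ → ℝ := fun b => dens (Pr d m r b) with hc
  set f : ℤ → ℝ := fun b => fk d m r k b with hf
  set Y' := Yw y \ Bad with hY'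
  have hY'Y : Y' ⊆ Yw y := Finset.sdiff_subset
  -- the sets
  set B := Y'.filter (fun b : ℤ => g * b * c b < f b - ε') with hB
  set B' := Y'.filter (fun b : ℤ => f b + ε' < g * b * c b) with hB'
  have hBY : B ⊆ Y' := Finset.filter_subset _ _
  have hB'Y : B' ⊆ Y' := Finset.filter_subset _ _
  have hcover : (Yw y).filter (fun b : ℤ => ε < |g * b * dens (Pr d m r b) - fk d m r k b|) ⊆
      B ∪ B' ∪ Bad := by
    intro b hb
    rw [Finset.mem_filter] at hb
    obtain ⟨hb1, hb2⟩ := hb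
    by_cases hbad : b ∈ Bad
    · exact Finset.mem_union_right _ hbad
    · refine Finset.mem_union_left _ ?_
      have hbY' : b ∈ Y' := Finset.mem_sdiff.2 ⟨hb1, hbad⟩
      have hb3 : ε' < |g * b * c b - f b| := lt_of_le_of_lt hεε hb2
      rcases lt_abs.1 hb3 with h | h
      · refine Finset.mem_union_right _ (Finset.mem_filter.2 ⟨hbY', ?_⟩)
        linarith
      · refine Finset.mem_union_left _ (Finset.mem_filter.2 ⟨hbY', ?_⟩)
        linarith
  -- the lower part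
  have hBsum : ∑ b ∈ B, ε' / (b : ℝ) ≤ ε2 := by
    have h1 := hlow' B (hBY.trans hY'Y) (fun b hb => hB3 b (hBY hb))
    rw [Finset.mul_sum] at h1
    have h2 : ∑ b ∈ B, g * dens (Pr d m r b) ≤ ∑ b ∈ B, (f b - ε') / b := by
      refine Finset.sum_le_sum fun b hb => ?_
      have h3 := (Finset.mem_filter.1 hb).2
      have h4 := (Yw_pos hy1 (hY'Y (hBY hb))).1
      rw [le_div_iff₀ h4]
      have e : g * dens (Pr d m r b) * b = g * b * c b := by rw [hc]; ring
      rw [e]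
      exact h3.le
    have h3 : ∑ b ∈ B, (f b - ε') / (b : ℝ) = ∑ b ∈ B, f b / b - ∑ b ∈ B, ε' / (b : ℝ) := by
      rw [← Finset.sum_sub_distrib]
      exact Finset.sum_congr rfl fun b _ => sub_div _ _ _
    rw [h3] at h2
    linarith
  have hBcard := card_le_of_sum hy1 (hBY.trans hY'Y) hε0 hBsum
  -- the upper part
  have hBadsum : ∑ b ∈ Bad, f b / b ≤ ε2 := by
    have h1 : ∀ b ∈ Bad, f b / b ≤ M / y := by
      intro b hb
      have h4 := Yw_pos hy1 (hB1 hb)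
      have h5 : f b ≤ M := by
        have h6 := nu_le_one (d := d) (m := m) (r := r) k b
        calc f b = M * nu d m r k b := rfl
          _ ≤ M * 1 := mul_le_mul_of_nonneg_left h6 hM0.le
          _ = M := mul_one M
      calc f b / b ≤ M / b := div_le_div_of_nonneg_right h5 h4.1.le
        _ ≤ M / y := div_le_div_of_nonneg_left hM0.le hy0 h4.2.1
    refine (Finset.sum_le_card_nsmul _ _ _ h1).trans ?_
    rw [nsmul_eq_mul]
    calc (Bad.card : ℝ) * (M / y) ≤ ε1 * y * (M / y) :=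
          mul_le_mul_of_nonneg_right hB2 (by positivity)
      _ = ε1 * M := by field_simp
      _ = ε2 := hε1M
  have hB'sum : ∑ b ∈ B', ε' / (b : ℝ) ≤ 4 * ε2 := by
    have h1 : ∑ b ∈ B', (f b + ε') / (b : ℝ) ≤ ∑ b ∈ B', g * c b := by
      refine Finset.sum_le_sum fun b hb => ?_
      have h3 := (Finset.mem_filter.1 hb).2
      have h4 := (Yw_pos hy1 (hY'Y (hB'Y hb))).1
      rw [div_le_iff₀ h4]
      have e : g * c b * b = g * b * c b := by ring
      rw [e]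
      exact h3.le
    have h2 : ∑ b ∈ B', (f b + ε') / (b : ℝ) = ∑ b ∈ B', f b / b + ∑ b ∈ B', ε' / (b : ℝ) := by
      rw [← Finset.sum_add_distrib]
      exact Finset.sum_congr rfl fun b _ => add_div _ _ _
    have h3 : ∑ b ∈ Y' \ B', g * c b + ∑ b ∈ B', g * c b = ∑ b ∈ Y', g * c b :=
      Finset.sum_sdiff hB'Y
    have h4 : ∑ b ∈ Y' \ B', f b / b + ∑ b ∈ B', f b / b = ∑ b ∈ Y', f b / (b : ℝ) :=
      Finset.sum_sdiff hB'Y
    have h5 : ∑ b ∈ Y', f b / b + ∑ b ∈ Bad, f b / b = ∑ b ∈ Yw y, f b / (b : ℝ) :=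
      Finset.sum_sdiff hB1
    have h6 := hlow' (Y' \ B') (Finset.sdiff_subset.trans hY'Y)
      (fun b hb => hB3 b (Finset.sdiff_subset hb))
    rw [Finset.mul_sum] at h6 hB4
    have h7 : ∑ b ∈ Y', g * c b ≤ Real.log 2 + ε1 := hB4
    have h8 : ∑ b ∈ Y' \ B', f b / (b : ℝ) - ε2 ≤ ∑ b ∈ Y' \ B', g * c b := h6
    have h9 : -ε1 ≤ ∑ b ∈ Yw y, f b / (b : ℝ) - Real.log 2 := hfs'
    linarith
  have hB'card := card_le_of_sum hy1 (hB'Y.trans hY'Y) hε0 hB'sum
  -- conclusion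
  have hcard : (((Yw y).filter
      (fun b : ℤ => ε < |g * b * dens (Pr d m r b) - fk d m r k b|)).card : ℝ) ≤
      B.card + B'.card + Bad.card := by
    have h1 := (Finset.card_le_card hcover).trans
      ((Finset.card_union_le _ _).trans (Nat.add_le_add_right (Finset.card_union_le _ _) _))
    exact_mod_cast h1
  have e1 : 2 * (y : ℝ) * ε2 / ε' = ε' / 50 * y := by rw [hε2]; field_simp; ring
  have e2 : 2 * (y : ℝ) * (4 * ε2) / ε' = 4 * ε' / 50 * y := by rw [hε2]; field_simp; ring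
  rw [e1] at hBcard
  rw [e2] at hB'card
  have h5 : ε2 ≤ ε' / 100 := by
    rw [hε2]
    have : ε' ^ 2 ≤ ε' := by
      rw [sq]; exact mul_le_of_le_one_left hε0.le hε1
    linarith
  have h6 : ε1 * y ≤ ε' / 100 * y := mul_le_mul_of_nonneg_right (hε12.trans h5) hy0.le
  have h7 : ε' * y ≤ ε * y := mul_le_mul_of_nonneg_right hεε hy0.le
  have h8 : 0 < ε' * y := by positivity
  have e3 : ε' / 50 * (y : ℝ) = ε' * y / 50 := by ring
  have e4 : 4 * ε' / 50 * (y : ℝ) = 4 * (ε' * y) / 50 := by ring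
  have e5 : ε' / 100 * (y : ℝ) = ε' * y / 100 := by ring
  rw [e3] at hBcard
  rw [e4] at hB'card
  rw [e5] at h6
  linarith

end Pool.Agent.Helper91.PL
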