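import Pool.Agent.Helper91.PL.ST3

/-!
# Block PL-U2a: no return from `y ^ (1 - κ)` to `y` before going below `y ^ θ`

Notation: `g = gam d m`, `μ = log m`, `λ = log d`, `L = log y`, `z = y ^ θ`, `R = Rt z y`, `a = e ^ u`,
`a_v = a m ^ sg v / d ^ t`, `B₀` a bound of `r`. Upper bounds of `T^i n`: from `wd_spec`,
`|T^i n| ≤ (m / d) ^ i |n| + B₀ m ^ i` or, more simply, `|T n| ≤ m |n| + B₀`.
(0) If `2 A ≤ z` then `R ∩ [A, 2 A)` is empty.
(1) Words: for `d ^ t ≤ A` and a set `S` of words, the number of `n ∈ [A, 2 A)` with `wd t n ∈ S` is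
  `≤ 2 A |S| / d ^ t` (two `n` with the same word are congruent modulo `d ^ t`).
(2) Base: choose `c₀ > 0` small and `θ₁ = θ (1 + g c₀ / 8)`. For `z / 2 ≤ A ≤ y ^ θ₁`, `t = ⌊c₀ log A⌋`: unless
  `sg (wd t n) > (q + δ) t` one has `T^t n < z`, and `T^i n < y` for all `i ≤ t`; then `n ∉ R`. So
  `fd R A ≤ 2 cW d t (sg > (q + δ) t) / d ^ t → 0` (`chernoff` or `chebyshev`).
(3) Step: there is `c₁ > 0` (depending on `d, m, θ, θ₁, κ`) such that for `θ₁ L ≤ u ≤ (1 - κ) L`, `t = ⌊c₁ u⌋`: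
  `e ^ (2 t μ) · 2 e ^ u + B₀ m ^ (2 t) < y`, so all `n ∈ R ∩ [a, 2 a)` have `T^(2t) n ∈ R`, i.e.
  `fd R a ≤ fd (pre (t + t) R) a`; and `a_v ≥ e ^ u / d ^ t ≥ (2 d) ^ t (z + 1 + B₀)`, so the `n ∈ [a_v, 2 a_v)`
  have `T^i n ≥ z` for `i ≤ t` (`iter_gt`) and `T^t n ∈ R` implies `n ∈ R`, i.e.
  `fd (pre t R) a_v ≤ fd R a_v`. By `flowg`, with `M(u) = sup { fd R (e ^ u') : u' ≤ u }`,
  `fd R (e ^ u) ≤ M(u - g t / 2) + 2 cW d t (sg v > (q + g / (2 μ)) t) / d ^ t + C / t ^ 8` (`fd_le_two`;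
  if `sg v ≤ (q + g / (2 μ)) t` then `log a_v ≤ u - g t / 2`).
(4) Iterate: after `n₀` steps (`n₀` depends only on `θ, κ, c₁, g`; each step divides `u` by a fixed
  factor) one arrives at `u ≤ θ₁ L`. The errors tend to `0` as `y → ∞` uniformly in
  `u ≥ θ L`. (Statement for the induction on `j`: for all `A` with `log A ≤ θ₁ L (1 - g c₁ / 4) ^ (-j)` and
  `A ≤ y ^ (1 - κ)`: `fd R A ≤ η₀ + j η₁`.)
-/

set_option autoImplicit false

namespace Pool.Agent.Helper91.PL

open Pool.Agent.Helper68.Moeller Pool.Agent.Helper52.Tao Pool.Agent.Helper8.ND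
  Pool.Agent.Helper8.CL Filter Topology

variable {d m : ℕ} {r : ℤ → ℤ}

theorem u2a_fd_mono {G G' : Set ℤ} {A : ℝ} (hA : 0 < A)
    (h : ∀ n : ℤ, A ≤ n → (n : ℝ) < 2 * A → n ∈ G → n ∈ G') : fd G A ≤ fd G' A := by
  unfold fd
  apply div_le_div_of_nonneg_right _ hA.le
  have h1 : {n : ℤ | A ≤ n ∧ (n : ℝ) < 2 * A ∧ n ∈ G} ⊆
      {n : ℤ | A ≤ n ∧ (n : ℝ) < 2 * A ∧ n ∈ G'} := fun n hn => ⟨hn.1, hn.2.1, h n hn.1 hn.2.1 hn.2.2⟩
  have hf : {n : ℤ | A ≤ n ∧ (n : ℝ) < 2 * A ∧ n ∈ G'}.Finite :=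
    (finite_Ico A (2 * A)).subset fun n hn => ⟨hn.1, hn.2.1⟩
  exact_mod_cast Set.ncard_le_ncard h1 hf

/-- Counting by words. -/
theorem u2a_words (hd : 2 ≤ d) (hco : Nat.Coprime m d) (hr : Admissible d m r) (t : ℕ)
    (P : List ℕ → Prop) {A : ℝ} (hA : (d : ℝ) ^ t ≤ A) :
    fd {n | P (wd d m r t n)} A ≤ 2 * cW d t P / (d : ℝ) ^ t := by
  classical
  have hd0 : (0 : ℝ) < d := by positivity
  have hdt : (0 : ℝ) < (d : ℝ) ^ t := by positivity
  have hA0 : 0 < A := lt_of_lt_of_le hdt hA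
  set S : Set ℤ := {n : ℤ | A ≤ n ∧ (n : ℝ) < 2 * A ∧ n ∈ {n : ℤ | P (wd d m r t n)}} with hS
  have hfin : S.Finite := (finite_Ico A (2 * A)).subset fun n hn => ⟨hn.1, hn.2.1⟩
  have hcl : ∀ w ∈ (W d t).filter P,
      (((hfin.toFinset).filter (fun n => wd d m r t n = w)).card : ℝ) ≤ 2 * A / (d : ℝ) ^ t := by
    intro w _
    rcases ((hfin.toFinset).filter (fun n => wd d m r t n = w)).eq_empty_or_nonempty with he | ⟨c, hc⟩
    · rw [he, Finset.card_empty, Nat.cast_zero]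
      positivity
    · have hMpos : (0 : ℤ) < (d : ℤ) ^ t := by positivity
      have h1 := ncard_class_le hA0.le hMpos c
      have hfin2 : {y : ℤ | A ≤ y ∧ (y : ℝ) < 2 * A ∧ (d : ℤ) ^ t ∣ y - c}.Finite :=
        (finite_Ico A (2 * A)).subset fun n hn => ⟨hn.1, hn.2.1⟩
      have h2 : (((hfin.toFinset).filter (fun n => wd d m r t n = w)) : Set ℤ) ⊆
          {y : ℤ | A ≤ y ∧ (y : ℝ) < 2 * A ∧ (d : ℤ) ^ t ∣ y - c} := by
        intro n hn
        rw [Finset.mem_coe, Finset.mem_filter, Set.Finite.mem_toFinset] at hn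
        rw [Finset.mem_filter] at hc
        refine ⟨hn.1.1, hn.1.2.1, ?_⟩
        have e1 := wd_spec hd hr t n
        have e2 := wd_spec hd hr t c
        rw [hn.2] at e1
        rw [hc.2] at e2
        have e3 : (m : ℤ) ^ sg w * (n - c) =
            (d : ℤ) ^ t * ((T d m r)^[t] n - (T d m r)^[t] c) := by linear_combination e2 - e1
        have hcop : IsCoprime ((d : ℤ) ^ t) ((m : ℤ) ^ sg w) := by
          apply IsCoprime.pow
          exact (Nat.isCoprime_iff_coprime.mpr hco).symm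
        exact hcop.dvd_of_dvd_mul_left ⟨_, e3⟩
      have h3 := Set.ncard_le_ncard h2 hfin2
      rw [Set.ncard_coe_finset] at h3
      have h4 : (((hfin.toFinset).filter (fun n => wd d m r t n = w)).card : ℝ) ≤
          ({y : ℤ | A ≤ y ∧ (y : ℝ) < 2 * A ∧ (d : ℤ) ^ t ∣ y - c}.ncard : ℝ) := by
        exact_mod_cast h3
      have h5 : 1 ≤ A / (d : ℝ) ^ t := by rwa [le_div_iff₀ hdt, one_mul]
      push_cast at h1
      have h6 : 2 * A / (d : ℝ) ^ t = A / (d : ℝ) ^ t + A / (d : ℝ) ^ t := by ring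
      linarith
  have hcard : (hfin.toFinset).card = ∑ w ∈ (W d t).filter P,
      ((hfin.toFinset).filter (fun n => wd d m r t n = w)).card := by
    apply Finset.card_eq_sum_card_fiberwise
    intro n hn
    rw [Finset.mem_coe, Set.Finite.mem_toFinset] at hn
    rw [Finset.mem_coe, Finset.mem_filter]
    exact ⟨wd_mem hd r t n, hn.2.2⟩
  have hn : (S.ncard : ℝ) ≤ cW d t P * (2 * A / (d : ℝ) ^ t) := by
    rw [Set.ncard_eq_toFinset_card S hfin, hcard]
    push_cast
    refine (Finset.sum_le_card_nsmul _ _ _ hcl).trans ?_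
    rw [nsmul_eq_mul]
    unfold cW
    apply le_of_eq
    congr
  unfold fd
  rw [div_le_iff₀ hA0]
  refine hn.trans (le_of_eq ?_)
  ring

/-- Growth of the iterates. -/
theorem u2a_iter (hd : 2 ≤ d) (hm : 2 ≤ m) (hr : Admissible d m r) {B : ℕ}
    (hB : ∀ j : ℤ, 0 < j → j < (d : ℤ) → |r j| ≤ B) (i : ℕ) : ∀ n : ℤ,
    |(T d m r)^[i] n| + B ≤ (m : ℤ) ^ i * (|n| + B) := by
  induction i with
  | zero => intro n; simp
  | succ i ih =>
    intro n
    rw [Function.iterate_succ_apply]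
    have h1 := ih (T d m r n)
    have h2 : |T d m r n| + B ≤ m * (|n| + B) := by
      have hd0 : (2 : ℤ) ≤ d := by exact_mod_cast hd
      have hm0 : (2 : ℤ) ≤ m := by exact_mod_cast hm
      have hB0 : (0 : ℤ) ≤ B := by positivity
      have h3 : |(d : ℤ) * T d m r n| ≤ m * |n| + B := by
        by_cases h : (d : ℤ) ∣ n
        · rw [d_mul_T_of_dvd h]
          have : |n| ≤ m * |n| := le_mul_of_one_le_left (abs_nonneg n) (by linarith)
          linarith
        · rw [d_mul_T_of_not_dvd hr hd h]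
          have h4 := emod_pos hd h
          have h5 := hB _ h4.1 h4.2
          have h6 := abs_sub ((m : ℤ) * n) (r (n % d))
          rw [abs_mul, abs_of_nonneg (by linarith : (0 : ℤ) ≤ m)] at h6
          linarith
      rw [abs_mul, abs_of_nonneg (by linarith : (0 : ℤ) ≤ d)] at h3
      have h4 : |T d m r n| ≤ d * |T d m r n| :=
        le_mul_of_one_le_left (abs_nonneg _) (by linarith)
      have h5 : (2 : ℤ) * B ≤ m * B := mul_le_mul_of_nonneg_right hm0 hB0
      linarith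
    have h3 : (0 : ℤ) ≤ (m : ℤ) ^ i := by positivity
    calc |(T d m r)^[i] (T d m r n)| + B ≤ (m : ℤ) ^ i * (|T d m r n| + B) := h1
      _ ≤ (m : ℤ) ^ i * (m * (|n| + B)) := mul_le_mul_of_nonneg_left h2 h3
      _ = (m : ℤ) ^ (i + 1) * (|n| + B) := by ring

theorem u2a_pow (a : ℕ) (ha : 0 < a) (k : ℕ) : (a : ℝ) ^ k = Real.exp (k * Real.log a) := by
  rw [← Real.log_pow, Real.exp_log (by positivity)]

/-- The end point. -/
theorem u2a_end (hd : 2 ≤ d) (hdm : d < m) (hr : Admissible d m r) {B : ℕ}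
    (hB : ∀ j : ℤ, 0 < j → j < (d : ℤ) → |r j| ≤ B) (t : ℕ) (n : ℤ) (hn : 0 ≤ n) (S : ℝ)
    (hS : (sg (wd d m r t n) : ℝ) ≤ S) :
    ((T d m r)^[t] n : ℝ) ≤ Real.exp (S * Real.log m - t * Real.log d) * n +
      B * Real.exp (t * Real.log m) := by
  have hm0 : 0 < m := by omega
  have hd0 : 0 < d := by omega
  have hlm : 0 ≤ Real.log m := Real.log_natCast_nonneg m
  have hld : 0 ≤ Real.log d := Real.log_natCast_nonneg d
  have h1 : ((d : ℝ)) ^ t * ((T d m r)^[t] n : ℝ) =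
      (m : ℝ) ^ sg (wd d m r t n) * n - (Off d m r (wd d m r t n) : ℝ) := by
    exact_mod_cast wd_spec hd hr t n
  have h2 : |(Off d m r (wd d m r t n) : ℝ)| ≤ B * (m : ℝ) ^ t := by
    exact_mod_cast abs_Off_le hd hdm hB (wd_mem (m := m) hd r t n)
  have hn' : (0 : ℝ) ≤ n := by exact_mod_cast hn
  have h3 : (m : ℝ) ^ sg (wd d m r t n) ≤ Real.exp (S * Real.log m) := by
    rw [u2a_pow m hm0, Real.exp_le_exp]
    exact mul_le_mul_of_nonneg_right hS hlm
  have h4 : ((d : ℝ)) ^ t = Real.exp (t * Real.log d) := u2a_pow d hd0 t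
  have h5 : 1 ≤ ((d : ℝ)) ^ t := one_le_pow₀ (by exact_mod_cast hd0)
  have h6 : (m : ℝ) ^ t = Real.exp (t * Real.log m) := u2a_pow m hm0 t
  have h7 : ((d : ℝ)) ^ t * ((T d m r)^[t] n : ℝ) ≤
      Real.exp (S * Real.log m) * n + B * Real.exp (t * Real.log m) := by
    rw [h1, ← h6]
    have := (abs_le.1 h2).1
    have := mul_le_mul_of_nonneg_right h3 hn'
    linarith
  rw [Real.exp_sub, ← h4]
  have hdt : (0 : ℝ) < (d : ℝ) ^ t := by linarith
  rw [← mul_le_mul_iff_right₀ hdt]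
  refine h7.trans ?_
  have e : (d : ℝ) ^ t * (Real.exp (S * Real.log m) / (d : ℝ) ^ t * n +
      B * Real.exp (t * Real.log m)) =
      Real.exp (S * Real.log m) * n + (d : ℝ) ^ t * (B * Real.exp (t * Real.log m)) := by
    field_simp
  rw [e]
  have h8 : (B : ℝ) * Real.exp (t * Real.log m) ≤ (d : ℝ) ^ t * (B * Real.exp (t * Real.log m)) :=
    le_mul_of_one_le_left (by positivity) h5
  linarith

/-- The bad words. -/
theorem u2a_bad (hd : 2 ≤ d) {δ : ℝ} (hδ : 0 < δ) {t : ℕ} (ht : 1 ≤ t) :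
    cW d t (fun w => (1 - 1 / (d : ℝ) + δ) * t < (sg w : ℝ)) ≤
      (d : ℝ) ^ t * (1 / (δ ^ 2 * t)) := by
  have ht0 : (0 : ℝ) < t := by exact_mod_cast ht
  have h1 := chebyshev hd t (R := δ * t) (by positivity)
  refine (cW_mono fun w _ hw => ?_).trans (h1.trans (le_of_eq ?_))
  · have h2 := le_abs_self ((sg w : ℝ) - (1 - 1 / (d : ℝ)) * t)
    linarith
  · field_simp

/-- The claim for the scales up to `y ^ x`. -/
def U2aP (d m : ℕ) (r : ℤ → ℤ) (θ x : ℝ) : Prop :=
  ∀ η : ℝ, 0 < η → ∃ L0 : ℝ, ∀ y : ℕ, 1 ≤ y → L0 ≤ Real.log y → ∀ A : ℝ, 0 < A →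
    A ≤ Real.exp (x * Real.log y) → fd (Rt d m r (Real.exp (θ * Real.log y)) y) A ≤ η

theorem u2a_lin {a : ℝ} (ha : 0 < a) (b : ℝ) : ∀ᶠ L : ℝ in atTop, b ≤ a * L :=
  (tendsto_id.const_mul_atTop ha).eventually_ge_atTop b

theorem u2a_base (hd : 2 ≤ d) (hdm : d < m) (hco : Nat.Coprime m d) (hr : Admissible d m r)
    (hg : 0 < gam d m) {θ : ℝ} (hθ : 0 < θ) (hθ1 : θ < 1) :
    ∃ θ1 : ℝ, θ < θ1 ∧ U2aP d m r θ θ1 := by
  obtain ⟨B, hB⟩ := FL_exists_B d r
  set μ := Real.log m with hμ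
  set lam := Real.log d with hlam
  set g := gam d m with hgd
  have hd2 : (2 : ℝ) ≤ d := by exact_mod_cast hd
  have hm3 : (3 : ℝ) ≤ m := by exact_mod_cast (by omega : 3 ≤ m)
  have hμ0 : 0 < μ := Real.log_pos (by linarith)
  have hlam0 : 0 < lam := Real.log_pos (by linarith)
  have hgeq : g = lam - (1 - 1 / (d : ℝ)) * μ := rfl
  set K := μ + lam + g + μ * g + 1 with hK
  have hK0 : 0 < K := by positivity
  set c0 := (1 - θ) / (4 * K) with hc0
  have hc0p : 0 < c0 := div_pos (by linarith) (by positivity)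
  have hc0K : c0 * K = (1 - θ) / 4 := by rw [hc0]; field_simp
  have hp1 : 0 < c0 * μ := by positivity
  have hp2 : 0 < c0 * lam := by positivity
  have hp3 : 0 < c0 * g := by positivity
  have hp4 : 0 < c0 * (μ * g) := by positivity
  have hsum : c0 * μ + c0 * lam + c0 * g + c0 * (μ * g) + c0 = (1 - θ) / 4 := by
    rw [← hc0K, hK]; ring
  set δ := g / (2 * μ) with hδ
  have hδ0 : 0 < δ := by positivity
  have hδμ : δ * μ = g / 2 := by rw [hδ]; field_simp
  set θ1 := θ * (1 + g * c0 / 8) with hθ1d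
  have hθθ1 : θ < θ1 := by
    rw [hθ1d]
    have : 0 < θ * (g * c0 / 8) := by positivity
    linarith
  have e1 : 0 < 1 - (1 + μ * c0) * θ1 := by
    have h1 : (1 + μ * c0) * (1 + g * c0 / 8) ≤ 1 + (1 - θ) / 4 := by
      have h2 : (1 + μ * c0) * (1 + g * c0 / 8) =
          1 + c0 * μ + c0 * g / 8 + c0 * (μ * g) * c0 / 8 := by ring
      have h3 : c0 * (μ * g) * c0 ≤ c0 * (μ * g) := mul_le_of_le_one_right hp4.le (by linarith)
      rw [h2]
      linarith
    have h2 : (1 + μ * c0) * θ1 = (1 + μ * c0) * (1 + g * c0 / 8) * θ := by rw [hθ1d]; ring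
    rw [h2]
    have h3 : (1 + μ * c0) * (1 + g * c0 / 8) * θ ≤ (1 + (1 - θ) / 4) * θ :=
      mul_le_mul_of_nonneg_right h1 hθ.le
    have h4 : 0 < (1 - θ) * (1 - θ / 4) := mul_pos (by linarith) (by linarith)
    linarith
  refine ⟨θ1, hθθ1, ?_⟩
  intro η hη
  have hL2 := Real.log_pos (by norm_num : (1 : ℝ) < 2)
  have hev := (u2a_lin hθ (Real.log 2)).and <|
    (u2a_lin (by positivity : 0 < 3 * (g * c0) / 8 * θ) (3 * Real.log 2 + g / 2)).and <|
    (u2a_lin (by positivity : 0 < θ / 4) (2 * Real.log 2 + Real.log (B + 1))).and <|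
    (u2a_lin e1 (Real.log (B + 2) + 1)).and <|
    (u2a_lin (by positivity : 0 < c0 * θ) (2 / (δ ^ 2 * η) + 2 + c0 * Real.log 2)).and <|
    (eventually_ge_atTop (0 : ℝ))
  obtain ⟨L0, hL0⟩ := eventually_atTop.1 hev
  refine ⟨L0, ?_⟩
  intro y hy hyL A hA hAy
  obtain ⟨c1, c2, c3, c4, c5, c6⟩ := hL0 _ hyL
  set L := Real.log y with hL
  set z := Real.exp (θ * L) with hz
  have hy0 : (0 : ℝ) < y := by exact_mod_cast hy
  have hyexp : (y : ℝ) = Real.exp L := (Real.exp_log hy0).symm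
  rcases le_or_gt (2 * A) z with hAz | hAz
  · -- trivial case
    have h1 : {n : ℤ | A ≤ n ∧ (n : ℝ) < 2 * A ∧ n ∈ Rt d m r z y} = ∅ := by
      rw [Set.eq_empty_iff_forall_notMem]
      rintro n ⟨-, h2, j, -, h3⟩
      have h4 := h3 0 (Nat.zero_le _)
      simp only [Function.iterate_zero, id] at h4
      linarith
    unfold fd
    rw [h1, Set.ncard_empty]
    simp only [Nat.cast_zero, zero_div]
    exact hη.le
  set u := Real.log A with hu
  have hAexp : A = Real.exp u := (Real.exp_log hA).symm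
  have hu1 : θ * L - Real.log 2 < u := by
    have h1 : Real.exp (θ * L - Real.log 2) < Real.exp u := by
      rw [Real.exp_sub, Real.exp_log (by norm_num), ← hz, ← hAexp]
      linarith
    exact Real.exp_lt_exp.1 h1
  have hu2 : u ≤ θ1 * L := by
    rw [hAexp, Real.exp_le_exp] at hAy
    exact hAy
  have hu0 : 0 < u := by linarith
  set t := ⌊c0 * u⌋₊ with ht
  have ht1 : (t : ℝ) ≤ c0 * u := Nat.floor_le (by positivity)
  have ht2 : c0 * u - 1 < t := by
    have := Nat.lt_floor_add_one (c0 * u)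
    linarith
  have ht3 : 2 / (δ ^ 2 * η) + 1 ≤ t := by
    have h1 : c0 * (θ * L - Real.log 2) < c0 * u := mul_lt_mul_of_pos_left hu1 hc0p
    have h2 : c0 * (θ * L - Real.log 2) = c0 * θ * L - c0 * Real.log 2 := by ring
    linarith
  have hpos : 0 < 2 / (δ ^ 2 * η) := by positivity
  have ht4 : 1 ≤ t := by
    have : (1 : ℝ) ≤ t := by linarith
    exact_mod_cast this
  have ht0 : (0 : ℝ) < t := by exact_mod_cast ht4
  have hd0 : 0 < d := by omega
  have hm0 : 0 < m := by omega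
  -- the number of words is small
  have hdA : (d : ℝ) ^ t ≤ A := by
    rw [u2a_pow d hd0, hAexp, Real.exp_le_exp]
    have h1 : (t : ℝ) * lam ≤ c0 * u * lam := mul_le_mul_of_nonneg_right ht1 hlam0.le
    have h2 : c0 * lam * u ≤ 1 * u := mul_le_mul_of_nonneg_right (by linarith) hu0.le
    linarith
  have hmono : fd (Rt d m r z y) A ≤
      fd {n | (1 - 1 / (d : ℝ) + δ) * t < (sg (wd d m r t n) : ℝ)} A := by
    refine u2a_fd_mono hA fun n hn1 hn2 hnR => ?_
    by_contra hcon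
    simp only [Set.mem_ofPred_eq, not_lt] at hcon
    have hn0 : (0 : ℝ) ≤ n := by linarith
    have hn0' : 0 ≤ n := by exact_mod_cast hn0
    obtain ⟨j, hj1, hj2⟩ := hnR
    -- the end point
    have hend := u2a_end hd hdm hr hB t n hn0' _ hcon
    have hexp1 : (1 - 1 / (d : ℝ) + δ) * t * μ - t * lam = -(g / 2 * t) := by
      have : (1 - 1 / (d : ℝ)) * μ = lam - g := by rw [hgeq]; ring
      linear_combination (t : ℝ) * this + (t : ℝ) * hδμ
    rw [← hμ, ← hlam, hexp1] at hend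
    have hfirst : Real.exp (-(g / 2 * t)) * n ≤ z / 4 := by
      have h1 : Real.exp (-(g / 2 * t)) * n ≤ Real.exp (-(g / 2 * t)) * (2 * A) :=
        mul_le_mul_of_nonneg_left hn2.le (Real.exp_pos _).le
      refine h1.trans ?_
      have h2 : z / 4 = Real.exp (θ * L - 2 * Real.log 2) := by
        rw [Real.exp_sub, ← hz, two_mul (Real.log 2), Real.exp_add, Real.exp_log (by norm_num)]
        norm_num
      have h3 : Real.exp (-(g / 2 * t)) * (2 * A) = Real.exp (-(g / 2 * t) + Real.log 2 + u) := by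
        rw [Real.exp_add, Real.exp_add, Real.exp_log (by norm_num), ← hAexp]
        ring
      rw [h2, h3, Real.exp_le_exp]
      have h4 : g / 2 * (c0 * u - 1) ≤ g / 2 * t := mul_le_mul_of_nonneg_left ht2.le (by positivity)
      have h5 : u * (1 - g * c0 / 2) ≤ θ1 * L * (1 - g * c0 / 2) :=
        mul_le_mul_of_nonneg_right hu2 (by linarith)
      have h6 : θ1 * L * (1 - g * c0 / 2) ≤ θ * L * (1 - 3 * (g * c0) / 8) := by
        have h7 : θ1 * L * (1 - g * c0 / 2) =
            θ * L * (1 - 3 * (g * c0) / 8) - θ * L * ((g * c0) ^ 2 / 16) := by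
          rw [hθ1d]; ring
        rw [h7]
        have : 0 ≤ θ * L * ((g * c0) ^ 2 / 16) := by positivity
        linarith
      have h8 : g / 2 * (c0 * u - 1) = g * c0 / 2 * u - g / 2 := by ring
      have h9 : u * (1 - g * c0 / 2) = u - g * c0 / 2 * u := by ring
      have h10 : θ * L * (1 - 3 * (g * c0) / 8) = θ * L - 3 * (g * c0) / 8 * θ * L := by ring
      linarith
    have hsecond : B * Real.exp (t * μ) ≤ z / 4 := by
      have h2 : z / 4 = Real.exp (θ * L - 2 * Real.log 2) := by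
        rw [Real.exp_sub, ← hz, two_mul (Real.log 2), Real.exp_add, Real.exp_log (by norm_num)]
        norm_num
      have hB1 : (0 : ℝ) < B + 1 := by positivity
      have h3 : B * Real.exp (t * μ) ≤ Real.exp (Real.log (B + 1) + t * μ) := by
        rw [Real.exp_add, Real.exp_log hB1]
        exact mul_le_mul_of_nonneg_right (by linarith) (Real.exp_pos _).le
      refine h3.trans ?_
      rw [h2, Real.exp_le_exp]
      have h4 : (t : ℝ) * μ ≤ c0 * u * μ := mul_le_mul_of_nonneg_right ht1 hμ0.le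
      have h5 : c0 * μ * u ≤ c0 * μ * (θ1 * L) := mul_le_mul_of_nonneg_left hu2 hp1.le
      have h6 : θ1 ≤ θ * 2 := by
        rw [hθ1d]
        apply mul_le_mul_of_nonneg_left _ hθ.le
        linarith
      have h7 : c0 * μ * (θ1 * L) ≤ 1 / 4 * (θ * 2 * L) := by
        apply mul_le_mul (by linarith) (mul_le_mul_of_nonneg_right h6 c6) (by positivity)
          (by norm_num)
      have h8 : 0 ≤ θ * L := by positivity
      linarith
    have hTt : ((T d m r)^[t] n : ℝ) < z := by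
      have hz0 := Real.exp_pos (θ * L)
      rw [← hz] at hz0
      linarith
    rcases le_or_gt j t with hjt | hjt
    · -- the orbit is below `y` up to the time `t`
      have h1 := u2a_iter hd (by omega : 2 ≤ m) hr hB j n
      have h2 : |((T d m r)^[j] n : ℝ)| + B ≤ (m : ℝ) ^ j * (|(n : ℝ)| + B) := by exact_mod_cast h1
      have h3 := le_abs_self ((T d m r)^[j] n : ℝ)
      rw [abs_of_nonneg hn0] at h2
      have hA1 : 1 ≤ A := by
        have h4 : Real.log 2 ≤ θ * L := c1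
        have h5 : (2 : ℝ) ≤ z := by
          rw [hz, ← Real.log_le_iff_le_exp (by norm_num)]
          exact h4
        linarith
      have hB0 : (0 : ℝ) ≤ B := by positivity
      have h4 : (m : ℝ) ^ j * (n + B) ≤ (m : ℝ) ^ t * ((B + 2) * A) := by
        apply mul_le_mul (pow_le_pow_right₀ (by linarith) hjt) _ (by positivity) (by positivity)
        have h5 : (B : ℝ) * 1 ≤ B * A := mul_le_mul_of_nonneg_left hA1 hB0
        linarith
      have h5 : (m : ℝ) ^ t * ((B + 2) * A) < y := by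
        rw [hyexp, u2a_pow m hm0, hAexp, ← Real.exp_log (by positivity : (0 : ℝ) < B + 2),
          ← Real.exp_add, ← Real.exp_add, Real.exp_lt_exp]
        have h6 : (t : ℝ) * μ ≤ c0 * u * μ := mul_le_mul_of_nonneg_right ht1 hμ0.le
        have h7 : (1 + μ * c0) * u ≤ (1 + μ * c0) * (θ1 * L) :=
          mul_le_mul_of_nonneg_left hu2 (by positivity)
        have h8 : (1 + μ * c0) * u = u + c0 * u * μ := by ring
        have h9 : (1 - (1 + μ * c0) * θ1) * L = L - (1 + μ * c0) * (θ1 * L) := by ring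
        rw [← hμ]
        linarith
      linarith
    · have := hj2 t hjt.le
      linarith
  refine hmono.trans ((u2a_words hd hco hr t
    (fun w => (1 - 1 / (d : ℝ) + δ) * t < (sg w : ℝ)) hdA).trans ?_)
  have hdt : (0 : ℝ) < (d : ℝ) ^ t := by positivity
  have hbad := u2a_bad hd hδ0 ht4
  rw [div_le_iff₀ hdt]
  have h1 : 1 / (δ ^ 2 * t) ≤ η / 2 := by
    rw [div_le_div_iff₀ (by positivity) (by norm_num)]
    have h2 : 2 / (δ ^ 2 * η) ≤ t := by linarith
    rw [div_le_iff₀ (by positivity)] at h2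
    have h3 : (t : ℝ) * (δ ^ 2 * η) = η * (δ ^ 2 * t) := by ring
    linarith
  have h2 := mul_le_mul_of_nonneg_left h1 hdt.le
  have h3 : (d : ℝ) ^ t * (η / 2) = η * (d : ℝ) ^ t / 2 := by ring
  linarith

theorem u2a_step (hd : 2 ≤ d) (hdm : d < m) (hco : Nat.Coprime m d) (hr : Admissible d m r)
    (hg : 0 < gam d m) (hmix : Mixing d m r) {θ κ θ1 : ℝ} (hθ : 0 < θ) (hκ : 0 < κ)
    (hκ1 : κ < 1) (hθθ1 : θ < θ1) :
    ∃ ρ : ℝ, 1 < ρ ∧ ∀ x : ℝ, θ1 ≤ x → U2aP d m r θ x → U2aP d m r θ (min (ρ * x) (1 - κ)) := by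
  obtain ⟨B, hB⟩ := FL_exists_B d r
  obtain ⟨C, hC, hflow⟩ := flowg hd hdm hco hr hmix
  set μ := Real.log m with hμ
  set lam := Real.log d with hlam
  set g := gam d m with hgd
  have hd2 : (2 : ℝ) ≤ d := by exact_mod_cast hd
  have hm3 : (3 : ℝ) ≤ m := by exact_mod_cast (by omega : 3 ≤ m)
  have hd0 : 0 < d := by omega
  have hm0 : 0 < m := by omega
  have hd0R : (0 : ℝ) < d := by exact_mod_cast hd0
  have hm0R : (0 : ℝ) < m := by exact_mod_cast hm0
  have hμ0 : 0 < μ := Real.log_pos (by linarith)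
  have hlam0 : 0 < lam := Real.log_pos (by linarith)
  have hL2 := Real.log_pos (by norm_num : (1 : ℝ) < 2)
  have hgeq : g = lam - (1 - 1 / (d : ℝ)) * μ := rfl
  have hB0 : (0 : ℝ) ≤ B := by positivity
  have hθ10 : 0 < θ1 := by linarith
  -- the constant
  set K := 16 * (lam + μ) + (2 * lam + Real.log 2) + 2 * μ + g + 1 with hK
  have hK0 : 0 < K := by positivity
  set c1 := min ((θ1 - θ) / (2 * θ1 * K)) (min (κ / K) (1 / K)) with hc1
  have hc1p : 0 < c1 := by
    rw [hc1]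
    exact lt_min (div_pos (by linarith) (by positivity)) (lt_min (by positivity) (by positivity))
  have hcK1 : c1 * K ≤ (θ1 - θ) / (2 * θ1) := by
    have h1 : c1 ≤ (θ1 - θ) / (2 * θ1 * K) := min_le_left _ _
    calc c1 * K ≤ (θ1 - θ) / (2 * θ1 * K) * K := mul_le_mul_of_nonneg_right h1 hK0.le
      _ = (θ1 - θ) / (2 * θ1) := by field_simp
  have hcK2 : c1 * K ≤ κ := by
    have h1 : c1 ≤ κ / K := (min_le_right _ _).trans (min_le_left _ _)
    calc c1 * K ≤ κ / K * K := mul_le_mul_of_nonneg_right h1 hK0.le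
      _ = κ := by field_simp
  have hcK3 : c1 * K ≤ 1 := by
    have h1 : c1 ≤ 1 / K := (min_le_right _ _).trans (min_le_right _ _)
    calc c1 * K ≤ 1 / K * K := mul_le_mul_of_nonneg_right h1 hK0.le
      _ = 1 := by field_simp
  have hparts : c1 * K = 16 * (c1 * (lam + μ)) + c1 * (2 * lam + Real.log 2) + 2 * (c1 * μ) + c1 * g
      + c1 := by rw [hK]; ring
  have q1 : 0 < c1 * (lam + μ) := by positivity
  have q2 : 0 < c1 * (2 * lam + Real.log 2) := by positivity
  have q3 : 0 < c1 * μ := by positivity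
  have q4 : 0 < c1 * g := by positivity
  set δ := g / (2 * μ) with hδ
  have hδ0 : 0 < δ := by positivity
  have hδμ : δ * μ = g / 2 := by rw [hδ]; field_simp
  set ρ := 1 + c1 * g / 4 with hρ
  have hρ1 : 1 < ρ := by rw [hρ]; linarith
  refine ⟨ρ, hρ1, ?_⟩
  intro x hx hPx η hη
  obtain ⟨L1, hL1⟩ := hPx (η / 3) (by positivity)
  have hx0 : 0 < x := by linarith
  -- coefficients
  have a1 : 0 < 1 - ρ * (1 - c1 * g / 2) := by
    have : ρ * (1 - c1 * g / 2) = 1 - c1 * g / 4 - (c1 * g) ^ 2 / 8 := by rw [hρ]; ring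
    rw [this]
    have := sq_nonneg (c1 * g)
    linarith
  have a2 : 0 < 1 - (2 * (c1 * μ) + 1) * (1 - κ) := by
    have h1 : 2 * (c1 * μ) + 1 ≤ 1 + κ := by linarith
    have h2 : (2 * (c1 * μ) + 1) * (1 - κ) ≤ (1 + κ) * (1 - κ) :=
      mul_le_mul_of_nonneg_right h1 (by linarith)
    have h3 : (1 + κ) * (1 - κ) = 1 - κ ^ 2 := by ring
    have h4 : 0 < κ ^ 2 := by positivity
    linarith
  have a3 : 0 < θ1 * (1 - c1 * (2 * lam + Real.log 2)) - θ := by
    have h1 : c1 * (2 * lam + Real.log 2) ≤ (θ1 - θ) / (2 * θ1) := by linarith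
    have h2 : θ1 * (c1 * (2 * lam + Real.log 2)) ≤ θ1 * ((θ1 - θ) / (2 * θ1)) :=
      mul_le_mul_of_nonneg_left h1 hθ10.le
    have h3 : θ1 * ((θ1 - θ) / (2 * θ1)) = (θ1 - θ) / 2 := by field_simp
    have h4 : θ1 * (1 - c1 * (2 * lam + Real.log 2)) =
        θ1 - θ1 * (c1 * (2 * lam + Real.log 2)) := by ring
    linarith
  have hev := (u2a_lin (by positivity : 0 < θ1 / 2) (Real.log C)).and <|
    (u2a_lin (mul_pos a1 hx0) (g / 2)).and <|
    (u2a_lin a2 (Real.log (B + 2) + 1)).and <|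
    (u2a_lin a3 (Real.log (B + 2))).and <|
    (u2a_lin (by positivity : 0 < c1 * θ1) (6 * (1 / (δ ^ 2 * η)) + 3 * C / η + 2)).and <|
    (eventually_ge_atTop (max 0 L1))
  obtain ⟨L0, hL0⟩ := eventually_atTop.1 hev
  refine ⟨L0, ?_⟩
  intro y hy hyL A hA hAy
  obtain ⟨c1', c2, c3, c4, c5, c6⟩ := hL0 _ hyL
  have c7 : L1 ≤ Real.log y := (le_max_right _ _).trans c6
  have c8 : 0 ≤ Real.log y := (le_max_left _ _).trans c6
  have hP := hL1 y hy c7
  clear hev hL0 hL1 hPx c6 c7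
  set L := Real.log y with hL
  set z := Real.exp (θ * L) with hz
  have hy0 : (0 : ℝ) < y := by exact_mod_cast hy
  have hyexp : (y : ℝ) = Real.exp L := (Real.exp_log hy0).symm
  rcases le_or_gt A (Real.exp (x * L)) with hAx | hAx
  · exact (hP A hA hAx).trans (by linarith)
  set u := Real.log A with hu
  have hAexp : A = Real.exp u := (Real.exp_log hA).symm
  have hu1 : x * L < u := by
    rw [hAexp] at hAx
    exact Real.exp_lt_exp.1 hAx
  have hu2 : u ≤ min (ρ * x) (1 - κ) * L := by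
    rw [hAexp, Real.exp_le_exp] at hAy
    exact hAy
  have hu3 : u ≤ ρ * x * L := hu2.trans (mul_le_mul_of_nonneg_right (min_le_left _ _) c8)
  have hu4 : u ≤ (1 - κ) * L := hu2.trans (mul_le_mul_of_nonneg_right (min_le_right _ _) c8)
  have hu5 : θ1 * L ≤ u := by
    have : θ1 * L ≤ x * L := mul_le_mul_of_nonneg_right hx c8
    linarith
  have hu0 : 0 ≤ u := by
    have : 0 ≤ θ1 * L := by positivity
    linarith
  clear hu2 hAy hAx
  set t := ⌊c1 * u⌋₊ with ht
  have ht1 : (t : ℝ) ≤ c1 * u := Nat.floor_le (by positivity)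
  have ht2 : c1 * u - 1 < t := by
    have := Nat.lt_floor_add_one (c1 * u)
    linarith
  have hposa : 0 < 1 / (δ ^ 2 * η) := by positivity
  have hposb : 0 < 3 * C / η := by positivity
  have ht3 : 6 * (1 / (δ ^ 2 * η)) + 3 * C / η + 1 ≤ t := by
    have h1 : c1 * (θ1 * L) ≤ c1 * u := mul_le_mul_of_nonneg_left hu5 hc1p.le
    have h2 : c1 * (θ1 * L) = c1 * θ1 * L := by ring
    linarith
  have ht4R : (1 : ℝ) ≤ t := by linarith
  have ht4 : 1 ≤ t := by exact_mod_cast ht4R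
  have ht0 : (0 : ℝ) < t := by linarith
  have hdt : (0 : ℝ) < (d : ℝ) ^ t := by positivity
  have hd1 : (1 : ℝ) ≤ (d : ℝ) ^ t := one_le_pow₀ (by linarith)
  -- the flow
  have hsize : C * ((d : ℝ) * m) ^ (8 * t) ≤ A := by
    have hCpos : 0 < C := by linarith
    rw [hAexp, ← Real.log_le_iff_le_exp (by positivity), Real.log_mul hCpos.ne' (by positivity),
      Real.log_pow, Real.log_mul hd0R.ne' hm0R.ne']
    push_cast
    rw [← hμ, ← hlam]
    have h1 : (t : ℝ) * (lam + μ) ≤ c1 * u * (lam + μ) :=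
      mul_le_mul_of_nonneg_right ht1 (by positivity)
    have h2 : 16 * (c1 * (lam + μ)) * u ≤ 1 * u :=
      mul_le_mul_of_nonneg_right (by linarith) hu0
    have h3 : Real.log C ≤ u / 2 := by linarith
    have h4 : 8 * (c1 * u * (lam + μ)) = 16 * (c1 * (lam + μ)) * u / 2 := by ring
    linarith
  have hfl := (abs_le.1 (hflow t ht4 A hsize (Rt d m r z y))).2
  -- the left side
  have hleft : fd (Rt d m r z y) A ≤ fd (pre d m r (t + t) (Rt d m r z y)) A := by
    refine u2a_fd_mono hA fun n hn1 hn2 hnR => ?_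
    obtain ⟨j, hj1, hj2⟩ := hnR
    have hn0 : (0 : ℝ) ≤ n := by linarith
    have hjt : t + t < j := by
      by_contra hcon
      push Not at hcon
      have h1 := u2a_iter hd (by omega : 2 ≤ m) hr hB j n
      have h2 : |((T d m r)^[j] n : ℝ)| + B ≤ (m : ℝ) ^ j * (|(n : ℝ)| + B) := by exact_mod_cast h1
      have h3 := le_abs_self ((T d m r)^[j] n : ℝ)
      rw [abs_of_nonneg hn0] at h2
      have hA1 : 1 ≤ A := by
        rw [hAexp]
        exact Real.one_le_exp hu0
      have h4 : (m : ℝ) ^ j * (n + B) ≤ (m : ℝ) ^ (t + t) * ((B + 2) * A) := by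
        apply mul_le_mul (pow_le_pow_right₀ (by linarith) hcon) _ (by positivity) (by positivity)
        have : (B : ℝ) ≤ B * A := le_mul_of_one_le_right hB0 hA1
        linarith
      have h5 : (m : ℝ) ^ (t + t) * ((B + 2) * A) < y := by
        rw [hyexp, u2a_pow m hm0, hAexp, ← Real.exp_log (by positivity : (0 : ℝ) < B + 2),
          ← Real.exp_add, ← Real.exp_add, Real.exp_lt_exp]
        push_cast
        rw [← hμ]
        have h6 : (t : ℝ) * μ ≤ c1 * u * μ := mul_le_mul_of_nonneg_right ht1 hμ0.le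
        have h7 : (2 * (c1 * μ) + 1) * u ≤ (2 * (c1 * μ) + 1) * ((1 - κ) * L) :=
          mul_le_mul_of_nonneg_left hu4 (by positivity)
        have h8 : (2 * (c1 * μ) + 1) * u = 2 * (c1 * u * μ) + u := by ring
        have h9 : (1 - (2 * (c1 * μ) + 1) * (1 - κ)) * L =
            L - (2 * (c1 * μ) + 1) * ((1 - κ) * L) := by ring
        have h10 : ((t : ℝ) + t) * μ = 2 * (t * μ) := by ring
        linarith
      linarith
    refine ⟨j - (t + t), ?_, ?_⟩
    · rw [← Function.iterate_add_apply, Nat.sub_add_cancel hjt.le]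
      exact hj1
    · intro i hi
      rw [← Function.iterate_add_apply]
      exact hj2 _ (by omega)
  -- the right side
  have hright : ∀ v ∈ W d t, fd (pre d m r t (Rt d m r z y)) (A * (m : ℝ) ^ sg v / (d : ℝ) ^ t) ≤
      fd (Rt d m r z y) (A * (m : ℝ) ^ sg v / (d : ℝ) ^ t) := by
    intro v _
    have hm1 : (1 : ℝ) ≤ (m : ℝ) ^ sg v := one_le_pow₀ (by linarith)
    refine u2a_fd_mono (by positivity) fun n hn1 hn2 hnR => ?_
    obtain ⟨j, hj1, hj2⟩ := hnR
    have hz0 : 0 < z := Real.exp_pos _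
    have hbig : (2 * (d : ℝ)) ^ t * (z + 1 + B) ≤ n := by
      refine le_trans ?_ hn1
      rw [le_div_iff₀ hdt]
      have h1 : A ≤ A * (m : ℝ) ^ sg v := le_mul_of_one_le_right hA.le hm1
      refine le_trans ?_ h1
      have h2 : z + 1 + B ≤ (B + 2) * z := by
        have : 1 ≤ z := Real.one_le_exp (by positivity)
        have : (B : ℝ) ≤ B * z := le_mul_of_one_le_right hB0 this
        linarith
      have h3 : (2 * (d : ℝ)) ^ t * (z + 1 + B) * (d : ℝ) ^ t ≤
          (2 * (d : ℝ)) ^ t * ((B + 2) * z) * (d : ℝ) ^ t := by gcongr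
      refine h3.trans ?_
      have h4 : (2 * (d : ℝ)) ^ t * ((B + 2) * z) * (d : ℝ) ^ t =
          Real.exp (t * (2 * lam + Real.log 2) + Real.log (B + 2) + θ * L) := by
        have p0 : (2 : ℝ) ^ t = Real.exp (t * Real.log 2) := by
          rw [← Real.log_pow, Real.exp_log (by positivity)]
        have p1 : (2 * (d : ℝ)) ^ t = Real.exp (t * Real.log 2) * Real.exp (t * lam) := by
          rw [mul_pow, u2a_pow d hd0, p0]
        have p2 : (d : ℝ) ^ t = Real.exp (t * lam) := u2a_pow d hd0 t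
        have p3 : Real.exp (t * (2 * lam + Real.log 2) + Real.log (B + 2) + θ * L) =
            Real.exp (t * Real.log 2) * Real.exp (t * lam) * Real.exp (t * lam) * (B + 2) * z := by
          rw [show t * (2 * lam + Real.log 2) + Real.log (B + 2) + θ * L =
            t * Real.log 2 + t * lam + t * lam + Real.log (B + 2) + θ * L by ring,
            Real.exp_add, Real.exp_add, Real.exp_add, Real.exp_add,
            Real.exp_log (by positivity : (0 : ℝ) < B + 2)]
        rw [p1, p2, p3]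
        ring
      rw [h4, hAexp, Real.exp_le_exp]
      have h5 : (t : ℝ) * (2 * lam + Real.log 2) ≤ c1 * u * (2 * lam + Real.log 2) :=
        mul_le_mul_of_nonneg_right ht1 (by positivity)
      have h6 : θ1 * L * (1 - c1 * (2 * lam + Real.log 2)) ≤
          u * (1 - c1 * (2 * lam + Real.log 2)) :=
        mul_le_mul_of_nonneg_right hu5 (by linarith)
      have h7 : (θ1 * (1 - c1 * (2 * lam + Real.log 2)) - θ) * L =
          θ1 * L * (1 - c1 * (2 * lam + Real.log 2)) - θ * L := by ring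
      have h8 : u * (1 - c1 * (2 * lam + Real.log 2)) = u - c1 * u * (2 * lam + Real.log 2) := by
        ring
      linarith
    have hgt := iter_gt hd (by omega) hr hB (by linarith : z < z + 1 + B) (by linarith)
      (by linarith) t n hbig
    refine ⟨j + t, ?_, ?_⟩
    · rw [Function.iterate_add_apply]
      exact hj1
    · intro i hi
      rcases le_or_gt i t with h1 | h1
      · exact (hgt i h1).le
      · obtain ⟨k, rfl⟩ := Nat.exists_eq_add_of_lt h1
        have := hj2 (k + 1) (by omega)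
        rw [← Function.iterate_add_apply] at this
        rwa [show t + k + 1 = k + 1 + t by ring]
  -- the sum
  have hsum : ∑ v ∈ W d t, fd (pre d m r t (Rt d m r z y)) (A * (m : ℝ) ^ sg v / (d : ℝ) ^ t) ≤
      (d : ℝ) ^ t * (η / 3) +
        2 * cW d t (fun w => (1 - 1 / (d : ℝ) + δ) * t < (sg w : ℝ)) := by
    classical
    rw [cW_eq_sum, Finset.mul_sum]
    have h1 : (d : ℝ) ^ t * (η / 3) = ∑ v ∈ W d t, η / 3 := by
      rw [Finset.sum_const, card_W, nsmul_eq_mul]
      push_cast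
      ring
    rw [h1, ← Finset.sum_add_distrib]
    refine Finset.sum_le_sum fun v hv => ?_
    refine (hright v hv).trans ?_
    have hm1 : (1 : ℝ) ≤ (m : ℝ) ^ sg v := one_le_pow₀ (by linarith)
    have hAv : A * (m : ℝ) ^ sg v / (d : ℝ) ^ t = Real.exp (u + sg v * μ - t * lam) := by
      rw [Real.exp_sub, Real.exp_add, ← hAexp, ← u2a_pow m hm0, ← u2a_pow d hd0]
    split_ifs with hbad
    · have h2 : 1 ≤ A * (m : ℝ) ^ sg v / (d : ℝ) ^ t := by
        rw [hAv]
        apply Real.one_le_exp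
        have h3 : (t : ℝ) * lam ≤ c1 * u * lam := mul_le_mul_of_nonneg_right ht1 hlam0.le
        have h4 : c1 * (lam + μ) * u ≤ 1 * u := mul_le_mul_of_nonneg_right (by linarith) hu0
        have h5 : 0 ≤ c1 * μ * u := by positivity
        have h6 : 0 ≤ (sg v : ℝ) * μ := by positivity
        have h7 : c1 * (lam + μ) * u = c1 * u * lam + c1 * μ * u := by ring
        linarith
      have := fd_le_two (Rt d m r z y) h2
      linarith
    · push Not at hbad
      have h2 : fd (Rt d m r z y) (A * (m : ℝ) ^ sg v / (d : ℝ) ^ t) ≤ η / 3 := by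
        refine hP _ (by positivity) ?_
        rw [hAv, Real.exp_le_exp]
        have h3 : (sg v : ℝ) * μ ≤ (1 - 1 / (d : ℝ) + δ) * t * μ :=
          mul_le_mul_of_nonneg_right hbad hμ0.le
        have h4 : (1 - 1 / (d : ℝ) + δ) * t * μ = t * lam - g / 2 * t := by
          have : (1 - 1 / (d : ℝ)) * μ = lam - g := by rw [hgeq]; ring
          linear_combination (t : ℝ) * this + (t : ℝ) * hδμ
        have h5 : g / 2 * (c1 * u - 1) ≤ g / 2 * t :=
          mul_le_mul_of_nonneg_left ht2.le (by positivity)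
        have h6 : u * (1 - c1 * g / 2) ≤ ρ * x * L * (1 - c1 * g / 2) :=
          mul_le_mul_of_nonneg_right hu3 (by linarith)
        have h7 : ρ * x * L * (1 - c1 * g / 2) =
            x * L - (1 - ρ * (1 - c1 * g / 2)) * x * L := by ring
        have h8 : u * (1 - c1 * g / 2) = u - g / 2 * (c1 * u - 1) - g / 2 := by ring
        linarith
      linarith
  have hbad := u2a_bad hd hδ0 ht4
  -- conclusion
  have hx1 : (∑ v ∈ W d t, fd (pre d m r t (Rt d m r z y))
      (A * (m : ℝ) ^ sg v / (d : ℝ) ^ t)) / (d : ℝ) ^ t ≤ η / 3 + 2 * (1 / (δ ^ 2 * t)) := by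
    rw [div_le_iff₀ hdt]
    have e : (η / 3 + 2 * (1 / (δ ^ 2 * t))) * (d : ℝ) ^ t =
        (d : ℝ) ^ t * (η / 3) + 2 * ((d : ℝ) ^ t * (1 / (δ ^ 2 * t))) := by ring
    rw [e]
    linarith
  have hx2 : 2 * (1 / (δ ^ 2 * t)) ≤ η / 3 := by
    have h2 : 6 * (1 / (δ ^ 2 * η)) ≤ t := by linarith
    rw [mul_one_div, div_le_iff₀ (by positivity)] at h2
    rw [mul_one_div, div_le_div_iff₀ (by positivity) (by norm_num)]
    have h3 : (t : ℝ) * (δ ^ 2 * η) = η * (δ ^ 2 * t) := by ring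
    linarith
  have hx3 : C / (t : ℝ) ^ 8 ≤ η / 3 := by
    have h2 : 3 * C / η ≤ t := by linarith
    rw [div_le_iff₀ hη] at h2
    have h3 : (t : ℝ) ≤ (t : ℝ) ^ 8 := le_self_pow₀ ht4R (by norm_num)
    rw [div_le_div_iff₀ (by positivity) (by norm_num)]
    have h4 : (t : ℝ) * η ≤ (t : ℝ) ^ 8 * η := mul_le_mul_of_nonneg_right h3 hη.le
    linarith
  linarith

theorem u2a (hd : 2 ≤ d) (hdm : d < m) (hco : Nat.Coprime m d) (hr : Admissible d m r)
    (hg : 0 < gam d m) (hmix : Mixing d m r) {θ κ η : ℝ} (hθ : 0 < θ) (hθ1 : θ < 1) (hκ : 0 < κ)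
    (hκ1 : κ < 1) (hη : 0 < η) :
    ∃ y0 : ℕ, ∀ y : ℕ, y0 ≤ y → ∀ A : ℝ, 0 < A → A ≤ (y : ℝ) ^ (1 - κ) →
      fd (Rt d m r ((y : ℝ) ^ θ) y) A ≤ η := by
  obtain ⟨θ1, hθθ1, hbase⟩ := u2a_base hd hdm hco hr hg hθ hθ1
  obtain ⟨ρ, hρ, hstep⟩ := u2a_step hd hdm hco hr hg hmix hθ hκ hκ1 hθθ1
  have hmonoP : ∀ x x' : ℝ, x' ≤ x → U2aP d m r θ x → U2aP d m r θ x' := by
    intro x x' hxx hP ε hε
    obtain ⟨L0, h⟩ := hP ε hε
    refine ⟨max L0 0, fun y hy hL A hA hAy => h y hy ((le_max_left _ _).trans hL) A hA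
      (hAy.trans ?_)⟩
    rw [Real.exp_le_exp]
    exact mul_le_mul_of_nonneg_right hxx ((le_max_right _ _).trans hL)
  have hθ10 : 0 < θ1 := by linarith
  have hiter : ∀ k : ℕ, U2aP d m r θ (min (ρ ^ k * θ1) (1 - κ)) := by
    intro k
    induction k with
    | zero =>
      apply hmonoP θ1 _ _ hbase
      rw [pow_zero, one_mul]
      exact min_le_left _ _
    | succ k ih =>
      rcases le_or_gt (ρ ^ k * θ1) (1 - κ) with h | h
      · rw [min_eq_left h] at ih
        have h1 := hstep (ρ ^ k * θ1) (le_mul_of_one_le_left hθ10.le (one_le_pow₀ hρ.le)) ih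
        rw [show ρ ^ (k + 1) * θ1 = ρ * (ρ ^ k * θ1) by ring]
        exact h1
      · rw [min_eq_right h.le] at ih
        exact hmonoP _ _ (min_le_right _ _) ih
  obtain ⟨k, hk⟩ := pow_unbounded_of_one_lt ((1 - κ) / θ1) hρ
  rw [div_lt_iff₀ hθ10] at hk
  have hfin := hiter k
  rw [min_eq_right hk.le] at hfin
  obtain ⟨L0, h⟩ := hfin η hη
  refine ⟨max 1 ⌈Real.exp L0⌉₊, ?_⟩
  intro y hy A hA hAy
  have hy1 : 1 ≤ y := (le_max_left _ _).trans hy
  have hy0 : (0 : ℝ) < y := by exact_mod_cast hy1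
  have hyL : L0 ≤ Real.log y := by
    rw [Real.le_log_iff_exp_le hy0]
    refine (Nat.le_ceil _).trans ?_
    exact_mod_cast (le_max_right _ _).trans hy
  have e1 : (y : ℝ) ^ θ = Real.exp (θ * Real.log y) := by
    rw [Real.rpow_def_of_pos hy0, mul_comm]
  have e2 : (y : ℝ) ^ (1 - κ) = Real.exp ((1 - κ) * Real.log y) := by
    rw [Real.rpow_def_of_pos hy0, mul_comm]
  rw [e1]
  rw [e2] at hAy
  exact h y hy1 hyL A hA hAy

end Pool.Agent.Helper91.PL
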