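import Pool.Agent.Helper91.PL.U2a

/-!
# Block PL-U2b: no return to `y` after the time `6 N`

`N = Ny d m y`, `t = 3 N`, `R = Rt (y ^ θ) y`, `g = gam d m`, `μ = log m`, `q = 1 - 1 / d`. By `flowg`
(`C (d m) ^ (8 t) = C (d m) ^ (24 N) ≤ y ≤ A` by `ny_big`)
`fd (pre (t + t) R) A ≤ (∑_v fd (pre t R) A_v) / d ^ t + C / t ^ 8`, `A_v = A m ^ sg v / d ^ t`.
As `A_v ≥ y / d ^ t ≥ (2 d) ^ t (y ^ θ + 1 + B₀)` (`θ ≤ 1 / 2`, `(d m) ^ (100 N) ≤ y`), the `n ∈ [A_v, 2 A_v)` have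
`T^i n ≥ y ^ θ` for `i ≤ t` (`iter_gt`), so `T^t n ∈ R` implies `n ∈ R`, i.e. `fd (pre t R) A_v ≤ fd R A_v`.
If `sg v ≤ (q + g / (8 μ)) t`, then `log A_v ≤ log A - (7 / 8) g t ≤ log y + 2 g N + 1 - (21 / 8) g N ≤
(1 - κ) log y` for a suitable `κ = κ(d, m) > 0` and `y` large (`N ≥ log y / (200 log (d m)) - 1`), so
`fd R A_v` is small by `u2a`. The other `v` contribute `≤ 2 cW d t (sg v > (q + g / (8 μ)) t) / d ^ t → 0`
(`chebyshev`, `fd_le_two`).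
-/

set_option autoImplicit false

namespace Pool.Agent.Helper91.PL

open Pool.Agent.Helper68.Moeller Pool.Agent.Helper52.Tao Pool.Agent.Helper8.ND
  Pool.Agent.Helper8.CL Filter Topology

variable {d m : ℕ} {r : ℤ → ℤ}

theorem u2b_fd_mono {G H : Set ℤ} {a : ℝ} (ha : 0 < a) (h : ∀ n : ℤ, a ≤ n → n ∈ G → n ∈ H) :
    fd G a ≤ fd H a := by
  unfold fd
  have h1 : {n : ℤ | a ≤ n ∧ (n : ℝ) < 2 * a ∧ n ∈ G} ⊆
      {n : ℤ | a ≤ n ∧ (n : ℝ) < 2 * a ∧ n ∈ H} := fun n hn => ⟨hn.1, hn.2.1, h n hn.1 hn.2.2⟩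
  have h2 : {n : ℤ | a ≤ n ∧ (n : ℝ) < 2 * a ∧ n ∈ H}.Finite :=
    (finite_Ico a (2 * a)).subset fun n hn => ⟨hn.1, hn.2.1⟩
  have h3 : (({n : ℤ | a ≤ n ∧ (n : ℝ) < 2 * a ∧ n ∈ G}.ncard : ℕ) : ℝ) ≤
      (({n : ℤ | a ≤ n ∧ (n : ℝ) < 2 * a ∧ n ∈ H}.ncard : ℕ) : ℝ) := by
    exact_mod_cast Set.ncard_le_ncard h1 h2
  gcongr

/-- no passage below `z` in the first `t` steps: `T^t n ∈ R` implies `n ∈ R`. -/
theorem u2b_mem (hd : 2 ≤ d) (hm : 1 ≤ m) (hr : Admissible d m r) {B : ℕ}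
    (hB : ∀ j : ℤ, 0 < j → j < (d : ℤ) → |r j| ≤ B) {z y : ℝ} (hz : 0 ≤ z) {t : ℕ} {n : ℤ}
    (hn : (2 * (d : ℝ)) ^ t * (z + 1 + B) ≤ n) (h : (T d m r)^[t] n ∈ Rt d m r z y) :
    n ∈ Rt d m r z y := by
  have hB0 : (0 : ℝ) ≤ B := by positivity
  have hit := iter_gt hd hm hr hB (z := z) (Z := z + 1 + B) (by linarith) (by linarith)
    (by linarith) t n hn
  obtain ⟨j, hj1, hj2⟩ := h
  refine ⟨j + t, ?_, fun i hi => ?_⟩
  · rw [Function.iterate_add_apply]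
    exact hj1
  · rcases le_total i t with h1 | h1
    · exact (hit i h1).le
    · obtain ⟨i', rfl⟩ : ∃ i', i = i' + t := ⟨i - t, by omega⟩
      rw [Function.iterate_add_apply]
      exact hj2 i' (by omega)

theorem u2b_flow (hd : 2 ≤ d) (hdm : d < m) (hr : Admissible d m r) {B : ℕ}
    (hB : ∀ j : ℤ, 0 < j → j < (d : ℤ) → |r j| ≤ B) {C : ℝ}
    (hflow : ∀ t : ℕ, 1 ≤ t → ∀ a : ℝ, C * ((d : ℝ) * m) ^ (8 * t) ≤ a → ∀ G : Set ℤ,
        |fd (pre d m r (t + t) G) a -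
          (∑ v ∈ W d t, fd (pre d m r t G) (a * (m : ℝ) ^ sg v / (d : ℝ) ^ t)) / (d : ℝ) ^ t| ≤
          C / (t : ℝ) ^ 8)
    {z y A η₁ L : ℝ} (hz : 0 ≤ z) {t : ℕ} (ht : 1 ≤ t) (hA : C * ((d : ℝ) * m) ^ (8 * t) ≤ A)
    (hA2 : (d : ℝ) ^ t * ((2 * (d : ℝ)) ^ t * (z + 1 + B)) ≤ A) (hη₁ : 0 ≤ η₁)
    (hL : 0 < L) (hAL : ∀ s : ℕ, (s : ℝ) ≤ (1 - 1 / (d : ℝ)) * t + L →
      fd (Rt d m r z y) (A * (m : ℝ) ^ s / (d : ℝ) ^ t) ≤ η₁) :
    fd (pre d m r (t + t) (Rt d m r z y)) A ≤ η₁ + 2 * (t / L ^ 2) + C / (t : ℝ) ^ 8 := by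
  classical
  have hm1 : 1 ≤ m := by omega
  have hd0 : (0 : ℝ) < d := by exact_mod_cast (by omega : 0 < d)
  have hd1 : (1 : ℝ) ≤ d := by exact_mod_cast (by omega : 1 ≤ d)
  have hmR : (1 : ℝ) ≤ m := by exact_mod_cast hm1
  have hdt : (0 : ℝ) < (d : ℝ) ^ t := by positivity
  have hB0 : (0 : ℝ) ≤ B := by positivity
  have h2d : (1 : ℝ) ≤ (2 * (d : ℝ)) ^ t := one_le_pow₀ (by linarith)
  have h1 := (abs_le.1 (hflow t ht A hA (Rt d m r z y))).2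
  have hAv : ∀ s : ℕ, (2 * (d : ℝ)) ^ t * (z + 1 + B) ≤ A * (m : ℝ) ^ s / (d : ℝ) ^ t := by
    intro s
    rw [le_div_iff₀ hdt]
    have h2 : (1 : ℝ) ≤ (m : ℝ) ^ s := one_le_pow₀ hmR
    have hA0 : 0 ≤ A := le_trans (by positivity) hA2
    nlinarith
  have h3 : ∀ v ∈ W d t, fd (pre d m r t (Rt d m r z y)) (A * (m : ℝ) ^ sg v / (d : ℝ) ^ t) ≤
      η₁ + 2 * (if L < |(sg v : ℝ) - (1 - 1 / (d : ℝ)) * t| then (1 : ℝ) else 0) := by
    intro v _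
    have h4 := hAv (sg v)
    have h5 : (1 : ℝ) ≤ A * (m : ℝ) ^ sg v / (d : ℝ) ^ t := by
      refine le_trans ?_ h4
      nlinarith
    split_ifs with hc
    · have := fd_le_two (pre d m r t (Rt d m r z y)) h5
      linarith
    · have h6 := (abs_le.1 (not_lt.1 hc)).2
      have h7 := hAL (sg v) (by linarith)
      have h8 : fd (pre d m r t (Rt d m r z y)) (A * (m : ℝ) ^ sg v / (d : ℝ) ^ t) ≤
          fd (Rt d m r z y) (A * (m : ℝ) ^ sg v / (d : ℝ) ^ t) := by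
        refine u2b_fd_mono (by linarith) fun n hn hmem => ?_
        exact u2b_mem hd hm1 hr hB hz (h4.trans hn) hmem
      linarith
  have h9 := Finset.sum_le_sum h3
  rw [Finset.sum_add_distrib, Finset.sum_const, card_W, nsmul_eq_mul, ← Finset.mul_sum,
    ← cW_eq_sum] at h9
  push_cast at h9
  have h10 := chebyshev hd t hL
  have h11 : (∑ v ∈ W d t, fd (pre d m r t (Rt d m r z y))
      (A * (m : ℝ) ^ sg v / (d : ℝ) ^ t)) / (d : ℝ) ^ t ≤ η₁ + 2 * (t / L ^ 2) := by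
    rw [div_le_iff₀ hdt]
    linarith
  linarith

theorem u2b (hd : 2 ≤ d) (hdm : d < m) (hco : Nat.Coprime m d) (hr : Admissible d m r)
    (hg : 0 < gam d m) (hmix : Mixing d m r) {θ η : ℝ} (hθ : 0 < θ) (hθ1 : θ ≤ 1 / 2)
    (hη : 0 < η) :
    ∃ y0 : ℕ, ∀ y : ℕ, y0 ≤ y → ∀ A : ℝ, (y : ℝ) ≤ A → A ≤ hi d m y (Ny d m y) →
      fd (pre d m r (6 * Ny d m y) (Rt d m r ((y : ℝ) ^ θ) y)) A ≤ η := by
  obtain ⟨C, hC, hflow⟩ := flowg hd hdm hco hr hmix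
  obtain ⟨B, hB⟩ := FL_exists_B d r
  have hd2 : (2 : ℝ) ≤ d := by exact_mod_cast hd
  have hm3 : (3 : ℝ) ≤ m := by exact_mod_cast (by omega : 3 ≤ m)
  have hLp := log_dm_pos hd hdm
  have hμ : 0 < Real.log m := Real.log_pos (by linarith)
  have hlam : 0 < Real.log d := Real.log_pos (by linarith)
  set g := gam d m with hgdef
  set Λ := Real.log ((d : ℝ) * m) with hΛ
  have hΛ' : Λ = Real.log d + Real.log m := Real.log_mul (by positivity) (by positivity)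
  have hq0 : 0 ≤ 1 - 1 / (d : ℝ) := by
    have : 1 / (d : ℝ) ≤ 1 := by rw [div_le_one (by linarith)]; linarith
    linarith
  have hgl : g ≤ Real.log d := by
    have : 0 ≤ (1 - 1 / (d : ℝ)) * Real.log m := by positivity
    rw [hgdef, gam]; linarith
  set κ := g / (400 * Λ) with hκ
  have hκ0 : 0 < κ := by positivity
  have hκ1 : κ < 1 := by
    rw [hκ, div_lt_one (by positivity)]
    linarith
  obtain ⟨y1, hy1⟩ := u2a hd hdm hco hr hg hmix hθ (by linarith : θ < 1) hκ0 hκ1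
    (show 0 < η / 4 by positivity)
  have hdm1 : (1 : ℝ) < (d : ℝ) * m := by nlinarith
  have hNt : Tendsto (fun y : ℕ => Ny d m y) atTop atTop := ny_tendsto hd hdm
  have hpow : Tendsto (fun y : ℕ => ((d : ℝ) * m) ^ Ny d m y) atTop atTop :=
    (tendsto_pow_atTop_atTop_of_one_lt hdm1).comp hNt
  have hNR : Tendsto (fun y : ℕ => ((Ny d m y : ℕ) : ℝ)) atTop atTop :=
    tendsto_natCast_atTop_atTop.comp hNt
  have hlogy : Tendsto (fun y : ℕ => Real.log (y : ℝ)) atTop atTop :=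
    Real.tendsto_log_atTop.comp tendsto_natCast_atTop_atTop
  have hev : ∀ᶠ y : ℕ in atTop, y1 ≤ y ∧ 1 ≤ y ∧ 1 ≤ Ny d m y ∧ C ≤ ((d : ℝ) * m) ^ Ny d m y ∧
      (2 : ℝ) + B ≤ ((d : ℝ) * m) ^ Ny d m y ∧
      (128 * Real.log m ^ 2 / g ^ 2) / (η / 4) ≤ (Ny d m y : ℝ) ∧ C / (η / 4) ≤ (Ny d m y : ℝ) ∧
      (g + 1) / (g / (320 * Λ) - κ) ≤ Real.log (y : ℝ) := by
    filter_upwards [eventually_ge_atTop y1, eventually_ge_atTop 1, hNt.eventually_ge_atTop 1,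
      hpow.eventually_ge_atTop C, hpow.eventually_ge_atTop ((2 : ℝ) + B),
      hNR.eventually_ge_atTop ((128 * Real.log m ^ 2 / g ^ 2) / (η / 4)),
      hNR.eventually_ge_atTop (C / (η / 4)),
      hlogy.eventually_ge_atTop ((g + 1) / (g / (320 * Λ) - κ))] with y a1 a2 a3 a4 a5 a6 a7 a8
    exact ⟨a1, a2, a3, a4, a5, a6, a7, a8⟩
  obtain ⟨y0, hy0⟩ := eventually_atTop.1 hev
  refine ⟨y0, fun y hy A hyA hAh => ?_⟩
  obtain ⟨a1, a2, a3, a4, a5, a6, a7, a8⟩ := hy0 y hy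
  set N := Ny d m y with hN
  have hyR : (1 : ℝ) ≤ y := by exact_mod_cast a2
  have hy0' : (0 : ℝ) < y := by linarith
  have hN1 : (1 : ℝ) ≤ N := by exact_mod_cast a3
  have hN0 : (0 : ℝ) < N := by linarith
  have hbig : ((d : ℝ) * m) ^ (100 * N) ≤ y := ny_big hd hdm a2
  have hDM0 : (0 : ℝ) < (d : ℝ) * m := by linarith
  have hA0 : 0 < A := by linarith
  have ht : 6 * N = 3 * N + 3 * N := by ring
  rw [ht]
  set L : ℝ := g / (8 * Real.log m) * ((3 * N : ℕ) : ℝ) with hLdef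
  have hcast : ((3 * N : ℕ) : ℝ) = 3 * (N : ℝ) := by push_cast; ring
  have hL0 : 0 < L := by rw [hLdef, hcast]; positivity
  have hmain := u2b_flow hd hdm hr hB hflow (z := (y : ℝ) ^ θ) (y := (y : ℝ)) (A := A)
    (η₁ := η / 4) (L := L) (by positivity) (t := 3 * N) (by omega) ?_ ?_ (by positivity) hL0 ?_
  · -- conclusion
    refine hmain.trans ?_
    have h1 : 2 * (((3 * N : ℕ) : ℝ) / L ^ 2) ≤ η / 4 := by
      have h2 : 2 * (((3 * N : ℕ) : ℝ) / L ^ 2) = (128 * Real.log m ^ 2 / g ^ 2) / (3 * N) := by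
        rw [hLdef, hcast]
        field_simp
        ring
      rw [h2, div_le_iff₀ (by positivity)]
      rw [div_le_iff₀ (by positivity)] at a6
      nlinarith only [a6, hN0, hη, mul_pos hN0 hη]
    have h3 : C / ((3 * N : ℕ) : ℝ) ^ 8 ≤ η / 4 := by
      rw [hcast, div_le_iff₀ (by positivity)]
      rw [div_le_iff₀ (by positivity)] at a7
      have h4 : (N : ℝ) ≤ (3 * (N : ℝ)) ^ 8 := by
        calc (N : ℝ) ≤ 3 * N := by linarith
          _ = (3 * (N : ℝ)) ^ 1 := by ring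
          _ ≤ (3 * (N : ℝ)) ^ 8 := pow_le_pow_right₀ (by linarith) (by norm_num)
      nlinarith only [a7, h4, hη]
    linarith
  · -- `C (d m) ^ (24 N) ≤ A`
    calc C * ((d : ℝ) * m) ^ (8 * (3 * N)) ≤ ((d : ℝ) * m) ^ N * ((d : ℝ) * m) ^ (8 * (3 * N)) := by
          gcongr
      _ = ((d : ℝ) * m) ^ (25 * N) := by rw [← pow_add]; congr 1; ring
      _ ≤ ((d : ℝ) * m) ^ (100 * N) := pow_le_pow_right₀ hdm1.le (by omega)
      _ ≤ A := hbig.trans hyA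
  · -- `d ^ t (2 d) ^ t (y ^ θ + 1 + B) ≤ A`
    have h1 : (d : ℝ) ^ (3 * N) * (2 * (d : ℝ)) ^ (3 * N) ≤ ((d : ℝ) * m) ^ (6 * N) := by
      have h2 : (d : ℝ) * (2 * d) ≤ ((d : ℝ) * m) ^ 2 := by
        have h2a : (2 : ℝ) ≤ (m : ℝ) ^ 2 := by nlinarith only [hm3]
        calc (d : ℝ) * (2 * d) = (d : ℝ) ^ 2 * 2 := by ring
          _ ≤ (d : ℝ) ^ 2 * (m : ℝ) ^ 2 := by gcongr
          _ = _ := by ring
      calc (d : ℝ) ^ (3 * N) * (2 * (d : ℝ)) ^ (3 * N) = ((d : ℝ) * (2 * d)) ^ (3 * N) := by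
            rw [← mul_pow]
        _ ≤ (((d : ℝ) * m) ^ 2) ^ (3 * N) := by gcongr
        _ = _ := by rw [← pow_mul]; congr 1; ring
    have h3 : (y : ℝ) ^ θ + 1 + B ≤ ((d : ℝ) * m) ^ N * (y : ℝ) ^ (1 / 2 : ℝ) := by
      have h4 : (y : ℝ) ^ θ ≤ (y : ℝ) ^ (1 / 2 : ℝ) := Real.rpow_le_rpow_of_exponent_le hyR hθ1
      have h5 : (1 : ℝ) ≤ (y : ℝ) ^ (1 / 2 : ℝ) := Real.one_le_rpow hyR (by norm_num)
      have hB0 : (0 : ℝ) ≤ B := by positivity
      calc (y : ℝ) ^ θ + 1 + B ≤ ((2 : ℝ) + B) * (y : ℝ) ^ (1 / 2 : ℝ) := by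
            nlinarith only [h4, h5, hB0]
        _ ≤ _ := by gcongr
    have h6 : ((d : ℝ) * m) ^ (7 * N) ≤ (y : ℝ) ^ (1 / 2 : ℝ) := by
      rw [← Real.sqrt_eq_rpow]
      refine Real.le_sqrt_of_sq_le ?_
      rw [← pow_mul]
      exact (pow_le_pow_right₀ hdm1.le (by omega)).trans hbig
    calc (d : ℝ) ^ (3 * N) * ((2 * (d : ℝ)) ^ (3 * N) * ((y : ℝ) ^ θ + 1 + B))
        = ((d : ℝ) ^ (3 * N) * (2 * (d : ℝ)) ^ (3 * N)) * ((y : ℝ) ^ θ + 1 + B) := by ring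
      _ ≤ ((d : ℝ) * m) ^ (6 * N) * (((d : ℝ) * m) ^ N * (y : ℝ) ^ (1 / 2 : ℝ)) := by
          gcongr
      _ = ((d : ℝ) * m) ^ (7 * N) * (y : ℝ) ^ (1 / 2 : ℝ) := by
          rw [← mul_assoc, ← pow_add]; congr 2; ring
      _ ≤ (y : ℝ) ^ (1 / 2 : ℝ) * (y : ℝ) ^ (1 / 2 : ℝ) := by gcongr
      _ = y := by rw [← Real.rpow_add hy0']; norm_num
      _ ≤ A := hyA
  · -- the good words
    intro s hs
    refine hy1 y a1 _ (by positivity) ?_
    rw [← Real.log_le_log_iff (by positivity) (by positivity), Real.log_rpow hy0',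
      Real.log_div (by positivity) (by positivity), Real.log_mul hA0.ne' (by positivity),
      Real.log_pow, Real.log_pow]
    have h1 : (s : ℝ) * Real.log m ≤ ((1 - 1 / (d : ℝ)) * ((3 * N : ℕ) : ℝ) + L) * Real.log m := by
      gcongr
    have h2 : L * Real.log m = g / 8 * ((3 * N : ℕ) : ℝ) := by
      rw [hLdef]; field_simp
    have h3 : g = Real.log d - (1 - 1 / (d : ℝ)) * Real.log m := rfl
    -- `log A`
    have h4 : Real.log A ≤ Real.log y + 2 * (g * N) + 1 := by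
      have h5 : A ≤ Real.exp (Real.log y + 2 * (g * N) + 1) := by
        have h6 : (1 : ℝ) ≤ (y : ℝ) * Real.exp (2 * (g * N)) := by
          have : 1 ≤ Real.exp (2 * (g * N)) := Real.one_le_exp (by positivity)
          nlinarith only [this, hyR]
        have h7 : A ≤ (y : ℝ) * Real.exp (2 * (g * N)) + 1 := by
          refine hAh.trans ?_
          unfold hi
          exact (Nat.ceil_lt_add_one (by positivity)).le
        have h8 : (2 : ℝ) ≤ Real.exp 1 := by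
          have := Real.add_one_le_exp (1 : ℝ)
          linarith
        rw [Real.exp_add, Real.exp_add, Real.exp_log hy0']
        nlinarith only [h6, h7, h8]
      exact (Real.log_le_iff_le_exp hA0).2 h5
    -- lower bound of `N`
    have h9 : Real.log y / (200 * Λ) - 1 ≤ (N : ℝ) := by
      have := Nat.lt_floor_add_one (Real.log y / (200 * Λ))
      rw [hN, Ny]
      linarith
    have hden : 0 < g / (320 * Λ) - κ := by
      rw [hκ]
      have : g / (400 * Λ) < g / (320 * Λ) := by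
        apply div_lt_div_of_pos_left hg (by positivity)
        linarith
      linarith
    rw [div_le_iff₀ hden] at a8
    have h10 : g / (320 * Λ) * Real.log y = 5 / 8 * g * (Real.log y / (200 * Λ)) := by
      field_simp
      ring
    have h11 : 5 / 8 * g * (Real.log y / (200 * Λ) - 1) ≤ 5 / 8 * g * (N : ℝ) := by
      gcongr
    rw [hcast] at h1 h2 ⊢
    have h12 : (s : ℝ) * Real.log m ≤
        (1 - 1 / (d : ℝ)) * (3 * N) * Real.log m + g / 8 * (3 * N) := by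
      calc _ ≤ _ := h1
        _ = (1 - 1 / (d : ℝ)) * (3 * N) * Real.log m + L * Real.log m := by ring
        _ = _ := by rw [h2]
    have h13 : (1 - 1 / (d : ℝ)) * (3 * N) * Real.log m = (Real.log d - g) * (3 * N) := by
      rw [h3]; ring
    have h14 : ((3 * N : ℕ) : ℝ) = 3 * (N : ℝ) := hcast
    have h15 : (s : ℝ) * Real.log m ≤ 3 * (N * Real.log d) - 3 * (g * N) + 3 / 8 * (g * N) := by
      linarith
    have h16 : 5 / 8 * g * (Real.log y / (200 * Λ)) - 5 / 8 * g ≤ 5 / 8 * (g * N) := by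
      linarith
    have h17 : g + 1 ≤ g / (320 * Λ) * Real.log y - κ * Real.log y := by
      linarith
    linarith

end Pool.Agent.Helper91.PL
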