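import Pool.Agent.Helper91.PL.BAD
import Pool.Agent.Helper91.PL.SMB
import Pool.Agent.Helper91.PL.P2U

/-!
# Block PL-UPP: upper bound for the sum of the densities
-/

set_option autoImplicit false

namespace Pool.Agent.Helper91.PL

open Pool.Agent.Helper68.Moeller Pool.Agent.Helper52.Tao Pool.Agent.Helper8.ND
  Pool.Agent.Helper8.CL Filter Topology

variable {d m : ℕ} {r : ℤ → ℤ}

theorem le_lo (hg : 0 < gam d m) (y N : ℕ) : (y : ℝ) ≤ lo d m y N := by
  refine le_trans ?_ (Nat.le_ceil _)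
  exact le_mul_of_one_le_right (by positivity) (Real.one_le_exp (by positivity))

open Classical in
/-- The number of hits is bounded by the number of visits before `τ`, unless the orbit returns. -/
theorem hits_le {y τ J : ℕ} {θ : ℝ} {B : Finset ℤ} (hB : B ⊆ Yw y)
    (h1 : ∀ n : ℤ, hits d m r B n ≤ J)
    (h2 : ∀ b ∈ B, ∀ (n : ℤ) (τ t : ℕ), τ ≤ t → (T d m r)^[t] n = b →
      (T d m r)^[τ] n ∈ Rt d m r ((y : ℝ) ^ θ) y) (n : ℤ) :
    (hits d m r B n : ℝ) ≤ (vis d m r τ (Yw y) n : ℝ) +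
      J * (pre d m r τ (Rt d m r ((y : ℝ) ^ θ) y)).indicator (fun _ => 1) n := by
  by_cases h : (T d m r)^[τ] n ∈ Rt d m r ((y : ℝ) ^ θ) y
  · have h3 : n ∈ pre d m r τ (Rt d m r ((y : ℝ) ^ θ) y) := h
    rw [Set.indicator_of_mem h3, mul_one]
    have h4 : (hits d m r B n : ℝ) ≤ J := by exact_mod_cast h1 n
    have h5 : (0 : ℝ) ≤ vis d m r τ (Yw y) n := by positivity
    linarith
  · have h3 : n ∉ pre d m r τ (Rt d m r ((y : ℝ) ^ θ) y) := h
    rw [Set.indicator_of_notMem h3, mul_zero, add_zero]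
    have h4 : hits d m r B n ≤ vis d m r τ (Yw y) n := by
      unfold hits vis
      have h5 : B.filter (fun b => n ∈ Pr d m r b) ⊆
          ((Finset.range τ).filter (fun t => (T d m r)^[t] n ∈ Yw y)).image
            (fun t => (T d m r)^[t] n) := by
        intro b hb
        rw [Finset.mem_filter] at hb
        obtain ⟨hbB, t, ht⟩ := hb
        rw [Finset.mem_image]
        refine ⟨t, ?_, ht⟩
        rw [Finset.mem_filter, Finset.mem_range]
        refine ⟨?_, by rw [ht]; exact hB hbB⟩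
        by_contra hcon
        push Not at hcon
        exact h (h2 b hbB n τ t hcon ht)
      exact (Finset.card_le_card h5).trans Finset.card_image_le
    exact_mod_cast h4

theorem upp (hd : 2 ≤ d) (hdm : d < m) (hco : Nat.Coprime m d)
    (hm : (m : ℝ) ≤ (d : ℝ) ^ ((d : ℝ) / ((d : ℝ) - 1))) (hr : Admissible d m r)
    (hg : 0 < gam d m) (hmix : Mixing d m r) {ε : ℝ} (hε : 0 < ε) :
    ∃ y0 : ℕ, ∀ y : ℕ, y0 ≤ y → ∃ Bad : Finset ℤ, Bad ⊆ Yw y ∧ (Bad.card : ℝ) ≤ ε * y ∧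
      (∀ b ∈ Yw y \ Bad, ¬ Per d m r b) ∧
      gam d m * ∑ b ∈ Yw y \ Bad, dens (Pr d m r b) ≤ Real.log 2 + ε := by
  classical
  obtain ⟨θ, hθ0, hθ1, hbad⟩ := bad hd hdm hco hm hr hg hmix
  set ε' := min ε 1 with hε'
  have hε0 : 0 < ε' := lt_min hε one_pos
  have hε1 : ε' ≤ 1 := min_le_right _ _
  have hεε : ε' ≤ ε := min_le_left _ _
  obtain ⟨J, hJ, y1, hy1⟩ := hbad ε' hε0
  have hJ1 : (1 : ℝ) ≤ J := by exact_mod_cast hJ
  have hJ0 : (0 : ℝ) < J := by linarith
  set g := gam d m with hgdef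
  set η := ε' / (8 * g * J) with hη
  have hη0 : 0 < η := by positivity
  have hgJη : g * (J * η) = ε' / 8 := by rw [hη]; field_simp
  obtain ⟨y2, hst⟩ := stab_y hd hdm hco hr hg hmix hη0
  obtain ⟨y3, hu2⟩ := u2b hd hdm hco hr hg hmix hθ0 hθ1 hη0
  obtain ⟨N2, hp2⟩ := p2_up hd hdm hco hr hg (by positivity : 0 < ε' / 4)
  obtain ⟨N4, hN4⟩ := exists_nat_ge ((4 / ε' + 1) / g)
  obtain ⟨y4, hy4⟩ := ny_ge hd hdm (max N2 N4)
  refine ⟨max (max y1 y2) (max (max y3 y4) 1), fun y hy => ?_⟩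
  have hyy1 : y1 ≤ y := (le_max_left _ _).trans ((le_max_left _ _).trans hy)
  have hyy2 : y2 ≤ y := (le_max_right _ _).trans ((le_max_left _ _).trans hy)
  have hyy3 : y3 ≤ y :=
    (le_max_left _ _).trans ((le_max_left _ _).trans ((le_max_right _ _).trans hy))
  have hyy4 : y4 ≤ y :=
    (le_max_right _ _).trans ((le_max_left _ _).trans ((le_max_right _ _).trans hy))
  have hy1' : 1 ≤ y := (le_max_right _ _).trans ((le_max_right _ _).trans hy)
  obtain ⟨Bad, hB1, hB2, hB3, hB4, hB5⟩ := hy1 y hyy1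
  have hy0 : (0 : ℝ) ≤ y := by positivity
  refine ⟨Bad, hB1, hB2.trans (mul_le_mul_of_nonneg_right hεε hy0), hB3, ?_⟩
  set B := Yw y \ Bad with hBdef
  have hBY : B ⊆ Yw y := Finset.sdiff_subset
  set N := Ny d m y with hN
  have hNN := hy4 y hyy4
  have hN2 : N2 ≤ N := (le_max_left _ _).trans hNN
  have hN4' : (N4 : ℝ) ≤ N := by exact_mod_cast (le_max_right _ _).trans hNN
  have hbig := ny_big hd hdm (m := m) hy1'
  rw [← hN] at hbig
  have hP2 := hp2 N hN2 y hbig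
  obtain ⟨hM1, hM2⟩ := mass_bounds (m := m) hg hy1' N
  have hlo := le_lo (m := m) hg y N
  have hlo1 := lo_pos (d := d) (m := m) hy1' N
  set A0 := lo d m y N with hA0
  set A1 := hi d m y N with hA1
  set Λ := mass A0 A1 with hΛ
  rw [← hgdef] at hM1 hM2
  have hΛbig : 4 / ε' ≤ Λ := by
    have h4 : 4 / ε' + 1 ≤ g * N := by
      have h5 := hN4.trans hN4'
      rw [div_le_iff₀ hg] at h5
      linarith
    linarith
  have hΛ0 : 0 < Λ := lt_of_lt_of_le (by positivity) hΛbig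
  have hsum := sum_dens_le hd hdm hco hr hg hmix hBY hB4
  set D := ∑ b ∈ B, dens (Pr d m r b) with hD
  have hcmp : ∀ j ∈ Finset.range J, dens {n | j + 1 ≤ hits d m r B n} * Λ ≤
      sm A0 A1 ({n | j + 1 ≤ hits d m r B n}.indicator fun _ => 1) + η * Λ := by
    intro j _
    have h5 := dens_sub_sm (A1 := A1) hlo1
      (fun A hA => hst y hyy2 _ (hits_inv hBY (j + 1)) A hA)
    have h6 := (abs_le.1 h5).1
    linarith
  have hcmp' := Finset.sum_le_sum hcmp
  rw [Finset.sum_add_distrib, sum_sm_hits, Finset.sum_const, Finset.card_range, nsmul_eq_mul,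
    ← Finset.sum_mul] at hcmp'
  -- the bound of the hits
  have hpt : ∀ n : ℤ, ((min (hits d m r B n) J : ℕ) : ℝ) ≤ (vis d m r (6 * N) (Yw y) n : ℝ) +
      J * (pre d m r (6 * N) (Rt d m r ((y : ℝ) ^ θ) y)).indicator (fun _ => 1) n := by
    intro n
    refine le_trans ?_ (hits_le hBY hB4 hB5 n)
    exact_mod_cast min_le_left _ _
  have hsm := sm_mono (A0 := A0) (A1 := A1) hpt
  rw [sm_add, sm_mul] at hsm
  have hret : sm A0 A1 ((pre d m r (6 * N) (Rt d m r ((y : ℝ) ^ θ) y)).indicator fun _ => 1) ≤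
      η * Λ := by
    rw [sm_indicator hlo1, hΛ, mass, Finset.mul_sum]
    refine Finset.sum_le_sum fun A hA => ?_
    rw [Finset.mem_Ico] at hA
    have hA0' : (0 : ℝ) < A := by exact_mod_cast (by omega : 0 < A)
    rw [mul_one_div]
    refine div_le_div_of_nonneg_right ?_ hA0'.le
    refine hu2 y hyy3 A ?_ ?_
    · exact hlo.trans (by exact_mod_cast hA.1)
    · exact_mod_cast hA.2.le
  have hret' : sm A0 A1 (fun n =>
      (pre d m r (6 * N) (Rt d m r ((y : ℝ) ^ θ) y)).indicator (fun _ => 1) n) ≤ η * Λ := hret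
  have hJret := mul_le_mul_of_nonneg_left hret' hJ0.le
  have hDΛ : D * Λ ≤ (∑ j ∈ Finset.range J, dens {n | j + 1 ≤ hits d m r B n}) * Λ :=
    mul_le_mul_of_nonneg_right hsum hΛ0.le
  have hX : D * Λ ≤ N * (Real.log 2 + ε' / 4) + 2 * (J * (η * Λ)) := by linarith
  have hX2 : g * D * Λ ≤ g * N * (Real.log 2 + ε' / 4) + ε' / 4 * Λ := by
    have h5 := mul_le_mul_of_nonneg_left hX hg.le
    have e1 : g * (N * (Real.log 2 + ε' / 4) + 2 * (J * (η * Λ))) =
        g * N * (Real.log 2 + ε' / 4) + 2 * (g * (J * η)) * Λ := by ring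
    rw [e1, hgJη] at h5
    linarith
  have hlog0 : 0 < Real.log 2 := Real.log_pos (by norm_num)
  have hlog1 : Real.log 2 ≤ 1 := by
    have := Real.log_two_lt_d9
    linarith
  have hX3 : g * N * (Real.log 2 + ε' / 4) ≤ (Λ + 1) * (Real.log 2 + ε' / 4) :=
    mul_le_mul_of_nonneg_right (by linarith) (by positivity)
  have hX4 : 2 ≤ Λ * (ε' / 2) := by
    rw [div_le_iff₀ hε0] at hΛbig
    linarith
  have hX5 : g * D * Λ ≤ (Real.log 2 + ε') * Λ := by
    have e1 : (Real.log 2 + ε') * Λ = (Λ + 1) * (Real.log 2 + ε' / 4) + ε' / 4 * Λ +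
        Λ * (ε' / 2) - (Real.log 2 + ε' / 4) := by ring
    rw [e1]
    linarith
  have hX6 := le_of_mul_le_mul_right hX5 hΛ0
  linarith

end Pool.Agent.Helper91.PL
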